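import Pool.Agent.J4.H33.CS.Defs

/-!
# Piece C1 of project CS: the products of `a` elements of `P` in one class

Proof by helper7.
-/

set_option autoImplicit false

namespace Pool.Agent.J4.H33.CS

open Finset
open scoped Classical
open Pool.Agent.R311.RES (hzv ann L_half hzv_re orth card_mul sum_units chi_inv SG_half SG_summable
  G_half sqrt_step hurwitz_lower)
open ArithmeticFunction (cardFactors)

namespace C1

/-- the number of ordered factorisations -/
theorem count_le (r : ℕ) (n : ℕ) : n ≠ 0 →
    ((Fintype.piFinset (fun _ : Fin r => n.divisors)).filter (fun l => ∏ i, l i = n)).card ≤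
      r ^ cardFactors n := by
  induction n using induction_on_primes with
  | zero => intro h; exact absurd rfl h
  | one =>
    intro _
    simp only [Nat.divisors_one, ArithmeticFunction.cardFactors_one, pow_zero]
    refine (card_filter_le _ _).trans ?_
    rw [Fintype.card_piFinset]
    simp
  | prime_mul p a hp ih =>
    intro h0
    have ha : a ≠ 0 := fun h => h0 (by rw [h, mul_zero])
    rw [ArithmeticFunction.cardFactors_mul hp.ne_zero ha,
      ArithmeticFunction.cardFactors_apply_prime hp, pow_add, pow_one]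
    have hsub : ((Fintype.piFinset (fun _ : Fin r => (p * a).divisors)).filter
        (fun l => ∏ i, l i = p * a)) ⊆
        ((univ : Finset (Fin r)) ×ˢ ((Fintype.piFinset (fun _ : Fin r => a.divisors)).filter
          (fun l => ∏ i, l i = a))).image
          (fun il => Function.update il.2 il.1 (p * il.2 il.1)) := by
      intro l hl
      rw [mem_filter] at hl
      have hd : p ∣ ∏ i, l i := by rw [hl.2]; exact dvd_mul_right _ _
      obtain ⟨i, -, hi⟩ := (Nat.Prime.prime hp).exists_mem_finset_dvd hd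
      obtain ⟨b, hb⟩ := hi
      have hprod : ∏ j, Function.update l i b j = a := by
        have h1 : ∏ j, l j = l i * ∏ j ∈ univ \ {i}, l j :=
          Finset.prod_eq_mul_prod_sdiff_singleton_of_mem (mem_univ i) l
        rw [Finset.prod_update_of_mem (mem_univ i)]
        have h2 : p * (b * ∏ j ∈ univ \ {i}, l j) = p * a := by
          rw [← hl.2, h1, hb]; ring
        exact Nat.eq_of_mul_eq_mul_left hp.pos h2
      rw [mem_image]
      refine ⟨(i, Function.update l i b), ?_, ?_⟩
      · rw [mem_product]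
        refine ⟨mem_univ _, ?_⟩
        rw [mem_filter]
        refine ⟨?_, hprod⟩
        rw [Fintype.mem_piFinset]
        intro j
        rw [Nat.mem_divisors]
        refine ⟨?_, ha⟩
        conv_rhs => rw [← hprod]
        exact Finset.dvd_prod_of_mem (Function.update l i b) (mem_univ j)
      · simp only [Function.update_self, Function.update_idem, ← hb, Function.update_eq_self]
    calc _ ≤ _ := card_le_card hsub
      _ ≤ _ := card_image_le
      _ = r * _ := by rw [card_product]; simp
      _ ≤ r * r ^ cardFactors a := Nat.mul_le_mul_left _ (ih ha)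

theorem cardFactors_prod {ι : Type} (s : Finset ι) (f : ι → ℕ) (hf : ∀ i ∈ s, f i ≠ 0) :
    cardFactors (∏ i ∈ s, f i) = ∑ i ∈ s, cardFactors (f i) := by
  induction s using Finset.induction_on with
  | empty => simp
  | insert i s hi ih =>
    rw [prod_insert hi, sum_insert hi, ArithmeticFunction.cardFactors_mul
      (hf i (mem_insert_self _ _)) (prod_ne_zero_iff.2 fun j hj => hf j (mem_insert_of_mem hj)),
      ih fun j hj => hf j (mem_insert_of_mem hj)]

end C1

theorem class_pow {q : ℕ} [Fact q.Prime] (A : Subgroup (ZMod q)ˣ) {P : Finset ℕ}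
    (hP : ∀ p ∈ P, p.Prime) {y : ℝ} (hy : 0 < y) (hyP : ∀ p ∈ P, y ≤ p) {z : ℕ}
    (hz : ∀ p ∈ P, p ≤ z) {a r : ℕ} (hq : z ^ (a * r) < q) (c : ZMod q) (hc : c ≠ 0) :
    (∑ s ∈ (lev P a).filter (fun s => Rl A s c), (s : ℝ)⁻¹) ^ r ≤
      (r : ℝ) ^ (a * r) * (AS A).card * (y ^ (a * r))⁻¹ := by
  have hqp : q.Prime := Fact.out
  set S := (lev P a).filter (fun s => Rl A s c) with hS
  set T := Fintype.piFinset (fun _ : Fin r => S) with hT
  set m : (Fin r → ℕ) → ℕ := fun l => ∏ i, l i with hm
  -- elements of `lev P a`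
  have hlev : ∀ s ∈ S, s ≠ 0 ∧ cardFactors s = a ∧ y ^ a ≤ (s : ℝ) ∧ s ≤ z ^ a := by
    intro s hs
    obtain ⟨t, ht, rfl⟩ := mem_image.1 (mem_filter.1 hs).1
    have ht' : ∀ i, t i ∈ P := fun i => Fintype.mem_piFinset.1 ht i
    refine ⟨?_, ?_, ?_, ?_⟩
    · exact prod_ne_zero_iff.2 fun i _ => (hP _ (ht' i)).ne_zero
    · unfold pr
      rw [C1.cardFactors_prod _ _ (fun i _ => (hP _ (ht' i)).ne_zero),
        sum_congr rfl (fun i _ => ArithmeticFunction.cardFactors_apply_prime (hP _ (ht' i)))]
      simp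
    · unfold pr
      push_cast
      calc y ^ a = ∏ _i : Fin a, y := by simp
        _ ≤ _ := prod_le_prod (fun i _ => hy.le) (fun i _ => hyP _ (ht' i))
    · unfold pr
      calc ∏ i, t i ≤ ∏ _i : Fin a, z := prod_le_prod' (fun i _ => hz _ (ht' i))
        _ = z ^ a := by simp
  have hmT : ∀ l ∈ T, ∀ i, l i ∈ S := fun l hl i => Fintype.mem_piFinset.1 hl i
  have hml : ∀ l ∈ T, m l ≠ 0 ∧ cardFactors (m l) = a * r ∧ y ^ (a * r) ≤ (m l : ℝ) ∧
      m l < q := by
    intro l hl
    have h := hmT l hl
    refine ⟨?_, ?_, ?_, ?_⟩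
    · exact prod_ne_zero_iff.2 fun i _ => (hlev _ (h i)).1
    · simp only [hm]
      rw [C1.cardFactors_prod _ _ (fun i _ => (hlev _ (h i)).1),
        sum_congr rfl (fun i _ => (hlev _ (h i)).2.1)]
      simp [mul_comm]
    · simp only [hm]
      push_cast
      calc y ^ (a * r) = ∏ _i : Fin r, y ^ a := by simp [pow_mul]
        _ ≤ _ := prod_le_prod (fun i _ => by positivity) (fun i _ => (hlev _ (h i)).2.2.1)
    · simp only [hm]
      calc ∏ i, l i ≤ ∏ _i : Fin r, z ^ a := prod_le_prod' (fun i _ => (hlev _ (h i)).2.2.2)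
        _ = z ^ (a * r) := by simp [pow_mul]
        _ < q := hq
  have e2 : (∑ s ∈ S, (s : ℝ)⁻¹) ^ r = ∑ l ∈ T, ((m l : ℝ))⁻¹ := by
    have h1 : (∑ s ∈ S, (s : ℝ)⁻¹) ^ r = ∏ _i : Fin r, ∑ s ∈ S, (s : ℝ)⁻¹ := by simp
    rw [h1, Finset.prod_univ_sum]
    apply sum_congr rfl
    intro l _
    simp [hm, Finset.prod_inv_distrib]
  rw [e2, Finset.sum_comp (fun n : ℕ => ((n : ℝ))⁻¹) m]
  -- the number of `n`
  have hcard : (T.image m).card ≤ (AS A).card := by
    set f : (ZMod q)ˣ → ℕ := fun u => ((u : ZMod q) * c ^ r).val with hf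
    have hsub : T.image m ⊆ (AS A).image f := by
      intro n hn
      obtain ⟨l, hl, rfl⟩ := mem_image.1 hn
      have h := hmT l hl
      have hu : ∀ i, ∃ u ∈ A, (l i : ZMod q) = (u : ZMod q) * c := fun i => (mem_filter.1 (h i)).2
      choose u hu1 hu2 using hu
      rw [mem_image]
      refine ⟨∏ i, u i, ?_, ?_⟩
      · rw [AS, mem_filter]
        exact ⟨mem_univ _, Subgroup.prod_mem _ (fun i _ => hu1 i)⟩
      · have h1 : ((m l : ℕ) : ZMod q) = ((∏ i, u i : (ZMod q)ˣ) : ZMod q) * c ^ r := by
          simp only [hm]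
          push_cast
          rw [prod_congr rfl (fun i _ => hu2 i), prod_mul_distrib]
          simp
        simp only [hf]
        rw [← h1, ZMod.val_natCast, Nat.mod_eq_of_lt (hml l hl).2.2.2]
    exact (card_le_card hsub).trans card_image_le
  calc ∑ n ∈ T.image m, (T.filter (fun l => m l = n)).card • ((n : ℝ))⁻¹
      ≤ ∑ n ∈ T.image m, (r : ℝ) ^ (a * r) * (y ^ (a * r))⁻¹ := by
        apply sum_le_sum
        intro n hn
        obtain ⟨l0, hl0, rfl⟩ := mem_image.1 hn
        obtain ⟨h1, h2, h3, h4⟩ := hml l0 hl0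
        rw [nsmul_eq_mul]
        apply mul_le_mul
        · have h5 : (T.filter (fun l => m l = m l0)).card ≤ r ^ cardFactors (m l0) := by
            refine (card_le_card ?_).trans (C1.count_le r (m l0) h1)
            intro l hl
            rw [mem_filter] at hl ⊢
            refine ⟨?_, hl.2⟩
            rw [Fintype.mem_piFinset]
            intro i
            rw [Nat.mem_divisors]
            refine ⟨?_, h1⟩
            rw [← hl.2]
            exact Finset.dvd_prod_of_mem l (mem_univ i)
          rw [h2] at h5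
          exact_mod_cast h5
        · exact inv_anti₀ (by positivity) h3
        · positivity
        · positivity
    _ = ((T.image m).card : ℝ) * ((r : ℝ) ^ (a * r) * (y ^ (a * r))⁻¹) := by
        rw [sum_const, nsmul_eq_mul]
    _ ≤ ((AS A).card : ℝ) * ((r : ℝ) ^ (a * r) * (y ^ (a * r))⁻¹) := by
        apply mul_le_mul_of_nonneg_right _ (by positivity)
        exact_mod_cast hcard
    _ = _ := by ring

end Pool.Agent.J4.H33.CS
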