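import Pool.Agent.J4.H33.CS.C1

set_option autoImplicit false

namespace Pool.Agent.J4.H33.CS

open Finset
open scoped Classical
open ArithmeticFunction (cardFactors)

theorem class_bound {ε : ℝ} (h0 : 0 < ε) (h1 : ε ≤ 1) {q : ℕ} [Fact q.Prime]
    (A : Subgroup (ZMod q)ˣ) (hA : ((AS A).card : ℝ) ≤ (q : ℝ) ^ (1 - ε)) {P : Finset ℕ}
    (hP : ∀ p ∈ P, p.Prime) {y : ℝ} (hy : Real.exp 1 ≤ y) (hyP : ∀ p ∈ P, y ≤ p)
    (hz : ∀ p ∈ P, (p : ℝ) ≤ y ^ (1 + ε / 4)) (hlog : Real.log q ≤ y ^ (ε / 4)) {a : ℕ}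
    (ha : 1 ≤ a) (haq : y ^ a ≤ (q : ℝ) ^ (ε / 8)) (c : ZMod q) (hc : c ≠ 0) :
    ∑ s ∈ (lev P a).filter (fun s => Rl A s c), (s : ℝ)⁻¹ ≤ y ^ (-(ε / 4 * a)) := by
  have hy0 : 0 < y := (Real.exp_pos 1).trans_le hy
  have hqp : q.Prime := Fact.out
  have hq0 : (0 : ℝ) < q := by exact_mod_cast hqp.pos
  have hq1 : (1 : ℝ) < q := by exact_mod_cast hqp.one_lt
  obtain ⟨ℓ, hℓ⟩ : ∃ ℓ, ℓ = Real.log y := ⟨_, rfl⟩
  obtain ⟨L, hL⟩ : ∃ L, L = Real.log q := ⟨_, rfl⟩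
  have hyexp : y = Real.exp ℓ := by rw [hℓ, Real.exp_log hy0]
  have hqexp : (q : ℝ) = Real.exp L := by rw [hL, Real.exp_log hq0]
  have hℓ1 : 1 ≤ ℓ := by
    rw [hyexp] at hy
    exact Real.exp_le_exp.mp hy
  have hℓ0 : 0 < ℓ := by linarith
  have ha1 : (1 : ℝ) ≤ a := by exact_mod_cast ha
  have ha0 : (0 : ℝ) < a := by linarith
  -- a ℓ ≤ ε / 8 L
  have hal : a * ℓ ≤ ε / 8 * L := by
    rw [hyexp, hqexp, ← Real.exp_nat_mul, ← Real.exp_mul] at haq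
    have := Real.exp_le_exp.mp haq
    linarith
  have haℓ : 0 < a * ℓ := by positivity
  have hL0 : 0 < L := by
    by_contra hcon
    push Not at hcon
    nlinarith
  obtain ⟨x, hx⟩ : ∃ x, x = L / (a * ((1 + ε / 4) * ℓ)) := ⟨_, rfl⟩
  have hden : 0 < a * ((1 + ε / 4) * ℓ) := by positivity
  have hLx : L = x * (a * ((1 + ε / 4) * ℓ)) := by
    rw [hx]; field_simp
  have hx0 : 0 < x := by rw [hx]; positivity
  -- x ≥ 6.4 / ε
  have hxε : 64 / 10 ≤ ε * x := by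
    have h8 : 8 * (a * ℓ) ≤ ε * (x * (a * ((1 + ε / 4) * ℓ))) := by
      rw [← hLx]; linarith
    have h8' : (8 : ℝ) * (a * ℓ) ≤ (ε * x * (1 + ε / 4)) * (a * ℓ) := by
      calc _ ≤ _ := h8
        _ = _ := by ring
    have h9 := le_of_mul_le_mul_right h8' haℓ
    have h10 : ε * x * (1 + ε / 4) ≤ ε * x * (5 / 4) := by
      apply mul_le_mul_of_nonneg_left _ (by positivity)
      linarith
    linarith
  have hxL : x ≤ L := by
    rw [hx]
    apply div_le_self hL0.le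
    have : (1 : ℝ) ≤ (1 + ε / 4) * ℓ := by nlinarith
    nlinarith
  have hx6 : 6 ≤ x := by nlinarith
  obtain ⟨r, hr⟩ : ∃ r : ℕ, r = ⌈x⌉₊ - 1 := ⟨_, rfl⟩
  have hceil : 1 ≤ ⌈x⌉₊ := Nat.one_le_ceil_iff.mpr hx0
  have hrx : (r : ℝ) < x := by
    have h2 : (⌈x⌉₊ : ℝ) < x + 1 := Nat.ceil_lt_add_one hx0.le
    have : ((r : ℕ) : ℝ) = (⌈x⌉₊ : ℝ) - 1 := by
      rw [hr]; push_cast [Nat.cast_sub hceil]; ring
    linarith
  have hrx' : x - 1 ≤ (r : ℝ) := by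
    have h2 : x ≤ (⌈x⌉₊ : ℝ) := Nat.le_ceil x
    have : ((r : ℕ) : ℝ) = (⌈x⌉₊ : ℝ) - 1 := by
      rw [hr]; push_cast [Nat.cast_sub hceil]; ring
    linarith
  have hr5 : (5 : ℝ) ≤ r := by linarith
  have hr0 : r ≠ 0 := by
    rintro rfl
    norm_num at hr5
  have hr0' : (0 : ℝ) < r := by linarith
  -- x ≤ (1 + ε / 4) r
  have hxr : x ≤ (1 + ε / 4) * r := by nlinarith
  -- the modulus condition
  have hZ : (0 : ℝ) < y ^ (1 + ε / 4) := Real.rpow_pos_of_pos hy0 _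
  have hz' : ∀ p ∈ P, p ≤ ⌊y ^ (1 + ε / 4)⌋₊ := fun p hp => Nat.le_floor (hz p hp)
  have hzq : ⌊y ^ (1 + ε / 4)⌋₊ ^ (a * r) < q := by
    have h2 : ((⌊y ^ (1 + ε / 4)⌋₊ ^ (a * r) : ℕ) : ℝ) < q := by
      push_cast
      calc ((⌊y ^ (1 + ε / 4)⌋₊ : ℝ)) ^ (a * r) ≤ (y ^ (1 + ε / 4)) ^ (a * r) :=
            pow_le_pow_left₀ (by positivity) (Nat.floor_le hZ.le) _
        _ = Real.exp ((a * r) * ((1 + ε / 4) * ℓ)) := by
            rw [hyexp, ← Real.exp_mul, ← Real.exp_nat_mul]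
            push_cast
            congr 1
            ring
        _ < q := by
            rw [hqexp]
            apply Real.exp_lt_exp.mpr
            have : L = x * (a * ((1 + ε / 4) * ℓ)) := hLx
            rw [this]
            have : (r : ℝ) * (a * ((1 + ε / 4) * ℓ)) < x * (a * ((1 + ε / 4) * ℓ)) :=
              mul_lt_mul_of_pos_right hrx hden
            calc _ = (r : ℝ) * (a * ((1 + ε / 4) * ℓ)) := by ring
              _ < _ := this
    exact_mod_cast h2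
  have key := class_pow A hP hy0 hyP hz' hzq c hc
  have hSn : 0 ≤ ∑ s ∈ (lev P a).filter (fun s => Rl A s c), (s : ℝ)⁻¹ :=
    Finset.sum_nonneg fun s _ => by positivity
  refine le_of_pow_le_pow_left₀ hr0 (Real.rpow_nonneg hy0.le _) (key.trans ?_)
  have hrL : (r : ℝ) ≤ Real.exp (ε / 4 * ℓ) := by
    have : Real.log q ≤ Real.exp (ε / 4 * ℓ) := by
      rw [hyexp, ← Real.exp_mul] at hlog
      rw [mul_comm (ε / 4) ℓ]
      exact hlog
    rw [← hL] at this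
    linarith
  have e1 : (r : ℝ) ^ (a * r) ≤ Real.exp ((a * r) * (ε / 4 * ℓ)) := by
    calc (r : ℝ) ^ (a * r) ≤ (Real.exp (ε / 4 * ℓ)) ^ (a * r) :=
          pow_le_pow_left₀ hr0'.le hrL _
      _ = _ := by rw [← Real.exp_nat_mul]; push_cast; rfl
  have e2 : ((AS A).card : ℝ) ≤ Real.exp (L * (1 - ε)) := by
    rw [hqexp, ← Real.exp_mul] at hA
    exact hA
  have e3 : (y ^ (a * r))⁻¹ = Real.exp (-((a * r) * ℓ)) := by
    rw [hyexp, ← Real.exp_nat_mul, Real.exp_neg]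
    push_cast
    rfl
  have e4 : (y ^ (-(ε / 4 * a))) ^ r = Real.exp (-(ε / 4) * (a * r * ℓ)) := by
    rw [hyexp, ← Real.exp_mul, ← Real.exp_nat_mul]
    congr 1
    ring
  rw [e4, e3]
  calc (r : ℝ) ^ (a * r) * (AS A).card * Real.exp (-((a * r) * ℓ))
      ≤ Real.exp ((a * r) * (ε / 4 * ℓ)) * Real.exp (L * (1 - ε)) * Real.exp (-((a * r) * ℓ)) :=
        mul_le_mul_of_nonneg_right (mul_le_mul e1 e2 (Nat.cast_nonneg _) (Real.exp_pos _).le)
          (Real.exp_pos _).le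
    _ = Real.exp ((a * r) * (ε / 4 * ℓ) + L * (1 - ε) + -((a * r) * ℓ)) := by
        rw [Real.exp_add, Real.exp_add]
    _ ≤ _ := by
        apply Real.exp_le_exp.mpr
        have h2 : L * (1 - ε) ≤ (1 - ε / 2) * (a * r * ℓ) := by
          have h3 : x * (1 + ε / 4) * (1 - ε) ≤ r * (1 - ε / 2) := by
            have h1e : 0 ≤ 1 - ε := by linarith
            calc x * (1 + ε / 4) * (1 - ε) ≤ ((1 + ε / 4) * r) * (1 + ε / 4) * (1 - ε) := by
                  gcongr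
              _ = r * ((1 + ε / 4) ^ 2 * (1 - ε)) := by ring
              _ ≤ r * (1 - ε / 2) := by
                  apply mul_le_mul_of_nonneg_left _ hr0'.le
                  nlinarith [mul_pos h0 h0, mul_pos (mul_pos h0 h0) h0]
          calc L * (1 - ε) = (x * (1 + ε / 4) * (1 - ε)) * (a * ℓ) := by
                rw [hLx]; ring
            _ ≤ (r * (1 - ε / 2)) * (a * ℓ) := mul_le_mul_of_nonneg_right h3 haℓ.le
            _ = _ := by ring
        linarith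

end Pool.Agent.J4.H33.CS
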