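import Pool.Agent.J4.H33.CS.Defs

/-!
# Project CS, piece S2: multiplication by powers of the Dirichlet polynomial over `P`
(helper24 for helper33)
-/

set_option autoImplicit false

namespace Pool.Agent.J4.H33.CS

open Finset
open scoped Classical

namespace S2

/-- one step -/
lemma step {q : ℕ} [Fact q.Prime] (A : Subgroup (ZMod q)ˣ) (P : Finset ℕ) (α : ℕ → ℝ)
    (hα : ∀ p, 0 ≤ α p) (v : ℕ → (ZMod q)ˣ) (e : (ZMod q)ˣ → ℂ) {B : ℝ}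
    (hB : ∀ c : (ZMod q)ˣ, ∑ u ∈ AS A, ‖e (c * u)‖ ^ 2 ≤ B) :
    ∃ f : (ZMod q)ˣ → ℂ,
      (∀ χ : DirichletCharacter ℂ q, (∑ u : (ZMod q)ˣ, e u * χ (u : ZMod q)) *
        (∑ p ∈ P, (α p : ℂ) * χ (v p : ZMod q)) = ∑ u : (ZMod q)ˣ, f u * χ (u : ZMod q)) ∧
      ∀ c : (ZMod q)ˣ, ∑ u ∈ AS A, ‖f (c * u)‖ ^ 2 ≤ (∑ p ∈ P, α p) ^ 2 * B := by
  refine ⟨fun u => ∑ p ∈ P, (α p : ℂ) * e (u * (v p)⁻¹), fun χ => ?_, fun c => ?_⟩
  · simp only [Finset.sum_mul]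
    rw [Finset.sum_comm]
    have h1 : ∀ p ∈ P, ∑ u : (ZMod q)ˣ, (α p : ℂ) * e (u * (v p)⁻¹) * χ (u : ZMod q) =
        (α p : ℂ) * χ (v p : ZMod q) * ∑ u : (ZMod q)ˣ, e u * χ (u : ZMod q) := by
      intro p _
      rw [← Equiv.sum_comp (Equiv.mulRight (v p))]
      rw [Finset.mul_sum]
      refine Finset.sum_congr rfl fun u _ => ?_
      simp only [Equiv.coe_mulRight, mul_inv_cancel_right, Units.val_mul, map_mul]
      ring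
    rw [Finset.sum_congr rfl h1, ← Finset.sum_mul]
    rw [← Finset.sum_mul, mul_comm]
  · have hs0 : 0 ≤ ∑ p ∈ P, α p := Finset.sum_nonneg fun p _ => hα p
    have h1 : ∀ u ∈ AS A, ‖∑ p ∈ P, (α p : ℂ) * e (c * u * (v p)⁻¹)‖ ^ 2 ≤
        (∑ p ∈ P, α p) * ∑ p ∈ P, α p * ‖e (c * u * (v p)⁻¹)‖ ^ 2 := by
      intro u _
      have h2 : ‖∑ p ∈ P, (α p : ℂ) * e (c * u * (v p)⁻¹)‖ ≤
          ∑ p ∈ P, Real.sqrt (α p) * (Real.sqrt (α p) * ‖e (c * u * (v p)⁻¹)‖) := by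
        refine (norm_sum_le _ _).trans (Finset.sum_le_sum fun p _ => ?_)
        rw [norm_mul, Complex.norm_real, Real.norm_of_nonneg (hα p), ← mul_assoc,
          Real.mul_self_sqrt (hα p)]
      have h3 := Finset.sum_mul_sq_le_sq_mul_sq P (fun p => Real.sqrt (α p))
        (fun p => Real.sqrt (α p) * ‖e (c * u * (v p)⁻¹)‖)
      have h4 : ∑ p ∈ P, Real.sqrt (α p) ^ 2 = ∑ p ∈ P, α p :=
        Finset.sum_congr rfl fun p _ => Real.sq_sqrt (hα p)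
      have h5 : ∑ p ∈ P, (Real.sqrt (α p) * ‖e (c * u * (v p)⁻¹)‖) ^ 2 =
          ∑ p ∈ P, α p * ‖e (c * u * (v p)⁻¹)‖ ^ 2 :=
        Finset.sum_congr rfl fun p _ => by rw [mul_pow, Real.sq_sqrt (hα p)]
      rw [h4, h5] at h3
      exact (pow_le_pow_left₀ (norm_nonneg _) h2 2).trans h3
    refine (Finset.sum_le_sum h1).trans ?_
    rw [← Finset.mul_sum, Finset.sum_comm]
    have h6 : ∀ p ∈ P, ∑ u ∈ AS A, α p * ‖e (c * u * (v p)⁻¹)‖ ^ 2 ≤ α p * B := by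
      intro p _
      rw [← Finset.mul_sum]
      refine mul_le_mul_of_nonneg_left ?_ (hα p)
      refine le_trans (le_of_eq ?_) (hB (c * (v p)⁻¹))
      refine Finset.sum_congr rfl fun u _ => ?_
      rw [mul_right_comm]
    calc (∑ p ∈ P, α p) * ∑ p ∈ P, ∑ u ∈ AS A, α p * ‖e (c * u * (v p)⁻¹)‖ ^ 2
        ≤ (∑ p ∈ P, α p) * ∑ p ∈ P, α p * B :=
          mul_le_mul_of_nonneg_left (Finset.sum_le_sum h6) hs0
      _ = (∑ p ∈ P, α p) ^ 2 * B := by rw [← Finset.sum_mul]; ring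

/-- several steps -/
lemma steps {q : ℕ} [Fact q.Prime] (A : Subgroup (ZMod q)ˣ) (P : Finset ℕ) (α : ℕ → ℝ)
    (hα : ∀ p, 0 ≤ α p) (v : ℕ → (ZMod q)ˣ) (k : ℕ) (e : (ZMod q)ˣ → ℂ) {B : ℝ}
    (hB : ∀ c : (ZMod q)ˣ, ∑ u ∈ AS A, ‖e (c * u)‖ ^ 2 ≤ B) :
    ∃ f : (ZMod q)ˣ → ℂ,
      (∀ χ : DirichletCharacter ℂ q, (∑ u : (ZMod q)ˣ, e u * χ (u : ZMod q)) *
        (∑ p ∈ P, (α p : ℂ) * χ (v p : ZMod q)) ^ k = ∑ u : (ZMod q)ˣ, f u * χ (u : ZMod q)) ∧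
      ∀ c : (ZMod q)ˣ, ∑ u ∈ AS A, ‖f (c * u)‖ ^ 2 ≤ (∑ p ∈ P, α p) ^ (2 * k) * B := by
  induction k with
  | zero => exact ⟨e, fun χ => by simp, fun c => by simpa using hB c⟩
  | succ k ih =>
    obtain ⟨g, hg, hgB⟩ := ih
    obtain ⟨f, hf, hfB⟩ := step A P α hα v g hgB
    refine ⟨f, fun χ => ?_, fun c => ?_⟩
    · rw [pow_succ, ← mul_assoc, hg, hf]
    · refine (hfB c).trans (le_of_eq ?_)
      rw [← mul_assoc, ← pow_add]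
      congr 2
      ring

/-- the unit of a number -/
noncomputable def un (q : ℕ) (p : ℕ) : (ZMod q)ˣ :=
  if h : p.Coprime q then ZMod.unitOfCoprime p h else 1

lemma un_val {q : ℕ} [Fact q.Prime] {p : ℕ} (hp : p.Prime) (hq : p < q) :
    ((un q p : (ZMod q)ˣ) : ZMod q) = (p : ZMod q) := by
  have hc : p.Coprime q := (Nat.coprime_primes hp (Fact.out : q.Prime)).2 hq.ne
  unfold un
  rw [dif_pos hc]
  exact ZMod.coe_unitOfCoprime p hc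

end S2

theorem conv_small {q : ℕ} [Fact q.Prime] (A : Subgroup (ZMod q)ˣ) {P : Finset ℕ}
    (hP : ∀ p ∈ P, p.Prime ∧ p < q) (j n : ℕ) (e : (ZMod q)ˣ → ℂ) {B : ℝ}
    (hB : ∀ c : (ZMod q)ˣ, ∑ u ∈ AS A, ‖e (c * u)‖ ^ 2 ≤ B) :
    ∃ f : (ZMod q)ˣ → ℂ,
      (∀ χ : DirichletCharacter ℂ q, (∑ u : (ZMod q)ˣ, e u * χ (u : ZMod q)) *
        (Pc P χ ^ j * (starRingEnd ℂ) (Pc P χ) ^ n) = ∑ u : (ZMod q)ˣ, f u * χ (u : ZMod q)) ∧
      ∑ u ∈ AS A, ‖f u‖ ^ 2 ≤ (∑ p ∈ P, (Real.sqrt p)⁻¹) ^ (2 * (j + n)) * B := by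
  have hα : ∀ p : ℕ, 0 ≤ (Real.sqrt p)⁻¹ := fun p => inv_nonneg.2 (Real.sqrt_nonneg _)
  obtain ⟨g, hg, hgB⟩ := S2.steps A P (fun p => (Real.sqrt p)⁻¹) hα (S2.un q) j e hB
  obtain ⟨f, hf, hfB⟩ := S2.steps A P (fun p => (Real.sqrt p)⁻¹) hα (fun p => (S2.un q p)⁻¹) n g hgB
  refine ⟨f, fun χ => ?_, ?_⟩
  · rw [← hf χ, ← hg χ, mul_assoc]
    congr 3
    · unfold Pc
      refine Finset.sum_congr rfl fun p hp => ?_
      rw [S2.un_val (hP p hp).1 (hP p hp).2]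
    · unfold Pc
      rw [map_sum]
      refine Finset.sum_congr rfl fun p hp => ?_
      rw [map_mul, Complex.conj_ofReal]
      congr 1
      rw [← S2.un_val (hP p hp).1 (hP p hp).2]
      exact (Pool.Agent.R311.RES.chi_inv χ _).symm
  · have := hfB 1
    simp only [one_mul] at this
    refine this.trans (le_of_eq ?_)
    rw [← mul_assoc, ← pow_add]
    congr 2
    ring

end Pool.Agent.J4.H33.CS
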