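import Pool.Agent.J4.H33.CS.Defs

/-!
# Project CS, piece S3: the coefficients of `Qc * Pc ^ j * conj Pc ^ n`
(helper24 for helper33)
-/

set_option autoImplicit false

namespace Pool.Agent.J4.H33.CS

open Finset
open scoped Classical

namespace S3

lemma one_u {q : ℕ} [Fact q.Prime] (χ : DirichletCharacter ℂ q) {x w : ZMod q} (hx : x ≠ 0)
    (hw : w ≠ 0) (c : ℝ) :
    ∑ u : (ZMod q)ˣ, ((if x = (u : ZMod q) * w then c else 0 : ℝ) : ℂ) * χ (u : ZMod q) =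
      (c : ℂ) * (χ x * (starRingEnd ℂ) (χ w)) := by
  have h1 : ∀ u : (ZMod q)ˣ, x = (u : ZMod q) * w ↔ u = Units.mk0 x hx * (Units.mk0 w hw)⁻¹ := by
    intro u
    rw [eq_mul_inv_iff_mul_eq, Units.ext_iff]
    simp only [Units.val_mul, Units.val_mk0]
    exact eq_comm
  have h2 : ∀ u : (ZMod q)ˣ, ((if x = (u : ZMod q) * w then c else 0 : ℝ) : ℂ) * χ (u : ZMod q) =
      if u = Units.mk0 x hx * (Units.mk0 w hw)⁻¹ then (c : ℂ) * χ (u : ZMod q) else 0 := by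
    intro u
    by_cases h : u = Units.mk0 x hx * (Units.mk0 w hw)⁻¹
    · rw [if_pos h, if_pos ((h1 u).2 h)]
    · rw [if_neg h, if_neg (fun h' => h ((h1 u).1 h'))]
      simp
  rw [Finset.sum_congr rfl fun u _ => h2 u, Finset.sum_ite_eq' univ, if_pos (Finset.mem_univ _)]
  rw [Units.val_mul, map_mul, Pool.Agent.R311.RES.chi_inv]
  simp only [Units.val_mk0]

lemma pc_pow {q : ℕ} (P : Finset ℕ) (j : ℕ) (χ : DirichletCharacter ℂ q) :
    Pc P χ ^ j = ∑ l ∈ tup P j, (((Real.sqrt (pr l))⁻¹ : ℝ) : ℂ) * χ ((pr l : ℕ) : ZMod q) := by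
  have h1 : Pc P χ ^ j = ∏ _i : Fin j, ∑ p ∈ P, (((Real.sqrt p)⁻¹ : ℝ) : ℂ) * χ (p : ZMod q) := by
    simp [Pc]
  rw [h1, Finset.prod_univ_sum]
  refine Finset.sum_congr rfl fun l _ => ?_
  rw [Finset.prod_mul_distrib]
  congr 1
  · rw [← Complex.ofReal_prod]
    congr 1
    unfold pr
    rw [Finset.prod_inv_distrib, Nat.cast_prod, Real.sqrt_prod]
    · intro i _
      positivity
  · unfold pr
    rw [← map_prod, Nat.cast_prod]

lemma pr_ne {q : ℕ} [Fact q.Prime] {P : Finset ℕ} (hP : ∀ p ∈ P, p.Prime ∧ p < q) {j : ℕ}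
    {l : Fin j → ℕ} (hl : l ∈ tup P j) : ((pr l : ℕ) : ZMod q) ≠ 0 := by
  unfold tup at hl
  rw [Fintype.mem_piFinset] at hl
  unfold pr
  rw [Nat.cast_prod, Finset.prod_ne_zero_iff]
  intro i _ h0
  rw [ZMod.natCast_eq_zero_iff] at h0
  have := Nat.le_of_dvd (hP _ (hl i)).1.pos h0
  have := (hP _ (hl i)).2
  omega

end S3

theorem f1_id {q : ℕ} [Fact q.Prime] {P : Finset ℕ} (hP : ∀ p ∈ P, p.Prime ∧ p < q) {D : ℕ}
    (hD : D < q) (j n : ℕ) (χ : DirichletCharacter ℂ q) :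
    Qc P D χ * (Pc P χ ^ j * (starRingEnd ℂ) (Pc P χ) ^ n) =
      ∑ u : (ZMod q)ˣ, (f1 P D j n u : ℂ) * χ (u : ZMod q) := by
  have hR : ∑ u : (ZMod q)ˣ, (f1 P D j n u : ℂ) * χ (u : ZMod q) =
      ∑ h ∈ (Icc 1 D).filter (Sm P), ∑ l ∈ tup P j, ∑ m ∈ tup P n,
        ((((Real.sqrt h)⁻¹ * (Real.sqrt (pr l))⁻¹ * (Real.sqrt (pr m))⁻¹ : ℝ)) : ℂ) *
          (χ ((h * pr l : ℕ) : ZMod q) * (starRingEnd ℂ) (χ ((pr m : ℕ) : ZMod q))) := by
    unfold f1
    simp only [Complex.ofReal_sum, Finset.sum_mul]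
    rw [Finset.sum_comm]
    refine Finset.sum_congr rfl fun h hh => ?_
    rw [Finset.sum_comm]
    refine Finset.sum_congr rfl fun l hl => ?_
    rw [Finset.sum_comm]
    refine Finset.sum_congr rfl fun m hm => ?_
    rw [Finset.mem_filter, Finset.mem_Icc] at hh
    have hx : ((h * pr l : ℕ) : ZMod q) ≠ 0 := by
      rw [Nat.cast_mul]
      refine mul_ne_zero ?_ (S3.pr_ne hP hl)
      intro h0
      rw [ZMod.natCast_eq_zero_iff] at h0
      have := Nat.le_of_dvd hh.1.1 h0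
      omega
    exact S3.one_u χ hx (S3.pr_ne hP hm) _
  rw [hR, S3.pc_pow, ← map_pow, S3.pc_pow, map_sum]
  unfold Qc
  rw [Finset.sum_mul]
  refine Finset.sum_congr rfl fun h _ => ?_
  rw [Finset.sum_mul, Finset.mul_sum]
  refine Finset.sum_congr rfl fun l _ => ?_
  rw [Finset.mul_sum, Finset.mul_sum]
  refine Finset.sum_congr rfl fun m _ => ?_
  rw [map_mul, Complex.conj_ofReal, Nat.cast_mul, map_mul]
  push_cast
  ring

end Pool.Agent.J4.H33.CS
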