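import Pool.Agent.J4.H33.CS.S1
import Pool.Agent.J4.H33.CS.S2
import Pool.Agent.J4.H33.CS.S3

/-!
# The number of the bad characters
-/

set_option autoImplicit false

namespace Pool.Agent.J4.H33.CS

open Finset
open scoped Classical
open Pool.Agent.R311.RES (hzv ann L_half orth card_mul)

variable {q : ℕ} [Fact q.Prime]

lemma one_mem_AS (A : Subgroup (ZMod q)ˣ) : (1 : (ZMod q)ˣ) ∈ AS A := by
  unfold AS
  rw [mem_filter]
  exact ⟨mem_univ _, A.one_mem⟩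

lemma mem_HS (H : Subgroup (DirichletCharacter ℂ q)) (ψ : DirichletCharacter ℂ q) :
    ψ ∈ HS H ↔ ψ ∈ H := by
  unfold HS
  rw [mem_filter]
  exact ⟨fun h => h.2, fun h => ⟨mem_univ _, h⟩⟩

lemma sum_shift (H : Subgroup (DirichletCharacter ℂ q)) (F : DirichletCharacter ℂ q → ℝ) :
    ∑ χ₀ ∈ XS q, ∑ ψ ∈ HS H, F (χ₀ * ψ) = ((HS H).card : ℝ) * ∑ χ ∈ XS q, F χ := by
  rw [sum_comm]
  have h : ∀ ψ ∈ HS H, ∑ χ₀ ∈ XS q, F (χ₀ * ψ) = ∑ χ ∈ XS q, F χ := by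
    intro ψ _
    unfold XS
    exact Equiv.sum_comp (Equiv.mulRight ψ) F
  rw [sum_congr rfl h, sum_const, nsmul_eq_mul]

/-- **The number of the bad characters.** -/
theorem bad_count (H : Subgroup (DirichletCharacter ℂ q)) {P : Finset ℕ}
    (hP : ∀ p ∈ P, p.Prime) (hPq : ∀ p ∈ P, p < q) {D j n : ℕ} (hDq : D < q)
    (hM : 0 < f1 P D j n (1 : (ZMod q)ˣ)) {e : (ZMod q)ˣ → ℂ}
    (he : ∀ χ : DirichletCharacter ℂ q, DirichletCharacter.LFunction χ (1 / 2) * Gc P D χ =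
        Qc P D χ + ∑ u : (ZMod q)ˣ, e u * χ (u : ZMod q)) {B : ℝ}
    (hB : ∀ c : (ZMod q)ˣ, ∑ u ∈ AS (ann H), ‖e (c * u)‖ ^ 2 ≤ B) {Z1 Db V : ℝ}
    (hZ : ∑ u ∈ (AS (ann H)).erase 1, f1 P D j n u ^ 2 ≤ Z1)
    (hD : ∑ χ ∈ XS q, ‖Pc P χ‖ ^ (j + n) * ‖Gc P D χ‖ ≤ ((q : ℝ) - 1) * Db) (hV : 0 < V) :
    (((XS q).filter (fun χ₀ => ∀ ψ ∈ H,
      ‖DirichletCharacter.LFunction (χ₀ * ψ) (1 / 2)‖ ≤ V)).card : ℝ) ≤
      ((q : ℝ) - 1) * (8 * (Z1 + (∑ p ∈ P, (Real.sqrt p)⁻¹) ^ (2 * (j + n)) * B) /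
        f1 P D j n (1 : (ZMod q)ˣ) ^ 2 + 2 * V * Db / f1 P D j n (1 : (ZMod q)ˣ)) := by
  set M : ℝ := f1 P D j n (1 : (ZMod q)ˣ) with hMdef
  obtain ⟨f, hf1, hf2⟩ := conv_small (ann H) (fun p hp => ⟨hP p hp, hPq p hp⟩) j n e hB
  set E2 : ℝ := (∑ p ∈ P, (Real.sqrt p)⁻¹) ^ (2 * (j + n)) * B with hE2
  set T : DirichletCharacter ℂ q → ℂ := fun χ => DirichletCharacter.LFunction χ (1 / 2) *
    Gc P D χ * (Pc P χ ^ j * (starRingEnd ℂ) (Pc P χ) ^ n) with hT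
  set g : (ZMod q)ˣ → ℂ := fun u => ((f1 P D j n u - if u = 1 then M else 0 : ℝ) : ℂ) + f u with hg
  have hq1 : (0 : ℝ) ≤ (q : ℝ) - 1 := by
    have : 1 ≤ q := (Fact.out : q.Prime).one_lt.le
    have : (1 : ℝ) ≤ q := by exact_mod_cast this
    linarith
  have hTg : ∀ χ : DirichletCharacter ℂ q, T χ - M = ∑ u : (ZMod q)ˣ, g u * χ (u : ZMod q) := by
    intro χ
    have h1 : T χ = ∑ u : (ZMod q)ˣ, (f1 P D j n u : ℂ) * χ (u : ZMod q) +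
        ∑ u : (ZMod q)ˣ, f u * χ (u : ZMod q) := by
      rw [← f1_id (fun p hp => ⟨hP p hp, hPq p hp⟩) hDq j n χ, ← hf1 χ, ← add_mul, ← he χ]
    have h2 : (M : ℂ) = ∑ u : (ZMod q)ˣ, ((if u = 1 then M else 0 : ℝ) : ℂ) * χ (u : ZMod q) := by
      rw [Finset.sum_eq_single (1 : (ZMod q)ˣ)]
      · simp
      · intro u _ hu
        simp [hu]
      · intro h
        exact absurd (mem_univ _) h
    rw [h1, h2, ← sum_add_distrib, ← sum_sub_distrib]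
    refine sum_congr rfl fun u _ => ?_
    simp only [hg]
    push_cast
    ring
  have hHpos : (0 : ℝ) < ((HS H).card : ℝ) := by
    have : 0 < (HS H).card := card_pos.2 ⟨1, (mem_HS H 1).2 H.one_mem⟩
    exact_mod_cast this
  set h : ℝ := ((HS H).card : ℝ) with hh
  -- the second moment
  have hsum : ∑ u ∈ AS (ann H), ‖g u‖ ^ 2 ≤ 2 * (Z1 + E2) := by
    have h1 : ∀ u, ‖g u‖ ^ 2 ≤ 2 * (f1 P D j n u - if u = 1 then M else 0) ^ 2 + 2 * ‖f u‖ ^ 2 := by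
      intro u
      have h2 : ‖g u‖ ≤ |f1 P D j n u - if u = 1 then M else 0| + ‖f u‖ := by
        refine (norm_add_le _ _).trans ?_
        rw [Complex.norm_real, Real.norm_eq_abs]
      have h3 : ‖g u‖ ^ 2 ≤ (|f1 P D j n u - if u = 1 then M else 0| + ‖f u‖) ^ 2 :=
        pow_le_pow_left₀ (norm_nonneg _) h2 2
      have h4 := sq_abs (f1 P D j n u - if u = 1 then M else 0)
      nlinarith [sq_nonneg (|f1 P D j n u - if u = 1 then M else 0| - ‖f u‖)]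
    have h2 : ∑ u ∈ AS (ann H), (f1 P D j n u - if u = 1 then M else 0) ^ 2 ≤ Z1 := by
      rw [← Finset.add_sum_erase _ _ (one_mem_AS (ann H))]
      have h3 : (f1 P D j n (1 : (ZMod q)ˣ) - if (1 : (ZMod q)ˣ) = 1 then M else 0) ^ 2 = 0 := by
        rw [if_pos rfl, ← hMdef, sub_self]
        ring
      rw [h3, zero_add]
      refine le_trans (le_of_eq ?_) hZ
      refine sum_congr rfl fun u hu => ?_
      rw [if_neg (mem_erase.1 hu).1, sub_zero]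
    calc ∑ u ∈ AS (ann H), ‖g u‖ ^ 2 ≤ ∑ u ∈ AS (ann H),
          (2 * (f1 P D j n u - if u = 1 then M else 0) ^ 2 + 2 * ‖f u‖ ^ 2) :=
          sum_le_sum fun u _ => h1 u
      _ = 2 * ∑ u ∈ AS (ann H), (f1 P D j n u - if u = 1 then M else 0) ^ 2 +
          2 * ∑ u ∈ AS (ann H), ‖f u‖ ^ 2 := by rw [sum_add_distrib, mul_sum, mul_sum]
      _ ≤ _ := by linarith
  have hpar := parseval_coset H g
  -- the denominators
  set Dn : DirichletCharacter ℂ q → ℝ := fun χ => ‖Pc P χ‖ ^ (j + n) * ‖Gc P D χ‖ with hDn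
  have hshift := sum_shift H Dn
  -- the pointwise bound
  have hpt : ∀ χ₀ : DirichletCharacter ℂ q,
      (if (∀ ψ ∈ H, ‖DirichletCharacter.LFunction (χ₀ * ψ) (1 / 2)‖ ≤ V) then (1 : ℝ) else 0) ≤
      4 / (h * M) ^ 2 * ‖∑ ψ ∈ HS H, ∑ u : (ZMod q)ˣ, g u * (χ₀ * ψ) (u : ZMod q)‖ ^ 2 +
        2 * V / (h * M) * ∑ ψ ∈ HS H, Dn (χ₀ * ψ) := by
    intro χ₀
    have hD0 : 0 ≤ ∑ ψ ∈ HS H, Dn (χ₀ * ψ) := sum_nonneg fun ψ _ => by positivity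
    have hhM : 0 < h * M := mul_pos hHpos hM
    split_ifs with hb
    · set N1 : ℝ := ‖∑ ψ ∈ HS H, ∑ u : (ZMod q)ˣ, g u * (χ₀ * ψ) (u : ZMod q)‖ with hN1
      have h1 : h * M ≤ N1 + V * ∑ ψ ∈ HS H, Dn (χ₀ * ψ) := by
        have h2 : ∑ ψ ∈ HS H, ∑ u : (ZMod q)ˣ, g u * (χ₀ * ψ) (u : ZMod q) =
            ∑ ψ ∈ HS H, T (χ₀ * ψ) - ((h * M : ℝ) : ℂ) := by
          rw [sum_congr rfl fun ψ _ => (hTg (χ₀ * ψ)).symm, sum_sub_distrib, sum_const,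
            nsmul_eq_mul]
          push_cast
          rfl
        have h3 : ‖∑ ψ ∈ HS H, T (χ₀ * ψ)‖ ≤ V * ∑ ψ ∈ HS H, Dn (χ₀ * ψ) := by
          rw [mul_sum]
          refine (norm_sum_le _ _).trans (sum_le_sum fun ψ hψ => ?_)
          have h4 := hb ψ ((mem_HS H ψ).1 hψ)
          simp only [hT, hDn]
          rw [norm_mul, norm_mul, norm_mul, norm_pow, norm_pow, RCLike.norm_conj, pow_add]
          calc _ = ‖DirichletCharacter.LFunction (χ₀ * ψ) (1 / 2)‖ *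
              (‖Pc P (χ₀ * ψ)‖ ^ j * ‖Pc P (χ₀ * ψ)‖ ^ n * ‖Gc P D (χ₀ * ψ)‖) := by ring
            _ ≤ _ := mul_le_mul_of_nonneg_right h4 (by positivity)
        have h5 : ‖((h * M : ℝ) : ℂ)‖ ≤ N1 + ‖∑ ψ ∈ HS H, T (χ₀ * ψ)‖ := by
          have h6 : ((h * M : ℝ) : ℂ) = ∑ ψ ∈ HS H, T (χ₀ * ψ) -
              ∑ ψ ∈ HS H, ∑ u : (ZMod q)ˣ, g u * (χ₀ * ψ) (u : ZMod q) := by
            rw [h2]; ring
          rw [h6]
          refine (norm_sub_le _ _).trans ?_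
          rw [add_comm]
        rw [Complex.norm_real, Real.norm_of_nonneg hhM.le] at h5
        linarith
      rcases le_total (h * M / 2) N1 with h2 | h2
      · have h3 : 1 ≤ 4 / (h * M) ^ 2 * N1 ^ 2 := by
          rw [div_mul_eq_mul_div, le_div_iff₀ (by positivity)]
          nlinarith
        have : 0 ≤ 2 * V / (h * M) * ∑ ψ ∈ HS H, Dn (χ₀ * ψ) := by positivity
        linarith
      · have h3 : 1 ≤ 2 * V / (h * M) * ∑ ψ ∈ HS H, Dn (χ₀ * ψ) := by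
          rw [div_mul_eq_mul_div, le_div_iff₀ hhM]
          linarith
        have : 0 ≤ 4 / (h * M) ^ 2 * N1 ^ 2 := by positivity
        linarith
    · positivity
  have hcard : (((XS q).filter (fun χ₀ => ∀ ψ ∈ H,
      ‖DirichletCharacter.LFunction (χ₀ * ψ) (1 / 2)‖ ≤ V)).card : ℝ) =
      ∑ χ₀ ∈ XS q, if (∀ ψ ∈ H, ‖DirichletCharacter.LFunction (χ₀ * ψ) (1 / 2)‖ ≤ V) then (1 : ℝ)
        else 0 := by
    rw [← sum_filter, sum_const, nsmul_eq_mul, mul_one]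
  rw [hcard]
  refine (sum_le_sum fun χ₀ _ => hpt χ₀).trans ?_
  rw [sum_add_distrib, ← mul_sum, ← mul_sum, hpar, hshift]
  have hhM : 0 < h * M := mul_pos hHpos hM
  have h1 : 4 / (h * M) ^ 2 * (h ^ 2 * ((q : ℝ) - 1) * ∑ u ∈ AS (ann H), ‖g u‖ ^ 2) ≤
      ((q : ℝ) - 1) * (8 * (Z1 + E2) / M ^ 2) := by
    have h2 : 4 / (h * M) ^ 2 * (h ^ 2 * ((q : ℝ) - 1) * ∑ u ∈ AS (ann H), ‖g u‖ ^ 2) =
        4 * ((q : ℝ) - 1) / M ^ 2 * ∑ u ∈ AS (ann H), ‖g u‖ ^ 2 := by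
      field_simp
    rw [h2]
    calc 4 * ((q : ℝ) - 1) / M ^ 2 * ∑ u ∈ AS (ann H), ‖g u‖ ^ 2 ≤
        4 * ((q : ℝ) - 1) / M ^ 2 * (2 * (Z1 + E2)) :=
          mul_le_mul_of_nonneg_left hsum (by positivity)
      _ = _ := by ring
  have h2 : 2 * V / (h * M) * (h * ∑ χ ∈ XS q, Dn χ) ≤ ((q : ℝ) - 1) * (2 * V * Db / M) := by
    have h3 : 2 * V / (h * M) * (h * ∑ χ ∈ XS q, Dn χ) = 2 * V / M * ∑ χ ∈ XS q, Dn χ := by
      field_simp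
    rw [h3]
    calc 2 * V / M * ∑ χ ∈ XS q, Dn χ ≤ 2 * V / M * (((q : ℝ) - 1) * Db) :=
          mul_le_mul_of_nonneg_left hD (by positivity)
      _ = _ := by ring
  calc _ ≤ ((q : ℝ) - 1) * (8 * (Z1 + E2) / M ^ 2) + ((q : ℝ) - 1) * (2 * V * Db / M) :=
        add_le_add h1 h2
    _ = _ := by ring

end Pool.Agent.J4.H33.CS
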