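import Pool.Agent.J4.H33.CS.Cnt

/-!
# The number of the characters with few large values in the coset
-/

set_option autoImplicit false

namespace Pool.Agent.J4.H33.CS

open Finset
open scoped Classical
open Pool.Agent.R311.RES (hzv ann L_half orth card_mul)

variable {q : ℕ} [Fact q.Prime]

lemma norm_Pc_le (P : Finset ℕ) (χ : DirichletCharacter ℂ q) :
    ‖Pc P χ‖ ≤ ∑ p ∈ P, (Real.sqrt p)⁻¹ := by
  unfold Pc
  refine (norm_sum_le _ _).trans (sum_le_sum fun p _ => ?_)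
  rw [norm_mul, Complex.norm_real, Real.norm_of_nonneg (by positivity)]
  have h1 : ‖χ (p : ZMod q)‖ ≤ 1 := DirichletCharacter.norm_le_one χ _
  calc (Real.sqrt p)⁻¹ * ‖χ (p : ZMod q)‖ ≤ (Real.sqrt p)⁻¹ * 1 :=
        mul_le_mul_of_nonneg_left h1 (by positivity)
    _ = _ := mul_one _

/-- the three cases -/
lemma three_cases {N D R m V x : ℝ} (hm : 0 < m) (_hN : 0 ≤ N) (hD : 0 ≤ D) (hV : 0 < V)
    (hR : R ^ 2 ≤ x) (h : m ≤ N + V * D + R) :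
    1 ≤ 9 / m ^ 2 * N ^ 2 + 3 * V / m * D + 9 / m ^ 2 * x := by
  have hx : 0 ≤ x := le_trans (sq_nonneg _) hR
  have a1 : 0 ≤ 9 / m ^ 2 * N ^ 2 := by positivity
  have a2 : 0 ≤ 3 * V / m * D := by positivity
  have a3 : 0 ≤ 9 / m ^ 2 * x := by positivity
  rcases le_total (m / 3) N with h1 | h1
  · have h3 : 1 ≤ 9 / m ^ 2 * N ^ 2 := by
      rw [div_mul_eq_mul_div, le_div_iff₀ (by positivity)]
      have := pow_le_pow_left₀ (by positivity) h1 2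
      linarith [this, div_pow m 3 2]
    linarith
  · rcases le_total (m / 3) (V * D) with h2 | h2
    · have h3 : 1 ≤ 3 * V / m * D := by
        rw [div_mul_eq_mul_div, le_div_iff₀ hm]
        linarith
      linarith
    · have h4 : m / 3 ≤ R := by linarith
      have h3 : 1 ≤ 9 / m ^ 2 * x := by
        rw [div_mul_eq_mul_div, le_div_iff₀ (by positivity)]
        have := pow_le_pow_left₀ (by positivity) h4 2
        linarith [this, div_pow m 3 2]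
      linarith

/-- **The number of the characters with few large values in the coset.** -/
theorem bad_count2 (H : Subgroup (DirichletCharacter ℂ q)) {P : Finset ℕ}
    (hP : ∀ p ∈ P, p.Prime) (hPq : ∀ p ∈ P, p < q) {D j n : ℕ} (hDq : D < q)
    (hM : 0 < f1 P D j n (1 : (ZMod q)ˣ)) {e : (ZMod q)ˣ → ℂ}
    (he : ∀ χ : DirichletCharacter ℂ q, DirichletCharacter.LFunction χ (1 / 2) * Gc P D χ =
        Qc P D χ + ∑ u : (ZMod q)ˣ, e u * χ (u : ZMod q)) {B : ℝ}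
    (hB : ∀ c : (ZMod q)ˣ, ∑ u ∈ AS (ann H), ‖e (c * u)‖ ^ 2 ≤ B) {Z1 Db V κ W : ℝ}
    (hZ : ∑ u ∈ (AS (ann H)).erase 1, f1 P D j n u ^ 2 ≤ Z1)
    (hD : ∑ χ ∈ XS q, ‖Pc P χ‖ ^ (j + n) * ‖Gc P D χ‖ ≤ ((q : ℝ) - 1) * Db) (hV : 0 < V)
    (hκ : 0 ≤ κ) (hW : ∑ χ ∈ XS q, ‖DirichletCharacter.LFunction χ (1 / 2) * Gc P D χ‖ ^ 2 ≤
      ((q : ℝ) - 1) * W) :
    (((XS q).filter (fun χ₀ => (((HS H).filter (fun ψ =>
      V < ‖DirichletCharacter.LFunction (χ₀ * ψ) (1 / 2)‖)).card : ℝ) ≤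
        κ * ((HS H).card : ℝ))).card : ℝ) ≤
      ((q : ℝ) - 1) * (18 * (Z1 + (∑ p ∈ P, (Real.sqrt p)⁻¹) ^ (2 * (j + n)) * B) /
        f1 P D j n (1 : (ZMod q)ˣ) ^ 2 + 3 * V * Db / f1 P D j n (1 : (ZMod q)ˣ) +
        9 * κ * (∑ p ∈ P, (Real.sqrt p)⁻¹) ^ (2 * (j + n)) * W /
          f1 P D j n (1 : (ZMod q)ˣ) ^ 2) := by
  obtain ⟨M, hMdef⟩ : ∃ M, M = f1 P D j n (1 : (ZMod q)ˣ) := ⟨_, rfl⟩
  rw [← hMdef] at hM ⊢
  obtain ⟨f, hf1, hf2⟩ := conv_small (ann H) (fun p hp => ⟨hP p hp, hPq p hp⟩) j n e hB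
  obtain ⟨X, hX⟩ : ∃ X, X = ∑ p ∈ P, (Real.sqrt p)⁻¹ := ⟨_, rfl⟩
  have hX0 : 0 ≤ X := by rw [hX]; exact sum_nonneg fun p _ => by positivity
  rw [← hX] at hf2 ⊢
  obtain ⟨E2, hE2⟩ : ∃ E2, E2 = X ^ (2 * (j + n)) * B := ⟨_, rfl⟩
  rw [← hE2] at hf2 ⊢
  set T : DirichletCharacter ℂ q → ℂ := fun χ => DirichletCharacter.LFunction χ (1 / 2) *
    Gc P D χ * (Pc P χ ^ j * (starRingEnd ℂ) (Pc P χ) ^ n) with hT
  set g : (ZMod q)ˣ → ℂ := fun u => ((f1 P D j n u - if u = 1 then M else 0 : ℝ) : ℂ) + f u with hg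
  have hq1 : (0 : ℝ) ≤ (q : ℝ) - 1 := by
    have : 1 ≤ q := (Fact.out : q.Prime).one_lt.le
    have : (1 : ℝ) ≤ q := by exact_mod_cast this
    linarith
  have hTg : ∀ χ : DirichletCharacter ℂ q, T χ - M = ∑ u : (ZMod q)ˣ, g u * χ (u : ZMod q) := by
    intro χ
    have h1 : T χ = ∑ u : (ZMod q)ˣ, (f1 P D j n u : ℂ) * χ (u : ZMod q) +
        ∑ u : (ZMod q)ˣ, f u * χ (u : ZMod q) := by
      rw [← f1_id (fun p hp => ⟨hP p hp, hPq p hp⟩) hDq j n χ, ← hf1 χ, ← add_mul, ← he χ]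
    have h2 : (M : ℂ) = ∑ u : (ZMod q)ˣ, ((if u = 1 then M else 0 : ℝ) : ℂ) * χ (u : ZMod q) := by
      rw [Finset.sum_eq_single (1 : (ZMod q)ˣ)]
      · simp
      · intro u _ hu
        simp [hu]
      · intro h
        exact absurd (mem_univ _) h
    rw [h1, h2, ← sum_add_distrib, ← sum_sub_distrib]
    refine sum_congr rfl fun u _ => ?_
    simp only [hg]
    push_cast
    ring
  have hHpos : (0 : ℝ) < ((HS H).card : ℝ) := by
    have : 0 < (HS H).card := card_pos.2 ⟨1, (mem_HS H 1).2 H.one_mem⟩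
    exact_mod_cast this
  obtain ⟨h, hh⟩ : ∃ h : ℝ, h = ((HS H).card : ℝ) := ⟨_, rfl⟩
  rw [← hh] at hHpos ⊢
  -- the second moment
  have hsum : ∑ u ∈ AS (ann H), ‖g u‖ ^ 2 ≤ 2 * (Z1 + E2) := by
    have h1 : ∀ u, ‖g u‖ ^ 2 ≤ 2 * (f1 P D j n u - if u = 1 then M else 0) ^ 2 + 2 * ‖f u‖ ^ 2 := by
      intro u
      have h2 : ‖g u‖ ≤ |f1 P D j n u - if u = 1 then M else 0| + ‖f u‖ := by
        refine (norm_add_le _ _).trans ?_
        rw [Complex.norm_real, Real.norm_eq_abs]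
      have h3 : ‖g u‖ ^ 2 ≤ (|f1 P D j n u - if u = 1 then M else 0| + ‖f u‖) ^ 2 :=
        pow_le_pow_left₀ (norm_nonneg _) h2 2
      have h4 := sq_abs (f1 P D j n u - if u = 1 then M else 0)
      nlinarith [sq_nonneg (|f1 P D j n u - if u = 1 then M else 0| - ‖f u‖)]
    have h2 : ∑ u ∈ AS (ann H), (f1 P D j n u - if u = 1 then M else 0) ^ 2 ≤ Z1 := by
      rw [← Finset.add_sum_erase _ _ (one_mem_AS (ann H))]
      have h3 : (f1 P D j n (1 : (ZMod q)ˣ) - if (1 : (ZMod q)ˣ) = 1 then M else 0) ^ 2 = 0 := by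
        rw [if_pos rfl, ← hMdef, sub_self]
        ring
      rw [h3, zero_add]
      refine le_trans (le_of_eq ?_) hZ
      refine sum_congr rfl fun u hu => ?_
      rw [if_neg (mem_erase.1 hu).1, sub_zero]
    calc ∑ u ∈ AS (ann H), ‖g u‖ ^ 2 ≤ ∑ u ∈ AS (ann H),
          (2 * (f1 P D j n u - if u = 1 then M else 0) ^ 2 + 2 * ‖f u‖ ^ 2) :=
          sum_le_sum fun u _ => h1 u
      _ = 2 * ∑ u ∈ AS (ann H), (f1 P D j n u - if u = 1 then M else 0) ^ 2 +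
          2 * ∑ u ∈ AS (ann H), ‖f u‖ ^ 2 := by rw [sum_add_distrib, mul_sum, mul_sum]
      _ ≤ _ := by linarith
  have hpar := parseval_coset H g
  rw [← hh] at hpar
  -- the denominators
  set Dn : DirichletCharacter ℂ q → ℝ := fun χ => ‖Pc P χ‖ ^ (j + n) * ‖Gc P D χ‖ with hDn
  have hshift := sum_shift H Dn
  set Y : DirichletCharacter ℂ q → ℝ := fun χ =>
    ‖DirichletCharacter.LFunction χ (1 / 2) * Gc P D χ‖ ^ 2 with hY
  have hshift2 := sum_shift H Y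
  rw [← hh] at hshift hshift2
  -- the pointwise bound
  have hpt : ∀ χ₀ : DirichletCharacter ℂ q,
      (if (((HS H).filter (fun ψ =>
        V < ‖DirichletCharacter.LFunction (χ₀ * ψ) (1 / 2)‖)).card : ℝ) ≤ κ * h then (1 : ℝ) else 0) ≤
      9 / (h * M) ^ 2 * ‖∑ ψ ∈ HS H, ∑ u : (ZMod q)ˣ, g u * (χ₀ * ψ) (u : ZMod q)‖ ^ 2 +
        3 * V / (h * M) * ∑ ψ ∈ HS H, Dn (χ₀ * ψ) +
        9 / (h * M) ^ 2 * (X ^ (2 * (j + n)) * (κ * h) * ∑ ψ ∈ HS H, Y (χ₀ * ψ)) := by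
    intro χ₀
    have hD0 : 0 ≤ ∑ ψ ∈ HS H, Dn (χ₀ * ψ) := sum_nonneg fun ψ _ => by positivity
    have hY0 : 0 ≤ ∑ ψ ∈ HS H, Y (χ₀ * ψ) := sum_nonneg fun ψ _ => by positivity
    have hhM : 0 < h * M := mul_pos hHpos hM
    split_ifs with hb
    · obtain ⟨N1, hN1⟩ : ∃ N1, N1 = ‖∑ ψ ∈ HS H, ∑ u : (ZMod q)ˣ, g u * (χ₀ * ψ) (u : ZMod q)‖ :=
        ⟨_, rfl⟩
      rw [← hN1]
      obtain ⟨Bg, hBg⟩ : ∃ Bg, Bg = (HS H).filter (fun ψ =>
        V < ‖DirichletCharacter.LFunction (χ₀ * ψ) (1 / 2)‖) := ⟨_, rfl⟩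
      rw [← hBg] at hb
      obtain ⟨w, hw⟩ : ∃ w : DirichletCharacter ℂ q → ℝ, w = fun ψ =>
        ‖DirichletCharacter.LFunction (χ₀ * ψ) (1 / 2) * Gc P D (χ₀ * ψ)‖ := ⟨_, rfl⟩
      have hR : (X ^ (j + n) * ∑ ψ ∈ Bg, w ψ) ^ 2 ≤
          X ^ (2 * (j + n)) * (κ * h) * ∑ ψ ∈ HS H, Y (χ₀ * ψ) := by
        have h1 : (∑ ψ ∈ Bg, w ψ) ^ 2 ≤ (Bg.card : ℝ) * ∑ ψ ∈ Bg, w ψ ^ 2 :=
          sq_sum_le_card_mul_sum_sq
        have h2 : ∑ ψ ∈ Bg, w ψ ^ 2 ≤ ∑ ψ ∈ HS H, Y (χ₀ * ψ) := by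
          rw [hw, hBg]
          exact sum_le_sum_of_subset_of_nonneg (filter_subset _ _) fun ψ _ _ => by positivity
        have h3 : 0 ≤ ∑ ψ ∈ Bg, w ψ ^ 2 := sum_nonneg fun ψ _ => by positivity
        calc (X ^ (j + n) * ∑ ψ ∈ Bg, w ψ) ^ 2 = X ^ (2 * (j + n)) * (∑ ψ ∈ Bg, w ψ) ^ 2 := by
              rw [mul_pow, ← pow_mul, mul_comm (j + n) 2]
          _ ≤ X ^ (2 * (j + n)) * ((κ * h) * ∑ ψ ∈ HS H, Y (χ₀ * ψ)) := by
              refine mul_le_mul_of_nonneg_left (h1.trans ?_) (by positivity)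
              exact mul_le_mul hb h2 h3 (by positivity)
          _ = _ := by ring
      refine three_cases hhM (by rw [hN1]; positivity) hD0 hV hR ?_
      have h2 : ∑ ψ ∈ HS H, ∑ u : (ZMod q)ˣ, g u * (χ₀ * ψ) (u : ZMod q) =
          ∑ ψ ∈ HS H, T (χ₀ * ψ) - ((h * M : ℝ) : ℂ) := by
        rw [sum_congr rfl fun ψ _ => (hTg (χ₀ * ψ)).symm, sum_sub_distrib, sum_const,
          nsmul_eq_mul, hh]
        push_cast
        rfl
      have h3 : ‖∑ ψ ∈ HS H, T (χ₀ * ψ)‖ ≤ V * ∑ ψ ∈ HS H, Dn (χ₀ * ψ) +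
          X ^ (j + n) * ∑ ψ ∈ Bg, w ψ := by
        have e1 : ∑ ψ ∈ Bg, w ψ = ∑ ψ ∈ HS H,
            if V < ‖DirichletCharacter.LFunction (χ₀ * ψ) (1 / 2)‖ then w ψ else 0 := by
          rw [hBg, sum_filter]
        rw [e1, mul_sum, mul_sum, ← sum_add_distrib]
        refine (norm_sum_le _ _).trans (sum_le_sum fun ψ hψ => ?_)
        have e2 : ‖T (χ₀ * ψ)‖ = ‖DirichletCharacter.LFunction (χ₀ * ψ) (1 / 2)‖ *
            (‖Pc P (χ₀ * ψ)‖ ^ (j + n) * ‖Gc P D (χ₀ * ψ)‖) := by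
          simp only [hT]
          rw [norm_mul, norm_mul, norm_mul, norm_pow, norm_pow, RCLike.norm_conj, pow_add]
          ring
        rw [e2]
        split_ifs with hv
        · have h4 : ‖Pc P (χ₀ * ψ)‖ ^ (j + n) ≤ X ^ (j + n) := by
            rw [hX]
            exact pow_le_pow_left₀ (norm_nonneg _) (norm_Pc_le P _) _
          have h5 : 0 ≤ V * Dn (χ₀ * ψ) := by positivity
          have h6 : ‖DirichletCharacter.LFunction (χ₀ * ψ) (1 / 2)‖ *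
              (‖Pc P (χ₀ * ψ)‖ ^ (j + n) * ‖Gc P D (χ₀ * ψ)‖) ≤ X ^ (j + n) * w ψ := by
            rw [hw]
            simp only
            rw [norm_mul]
            calc _ = ‖Pc P (χ₀ * ψ)‖ ^ (j + n) * (‖DirichletCharacter.LFunction (χ₀ * ψ) (1 / 2)‖ *
                  ‖Gc P D (χ₀ * ψ)‖) := by ring
              _ ≤ _ := mul_le_mul_of_nonneg_right h4 (by positivity)
          linarith
        · have h4 := mul_le_mul_of_nonneg_right (not_lt.1 hv)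
            (show 0 ≤ ‖Pc P (χ₀ * ψ)‖ ^ (j + n) * ‖Gc P D (χ₀ * ψ)‖ by positivity)
          simp only [hDn]
          linarith
      have h5 : ‖((h * M : ℝ) : ℂ)‖ ≤ N1 + ‖∑ ψ ∈ HS H, T (χ₀ * ψ)‖ := by
        have h6 : ((h * M : ℝ) : ℂ) = ∑ ψ ∈ HS H, T (χ₀ * ψ) -
            ∑ ψ ∈ HS H, ∑ u : (ZMod q)ˣ, g u * (χ₀ * ψ) (u : ZMod q) := by
          rw [h2]; ring
        rw [h6, hN1]
        refine (norm_sub_le _ _).trans ?_
        rw [add_comm]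
      rw [Complex.norm_real, Real.norm_of_nonneg hhM.le] at h5
      linarith
    · positivity
  have hcard : (((XS q).filter (fun χ₀ => (((HS H).filter (fun ψ =>
      V < ‖DirichletCharacter.LFunction (χ₀ * ψ) (1 / 2)‖)).card : ℝ) ≤ κ * h)).card : ℝ) =
      ∑ χ₀ ∈ XS q, if (((HS H).filter (fun ψ =>
        V < ‖DirichletCharacter.LFunction (χ₀ * ψ) (1 / 2)‖)).card : ℝ) ≤ κ * h then (1 : ℝ)
        else 0 := by
    rw [← sum_filter, sum_const, nsmul_eq_mul, mul_one]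
  rw [hcard]
  refine (sum_le_sum fun χ₀ _ => hpt χ₀).trans ?_
  rw [sum_add_distrib, sum_add_distrib, ← mul_sum, ← mul_sum, ← mul_sum, ← mul_sum, hpar, hshift,
    hshift2]
  have hhM : 0 < h * M := mul_pos hHpos hM
  have h1 : 9 / (h * M) ^ 2 * (h ^ 2 * ((q : ℝ) - 1) * ∑ u ∈ AS (ann H), ‖g u‖ ^ 2) ≤
      ((q : ℝ) - 1) * (18 * (Z1 + E2) / M ^ 2) := by
    have h2 : 9 / (h * M) ^ 2 * (h ^ 2 * ((q : ℝ) - 1) * ∑ u ∈ AS (ann H), ‖g u‖ ^ 2) =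
        9 * ((q : ℝ) - 1) / M ^ 2 * ∑ u ∈ AS (ann H), ‖g u‖ ^ 2 := by
      field_simp
    rw [h2]
    calc 9 * ((q : ℝ) - 1) / M ^ 2 * ∑ u ∈ AS (ann H), ‖g u‖ ^ 2 ≤
        9 * ((q : ℝ) - 1) / M ^ 2 * (2 * (Z1 + E2)) :=
          mul_le_mul_of_nonneg_left hsum (by positivity)
      _ = _ := by ring
  have h2 : 3 * V / (h * M) * (h * ∑ χ ∈ XS q, Dn χ) ≤ ((q : ℝ) - 1) * (3 * V * Db / M) := by
    have h3 : 3 * V / (h * M) * (h * ∑ χ ∈ XS q, Dn χ) = 3 * V / M * ∑ χ ∈ XS q, Dn χ := by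
      field_simp
    rw [h3]
    calc 3 * V / M * ∑ χ ∈ XS q, Dn χ ≤ 3 * V / M * (((q : ℝ) - 1) * Db) :=
          mul_le_mul_of_nonneg_left hD (by positivity)
      _ = _ := by ring
  have h3 : 9 / (h * M) ^ 2 * (X ^ (2 * (j + n)) * (κ * h) * (h * ∑ χ ∈ XS q, Y χ)) ≤
      ((q : ℝ) - 1) * (9 * κ * X ^ (2 * (j + n)) * W / M ^ 2) := by
    have h4 : 9 / (h * M) ^ 2 * (X ^ (2 * (j + n)) * (κ * h) * (h * ∑ χ ∈ XS q, Y χ)) =
        9 * κ * X ^ (2 * (j + n)) / M ^ 2 * ∑ χ ∈ XS q, Y χ := by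
      field_simp
    rw [h4]
    calc 9 * κ * X ^ (2 * (j + n)) / M ^ 2 * ∑ χ ∈ XS q, Y χ ≤
        9 * κ * X ^ (2 * (j + n)) / M ^ 2 * (((q : ℝ) - 1) * W) :=
          mul_le_mul_of_nonneg_left hW (by positivity)
      _ = _ := by ring
  calc _ ≤ ((q : ℝ) - 1) * (18 * (Z1 + E2) / M ^ 2) + ((q : ℝ) - 1) * (3 * V * Db / M) +
        ((q : ℝ) - 1) * (9 * κ * X ^ (2 * (j + n)) * W / M ^ 2) :=
        add_le_add (add_le_add h1 h2) h3
    _ = _ := by ring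

end Pool.Agent.J4.H33.CS
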