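import Pool.Agent.R311.RES.A2

/-!
# Large central values in almost all cosets: definitions

`P` is a set of primes, `tup P j` are the `j`-tuples of its elements and `pr` is their product.
-/

set_option autoImplicit false

namespace Pool.Agent.J4.H33.CS

open Finset
open scoped Classical

/-- the tuples of elements of `P` -/
def tup (P : Finset ℕ) (j : ℕ) : Finset (Fin j → ℕ) := Fintype.piFinset fun _ => P

/-- the product of a tuple -/
def pr {j : ℕ} (l : Fin j → ℕ) : ℕ := ∏ i, l i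

/-- the products of `a` elements of `P` -/
def lev (P : Finset ℕ) (a : ℕ) : Finset ℕ := (tup P a).image pr

/-- the sum of the reciprocals -/
noncomputable def SS (P : Finset ℕ) : ℝ := ∑ p ∈ P, (p : ℝ)⁻¹

/-- all prime factors are in `P` -/
def Sm (P : Finset ℕ) (n : ℕ) : Prop := ∀ p : ℕ, p.Prime → p ∣ n → p ∈ P

/-- no element of `P` divides `n` -/
def Cp (P : Finset ℕ) (n : ℕ) : Prop := ∀ p ∈ P, ¬ p ∣ n

/-- `s` is in the coset `c A` -/
def Rl {q : ℕ} (A : Subgroup (ZMod q)ˣ) (s : ℕ) (c : ZMod q) : Prop :=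
  ∃ u ∈ A, (s : ZMod q) = (u : ZMod q) * c

/-- the Dirichlet polynomial over `P` -/
noncomputable def Pc {q : ℕ} (P : Finset ℕ) (χ : DirichletCharacter ℂ q) : ℂ :=
  ∑ p ∈ P, (((Real.sqrt p)⁻¹ : ℝ) : ℂ) * χ (p : ZMod q)

/-- the mollifier for the primes outside `P` -/
noncomputable def Gc {q : ℕ} (P : Finset ℕ) (D : ℕ) (χ : DirichletCharacter ℂ q) : ℂ :=
  ∑ d ∈ (Icc 1 D).filter (Cp P),
    ((((ArithmeticFunction.moebius d : ℤ) : ℝ) * (Real.sqrt d)⁻¹ : ℝ) : ℂ) * χ (d : ZMod q)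

/-- the numbers with all prime factors in `P` -/
noncomputable def Qc {q : ℕ} (P : Finset ℕ) (D : ℕ) (χ : DirichletCharacter ℂ q) : ℂ :=
  ∑ h ∈ (Icc 1 D).filter (Sm P), (((Real.sqrt h)⁻¹ : ℝ) : ℂ) * χ (h : ZMod q)

/-- the coefficients of `Qc ^ 1 * Pc ^ j * conj Pc ^ n` -/
noncomputable def f1 {q : ℕ} (P : Finset ℕ) (D j n : ℕ) (u : (ZMod q)ˣ) : ℝ :=
  ∑ h ∈ (Icc 1 D).filter (Sm P), ∑ l ∈ tup P j, ∑ m ∈ tup P n,
    if ((h * pr l : ℕ) : ZMod q) = (u : ZMod q) * ((pr m : ℕ) : ZMod q) then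
      (Real.sqrt h)⁻¹ * (Real.sqrt (pr l))⁻¹ * (Real.sqrt (pr m))⁻¹ else 0

/-- the contribution of the reduced fraction `s / t` -/
noncomputable def WW (P : Finset ℕ) (j n : ℕ) (s t : ℕ) : ℝ :=
  Real.sqrt (t / s) * ∑ m ∈ (tup P n).filter (fun m => t ∣ pr m),
    ((pr m : ℕ) : ℝ)⁻¹ * (((tup P j).filter (fun l => pr l ∣ pr m / t * s)).card : ℝ)

/-- the pairs of numbers with all prime factors in `P` which are in one coset of `A` -/
noncomputable def pairs {q : ℕ} (P : Finset ℕ) (A : Subgroup (ZMod q)ˣ) (X N : ℕ) :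
    Finset (ℕ × ℕ) :=
  ((Icc 1 X) ×ˢ (Icc 1 N)).filter fun st => Sm P st.1 ∧ Sm P st.2 ∧ Rl A st.1 (st.2 : ZMod q) ∧
    st ≠ (1, 1)

/-- the elements of `A` -/
noncomputable def AS {q : ℕ} [NeZero q] (A : Subgroup (ZMod q)ˣ) : Finset (ZMod q)ˣ :=
  univ.filter (· ∈ A)

/-- all characters -/
noncomputable def XS (q : ℕ) [NeZero q] : Finset (DirichletCharacter ℂ q) := univ

/-- the characters in `H` -/
noncomputable def HS {q : ℕ} [NeZero q] (H : Subgroup (DirichletCharacter ℂ q)) :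
    Finset (DirichletCharacter ℂ q) :=
  univ.filter (· ∈ H)

/-- the primes in `(y, y ^ (1 + ε / 4)]` -/
noncomputable def PP (ε y : ℝ) : Finset ℕ :=
  (Icc 1 ⌊y ^ (1 + ε / 4)⌋₊).filter fun p => p.Prime ∧ y < p

/-- the bound for the coefficients of the error term -/
noncomputable def eb {q : ℕ} (D : ℕ) (τ : ℝ) (u : (ZMod q)ˣ) : ℝ :=
  τ * ((if D < (u : ZMod q).val then (Real.sqrt ((u : ZMod q).val))⁻¹ else 0) +
    2 * Real.sqrt D * (Real.sqrt q)⁻¹) + 6 * Real.sqrt D * (Real.sqrt q)⁻¹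

end Pool.Agent.J4.H33.CS
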