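import Pool.Agent.J4.H33.CS.Defs

/-! Project CS, piece S1 (helper71). -/

set_option autoImplicit false

namespace Pool.Agent.J4.H33.CS

open Finset
open scoped Classical
open Pool.Agent.R311.RES (hzv ann L_half hzv_re orth card_mul sum_units chi_inv SG_half SG_summable
  G_half sqrt_step hurwitz_lower)
open ArithmeticFunction (cardFactors)

namespace S1Aux

lemma pars {q : ℕ} [Fact q.Prime] (A : Finset (ZMod q)ˣ) (g : (ZMod q)ˣ → ℂ) :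
    ∑ χ ∈ XS q, ‖∑ u ∈ A, g u * χ (u : ZMod q)‖ ^ 2 = ((q : ℝ) - 1) * ∑ u ∈ A, ‖g u‖ ^ 2 := by
  have h1 : ∀ χ : DirichletCharacter ℂ q, ((‖∑ u ∈ A, g u * χ (u : ZMod q)‖ : ℂ)) ^ 2 =
      ∑ u ∈ A, ∑ v ∈ A, g u * (starRingEnd ℂ) (g v) * (χ ((v : ZMod q)⁻¹) * χ (u : ZMod q)) := by
    intro χ
    rw [← Complex.mul_conj', map_sum, sum_mul_sum]
    refine sum_congr rfl fun u _ => sum_congr rfl fun v _ => ?_
    rw [map_mul, ZMod.inv_coe_unit, chi_inv]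
    ring
  have h2 : ∀ u v : (ZMod q)ˣ, ∑ χ ∈ XS q, χ ((v : ZMod q)⁻¹) * χ (u : ZMod q) =
      if v = u then ((q : ℂ) - 1) else 0 := by
    intro u v
    have h := DirichletCharacter.sum_char_inv_mul_char_eq ℂ (a := (v : ZMod q)) v.isUnit (u : ZMod q)
    unfold XS
    rw [h, Nat.totient_prime (Fact.out), Nat.cast_sub (Nat.Prime.one_lt Fact.out).le, Nat.cast_one]
    by_cases hvu : v = u
    · rw [if_pos hvu, if_pos (by rw [hvu])]
    · rw [if_neg hvu, if_neg (fun h' => hvu (Units.ext h'))]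
  have key : ((∑ χ ∈ XS q, ‖∑ u ∈ A, g u * χ (u : ZMod q)‖ ^ 2 : ℝ) : ℂ) =
      ((((q : ℝ) - 1) * ∑ u ∈ A, ‖g u‖ ^ 2 : ℝ) : ℂ) := by
    push_cast
    rw [sum_congr rfl (fun χ _ => h1 χ), sum_comm]
    have h3 : ∀ u ∈ A, ∑ χ ∈ XS q, ∑ v ∈ A, g u * (starRingEnd ℂ) (g v) *
        (χ ((v : ZMod q)⁻¹) * χ (u : ZMod q)) = ((q : ℂ) - 1) * (‖g u‖ : ℂ) ^ 2 := by
      intro u hu
      rw [sum_comm]
      have h4 : ∀ v ∈ A, ∑ χ ∈ XS q, g u * (starRingEnd ℂ) (g v) *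
          (χ ((v : ZMod q)⁻¹) * χ (u : ZMod q)) =
          if v = u then g u * (starRingEnd ℂ) (g v) * ((q : ℂ) - 1) else 0 := by
        intro v _
        rw [← mul_sum, h2]
        split_ifs <;> ring
      rw [sum_congr rfl h4, sum_ite_eq' A u, if_pos hu, Complex.mul_conj']
      ring
    rw [sum_congr rfl h3, mul_sum]
  exact_mod_cast key

end S1Aux

theorem parseval_coset {q : ℕ} [Fact q.Prime] (H : Subgroup (DirichletCharacter ℂ q))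
    (f : (ZMod q)ˣ → ℂ) :
    ∑ χ₀ ∈ XS q, ‖∑ ψ ∈ HS H, ∑ u : (ZMod q)ˣ, f u * (χ₀ * ψ) (u : ZMod q)‖ ^ 2 =
      ((HS H).card : ℝ) ^ 2 * ((q : ℝ) - 1) * ∑ u ∈ AS (ann H), ‖f u‖ ^ 2 := by
  have hHS : ∀ g : (ZMod q)ˣ, ∑ ψ ∈ HS H, ψ (g : ZMod q) = if g ∈ ann H then ((HS H).card : ℂ) else 0 := by
    intro g
    have h1 := orth H g
    have h2 : ∑ ψ ∈ HS H, ψ (g : ZMod q) = ∑ χ : H, (χ : DirichletCharacter ℂ q) (g : ZMod q) := by
      unfold HS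
      rw [← Finset.sum_subtype_eq_sum_filter, Finset.subtype_univ]
    have h3 : (HS H).card = Fintype.card H := by
      unfold HS
      rw [Fintype.card_subtype]
    rw [h2, h1, h3]
  have hin : ∀ χ₀ : DirichletCharacter ℂ q,
      ∑ ψ ∈ HS H, ∑ u : (ZMod q)ˣ, f u * (χ₀ * ψ) (u : ZMod q) =
      ((HS H).card : ℂ) * ∑ u ∈ AS (ann H), f u * χ₀ (u : ZMod q) := by
    intro χ₀
    rw [sum_comm]
    have h1 : ∀ u : (ZMod q)ˣ, ∑ ψ ∈ HS H, f u * (χ₀ * ψ) (u : ZMod q) =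
        if u ∈ ann H then ((HS H).card : ℂ) * (f u * χ₀ (u : ZMod q)) else 0 := by
      intro u
      have h2 : ∀ ψ : DirichletCharacter ℂ q, f u * (χ₀ * ψ) (u : ZMod q) =
          (f u * χ₀ (u : ZMod q)) * ψ (u : ZMod q) := by
        intro ψ
        rw [MulChar.mul_apply]
        ring
      rw [sum_congr rfl (fun ψ _ => h2 ψ), ← mul_sum, hHS]
      split_ifs <;> ring
    rw [sum_congr rfl (fun u _ => h1 u), ← sum_filter, mul_sum]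
    rfl
  have h5 : ∀ χ₀ ∈ XS q, ‖∑ ψ ∈ HS H, ∑ u : (ZMod q)ˣ, f u * (χ₀ * ψ) (u : ZMod q)‖ ^ 2 =
      ((HS H).card : ℝ) ^ 2 * ‖∑ u ∈ AS (ann H), f u * χ₀ (u : ZMod q)‖ ^ 2 := by
    intro χ₀ _
    rw [hin, norm_mul, mul_pow, Complex.norm_natCast]
  rw [sum_congr rfl h5, ← mul_sum, S1Aux.pars]
  ring

end Pool.Agent.J4.H33.CS
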