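import Pool.Agent.J4.H33.CS.Defs

/-! Project CS, piece T2 (helper71). -/

set_option autoImplicit false

namespace Pool.Agent.J4.H33.CS

open Finset
open scoped Classical
open Pool.Agent.R311.RES (hzv ann L_half hzv_re orth card_mul sum_units chi_inv SG_half SG_summable
  G_half sqrt_step hurwitz_lower)
open ArithmeticFunction (cardFactors)

theorem moeb {P : Finset ℕ} (hP : ∀ p ∈ P, p.Prime) {h : ℕ} (hh : h ≠ 0) :
    ∑ d ∈ h.divisors.filter (Cp P), ArithmeticFunction.moebius d = if Sm P h then (1 : ℤ) else 0 := by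
  by_cases hS : Sm P h
  · rw [if_pos hS]
    have : h.divisors.filter (Cp P) = {1} := by
      ext d
      rw [mem_filter, mem_singleton, Nat.mem_divisors]
      constructor
      · rintro ⟨⟨hd, _⟩, hc⟩
        by_contra h1
        obtain ⟨p, hp, hpd⟩ := Nat.exists_prime_and_dvd h1
        exact hc p (hS p hp (hpd.trans hd)) hpd
      · rintro rfl
        exact ⟨⟨one_dvd _, hh⟩, fun p hp h1 => (hP p hp).one_lt.ne' (Nat.dvd_one.1 h1)⟩
    rw [this, sum_singleton, ArithmeticFunction.moebius_apply_one]
  · rw [if_neg hS]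
    unfold Sm at hS
    push Not at hS
    obtain ⟨q, hq, hqh, hqP⟩ := hS
    have hsf : ∑ d ∈ (h.divisors.filter (Cp P)).filter Squarefree, ArithmeticFunction.moebius d =
        ∑ d ∈ h.divisors.filter (Cp P), ArithmeticFunction.moebius d := by
      apply Finset.sum_filter_of_ne
      intro d _ hd
      exact ArithmeticFunction.moebius_ne_zero_iff_squarefree.1 hd
    rw [← hsf]
    have hmul : ∀ e : ℕ, ¬ q ∣ e → ArithmeticFunction.moebius (q * e) = - ArithmeticFunction.moebius e := by
      intro e he
      have hc : Nat.Coprime q e := (Nat.Prime.coprime_iff_not_dvd hq).2 he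
      rw [ArithmeticFunction.isMultiplicative_moebius.map_mul_of_coprime hc,
        ArithmeticFunction.moebius_apply_prime hq]
      ring
    have hcop : ∀ e : ℕ, Squarefree (q * e) → ¬ q ∣ e := by
      intro e he hqe
      have := he q (Nat.mul_dvd_mul_left q hqe)
      exact hq.one_lt.ne' (Nat.isUnit_iff.1 this)
    refine Finset.sum_involution (fun d _ => if q ∣ d then d / q else q * d) ?_ ?_ ?_ ?_
    · intro d hd
      rw [mem_filter] at hd
      by_cases hqd : q ∣ d
      · obtain ⟨e, rfl⟩ := hqd
        simp only [dvd_mul_right, if_true, Nat.mul_div_cancel_left e hq.pos]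
        rw [hmul e (hcop e hd.2)]
        ring
      · simp only [hqd, if_false]
        rw [hmul d hqd]
        ring
    · intro d hd _ heq
      rw [mem_filter, mem_filter, Nat.mem_divisors] at hd
      have hd0 : d ≠ 0 := by
        rintro rfl
        exact hh (Nat.eq_zero_of_zero_dvd hd.1.1.1)
      by_cases hqd : q ∣ d
      · obtain ⟨e, rfl⟩ := hqd
        simp only [dvd_mul_right, if_true, Nat.mul_div_cancel_left e hq.pos] at heq
        have he0 : e ≠ 0 := by rintro rfl; simp at hd0
        have : 1 * e < q * e := Nat.mul_lt_mul_of_pos_right hq.one_lt (Nat.pos_of_ne_zero he0)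
        omega
      · simp only [hqd, if_false] at heq
        have : 1 * d < q * d := Nat.mul_lt_mul_of_pos_right hq.one_lt (Nat.pos_of_ne_zero hd0)
        omega
    · intro d hd
      rw [mem_filter, mem_filter, Nat.mem_divisors] at hd
      obtain ⟨⟨⟨hdh, _⟩, hc⟩, hs⟩ := hd
      rw [mem_filter, mem_filter, Nat.mem_divisors]
      by_cases hqd : q ∣ d
      · obtain ⟨e, rfl⟩ := hqd
        simp only [dvd_mul_right, if_true, Nat.mul_div_cancel_left e hq.pos]
        exact ⟨⟨⟨(Dvd.intro_left q rfl).trans hdh, hh⟩, fun p hp hpe => hc p hp (hpe.mul_left q)⟩,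
          hs.squarefree_of_dvd (Dvd.intro_left q rfl)⟩
      · simp only [hqd, if_false]
        have hcp : Nat.Coprime q d := (Nat.Prime.coprime_iff_not_dvd hq).2 hqd
        refine ⟨⟨⟨hcp.mul_dvd_of_dvd_of_dvd hqh hdh, hh⟩, ?_⟩, ?_⟩
        · intro p hp hpd
          rcases (Nat.Prime.dvd_mul (hP p hp)).1 hpd with h1 | h1
          · rw [Nat.prime_dvd_prime_iff_eq (hP p hp) hq] at h1
            exact hqP (h1 ▸ hp)
          · exact hc p hp h1
        · exact (Nat.squarefree_mul hcp).2 ⟨hq.prime.squarefree, hs⟩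
    · intro d hd
      rw [mem_filter] at hd
      by_cases hqd : q ∣ d
      · obtain ⟨e, rfl⟩ := hqd
        simp only [dvd_mul_right, if_true, Nat.mul_div_cancel_left e hq.pos, hcop e hd.2, if_false]
      · simp only [hqd, if_false, dvd_mul_right, if_true, Nat.mul_div_cancel_left d hq.pos]

end Pool.Agent.J4.H33.CS
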