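import Pool.Agent.J4.H33.CS.Defs

/-!
# The mollified `L`-function is a short sum plus a small error (helper52)

`L G = Q + E`: the version with the two inputs (the Hurwitz zeta function at `1/2` and the sum of the
Moebius function) as hypotheses.
-/

set_option autoImplicit false

namespace Pool.Agent.J4.H33.CS

open Finset
open scoped Classical
open Pool.Agent.R311.RES (hzv ann L_half)

namespace T3

/-- sums of `1 / √d` -/
lemma sum_sqrt_inv (D : ℕ) : ∑ i ∈ range D, (Real.sqrt ((i + 1 : ℕ) : ℝ))⁻¹ ≤ 2 * Real.sqrt D := by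
  induction D with
  | zero => simp
  | succ n ih =>
    rw [Finset.sum_range_succ]
    have hs : 0 ≤ Real.sqrt (n : ℝ) := Real.sqrt_nonneg _
    have ht : 0 < Real.sqrt ((n + 1 : ℕ) : ℝ) := Real.sqrt_pos.2 (by positivity)
    have h1 : Real.sqrt (n : ℝ) ^ 2 = n := Real.sq_sqrt (by positivity)
    have h2 : Real.sqrt ((n + 1 : ℕ) : ℝ) ^ 2 = n + 1 := by
      rw [Real.sq_sqrt (by positivity)]; push_cast; ring
    have h3 : Real.sqrt (n : ℝ) ≤ Real.sqrt ((n + 1 : ℕ) : ℝ) :=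
      Real.sqrt_le_sqrt (by push_cast; linarith)
    set s := Real.sqrt (n : ℝ)
    set t := Real.sqrt ((n + 1 : ℕ) : ℝ)
    have h4 : t⁻¹ ≤ 2 * t - 2 * s := by
      rw [inv_le_iff_one_le_mul₀ ht]
      nlinarith
    linarith

variable {q : ℕ} [Fact q.Prime]

lemma q_pos : 0 < q := (Fact.out : q.Prime).pos

/-- sums over units as sums over `1 ≤ n < q` -/
lemma sum_val (f : ℕ → ℂ) : ∑ u : (ZMod q)ˣ, f (u : ZMod q).val = ∑ n ∈ Ico 1 q, f n := by
  have hq : 0 < q := q_pos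
  have : NeZero q := ⟨hq.ne'⟩
  refine Finset.sum_bij (fun u _ => (u : ZMod q).val) ?_ ?_ ?_ ?_
  · intro u _
    rw [Finset.mem_Ico]
    refine ⟨?_, ZMod.val_lt _⟩
    have : (u : ZMod q) ≠ 0 := u.ne_zero
    have h2 := (ZMod.val_ne_zero (u : ZMod q)).2 this
    omega
  · intro a _ b _ hab
    exact Units.ext (ZMod.val_injective q hab)
  · intro n hn
    rw [Finset.mem_Ico] at hn
    have h1 : ((n : ZMod q)).val = n := ZMod.val_cast_of_lt hn.2
    have h0 : (n : ZMod q) ≠ 0 := by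
      intro h
      rw [h, ZMod.val_zero] at h1
      omega
    exact ⟨Units.mk0 (n : ZMod q) h0, Finset.mem_univ _, by simpa using h1⟩
  · intro u _
    rfl

lemma chi_zero (χ : DirichletCharacter ℂ q) : χ (0 : ZMod q) = 0 := by
  have hq : q.Prime := Fact.out
  exact MulChar.map_zero χ

lemma sum_single (χ : DirichletCharacter ℂ q) (k : ZMod q) (x : ℂ) :
    ∑ u : (ZMod q)ˣ, (if k = (u : ZMod q) then x else 0) * χ (u : ZMod q) = x * χ k := by
  by_cases hk : k = 0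
  · rw [hk, chi_zero, mul_zero]
    refine Finset.sum_eq_zero fun u _ => ?_
    rw [if_neg (fun h => u.ne_zero h.symm), zero_mul]
  · rw [Finset.sum_eq_single (Units.mk0 k hk)]
    · simp
    · intro u _ hu
      rw [if_neg, zero_mul]
      intro h
      exact hu (Units.ext (by simp [h]))
    · intro h
      exact absurd (Finset.mem_univ _) h

/-- the coefficients -/
noncomputable def g (P : Finset ℕ) (D q : ℕ) (k : ℕ) : ℝ :=
  ∑ d ∈ (Icc 1 D).filter (Cp P), ∑ n ∈ Ico 1 q,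
    if d * n = k then ((ArithmeticFunction.moebius d : ℤ) : ℝ) else 0

/-- the coefficient is a sum over divisors -/
lemma g_eq (P : Finset ℕ) (D q : ℕ) {k : ℕ} (hk : 1 ≤ k) :
    g P D q k = ∑ d ∈ (k.divisors.filter (Cp P)).filter (fun d => d ≤ D ∧ k / d < q),
      ((ArithmeticFunction.moebius d : ℤ) : ℝ) := by
  unfold g
  have h1 : ∀ d ∈ (Icc 1 D).filter (Cp P), (∑ n ∈ Ico 1 q,
      if d * n = k then ((ArithmeticFunction.moebius d : ℤ) : ℝ) else 0) =
      if d ∣ k ∧ k / d < q then ((ArithmeticFunction.moebius d : ℤ) : ℝ) else 0 := by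
    intro d hd
    rw [Finset.mem_filter, Finset.mem_Icc] at hd
    split_ifs with h
    · obtain ⟨⟨n, rfl⟩, h2⟩ := h
      rw [Nat.mul_div_cancel_left n (by omega)] at h2
      have hn : 1 ≤ n := by
        rcases Nat.eq_zero_or_pos n with h | h
        · subst h; simp at hk
        · exact h
      rw [Finset.sum_eq_single n]
      · simp
      · intro m _ hm
        rw [if_neg]
        intro h
        exact hm (Nat.eq_of_mul_eq_mul_left (by omega) h)
      · intro h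
        exact absurd (Finset.mem_Ico.2 ⟨hn, h2⟩) h
    · refine Finset.sum_eq_zero fun n hn => ?_
      rw [Finset.mem_Ico] at hn
      rw [if_neg]
      intro h3
      apply h
      refine ⟨⟨n, h3.symm⟩, ?_⟩
      rw [← h3, Nat.mul_div_cancel_left n (by omega)]
      exact hn.2
  rw [Finset.sum_congr rfl h1, ← Finset.sum_filter]
  refine Finset.sum_congr ?_ fun _ _ => rfl
  ext d
  simp only [Finset.mem_filter, Finset.mem_Icc, Nat.mem_divisors]
  constructor
  · rintro ⟨⟨⟨h1, h2⟩, h3⟩, h4, h5⟩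
    exact ⟨⟨⟨h4, by omega⟩, h3⟩, h2, h5⟩
  · rintro ⟨⟨⟨h4, h6⟩, h3⟩, h2, h5⟩
    exact ⟨⟨⟨Nat.pos_of_dvd_of_pos h4 (by omega), h2⟩, h3⟩, h4, h5⟩

lemma g_abs (P : Finset ℕ) (D q : ℕ) {k : ℕ} (hk : 1 ≤ k) :
    |g P D q k| ≤ (k.divisors.card : ℝ) := by
  rw [g_eq P D q hk]
  refine (Finset.abs_sum_le_sum_abs _ _).trans ?_
  calc ∑ d ∈ (k.divisors.filter (Cp P)).filter (fun d => d ≤ D ∧ k / d < q),
        |((ArithmeticFunction.moebius d : ℤ) : ℝ)|
      ≤ ∑ d ∈ (k.divisors.filter (Cp P)).filter (fun d => d ≤ D ∧ k / d < q), (1 : ℝ) := by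
        refine Finset.sum_le_sum fun d _ => ?_
        have := ArithmeticFunction.abs_moebius_le_one (n := d)
        exact_mod_cast this
    _ = (((k.divisors.filter (Cp P)).filter (fun d => d ≤ D ∧ k / d < q)).card : ℝ) := by
        rw [Finset.sum_const, nsmul_eq_mul, mul_one]
    _ ≤ (k.divisors.card : ℝ) := by
        exact_mod_cast (Finset.card_filter_le _ _).trans (Finset.card_filter_le _ _)

lemma g_small {P : Finset ℕ}
    (hM : ∀ h : ℕ, h ≠ 0 → ∑ d ∈ h.divisors.filter (Cp P), ArithmeticFunction.moebius d =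
      if Sm P h then (1 : ℤ) else 0) {D q : ℕ} (hDq : D < q) {k : ℕ} (hk : 1 ≤ k) (hkD : k ≤ D) :
    g P D q k = if Sm P k then (1 : ℝ) else 0 := by
  rw [g_eq P D q hk]
  have h1 : (k.divisors.filter (Cp P)).filter (fun d => d ≤ D ∧ k / d < q) =
      k.divisors.filter (Cp P) := by
    rw [Finset.filter_eq_self]
    intro d hd
    rw [Finset.mem_filter, Nat.mem_divisors] at hd
    refine ⟨(Nat.le_of_dvd (by omega) hd.1.1).trans hkD, ?_⟩
    exact lt_of_le_of_lt ((Nat.div_le_self k d).trans hkD) hDq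
  rw [h1]
  have h2 := hM k (by omega)
  have h3 : ((∑ d ∈ k.divisors.filter (Cp P), ArithmeticFunction.moebius d : ℤ) : ℝ) =
      ((if Sm P k then (1 : ℤ) else 0 : ℤ) : ℝ) := by rw [h2]
  push_cast at h3
  rw [h3]
  try rfl

/-- the numbers in one class -/
lemma sum_class {D : ℕ} (u : (ZMod q)ˣ) (f : ℕ → ℝ) :
    (∑ k ∈ Ico 1 (D * q), if (k : ZMod q) = (u : ZMod q) then f k else 0) =
      ∑ i ∈ range D, f ((u : ZMod q).val + i * q) := by
  have hq : 0 < q := q_pos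
  have : NeZero q := ⟨hq.ne'⟩
  have hv : (u : ZMod q).val < q := ZMod.val_lt _
  have hv0 : 1 ≤ (u : ZMod q).val := by
    have h2 := (ZMod.val_ne_zero (u : ZMod q)).2 u.ne_zero
    omega
  have key : ∀ k : ℕ, (k : ZMod q) = (u : ZMod q) ↔ k % q = (u : ZMod q).val := by
    intro k
    constructor
    · intro h
      rw [← h, ZMod.val_natCast]
    · intro h
      apply ZMod.val_injective q
      rw [ZMod.val_natCast, h]
  rw [← Finset.sum_filter]
  symm
  refine Finset.sum_bij (fun i _ => (u : ZMod q).val + i * q) ?_ ?_ ?_ ?_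
  · intro i hi
    rw [Finset.mem_range] at hi
    rw [Finset.mem_filter, Finset.mem_Ico, key]
    refine ⟨⟨by omega, ?_⟩, ?_⟩
    · calc (u : ZMod q).val + i * q < q + i * q := by omega
        _ = (i + 1) * q := by ring
        _ ≤ D * q := Nat.mul_le_mul_right q hi
    · rw [Nat.add_mul_mod_self_right, Nat.mod_eq_of_lt hv]
  · intro i _ j _ hij
    have h1 : i * q = j * q := Nat.add_left_cancel hij
    exact Nat.eq_of_mul_eq_mul_right hq h1
  · intro k hk
    rw [Finset.mem_filter, Finset.mem_Ico, key] at hk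
    refine ⟨k / q, ?_, ?_⟩
    · rw [Finset.mem_range]
      exact (Nat.div_lt_iff_lt_mul hq).2 hk.1.2
    · rw [← hk.2]
      rw [mul_comm]
      exact Nat.mod_add_div k q
  · intro i _
    rfl

/-- the unit of a number -/
noncomputable def du (q : ℕ) [Fact q.Prime] (d : ℕ) : (ZMod q)ˣ :=
  if h : (d : ZMod q) ≠ 0 then Units.mk0 (d : ZMod q) h else 1

lemma du_val {d : ℕ} (h1 : 1 ≤ d) (h2 : d < q) : ((du q d : (ZMod q)ˣ) : ZMod q) = d := by
  have h0 : (d : ZMod q) ≠ 0 := by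
    intro h
    have h3 : ((d : ZMod q)).val = d := ZMod.val_cast_of_lt h2
    rw [h, ZMod.val_zero] at h3
    omega
  unfold du
  rw [dif_pos h0]
  simp

/-- the first part of the error -/
noncomputable def e1 (P : Finset ℕ) (D : ℕ) (u : (ZMod q)ˣ) : ℝ :=
  (∑ k ∈ Ico 1 (D * q), if (k : ZMod q) = (u : ZMod q) then g P D q k * (Real.sqrt k)⁻¹ else 0) -
    if (u : ZMod q).val ≤ D ∧ Sm P (u : ZMod q).val then (Real.sqrt ((u : ZMod q).val))⁻¹ else 0

/-- the second part of the error -/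
noncomputable def e2 (P : Finset ℕ) (D : ℕ) (u : (ZMod q)ˣ) : ℂ :=
  ∑ d ∈ (Icc 1 D).filter (Cp P),
    ((((ArithmeticFunction.moebius d : ℤ) : ℝ) * (Real.sqrt d)⁻¹ : ℝ) : ℂ) *
      (hzv q (u * (du q d)⁻¹) -
        (((Real.sqrt (((u * (du q d)⁻¹ : (ZMod q)ˣ) : ZMod q).val))⁻¹ : ℝ) : ℂ))

lemma e1_le {P : Finset ℕ}
    (hM : ∀ h : ℕ, h ≠ 0 → ∑ d ∈ h.divisors.filter (Cp P), ArithmeticFunction.moebius d =
      if Sm P h then (1 : ℤ) else 0) {D : ℕ} (hD : 1 ≤ D) (hDq : D < q) {τ : ℝ}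
    (hτ : ∀ h : ℕ, 1 ≤ h → h < D * q → (h.divisors.card : ℝ) ≤ τ) (u : (ZMod q)ˣ) :
    |e1 P D u| ≤ τ * ((if D < (u : ZMod q).val then (Real.sqrt ((u : ZMod q).val))⁻¹ else 0) +
      2 * Real.sqrt D * (Real.sqrt q)⁻¹) := by
  have hq : 0 < q := q_pos
  have : NeZero q := ⟨hq.ne'⟩
  have hv : (u : ZMod q).val < q := ZMod.val_lt _
  have hv0 : 1 ≤ (u : ZMod q).val := by
    have h2 := (ZMod.val_ne_zero (u : ZMod q)).2 u.ne_zero
    omega
  have hDq' : q ≤ D * q := Nat.le_mul_of_pos_left q hD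
  have hτ0 : 0 ≤ τ := le_trans (by positivity) (hτ _ hv0 (by omega))
  unfold e1
  rw [sum_class u (fun k => g P D q k * (Real.sqrt k)⁻¹)]
  obtain ⟨D', rfl⟩ : ∃ D', D = D' + 1 := ⟨D - 1, by omega⟩
  rw [Finset.sum_range_succ']
  set v := (u : ZMod q).val with hvdef
  have hA : |∑ i ∈ range D', g P (D' + 1) q (v + (i + 1) * q) *
      (Real.sqrt ((v + (i + 1) * q : ℕ) : ℝ))⁻¹| ≤
      τ * (2 * Real.sqrt ((D' + 1 : ℕ) : ℝ) * (Real.sqrt q)⁻¹) := by
    refine (Finset.abs_sum_le_sum_abs _ _).trans ?_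
    calc ∑ i ∈ range D', |g P (D' + 1) q (v + (i + 1) * q) *
          (Real.sqrt ((v + (i + 1) * q : ℕ) : ℝ))⁻¹|
        ≤ ∑ i ∈ range D', τ * ((Real.sqrt ((i + 1 : ℕ) : ℝ))⁻¹ * (Real.sqrt q)⁻¹) := by
          refine Finset.sum_le_sum fun i hi => ?_
          rw [Finset.mem_range] at hi
          rw [abs_mul]
          have h1 : |g P (D' + 1) q (v + (i + 1) * q)| ≤ τ := by
            refine (g_abs P (D' + 1) q (by omega)).trans (hτ _ (by omega) ?_)
            calc v + (i + 1) * q < q + (i + 1) * q := by omega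
              _ = (i + 2) * q := by ring
              _ ≤ (D' + 1) * q := Nat.mul_le_mul_right q (by omega)
          have h2 : |(Real.sqrt ((v + (i + 1) * q : ℕ) : ℝ))⁻¹| ≤
              (Real.sqrt ((i + 1 : ℕ) : ℝ))⁻¹ * (Real.sqrt q)⁻¹ := by
            rw [abs_of_nonneg (by positivity), ← mul_inv, ← Real.sqrt_mul (by positivity)]
            apply inv_anti₀
            · apply Real.sqrt_pos.2
              have : (0 : ℝ) < q := by exact_mod_cast hq
              positivity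
            · apply Real.sqrt_le_sqrt
              push_cast
              have : (0 : ℝ) ≤ v := by positivity
              linarith
          exact mul_le_mul h1 h2 (abs_nonneg _) hτ0
      _ = τ * ((∑ i ∈ range D', (Real.sqrt ((i + 1 : ℕ) : ℝ))⁻¹) * (Real.sqrt q)⁻¹) := by
          rw [← Finset.mul_sum, Finset.sum_mul]
      _ ≤ τ * (2 * Real.sqrt ((D' + 1 : ℕ) : ℝ) * (Real.sqrt q)⁻¹) := by
          apply mul_le_mul_of_nonneg_left _ hτ0
          apply mul_le_mul_of_nonneg_right _ (by positivity)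
          refine (sum_sqrt_inv D').trans ?_
          have : Real.sqrt (D' : ℝ) ≤ Real.sqrt ((D' + 1 : ℕ) : ℝ) :=
            Real.sqrt_le_sqrt (by push_cast; linarith)
          linarith
  have hB : |g P (D' + 1) q (v + 0 * q) * (Real.sqrt ((v + 0 * q : ℕ) : ℝ))⁻¹ -
      (if v ≤ D' + 1 ∧ Sm P v then (Real.sqrt v)⁻¹ else 0)| ≤
      τ * (if D' + 1 < v then (Real.sqrt v)⁻¹ else 0) := by
    have e0 : v + 0 * q = v := by simp
    rw [e0]
    by_cases h : v ≤ D' + 1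
    · rw [g_small hM hDq hv0 h, if_neg (by omega : ¬ D' + 1 < v)]
      by_cases h2 : Sm P v
      · rw [if_pos h2, if_pos ⟨h, h2⟩]; simp
      · rw [if_neg h2, if_neg (fun h3 => h2 h3.2)]; simp
    · rw [if_neg (fun h3 => h h3.1), if_pos (by omega : D' + 1 < v), sub_zero, abs_mul,
        abs_of_nonneg (by positivity : (0 : ℝ) ≤ (Real.sqrt v)⁻¹)]
      apply mul_le_mul_of_nonneg_right _ (by positivity)
      exact (g_abs P (D' + 1) q hv0).trans (hτ _ hv0 (by omega))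
  calc _ = |(∑ i ∈ range D', g P (D' + 1) q (v + (i + 1) * q) *
          (Real.sqrt ((v + (i + 1) * q : ℕ) : ℝ))⁻¹) +
        (g P (D' + 1) q (v + 0 * q) * (Real.sqrt ((v + 0 * q : ℕ) : ℝ))⁻¹ -
        (if v ≤ D' + 1 ∧ Sm P v then (Real.sqrt v)⁻¹ else 0))| := by
          congr 1
          ring
    _ ≤ _ := (abs_add_le _ _).trans (add_le_add hA hB)
    _ = _ := by ring

lemma e2_le {P : Finset ℕ}
    (hH : ∀ a : (ZMod q)ˣ, ‖hzv q a - (((Real.sqrt ((a : ZMod q).val))⁻¹ : ℝ) : ℂ)‖ ≤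
      3 * (Real.sqrt q)⁻¹) {D : ℕ} (u : (ZMod q)ˣ) :
    ‖e2 P D u‖ ≤ 6 * Real.sqrt D * (Real.sqrt q)⁻¹ := by
  unfold e2
  refine (norm_sum_le _ _).trans ?_
  calc ∑ d ∈ (Icc 1 D).filter (Cp P),
        ‖((((ArithmeticFunction.moebius d : ℤ) : ℝ) * (Real.sqrt d)⁻¹ : ℝ) : ℂ) *
          (hzv q (u * (du q d)⁻¹) -
          (((Real.sqrt (((u * (du q d)⁻¹ : (ZMod q)ˣ) : ZMod q).val))⁻¹ : ℝ) : ℂ))‖
      ≤ ∑ d ∈ (Icc 1 D).filter (Cp P), (Real.sqrt d)⁻¹ * (3 * (Real.sqrt q)⁻¹) := by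
        refine Finset.sum_le_sum fun d _ => ?_
        rw [norm_mul]
        apply mul_le_mul _ (hH _) (norm_nonneg _) (by positivity)
        rw [Complex.norm_real, norm_mul, Real.norm_eq_abs, Real.norm_eq_abs,
          abs_of_nonneg (by positivity : (0 : ℝ) ≤ (Real.sqrt d)⁻¹)]
        have h1 : |((ArithmeticFunction.moebius d : ℤ) : ℝ)| ≤ 1 := by
          have := ArithmeticFunction.abs_moebius_le_one (n := d)
          exact_mod_cast this
        calc _ ≤ 1 * (Real.sqrt d)⁻¹ := mul_le_mul_of_nonneg_right h1 (by positivity)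
          _ = _ := one_mul _
    _ ≤ ∑ d ∈ Icc 1 D, (Real.sqrt d)⁻¹ * (3 * (Real.sqrt q)⁻¹) := by
        apply Finset.sum_le_sum_of_subset_of_nonneg (Finset.filter_subset _ _)
        intro d _ _
        positivity
    _ = (∑ i ∈ range D, (Real.sqrt ((i + 1 : ℕ) : ℝ))⁻¹) * (3 * (Real.sqrt q)⁻¹) := by
        rw [← Finset.sum_mul]
        congr 1
        rw [Finset.range_eq_Ico, Finset.sum_Ico_add' (fun d : ℕ => (Real.sqrt (d : ℝ))⁻¹) 0 D 1]
        rfl
    _ ≤ 2 * Real.sqrt D * (3 * (Real.sqrt q)⁻¹) :=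
        mul_le_mul_of_nonneg_right (sum_sqrt_inv D) (by positivity)
    _ = _ := by ring

lemma sum_e1 (P : Finset ℕ) {D : ℕ} (hD : 1 ≤ D) (hDq : D < q) (χ : DirichletCharacter ℂ q) :
    ∑ u : (ZMod q)ˣ, (e1 P D u : ℂ) * χ (u : ZMod q) =
      (∑ n ∈ Ico 1 q, (((Real.sqrt n)⁻¹ : ℝ) : ℂ) * χ (n : ZMod q)) * Gc P D χ - Qc P D χ := by
  have hq : 0 < q := q_pos
  have : NeZero q := ⟨hq.ne'⟩
  have h1 : ∀ u : (ZMod q)ˣ, (e1 P D u : ℂ) * χ (u : ZMod q) =
      (∑ k ∈ Ico 1 (D * q), (if (k : ZMod q) = (u : ZMod q) then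
        ((g P D q k * (Real.sqrt k)⁻¹ : ℝ) : ℂ) else 0) * χ (u : ZMod q)) -
      (if (u : ZMod q).val ≤ D ∧ Sm P (u : ZMod q).val then
        (((Real.sqrt ((u : ZMod q).val))⁻¹ : ℝ) : ℂ) * χ (((u : ZMod q).val : ℕ) : ZMod q)
        else 0) := by
    intro u
    unfold e1
    rw [ZMod.natCast_zmod_val, ← Finset.sum_mul]
    push_cast
    rw [sub_mul]
    congr 1
    · congr 1
      refine Finset.sum_congr rfl fun k _ => ?_
      split_ifs <;> simp
    · split_ifs <;> simp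
  rw [Finset.sum_congr rfl fun u _ => h1 u, Finset.sum_sub_distrib]
  congr 1
  · rw [Finset.sum_comm]
    have hs : ∀ k ∈ Ico 1 (D * q), (∑ u : (ZMod q)ˣ, (if (k : ZMod q) = (u : ZMod q) then
        ((g P D q k * (Real.sqrt k)⁻¹ : ℝ) : ℂ) else 0) * χ (u : ZMod q)) =
        ((g P D q k * (Real.sqrt k)⁻¹ : ℝ) : ℂ) * χ (k : ZMod q) :=
      fun k _ => sum_single χ (k : ZMod q) _
    rw [Finset.sum_congr rfl hs]
    -- insert the definition of g
    have h2 : ∀ k ∈ Ico 1 (D * q), ((g P D q k * (Real.sqrt k)⁻¹ : ℝ) : ℂ) * χ (k : ZMod q) =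
        ∑ d ∈ (Icc 1 D).filter (Cp P), ∑ n ∈ Ico 1 q, if d * n = k then
          (((((ArithmeticFunction.moebius d : ℤ) : ℝ) * (Real.sqrt d)⁻¹ : ℝ) : ℂ) *
            χ (d : ZMod q)) * ((((Real.sqrt n)⁻¹ : ℝ) : ℂ) * χ (n : ZMod q)) else 0 := by
      intro k _
      unfold g
      rw [Finset.sum_mul]
      push_cast
      rw [Finset.sum_mul]
      refine Finset.sum_congr rfl fun d _ => ?_
      rw [Finset.sum_mul, Finset.sum_mul]
      refine Finset.sum_congr rfl fun n _ => ?_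
      by_cases h : d * n = k
      · rw [if_pos h, if_pos h, ← h]
        push_cast
        rw [map_mul, Real.sqrt_mul (by positivity)]
        push_cast
        rw [mul_inv]
        ring
      · rw [if_neg h, if_neg h]
        simp
    rw [Finset.sum_congr rfl h2, Finset.sum_comm]
    unfold Gc
    rw [mul_comm (∑ n ∈ Ico 1 q, (((Real.sqrt n)⁻¹ : ℝ) : ℂ) * χ (n : ZMod q)) _, Finset.sum_mul]
    refine Finset.sum_congr rfl fun d hd => ?_
    rw [Finset.mem_filter, Finset.mem_Icc] at hd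
    rw [Finset.sum_comm, Finset.mul_sum]
    refine Finset.sum_congr rfl fun n hn => ?_
    rw [Finset.mem_Ico] at hn
    rw [Finset.sum_ite_eq, if_pos]
    rw [Finset.mem_Ico]
    constructor
    · exact Nat.mul_pos (by omega) (by omega)
    · calc d * n ≤ D * n := Nat.mul_le_mul_right n hd.1.2
        _ < D * q := Nat.mul_lt_mul_of_pos_left hn.2 (by omega)
  · rw [sum_val (q := q) (fun v => if v ≤ D ∧ Sm P v then
      (((Real.sqrt (v : ℝ))⁻¹ : ℝ) : ℂ) * χ ((v : ℕ) : ZMod q) else 0)]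
    unfold Qc
    rw [← Finset.sum_filter]
    refine Finset.sum_congr ?_ fun _ _ => rfl
    ext v
    simp only [Finset.mem_filter, Finset.mem_Ico, Finset.mem_Icc]
    constructor
    · rintro ⟨⟨h1, h2⟩, h3, h4⟩
      exact ⟨⟨h1, h3⟩, h4⟩
    · rintro ⟨⟨h1, h3⟩, h4⟩
      exact ⟨⟨h1, by omega⟩, h3, h4⟩

lemma sum_e2 (P : Finset ℕ) {D : ℕ} (hDq : D < q) (χ : DirichletCharacter ℂ q) :
    ∑ u : (ZMod q)ˣ, e2 P D u * χ (u : ZMod q) =
      (∑ a : (ZMod q)ˣ, (hzv q a - (((Real.sqrt ((a : ZMod q).val))⁻¹ : ℝ) : ℂ)) *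
        χ (a : ZMod q)) * Gc P D χ := by
  unfold e2 Gc
  simp_rw [Finset.sum_mul]
  rw [Finset.sum_comm]
  rw [← Finset.sum_mul, Finset.mul_sum]
  refine Finset.sum_congr rfl fun d hd => ?_
  rw [Finset.mem_filter, Finset.mem_Icc] at hd
  have hdv : ((du q d : (ZMod q)ˣ) : ZMod q) = d := du_val hd.1.1 (by omega)
  rw [Finset.sum_mul]
  refine Fintype.sum_equiv (Equiv.mulRight (du q d)⁻¹) _ _ fun u => ?_
  simp only [Equiv.coe_mulRight]
  have h1 : χ (u : ZMod q) = χ ((u * (du q d)⁻¹ : (ZMod q)ˣ) : ZMod q) * χ (d : ZMod q) := by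
    rw [← map_mul, ← hdv, ← Units.val_mul]
    congr 2
    group
  rw [h1]
  ring

end T3

/-- the decomposition, with the two inputs as hypotheses -/
theorem decomp_of {q : ℕ} [Fact q.Prime] {P : Finset ℕ}
    (hH : ∀ a : (ZMod q)ˣ, ‖hzv q a - (((Real.sqrt ((a : ZMod q).val))⁻¹ : ℝ) : ℂ)‖ ≤
      3 * (Real.sqrt q)⁻¹)
    (hM : ∀ h : ℕ, h ≠ 0 → ∑ d ∈ h.divisors.filter (Cp P), ArithmeticFunction.moebius d =
      if Sm P h then (1 : ℤ) else 0) {D : ℕ} (hD : 1 ≤ D)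
    (hDq : D < q) : ∃ e : (ZMod q)ˣ → ℂ,
      (∀ χ : DirichletCharacter ℂ q, DirichletCharacter.LFunction χ (1 / 2) * Gc P D χ =
        Qc P D χ + ∑ u : (ZMod q)ˣ, e u * χ (u : ZMod q)) ∧
      ∀ τ : ℝ, (∀ h : ℕ, 1 ≤ h → h < D * q → (h.divisors.card : ℝ) ≤ τ) → ∀ u, ‖e u‖ ≤ eb D τ u := by
  refine ⟨fun u => (T3.e1 P D u : ℂ) + T3.e2 P D u, ?_, ?_⟩
  · intro χ
    have h1 := T3.sum_e1 P hD hDq χ
    have h2 := T3.sum_e2 P hDq χ
    have h3 : (∑ a : (ZMod q)ˣ, (((Real.sqrt ((a : ZMod q).val))⁻¹ : ℝ) : ℂ) * χ (a : ZMod q)) =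
        ∑ n ∈ Ico 1 q, (((Real.sqrt n)⁻¹ : ℝ) : ℂ) * χ (n : ZMod q) := by
      rw [← T3.sum_val (q := q) (fun n => (((Real.sqrt n)⁻¹ : ℝ) : ℂ) * χ (n : ZMod q))]
      have : NeZero q := ⟨(Fact.out : q.Prime).ne_zero⟩
      refine Finset.sum_congr rfl fun u _ => ?_
      rw [ZMod.natCast_zmod_val]
    simp_rw [add_mul, Finset.sum_add_distrib]
    rw [h1, h2, L_half, ← h3]
    simp_rw [sub_mul, Finset.sum_sub_distrib]
    have h4 : ∑ a : (ZMod q)ˣ, χ (a : ZMod q) * hzv q a =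
        ∑ a : (ZMod q)ˣ, hzv q a * χ (a : ZMod q) :=
      Finset.sum_congr rfl fun a _ => mul_comm _ _
    rw [h4]
    ring
  · intro τ hτ u
    refine (norm_add_le _ _).trans ?_
    rw [Complex.norm_real, Real.norm_eq_abs]
    unfold eb
    exact add_le_add (T3.e1_le hM hD hDq hτ u) (T3.e2_le hH u)

end Pool.Agent.J4.H33.CS
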