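import Pool.Agent.J4.H33.CS.T1
import Pool.Agent.J4.H33.CS.T2
import Pool.Agent.J4.H33.CS.T3a

/-!
# The mollified `L`-function is a short sum plus a small error (helper52)
-/

set_option autoImplicit false

namespace Pool.Agent.J4.H33.CS

open Finset
open scoped Classical

theorem decomp {q : ℕ} [Fact q.Prime] {P : Finset ℕ} (hP : ∀ p ∈ P, p.Prime) {D : ℕ} (hD : 1 ≤ D)
    (hDq : D < q) : ∃ e : (ZMod q)ˣ → ℂ,
      (∀ χ : DirichletCharacter ℂ q, DirichletCharacter.LFunction χ (1 / 2) * Gc P D χ =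
        Qc P D χ + ∑ u : (ZMod q)ˣ, e u * χ (u : ZMod q)) ∧
      ∀ τ : ℝ, (∀ h : ℕ, 1 ≤ h → h < D * q → (h.divisors.card : ℝ) ≤ τ) → ∀ u, ‖e u‖ ≤ eb D τ u :=
  decomp_of hzv_near (fun _ hh => moeb hP hh) hD hDq

end Pool.Agent.J4.H33.CS
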