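import Pool.Agent.J4.H33.CS.T5
import Pool.Agent.J4.H33.CS.T3
import Pool.Agent.J4.H33.CS.S1

/-!
# The mollified second moment over all characters, crude bound
-/

set_option autoImplicit false

namespace Pool.Agent.J4.H33.CS

open Finset
open scoped Classical

namespace Eng

lemma inv_sum {q : ℕ} [Fact q.Prime] (D : ℕ) :
    ∑ u : (ZMod q)ˣ, (if D < (u : ZMod q).val then (((u : ZMod q).val : ℝ))⁻¹ else 0) ≤
      1 + Real.log q := by
  have hqp : q.Prime := Fact.out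
  have h1 : ∑ u : (ZMod q)ˣ, (if D < (u : ZMod q).val then (((u : ZMod q).val : ℝ))⁻¹ else 0) ≤
      ∑ u : (ZMod q)ˣ, (((u : ZMod q).val : ℝ))⁻¹ := by
    refine sum_le_sum fun u _ => ?_
    split_ifs
    · exact le_rfl
    · positivity
  have h2 : ∑ u : (ZMod q)ˣ, (((u : ZMod q).val : ℝ))⁻¹ = ∑ n ∈ Ico 1 q, ((n : ℝ))⁻¹ := by
    have h3 := T3.sum_val (q := q) (fun n => (((n : ℝ)⁻¹ : ℝ) : ℂ))
    exact_mod_cast h3
  have h4 : ∑ n ∈ Ico 1 q, ((n : ℝ))⁻¹ ≤ ∑ n ∈ Icc 1 q, ((n : ℝ))⁻¹ := by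
    refine sum_le_sum_of_subset_of_nonneg ?_ fun _ _ _ => by positivity
    intro n hn
    rw [mem_Ico] at hn
    rw [mem_Icc]
    omega
  have h5 := harmonic_le_one_add_log q
  rw [harmonic_eq_sum_Icc] at h5
  push_cast at h5
  linarith

lemma Qc_le {q : ℕ} (P : Finset ℕ) (D : ℕ) (χ : DirichletCharacter ℂ q) :
    ‖Qc P D χ‖ ≤ 2 * Real.sqrt D := by
  unfold Qc
  have h1 : ‖∑ h ∈ (Icc 1 D).filter (Sm P), (((Real.sqrt h)⁻¹ : ℝ) : ℂ) * χ (h : ZMod q)‖ ≤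
      ∑ h ∈ (Icc 1 D).filter (Sm P), (Real.sqrt h)⁻¹ := by
    refine (norm_sum_le _ _).trans (sum_le_sum fun p _ => ?_)
    rw [norm_mul, Complex.norm_real, Real.norm_of_nonneg (by positivity)]
    have h1 : ‖χ (p : ZMod q)‖ ≤ 1 := DirichletCharacter.norm_le_one χ _
    calc (Real.sqrt p)⁻¹ * ‖χ (p : ZMod q)‖ ≤ (Real.sqrt p)⁻¹ * 1 :=
          mul_le_mul_of_nonneg_left h1 (by positivity)
      _ = _ := mul_one _
  have h2 : ∑ h ∈ (Icc 1 D).filter (Sm P), (Real.sqrt h)⁻¹ ≤ ∑ h ∈ Icc 1 D, (Real.sqrt h)⁻¹ :=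
    sum_le_sum_of_subset_of_nonneg (filter_subset _ _) fun _ _ _ => by positivity
  have h3 : ∑ h ∈ Icc 1 D, (Real.sqrt h)⁻¹ = ∑ i ∈ range D, (Real.sqrt ((i + 1 : ℕ) : ℝ))⁻¹ := by
    rw [Finset.range_eq_Ico, Finset.sum_Ico_add' (fun i : ℕ => (Real.sqrt (i : ℝ))⁻¹) 0 D 1]
    refine sum_congr ?_ fun _ _ => rfl
    ext i
    rw [mem_Icc, mem_Ico]
    omega
  have h4 := T3.sum_sqrt_inv D
  linarith

theorem e_small {ε : ℝ} (h0 : 0 < ε) (h1 : ε ≤ 1) : ∃ q₀ : ℕ, ∀ (q : ℕ) [Fact q.Prime], q₀ ≤ q →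
    ∀ D : ℕ, (D : ℝ) ≤ (q : ℝ) ^ (ε / 16) → ∀ e : (ZMod q)ˣ → ℂ,
      (∀ τ : ℝ, (∀ h : ℕ, 1 ≤ h → h < D * q → (h.divisors.card : ℝ) ≤ τ) → ∀ u, ‖e u‖ ≤ eb D τ u) →
    ∑ u : (ZMod q)ˣ, ‖e u‖ ^ 2 ≤ (q : ℝ) ^ (ε / 8) := by
  obtain ⟨η, hη⟩ : ∃ η, η = ε / 200 := ⟨_, rfl⟩
  have hη0 : 0 < η := by rw [hη]; positivity
  obtain ⟨C, hC1, hC⟩ := Pool.Agent.H505R2.div_bound hη0
  have hC0 : 0 < C := by linarith
  obtain ⟨κ, hκ⟩ : ∃ κ, κ = ε / 50 := ⟨_, rfl⟩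
  have hκ0 : 0 < κ := by rw [hκ]; positivity
  obtain ⟨L₀, hL₀, hlarge⟩ := T5.large hκ0 (K := 123 * C ^ 2) (by positivity) (R := 1) zero_le_one
  refine ⟨⌈Real.exp L₀⌉₊, ?_⟩
  intro q hqF hqq D hD2 e he
  have hqp : q.Prime := Fact.out
  have hq0 : (0 : ℝ) < q := by exact_mod_cast hqp.pos
  have hq1 : (1 : ℝ) < q := by exact_mod_cast hqp.one_lt
  obtain ⟨L, hL⟩ : ∃ L, L = Real.log q := ⟨_, rfl⟩
  have hqexp : (q : ℝ) = Real.exp L := by rw [hL, Real.exp_log hq0]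
  have hLL₀ : L₀ ≤ L := by
    have : Real.exp L₀ ≤ q := (Nat.le_ceil _).trans (by exact_mod_cast hqq)
    rw [hqexp] at this
    exact Real.exp_le_exp.mp this
  have hL0 : 0 ≤ L := by linarith
  obtain ⟨hKb, hRb⟩ := hlarge L hLL₀
  have hDle : (D : ℝ) ≤ Real.exp (ε / 16 * L) := by
    rw [hqexp, ← Real.exp_mul] at hD2
    refine hD2.trans (le_of_eq ?_)
    congr 1
    ring
  obtain ⟨τ, hτ⟩ : ∃ τ, τ = C * Real.exp (2 * η * L) := ⟨_, rfl⟩
  have hτ1 : 1 ≤ τ := by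
    rw [hτ]
    have : 1 ≤ Real.exp (2 * η * L) := Real.one_le_exp (by positivity)
    nlinarith
  have hDq : (D : ℝ) ≤ q := by
    rw [hqexp]
    refine hDle.trans (Real.exp_le_exp.mpr ?_)
    nlinarith
  have hdiv : ∀ h : ℕ, 1 ≤ h → h < D * q → (h.divisors.card : ℝ) ≤ τ := by
    intro h hh1 hh2
    refine (hC h (by omega)).trans ?_
    rw [hτ]
    apply mul_le_mul_of_nonneg_left _ hC0.le
    have hh3 : (h : ℝ) ≤ Real.exp (2 * L) := by
      have : (h : ℝ) ≤ (D : ℝ) * q := by exact_mod_cast hh2.le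
      calc (h : ℝ) ≤ (D : ℝ) * q := this
        _ ≤ q * q := mul_le_mul_of_nonneg_right hDq hq0.le
        _ = Real.exp (2 * L) := by rw [hqexp, ← Real.exp_add]; congr 1; ring
    calc (h : ℝ) ^ η ≤ (Real.exp (2 * L)) ^ η :=
          Real.rpow_le_rpow (Nat.cast_nonneg _) hh3 hη0.le
      _ = Real.exp (2 * η * L) := by rw [← Real.exp_mul]; congr 1; ring
  have heb := he τ hdiv
  have hcardu : (((univ : Finset (ZMod q)ˣ).card : ℕ) : ℝ) ≤ q := by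
    rw [Finset.card_univ, ZMod.card_units_eq_totient, Nat.totient_prime hqp]
    exact_mod_cast Nat.sub_le _ _
  have hsq : ∑ u : (ZMod q)ˣ, ‖e u‖ ^ 2 ≤ 3 * τ ^ 2 * (1 + L) + (12 * τ ^ 2 + 108) * D := by
    calc ∑ u : (ZMod q)ˣ, ‖e u‖ ^ 2 ≤ ∑ u : (ZMod q)ˣ, (3 * τ ^ 2 *
          (if D < (u : ZMod q).val then (((u : ZMod q).val : ℝ))⁻¹ else 0) +
            (12 * τ ^ 2 + 108) * (D * (q : ℝ)⁻¹)) := by
          refine Finset.sum_le_sum fun u _ => ?_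
          exact (pow_le_pow_left₀ (norm_nonneg _) (heb u) 2).trans (T5.eb_sq D τ u)
      _ = 3 * τ ^ 2 * ∑ u : (ZMod q)ˣ,
            (if D < (u : ZMod q).val then (((u : ZMod q).val : ℝ))⁻¹ else 0) +
          ((univ : Finset (ZMod q)ˣ).card : ℝ) * ((12 * τ ^ 2 + 108) * (D * (q : ℝ)⁻¹)) := by
          rw [Finset.sum_add_distrib, ← Finset.mul_sum, Finset.sum_const, nsmul_eq_mul]
      _ ≤ 3 * τ ^ 2 * (1 + L) + q * ((12 * τ ^ 2 + 108) * (D * (q : ℝ)⁻¹)) := by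
          refine add_le_add (mul_le_mul_of_nonneg_left ?_ (by positivity))
            (mul_le_mul_of_nonneg_right hcardu (by positivity))
          rw [hL]
          exact inv_sum D
      _ = _ := by field_simp
  refine hsq.trans ?_
  have hτ2 : τ ^ 2 = C ^ 2 * Real.exp (4 * η * L) := by
    have h2 : Real.exp (2 * η * L) ^ 2 = Real.exp (4 * η * L) := by
      rw [sq, ← Real.exp_add]
      congr 1
      ring
    rw [hτ, mul_pow, h2]
  have hE1 : 1 ≤ Real.exp (ε / 16 * L) := Real.one_le_exp (by positivity)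
  have ht1 : 3 * τ ^ 2 * (1 + L) ≤ 3 * τ ^ 2 * (1 + L) * Real.exp (ε / 16 * L) :=
    le_mul_of_one_le_right (by positivity) hE1
  have ht2 : (12 * τ ^ 2 + 108) * D ≤ 120 * τ ^ 2 * (1 + L) * Real.exp (ε / 16 * L) := by
    have h120 : 12 * τ ^ 2 + 108 ≤ 120 * τ ^ 2 := by nlinarith
    have h121 : 120 * τ ^ 2 ≤ 120 * τ ^ 2 * (1 + L) :=
      le_mul_of_one_le_right (by positivity) (by linarith)
    exact mul_le_mul (h120.trans h121) hDle (Nat.cast_nonneg _) (by positivity)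
  have ht3 : 123 * τ ^ 2 * (1 + L) * Real.exp (ε / 16 * L) ≤ (q : ℝ) ^ (ε / 8) := by
    calc 123 * τ ^ 2 * (1 + L) * Real.exp (ε / 16 * L) =
        (123 * C ^ 2) * (1 + 1 * L) * (Real.exp (4 * η * L) * Real.exp (ε / 16 * L)) := by
          rw [hτ2]; ring
      _ ≤ Real.exp (κ * L) * Real.exp (κ * L) * (Real.exp (4 * η * L) * Real.exp (ε / 16 * L)) := by
          apply mul_le_mul_of_nonneg_right _ (by positivity)
          exact mul_le_mul hKb hRb (by linarith) (Real.exp_pos _).le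
      _ = Real.exp ((κ + κ + 4 * η + ε / 16) * L) := by
          rw [← Real.exp_add, ← Real.exp_add, ← Real.exp_add]
          congr 1
          ring
      _ ≤ Real.exp (L * (ε / 8)) := by
          apply Real.exp_le_exp.mpr
          have : (κ + κ + 4 * η + ε / 16) ≤ ε / 8 := by
            rw [hκ, hη]
            linarith
          have := mul_le_mul_of_nonneg_right this hL0
          linarith
      _ = _ := by rw [hqexp, ← Real.exp_mul]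
  have : 3 * τ ^ 2 * (1 + L) * Real.exp (ε / 16 * L) + 120 * τ ^ 2 * (1 + L) *
      Real.exp (ε / 16 * L) = 123 * τ ^ 2 * (1 + L) * Real.exp (ε / 16 * L) := by ring
  linarith

end Eng

/-- the mollified second moment -/
theorem mean_LG {q : ℕ} [Fact q.Prime] (P : Finset ℕ) (D : ℕ) {e : (ZMod q)ˣ → ℂ}
    (he : ∀ χ : DirichletCharacter ℂ q, DirichletCharacter.LFunction χ (1 / 2) * Gc P D χ =
        Qc P D χ + ∑ u : (ZMod q)ˣ, e u * χ (u : ZMod q)) {w : ℝ} (hD : (D : ℝ) ≤ w)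
    (hw : ∑ u : (ZMod q)ˣ, ‖e u‖ ^ 2 ≤ w) :
    ∑ χ ∈ XS q, ‖DirichletCharacter.LFunction χ (1 / 2) * Gc P D χ‖ ^ 2 ≤
      ((q : ℝ) - 1) * (10 * w) := by
  have hqp : q.Prime := Fact.out
  have hq1 : (0 : ℝ) ≤ (q : ℝ) - 1 := by
    have : (1 : ℝ) ≤ q := by exact_mod_cast hqp.one_lt.le
    linarith
  have h1 : ∀ χ ∈ XS q, ‖DirichletCharacter.LFunction χ (1 / 2) * Gc P D χ‖ ^ 2 ≤
      8 * (D : ℝ) + 2 * ‖∑ u : (ZMod q)ˣ, e u * χ (u : ZMod q)‖ ^ 2 := by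
    intro χ _
    rw [he χ]
    have h2 := norm_add_le (Qc P D χ) (∑ u : (ZMod q)ˣ, e u * χ (u : ZMod q))
    have h3 := pow_le_pow_left₀ (norm_nonneg _) h2 2
    have h4 := Eng.Qc_le P D χ
    have h5 := pow_le_pow_left₀ (norm_nonneg _) h4 2
    rw [mul_pow, Real.sq_sqrt (Nat.cast_nonneg _)] at h5
    have h6 := add_sq_le (a := ‖Qc P D χ‖) (b := ‖∑ u : (ZMod q)ˣ, e u * χ (u : ZMod q)‖)
    linarith
  refine (sum_le_sum h1).trans ?_
  rw [sum_add_distrib, sum_const, nsmul_eq_mul, ← mul_sum, S1Aux.pars]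
  have hcard : ((XS q).card : ℝ) = (q : ℝ) - 1 := by
    have h2 := S1Aux.pars (q := q) {1} (fun _ => 1)
    simp only [sum_singleton, Units.val_one, map_one, mul_one, norm_one, one_pow, sum_const,
      nsmul_eq_mul, card_singleton, Nat.cast_one] at h2
    exact h2
  rw [hcard]
  have h7 : ((q : ℝ) - 1) * (8 * (D : ℝ)) ≤ ((q : ℝ) - 1) * (8 * w) :=
    mul_le_mul_of_nonneg_left (by linarith) hq1
  have h8 : 2 * (((q : ℝ) - 1) * ∑ u : (ZMod q)ˣ, ‖e u‖ ^ 2) ≤ 2 * (((q : ℝ) - 1) * w) :=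
    mul_le_mul_of_nonneg_left (mul_le_mul_of_nonneg_left hw hq1) (by norm_num)
  linarith

end Pool.Agent.J4.H33.CS
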