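import Pool.Agent.J4.H33.CS.Defs

/-!
# Project CS, piece F: the off-diagonal terms are controlled by reduced fractions
(helper24 for helper33)
-/

set_option autoImplicit false

namespace Pool.Agent.J4.H33.CS

open Finset
open scoped Classical

namespace F

lemma pr_pos {P : Finset ℕ} (hP : ∀ p ∈ P, p.Prime) {j : ℕ} {l : Fin j → ℕ} (hl : l ∈ tup P j) :
    0 < pr l := by
  unfold tup at hl
  rw [Fintype.mem_piFinset] at hl
  exact Finset.prod_pos fun i _ => (hP _ (hl i)).pos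

lemma pr_le {P : Finset ℕ} {z : ℕ} (hz : ∀ p ∈ P, p ≤ z) {j : ℕ} {l : Fin j → ℕ}
    (hl : l ∈ tup P j) : pr l ≤ z ^ j := by
  unfold tup at hl
  rw [Fintype.mem_piFinset] at hl
  calc pr l = ∏ i, l i := rfl
    _ ≤ ∏ _i : Fin j, z := Finset.prod_le_prod' fun i _ => hz _ (hl i)
    _ = z ^ j := by simp

lemma sm_pr {P : Finset ℕ} (hP : ∀ p ∈ P, p.Prime) {j : ℕ} {l : Fin j → ℕ} (hl : l ∈ tup P j) :
    Sm P (pr l) := by
  unfold tup at hl
  rw [Fintype.mem_piFinset] at hl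
  intro p hp hd
  obtain ⟨i, -, hi⟩ := (Prime.dvd_finsetProd_iff hp.prime _).1 hd
  have := (Nat.prime_dvd_prime_iff_eq hp (hP _ (hl i))).1 hi
  rw [this]
  exact hl i

lemma sm_mul {P : Finset ℕ} {a b : ℕ} (ha : Sm P a) (hb : Sm P b) : Sm P (a * b) := by
  intro p hp hd
  rcases (Nat.Prime.dvd_mul hp).1 hd with h | h
  · exact ha p hp h
  · exact hb p hp h

lemma sm_dvd {P : Finset ℕ} {a b : ℕ} (hb : Sm P b) (h : a ∣ b) : Sm P a :=
  fun p hp hd => hb p hp (hd.trans h)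

/-- one term -/
noncomputable def tm {q : ℕ} {j n : ℕ} (u : (ZMod q)ˣ) (h : ℕ) (l : Fin j → ℕ) (m : Fin n → ℕ) :
    ℝ :=
  if ((h * pr l : ℕ) : ZMod q) = (u : ZMod q) * ((pr m : ℕ) : ZMod q) then
      (Real.sqrt h)⁻¹ * (Real.sqrt (pr l))⁻¹ * (Real.sqrt (pr m))⁻¹ else 0

lemma tm_nonneg {q : ℕ} {j n : ℕ} (u : (ZMod q)ˣ) (h : ℕ) (l : Fin j → ℕ) (m : Fin n → ℕ) :
    0 ≤ tm u h l m := by
  unfold tm
  split_ifs
  · positivity
  · exact le_refl 0

lemma f1_eq {q : ℕ} (P : Finset ℕ) (D j n : ℕ) (u : (ZMod q)ˣ) :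
    f1 P D j n u = ∑ h ∈ (Icc 1 D).filter (Sm P), ∑ l ∈ tup P j, ∑ m ∈ tup P n, tm u h l m := rfl

lemma f1_nonneg {q : ℕ} (P : Finset ℕ) (D j n : ℕ) (u : (ZMod q)ˣ) : 0 ≤ f1 P D j n u := by
  rw [f1_eq]
  exact Finset.sum_nonneg fun h _ => Finset.sum_nonneg fun l _ => Finset.sum_nonneg fun m _ =>
    tm_nonneg u h l m

lemma nat_eq_of_cast {q : ℕ} {a b : ℕ} (ha : a < q) (hb : b < q)
    (h : (a : ZMod q) = (b : ZMod q)) : a = b := by
  have := (ZMod.natCast_eq_natCast_iff a b q).1 h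
  exact Nat.ModEq.eq_of_lt_of_lt this ha hb

/-- the reduced fraction of a non-zero term -/
lemma exists_st {q : ℕ} [Fact q.Prime] {P : Finset ℕ}
    (hP : ∀ p ∈ P, p.Prime) {z : ℕ} (hz : ∀ p ∈ P, p ≤ z) {D j n N : ℕ} (hN : z ^ n ≤ N)
    (hDN : D * z ^ j * N < q) (u : (ZMod q)ˣ) (hu : f1 P D j n u ≠ 0) :
    ∃ st : ℕ × ℕ, 1 ≤ st.1 ∧ st.1 ≤ D * z ^ j ∧ 1 ≤ st.2 ∧ st.2 ≤ N ∧ Sm P st.1 ∧ Sm P st.2 ∧
      Nat.Coprime st.1 st.2 ∧ st.2 < q ∧ (st.1 : ZMod q) = (u : ZMod q) * (st.2 : ZMod q) := by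
  rw [f1_eq] at hu
  obtain ⟨h, hh, hu⟩ := Finset.exists_ne_zero_of_sum_ne_zero hu
  obtain ⟨l, hl, hu⟩ := Finset.exists_ne_zero_of_sum_ne_zero hu
  obtain ⟨m, hm, hu⟩ := Finset.exists_ne_zero_of_sum_ne_zero hu
  have he : ((h * pr l : ℕ) : ZMod q) = (u : ZMod q) * ((pr m : ℕ) : ZMod q) := by
    by_contra hne
    exact hu (by unfold tm; rw [if_neg hne])
  rw [Finset.mem_filter, Finset.mem_Icc] at hh
  have hl0 := pr_pos hP hl
  have hm0 := pr_pos hP hm
  have hl1 := pr_le hz hl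
  have hm1 := pr_le hz hm
  have hx0 : 0 < h * pr l := Nat.mul_pos hh.1.1 hl0
  have hx1 : h * pr l ≤ D * z ^ j := Nat.mul_le_mul hh.1.2 hl1
  have hm2 : pr m ≤ N := hm1.trans hN
  have hNq : N < q := by
    refine lt_of_le_of_lt ?_ hDN
    exact Nat.le_mul_of_pos_left _ (lt_of_lt_of_le hx0 hx1)
  have hg0 : 0 < Nat.gcd (h * pr l) (pr m) := Nat.gcd_pos_of_pos_left _ hx0
  have hgm : Nat.gcd (h * pr l) (pr m) ≤ pr m := Nat.le_of_dvd hm0 (Nat.gcd_dvd_right _ _)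
  have hgq : ((Nat.gcd (h * pr l) (pr m) : ℕ) : ZMod q) ≠ 0 := by
    intro h0
    rw [ZMod.natCast_eq_zero_iff] at h0
    have := Nat.le_of_dvd hg0 h0
    omega
  set g := Nat.gcd (h * pr l) (pr m) with hg
  have hs : h * pr l / g * g = h * pr l := Nat.div_mul_cancel (Nat.gcd_dvd_left _ _)
  have ht : pr m / g * g = pr m := Nat.div_mul_cancel (Nat.gcd_dvd_right _ _)
  have hs0 : 0 < h * pr l / g := by
    rcases Nat.eq_zero_or_pos (h * pr l / g) with h0 | h0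
    · rw [h0] at hs; omega
    · exact h0
  have ht0 : 0 < pr m / g := by
    rcases Nat.eq_zero_or_pos (pr m / g) with h0 | h0
    · rw [h0] at ht; omega
    · exact h0
  refine ⟨(h * pr l / g, pr m / g), hs0, (Nat.div_le_self _ _).trans hx1, ht0,
    (Nat.div_le_self _ _).trans hm2, ?_, ?_, ?_, ?_, ?_⟩
  · exact sm_dvd (sm_mul hh.2 (sm_pr hP hl)) (Nat.div_dvd_of_dvd (Nat.gcd_dvd_left _ _))
  · exact sm_dvd (sm_pr hP hm) (Nat.div_dvd_of_dvd (Nat.gcd_dvd_right _ _))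
  · exact Nat.coprime_div_gcd_div_gcd hg0
  · exact lt_of_le_of_lt ((Nat.div_le_self _ _).trans hm2) hNq
  · have h1 : (((h * pr l / g : ℕ) : ZMod q)) * (g : ZMod q) =
        (u : ZMod q) * ((pr m / g : ℕ) : ZMod q) * (g : ZMod q) := by
      rw [mul_assoc, ← Nat.cast_mul, ← Nat.cast_mul, hs, ht]
      exact he
    exact mul_right_cancel₀ hgq h1

lemma term_eq {s t h L M : ℕ} (hs : 0 < s) (ht : 0 < t) (hM : 0 < M)
    (hx : h * L * t = s * M) :
    (Real.sqrt h)⁻¹ * (Real.sqrt L)⁻¹ * (Real.sqrt M)⁻¹ = Real.sqrt (t / s) * (M : ℝ)⁻¹ := by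
  have hsR : (0 : ℝ) < s := by exact_mod_cast hs
  have htR : (0 : ℝ) < t := by exact_mod_cast ht
  have hMR : (0 : ℝ) < M := by exact_mod_cast hM
  have hxR : (h : ℝ) * L * t = s * M := by exact_mod_cast hx
  have h1 : (h : ℝ) * L = s * M / t := by
    rw [eq_div_iff htR.ne']
    exact hxR
  have h2 : (Real.sqrt h)⁻¹ * (Real.sqrt L)⁻¹ * (Real.sqrt M)⁻¹ =
      (Real.sqrt ((h : ℝ) * L * M))⁻¹ := by
    rw [Real.sqrt_mul (by positivity), Real.sqrt_mul (by positivity), mul_inv, mul_inv]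
  rw [h2, h1]
  have h3 : (s : ℝ) * M / t * M = (s / t) * (M * M) := by ring
  rw [h3, Real.sqrt_mul (by positivity), Real.sqrt_mul_self hMR.le, mul_inv]
  congr 1
  rw [← Real.sqrt_inv, inv_div]

lemma f1_le {q : ℕ} [Fact q.Prime] {P : Finset ℕ}
    (hP : ∀ p ∈ P, p.Prime) {z : ℕ} (hz : ∀ p ∈ P, p ≤ z) {D j n N : ℕ} (hN : z ^ n ≤ N)
    (hDN : D * z ^ j * N < q) (u : (ZMod q)ˣ) {s t : ℕ} (hs : 1 ≤ s) (hs1 : s ≤ D * z ^ j)
    (ht : 1 ≤ t) (ht1 : t ≤ N) (hst : Nat.Coprime s t)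
    (he : (s : ZMod q) = (u : ZMod q) * (t : ZMod q)) :
    f1 P D j n u ≤ WW P j n s t := by
  have key : ∀ l ∈ tup P j, ∀ m ∈ tup P n,
      ∑ h ∈ (Icc 1 D).filter (Sm P), tm u h l m ≤
        if t ∣ pr m ∧ pr l ∣ pr m / t * s then Real.sqrt (t / s) * ((pr m : ℕ) : ℝ)⁻¹ else 0 := by
    intro l hl m hm
    have hl0 := pr_pos hP hl
    have hm0 := pr_pos hP hm
    have hl1 := pr_le hz hl
    have hm1 := pr_le hz hm
    have cond : ∀ h ∈ (Icc 1 D).filter (Sm P), tm u h l m ≠ 0 →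
        h * pr l * t = s * pr m ∧ t ∣ pr m ∧ h * pr l = pr m / t * s := by
      intro h hh hne
      rw [Finset.mem_filter, Finset.mem_Icc] at hh
      have hee : ((h * pr l : ℕ) : ZMod q) = (u : ZMod q) * ((pr m : ℕ) : ZMod q) := by
        by_contra hne'
        exact hne (by unfold tm; rw [if_neg hne'])
      have hx1 : h * pr l ≤ D * z ^ j := Nat.mul_le_mul hh.1.2 hl1
      have h1 : h * pr l * t = s * pr m := by
        refine nat_eq_of_cast (q := q) ?_ ?_ ?_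
        · exact lt_of_le_of_lt (Nat.mul_le_mul hx1 ht1) hDN
        · exact lt_of_le_of_lt (Nat.mul_le_mul hs1 (hm1.trans hN)) hDN
        · rw [Nat.cast_mul, hee, Nat.cast_mul s (pr m), he]
          ring
      have h2 : t ∣ pr m := by
        have : t ∣ s * pr m := ⟨h * pr l, by rw [← h1]; ring⟩
        exact (Nat.Coprime.dvd_of_dvd_mul_left hst.symm this)
      refine ⟨h1, h2, ?_⟩
      obtain ⟨k, hk⟩ := h2
      rw [hk, Nat.mul_div_cancel_left _ (by omega)]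
      rw [hk] at h1
      have : h * pr l * t = (k * s) * t := by rw [h1]; ring
      exact Nat.eq_of_mul_eq_mul_right (by omega) this
    by_cases hc : t ∣ pr m ∧ pr l ∣ pr m / t * s
    · rw [if_pos hc]
      have hval : ∀ h ∈ (Icc 1 D).filter (Sm P), tm u h l m ≤
          if h = pr m / t * s / pr l then Real.sqrt (t / s) * ((pr m : ℕ) : ℝ)⁻¹ else 0 := by
        intro h hh
        by_cases hne : tm u h l m = 0
        · rw [hne]
          split_ifs
          · positivity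
          · exact le_refl 0
        · obtain ⟨h1, -, h3⟩ := cond h hh hne
          have h4 : h = pr m / t * s / pr l := by
            rw [← h3, Nat.mul_div_cancel _ hl0]
          rw [if_pos h4]
          have : tm u h l m = Real.sqrt (t / s) * ((pr m : ℕ) : ℝ)⁻¹ := by
            unfold tm at hne ⊢
            by_cases hcc : ((h * pr l : ℕ) : ZMod q) = (u : ZMod q) * ((pr m : ℕ) : ZMod q)
            · rw [if_pos hcc]
              exact term_eq hs ht hm0 h1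
            · exact absurd (if_neg hcc) hne
          exact this.le
      refine (Finset.sum_le_sum hval).trans ?_
      rw [Finset.sum_ite_eq']
      split_ifs
      · exact le_refl _
      · positivity
    · rw [if_neg hc]
      refine le_of_eq (Finset.sum_eq_zero fun h hh => ?_)
      by_contra hne
      obtain ⟨-, h2, h3⟩ := cond h hh hne
      exact hc ⟨h2, h3 ▸ Dvd.intro_left h rfl⟩
  have h1 : f1 P D j n u = ∑ m ∈ tup P n, ∑ l ∈ tup P j,
      ∑ h ∈ (Icc 1 D).filter (Sm P), tm u h l m := by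
    rw [f1_eq]
    rw [Finset.sum_congr rfl fun h _ => Finset.sum_comm
      (s := tup P j) (t := tup P n) (f := fun l m => tm u h l m)]
    rw [Finset.sum_comm]
    exact Finset.sum_congr rfl fun m _ => Finset.sum_comm
  have h2 : WW P j n s t = ∑ m ∈ tup P n, ∑ l ∈ tup P j,
      if t ∣ pr m ∧ pr l ∣ pr m / t * s then Real.sqrt (t / s) * ((pr m : ℕ) : ℝ)⁻¹ else 0 := by
    unfold WW
    rw [Finset.mul_sum, Finset.sum_filter]
    refine Finset.sum_congr rfl fun m _ => ?_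
    by_cases hc : t ∣ pr m
    · rw [if_pos hc]
      simp only [hc, true_and]
      rw [← Finset.sum_filter, Finset.sum_const, nsmul_eq_mul]
      ring
    · rw [if_neg hc]
      simp only [hc, false_and, if_false, Finset.sum_const_zero]
  rw [h1, h2]
  exact Finset.sum_le_sum fun m hm => Finset.sum_le_sum fun l hl => key l hl m hm

end F

theorem f1_sum {q : ℕ} [Fact q.Prime] (A : Subgroup (ZMod q)ˣ) {P : Finset ℕ}
    (hP : ∀ p ∈ P, p.Prime) {z : ℕ} (hz : ∀ p ∈ P, p ≤ z) {D j n N : ℕ} (hN : z ^ n ≤ N)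
    (hDN : D * z ^ j * N < q) :
    ∑ u ∈ (AS A).erase 1, f1 P D j n u ^ 2 ≤
      ∑ st ∈ pairs P A (D * z ^ j) N, WW P j n st.1 st.2 ^ 2 := by
  let S' : Finset (ZMod q)ˣ := ((AS A).erase 1).filter (fun u => f1 P D j n u ≠ 0)
  have ex : ∀ u : (ZMod q)ˣ, ∃ st : ℕ × ℕ, f1 P D j n u ≠ 0 →
      (1 ≤ st.1 ∧ st.1 ≤ D * z ^ j ∧ 1 ≤ st.2 ∧ st.2 ≤ N ∧ Sm P st.1 ∧ Sm P st.2 ∧
      Nat.Coprime st.1 st.2 ∧ st.2 < q ∧ (st.1 : ZMod q) = (u : ZMod q) * (st.2 : ZMod q)) := by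
    intro u
    by_cases hu : f1 P D j n u = 0
    · exact ⟨(0, 0), fun h => absurd hu h⟩
    · obtain ⟨st, h⟩ := F.exists_st hP hz hN hDN u hu
      exact ⟨st, fun _ => h⟩
  choose φ hφ using ex
  have h1 : ∑ u ∈ (AS A).erase 1, f1 P D j n u ^ 2 = ∑ u ∈ S', f1 P D j n u ^ 2 := by
    refine (Finset.sum_subset (Finset.filter_subset _ _) fun u hu hu' => ?_).symm
    have : f1 P D j n u = 0 := by
      by_contra hne
      exact hu' (Finset.mem_filter.2 ⟨hu, hne⟩)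
    rw [this]
    ring
  have hinj : Set.InjOn φ (S' : Set (ZMod q)ˣ) := by
    intro u hu v hv huv
    have hu' := hφ u (Finset.mem_filter.1 hu).2
    have hv' := hφ v (Finset.mem_filter.1 hv).2
    rw [← huv] at hv'
    obtain ⟨-, -, h3, -, -, -, -, h8, h9⟩ := hu'
    obtain ⟨-, -, -, -, -, -, -, -, h9'⟩ := hv'
    have ht : (((φ u).2 : ℕ) : ZMod q) ≠ 0 := by
      intro h0
      rw [ZMod.natCast_eq_zero_iff] at h0
      have := Nat.le_of_dvd h3 h0
      omega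
    exact Units.ext (mul_right_cancel₀ ht (h9.symm.trans h9'))
  rw [h1]
  calc ∑ u ∈ S', f1 P D j n u ^ 2 ≤ ∑ u ∈ S', WW P j n (φ u).1 (φ u).2 ^ 2 := by
        refine Finset.sum_le_sum fun u hu => ?_
        obtain ⟨h1, h2, h3, h4, h5, h6, h7, h8, h9⟩ := hφ u (Finset.mem_filter.1 hu).2
        exact pow_le_pow_left₀ (F.f1_nonneg P D j n u)
          (F.f1_le hP hz hN hDN u h1 h2 h3 h4 h7 h9) 2
    _ = ∑ st ∈ S'.image φ, WW P j n st.1 st.2 ^ 2 := by
        rw [Finset.sum_image hinj]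
    _ ≤ ∑ st ∈ pairs P A (D * z ^ j) N, WW P j n st.1 st.2 ^ 2 := by
        refine Finset.sum_le_sum_of_subset_of_nonneg ?_ fun _ _ _ => sq_nonneg _
        intro st hst
        rw [Finset.mem_image] at hst
        obtain ⟨u, hu, rfl⟩ := hst
        have hu2 := (Finset.mem_filter.1 hu).1
        rw [Finset.mem_erase] at hu2
        obtain ⟨h1, h2, h3, h4, h5, h6, h7, h8, h9⟩ := hφ u (Finset.mem_filter.1 hu).2
        unfold pairs
        rw [Finset.mem_filter, Finset.mem_product, Finset.mem_Icc, Finset.mem_Icc]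
        refine ⟨⟨⟨h1, h2⟩, ⟨h3, h4⟩⟩, h5, h6, ⟨u, ?_, h9⟩, ?_⟩
        · have := hu2.2
          unfold AS at this
          exact (Finset.mem_filter.1 this).2
        · intro hst
          rw [hst] at h9
          simp only [Nat.cast_one, mul_one] at h9
          exact hu2.1 (Units.ext h9.symm)

end Pool.Agent.J4.H33.CS
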