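import Pool.Agent.J4.H33.CS.Defs
import Pool.Agent.H305R2.MertensM

/-!
# The sum of the reciprocals of the primes between `y` and `y ^ (1 + ε / 4)`
-/

set_option autoImplicit false

namespace Pool.Agent.J4.H33.CS

open Finset
open scoped Classical

namespace MER

open Filter Topology

/-- the sum of the reciprocals of the primes up to `N` -/
noncomputable def F (N : ℕ) : ℝ := ∑ p ∈ (Finset.Icc 1 N).filter Nat.Prime, (1 : ℝ) / p

theorem split {ε y : ℝ} (h0 : 0 < ε) (hy : 1 ≤ y) :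
    SS (PP ε y) = F ⌊y ^ (1 + ε / 4)⌋₊ - F ⌊y⌋₊ := by
  have h1 : y ≤ y ^ (1 + ε / 4) := by
    calc y = y ^ (1 : ℝ) := (Real.rpow_one y).symm
      _ ≤ y ^ (1 + ε / 4) := Real.rpow_le_rpow_of_exponent_le hy (by linarith)
  have hle : ⌊y⌋₊ ≤ ⌊y ^ (1 + ε / 4)⌋₊ := Nat.floor_le_floor h1
  have hset : PP ε y = (Finset.Icc 1 ⌊y ^ (1 + ε / 4)⌋₊).filter Nat.Prime \
      (Finset.Icc 1 ⌊y⌋₊).filter Nat.Prime := by
    ext p
    simp only [PP, Finset.mem_filter, Finset.mem_Icc, Finset.mem_sdiff]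
    constructor
    · rintro ⟨⟨a, b⟩, c, d⟩
      refine ⟨⟨⟨a, b⟩, c⟩, ?_⟩
      rintro ⟨⟨_, e⟩, _⟩
      have := (Nat.floor_lt (by linarith : (0 : ℝ) ≤ y)).2 d
      omega
    · rintro ⟨⟨⟨a, b⟩, c⟩, d⟩
      refine ⟨⟨a, b⟩, c, ?_⟩
      have : ⌊y⌋₊ < p := by
        by_contra h
        exact d ⟨⟨a, by omega⟩, c⟩
      exact (Nat.floor_lt (by linarith : (0 : ℝ) ≤ y)).1 this
  have hsub : (Finset.Icc 1 ⌊y⌋₊).filter Nat.Prime ⊆
      (Finset.Icc 1 ⌊y ^ (1 + ε / 4)⌋₊).filter Nat.Prime := by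
    intro p hp
    simp only [Finset.mem_filter, Finset.mem_Icc] at hp ⊢
    exact ⟨⟨hp.1.1, hp.1.2.trans hle⟩, hp.2⟩
  have h2 := Finset.sum_sdiff (f := fun p : ℕ => (1 : ℝ) / p) hsub
  rw [SS, hset]
  simp only [F]
  rw [← h2]
  simp [one_div]

/-- `log log ⌊x⌋ - log log x` tends to zero. -/
theorem floor_loglog : Tendsto (fun x : ℝ => Real.log (Real.log (⌊x⌋₊ : ℝ)) -
    Real.log (Real.log x)) atTop (𝓝 0) := by
  have h1 : Tendsto (fun x : ℝ => Real.log ((⌊x⌋₊ : ℝ) / x)) atTop (𝓝 0) := by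
    have := (Real.continuousAt_log (by norm_num : (1 : ℝ) ≠ 0)).tendsto.comp
      (tendsto_nat_floor_div_atTop (R := ℝ))
    rw [Real.log_one] at this
    exact this
  have h2 : Tendsto (fun x : ℝ => 1 + Real.log ((⌊x⌋₊ : ℝ) / x) * (Real.log x)⁻¹) atTop
      (𝓝 (1 + 0 * 0)) :=
    tendsto_const_nhds.add (h1.mul (tendsto_inv_atTop_zero.comp Real.tendsto_log_atTop))
  have h3 : Tendsto (fun x : ℝ => Real.log (1 + Real.log ((⌊x⌋₊ : ℝ) / x) * (Real.log x)⁻¹)) atTop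
      (𝓝 0) := by
    have h4 : (1 : ℝ) + 0 * 0 ≠ 0 := by norm_num
    have := (Real.continuousAt_log h4).tendsto.comp h2
    rw [mul_zero, add_zero, Real.log_one] at this
    refine Tendsto.congr (fun x => rfl) this
  refine h3.congr' ?_
  filter_upwards [eventually_ge_atTop (3 : ℝ)] with x hx
  have hx0 : 0 < x := by linarith
  have hf : (3 : ℝ) ≤ (⌊x⌋₊ : ℝ) := by
    exact_mod_cast Nat.le_floor (by exact_mod_cast hx)
  have hf0 : (0 : ℝ) < (⌊x⌋₊ : ℝ) := by linarith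
  have hl : 0 < Real.log x := Real.log_pos (by linarith)
  have hlf : 0 < Real.log (⌊x⌋₊ : ℝ) := Real.log_pos (by linarith)
  rw [Real.log_div hf0.ne' hx0.ne', ← Real.log_div hlf.ne' hl.ne']
  congr 1
  field_simp
  ring

theorem lim {ε : ℝ} (h0 : 0 < ε) :
    Tendsto (fun y : ℝ => SS (PP ε y)) atTop (𝓝 (Real.log (1 + ε / 4))) := by
  obtain ⟨M, hM⟩ := Pool.Agent.H305R2.mertens_inv_tendsto
  have hpow : Tendsto (fun y : ℝ => y ^ (1 + ε / 4)) atTop atTop :=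
    tendsto_rpow_atTop (by linarith)
  have hf : Tendsto (fun y : ℝ => ⌊y⌋₊) atTop atTop := tendsto_nat_floor_atTop
  have a1 := hM.comp hf
  have a2 := hM.comp (hf.comp hpow)
  have b1 := floor_loglog
  have b2 := floor_loglog.comp hpow
  have key := (((a2.sub a1).add b2).sub b1).add
    (tendsto_const_nhds (x := Real.log (1 + ε / 4)) (f := (atTop : Filter ℝ)))
  have e : M - M + 0 - 0 + Real.log (1 + ε / 4) = Real.log (1 + ε / 4) := by ring
  rw [e] at key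
  refine key.congr' ?_
  filter_upwards [eventually_ge_atTop (3 : ℝ)] with y hy
  have hy0 : 0 < y := by linarith
  have hl : 0 < Real.log y := Real.log_pos (by linarith)
  have h1 : Real.log (Real.log (y ^ (1 + ε / 4))) =
      Real.log (1 + ε / 4) + Real.log (Real.log y) := by
    rw [Real.log_rpow hy0, Real.log_mul (by linarith) hl.ne']
  rw [split h0 (by linarith)]
  simp only [Function.comp_apply, F, h1]
  ring

end MER

theorem mer {ε : ℝ} (h0 : 0 < ε) (h1 : ε ≤ 1) :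
    ∃ y₀ : ℝ, ∀ y : ℝ, y₀ ≤ y → ε / 8 ≤ SS (PP ε y) ∧ SS (PP ε y) ≤ 1 := by
  have hx : 0 < ε / 4 := by linarith
  have hlow : ε / 8 < Real.log (1 + ε / 4) := by
    have h2 := Real.one_sub_inv_le_log_of_pos (by linarith : (0 : ℝ) < 1 + ε / 4)
    have h3 : ε / 8 < 1 - (1 + ε / 4)⁻¹ := by
      rw [lt_sub_iff_add_lt, ← lt_sub_iff_add_lt', inv_lt_comm₀ (by linarith) (by linarith)]
      rw [inv_lt_iff_one_lt_mul₀ (by linarith)]
      nlinarith
    linarith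
  have hup : Real.log (1 + ε / 4) < 1 := by
    have := Real.log_le_sub_one_of_pos (by linarith : (0 : ℝ) < 1 + ε / 4)
    linarith
  have h := (MER.lim h0).eventually (Ioo_mem_nhds hlow hup)
  obtain ⟨y₀, hy₀⟩ := Filter.eventually_atTop.1 h
  exact ⟨y₀, fun y hy => ⟨(hy₀ y hy).1.le, (hy₀ y hy).2.le⟩⟩

end Pool.Agent.J4.H33.CS
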