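import Mathlib

/-!
# The inequality for the parameters
-/

set_option autoImplicit false

namespace Pool.Agent.J4.H33.CS

open Filter

lemma fin_large {ε : ℝ} (h0 : 0 < ε) : ∃ L₀ : ℝ, ∀ l : ℝ, L₀ ≤ l →
    (Real.exp 1 ≤ l ∧ (10 ^ 10 / ε ^ 8) ^ 3 ≤ l ^ 2 ∧ (16 / ε) ^ 4 * 128 ≤ l ^ 2 ∧ 100 ≤ l ∧
      8 / ε ≤ l) := by
  obtain ⟨a, ha⟩ : ∃ a, a = (10 ^ 10 / ε ^ 8) ^ 3 := ⟨_, rfl⟩
  obtain ⟨b, hb⟩ : ∃ b, b = (16 / ε) ^ 4 * 128 := ⟨_, rfl⟩
  have ha0 : 0 < a := by rw [ha]; positivity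
  have hb0 : 0 < b := by rw [hb]; positivity
  have h4 : 0 < 8 / ε := by positivity
  have h1 : 0 < Real.exp 1 := Real.exp_pos 1
  rw [← ha, ← hb]
  refine ⟨Real.exp 1 + a + b + 100 + 8 / ε, fun l hl => ?_⟩
  have hl1 : 1 ≤ l := by linarith
  have hl2 : l ≤ l ^ 2 := le_self_pow₀ hl1 two_ne_zero
  exact ⟨by linarith, by linarith, by linarith, by linarith, by linarith⟩

/-- the choice of `n` and `i` -/
lemma fin_choice {ε X : ℝ} (h0 : 0 < ε) (h1 : ε ≤ 1) (hX : 10 ^ 10 ≤ ε ^ 2 * X)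
    (hX4 : 10 ^ 5 ≤ ε ^ 4 * Real.sqrt X) : ∃ n i : ℕ, 1 ≤ i ∧ 2 * i ≤ n ∧
      9 * (i : ℝ) ^ 2 ≤ ((n - i : ℕ) : ℝ) * (ε / 8) ∧ 64 ≤ (i + 1 : ℝ) * ε ^ 2 ∧
      (n : ℝ) ≤ ε ^ 2 * X / 625 ∧ ε ^ 2 * Real.sqrt X / 1000 ≤ i := by
  have hee : ε ^ 2 ≤ ε := pow_le_of_le_one h0.le h1 two_ne_zero
  have he2 : 0 < ε ^ 2 := by positivity
  obtain ⟨s, hs⟩ : ∃ s, s = Real.sqrt X := ⟨_, rfl⟩
  rw [← hs] at hX4 ⊢
  have hX0 : 0 < X := by
    by_contra hcon
    push Not at hcon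
    have := mul_nonpos_of_nonneg_of_nonpos he2.le hcon
    linarith
  have hs0 : 0 < s := by rw [hs]; exact Real.sqrt_pos.2 hX0
  have hss : s ^ 2 = X := by rw [hs]; exact Real.sq_sqrt hX0.le
  have hsK2 : 10 ^ 5 ≤ ε ^ 2 * s := by
    have h2 : ε ^ 4 * s ≤ ε ^ 2 * s :=
      mul_le_mul_of_nonneg_right (pow_le_pow_of_le_one h0.le h1 (by norm_num)) hs0.le
    linarith only [h2, hX4]
  obtain ⟨n, hn⟩ : ∃ n : ℕ, n = ⌊ε ^ 2 * X / 625⌋₊ := ⟨_, rfl⟩
  have hn1 : (n : ℝ) ≤ ε ^ 2 * X / 625 := by rw [hn]; exact Nat.floor_le (by positivity)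
  have hn2 : ε ^ 2 * X / 1250 ≤ n := by
    have h2 : ε ^ 2 * X / 625 < n + 1 := by rw [hn]; exact Nat.lt_floor_add_one _
    linarith only [h2, hX]
  have hnp : (1 : ℝ) ≤ n := by linarith only [hn2, hX]
  obtain ⟨r, hr⟩ : ∃ r, r = Real.sqrt n := ⟨_, rfl⟩
  have hrr : r ^ 2 = n := by rw [hr]; exact Real.sq_sqrt (Nat.cast_nonneg _)
  have hr0 : 0 ≤ r := by rw [hr]; positivity
  have hr1 : 1 ≤ r := by
    rw [hr, Real.one_le_sqrt]
    exact hnp
  have hrs : ε * s / 36 ≤ r := by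
    rw [hr]
    apply Real.le_sqrt_of_sq_le
    refine le_trans ?_ hn2
    rw [← hss]
    have h2 : 0 ≤ ε ^ 2 * s ^ 2 := by positivity
    have h3 : (ε * s / 36) ^ 2 = ε ^ 2 * s ^ 2 / 1296 := by ring
    rw [h3]
    linarith only [h2]
  obtain ⟨i, hi⟩ : ∃ i : ℕ, i = ⌊ε / 15 * r⌋₊ := ⟨_, rfl⟩
  have hi1 : (i : ℝ) ≤ ε / 15 * r := by rw [hi]; exact Nat.floor_le (by positivity)
  have hi2 : ε / 15 * r < i + 1 := by rw [hi]; exact Nat.lt_floor_add_one _
  have hi3 : ε ^ 2 * s / 540 ≤ ε / 15 * r := by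
    have h2 := mul_le_mul_of_nonneg_left hrs (by positivity : 0 ≤ ε / 15)
    have h3 : ε / 15 * (ε * s / 36) = ε ^ 2 * s / 540 := by ring
    rw [h3] at h2
    exact h2
  have hi4 : ε ^ 2 * s / 1000 ≤ i := by linarith only [hi2, hi3, hsK2]
  have hi0 : (1 : ℝ) ≤ i := by linarith only [hi4, hsK2]
  have hir : (i : ℝ) ≤ r / 15 := by
    have h2 : ε / 15 * r ≤ 1 / 15 * r := mul_le_mul_of_nonneg_right (by linarith only [h1]) hr0
    linarith only [h2, hi1]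
  have hin : 2 * (i : ℝ) ≤ n := by
    have h2 : r ≤ r ^ 2 := le_self_pow₀ hr1 two_ne_zero
    rw [hrr] at h2
    linarith only [h2, hir, hr0]
  have hinN : 2 * i ≤ n := by exact_mod_cast hin
  have hsub : ((n - i : ℕ) : ℝ) = n - i := by
    rw [Nat.cast_sub (by omega)]
  refine ⟨n, i, by exact_mod_cast hi0, hinN, ?_, ?_, hn1, hi4⟩
  · rw [hsub]
    have h2 : (i : ℝ) ^ 2 ≤ (ε / 15 * r) ^ 2 :=
      pow_le_pow_left₀ (by linarith only [hi0]) hi1 2
    have h3 : (ε / 15 * r) ^ 2 = ε ^ 2 * n / 225 := by rw [mul_pow, hrr]; ring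
    have h4 : ε ^ 2 * n ≤ ε * n := mul_le_mul_of_nonneg_right hee (by linarith only [hnp])
    have h5 : (n : ℝ) / 2 * (ε / 8) ≤ (n - i) * (ε / 8) :=
      mul_le_mul_of_nonneg_right (by linarith only [hin]) (by positivity)
    have h6 : (n : ℝ) / 2 * (ε / 8) = ε * n / 16 := by ring
    rw [h3] at h2
    rw [h6] at h5
    have h7 : 0 ≤ ε * n := by positivity
    linarith only [h2, h4, h5, h7]
  · have h2 : ε / 15 * r * ε ^ 2 ≤ (i + 1) * ε ^ 2 :=
      mul_le_mul_of_nonneg_right hi2.le (by positivity)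
    have h3 : ε ^ 2 * s / 540 * ε ^ 2 ≤ ε / 15 * r * ε ^ 2 :=
      mul_le_mul_of_nonneg_right hi3 (by positivity)
    have h4 : ε ^ 2 * s / 540 * ε ^ 2 = ε ^ 4 * s / 540 := by ring
    rw [h4] at h3
    linarith only [h2, h3, hX4]

/-- the three terms -/
lemma fin_terms {ε l x X : ℝ} (h0 : 0 < ε) (h1 : ε ≤ 1) (hx : 51 ≤ x) (hl100 : 100 ≤ l)
    (hXx : X * x = l) (hX : 10 ^ 10 ≤ ε ^ 2 * X) (hl2 : (16 / ε) ^ 4 * 128 ≤ l ^ 2)
    (hex6 : l ^ 6 ≤ Real.exp (x * (ε / 8))) (hex3 : l ^ 3 ≤ Real.exp x) {i : ℕ}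
    (hi : 2 * x ≤ i / 2) :
    128 * ((16 * l / ε) ^ 4 * Real.exp (-(x * (ε / 4)))) +
        32 * Real.exp (-(3 * ε ^ 2 / 250 * l)) +
        4 * Real.exp (i / 2) * Real.sqrt (1 + l) * (1 / 3) ^ i ≤
          Real.exp (-(ε ^ 2 / 4000 * x)) := by
  have hl0 : 0 < l := by linarith only [hl100]
  have hl1 : 1 ≤ l := by linarith only [hl100]
  have hxp : 0 < x := by linarith only [hx]
  have h5 : 0 < Real.exp (-(x * (ε / 8))) := Real.exp_pos _
  have t1 : 128 * ((16 * l / ε) ^ 4 * Real.exp (-(x * (ε / 4)))) ≤ Real.exp (-(x * (ε / 8))) := by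
    have h2 : 128 * (16 * l / ε) ^ 4 ≤ l ^ 6 := by
      have h3 : 128 * (16 * l / ε) ^ 4 = (16 / ε) ^ 4 * 128 * l ^ 4 := by ring
      have h4 : l ^ 6 = l ^ 2 * l ^ 4 := by ring
      rw [h3, h4]
      exact mul_le_mul_of_nonneg_right hl2 (by positivity)
    have h3 : Real.exp (-(x * (ε / 4))) = Real.exp (-(x * (ε / 8))) * Real.exp (-(x * (ε / 8))) := by
      rw [← Real.exp_add]
      congr 1
      ring
    have h4 : l ^ 6 * Real.exp (-(x * (ε / 8))) ≤ 1 := by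
      rw [Real.exp_neg, ← div_eq_mul_inv, div_le_one (by positivity)]
      exact hex6
    rw [h3]
    calc 128 * ((16 * l / ε) ^ 4 * (Real.exp (-(x * (ε / 8))) * Real.exp (-(x * (ε / 8))))) =
        (128 * (16 * l / ε) ^ 4) * Real.exp (-(x * (ε / 8))) * Real.exp (-(x * (ε / 8))) := by ring
      _ ≤ l ^ 6 * Real.exp (-(x * (ε / 8))) * Real.exp (-(x * (ε / 8))) :=
          mul_le_mul_of_nonneg_right (mul_le_mul_of_nonneg_right h2 h5.le) h5.le
      _ ≤ 1 * Real.exp (-(x * (ε / 8))) := mul_le_mul_of_nonneg_right h4 h5.le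
      _ = _ := one_mul _
  have hxe : x * (ε / 8) ≤ x * (1 / 8) :=
    mul_le_mul_of_nonneg_left (by linarith only [h1]) hxp.le
  have t2 : 32 * Real.exp (-(3 * ε ^ 2 / 250 * l)) ≤ Real.exp (-(x * (ε / 8))) := by
    have h2 : (32 : ℝ) ≤ Real.exp 4 := by
      have h3 := Real.exp_one_gt_d9
      have h4 : Real.exp 4 = Real.exp 1 ^ 4 := by
        rw [← Real.exp_nat_mul]; norm_num
      rw [h4]
      have h5 : (2.7 : ℝ) ^ 4 ≤ Real.exp 1 ^ 4 :=
        pow_le_pow_left₀ (by norm_num) (by linarith only [h3]) 4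
      have h6 : (32 : ℝ) ≤ 2.7 ^ 4 := by norm_num
      exact h6.trans h5
    calc 32 * Real.exp (-(3 * ε ^ 2 / 250 * l)) ≤ Real.exp 4 * Real.exp (-(3 * ε ^ 2 / 250 * l)) :=
          mul_le_mul_of_nonneg_right h2 (by positivity)
      _ = Real.exp (4 - 3 * ε ^ 2 / 250 * l) := by rw [← Real.exp_add]; congr 1
      _ ≤ _ := by
          apply Real.exp_le_exp.2
          have h3 : 3 * ε ^ 2 / 250 * l = 3 / 250 * (ε ^ 2 * X) * x := by rw [← hXx]; ring
          rw [h3]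
          have h4 : 3 / 250 * (10 ^ 10 : ℝ) * x ≤ 3 / 250 * (ε ^ 2 * X) * x :=
            mul_le_mul_of_nonneg_right (mul_le_mul_of_nonneg_left hX (by norm_num)) hxp.le
          linarith only [h4, hxe, hx]
  have hll : l ≤ l ^ 3 := le_self_pow₀ hl1 (by norm_num)
  have t3 : 4 * Real.exp (i / 2) * Real.sqrt (1 + l) * (1 / 3) ^ i ≤
      Real.exp (-(x * (ε / 8))) := by
    have h2 : ((1 : ℝ) / 3) ^ i ≤ Real.exp (-i) := by
      have h3 : (1 : ℝ) / 3 ≤ Real.exp (-1) := by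
        rw [Real.exp_neg, one_div]
        apply inv_anti₀ (Real.exp_pos 1)
        have := Real.exp_one_lt_d9
        linarith only [this]
      have h4 := pow_le_pow_left₀ (by norm_num) h3 i
      refine h4.trans (le_of_eq ?_)
      rw [← Real.exp_nat_mul]
      congr 1
      ring
    have h4 : 4 * Real.sqrt (1 + l) ≤ Real.exp x := by
      have h5 : Real.sqrt (1 + l) ≤ 1 + l := by
        rw [Real.sqrt_le_left (by linarith only [hl0])]
        exact le_self_pow₀ (by linarith only [hl0]) two_ne_zero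
      have h6 : 4 * (1 + l) ≤ l ^ 3 := by
        have h7 : (100 : ℝ) ^ 2 ≤ l ^ 2 := pow_le_pow_left₀ (by norm_num) hl100 2
        have h8 : (100 : ℝ) ^ 2 * l ≤ l ^ 2 * l := mul_le_mul_of_nonneg_right h7 hl0.le
        have h9 : l ^ 2 * l = l ^ 3 := by ring
        rw [h9] at h8
        linarith only [h8, hl100]
      linarith only [h5, h6, hex3]
    calc 4 * Real.exp (i / 2) * Real.sqrt (1 + l) * (1 / 3) ^ i =
        (4 * Real.sqrt (1 + l)) * (Real.exp (i / 2) * (1 / 3) ^ i) := by ring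
      _ ≤ Real.exp x * (Real.exp (i / 2) * Real.exp (-i)) :=
          mul_le_mul h4 (mul_le_mul_of_nonneg_left h2 (Real.exp_pos _).le) (by positivity)
            (Real.exp_pos _).le
      _ = Real.exp (x - i / 2) := by rw [← Real.exp_add, ← Real.exp_add]; congr 1; ring
      _ ≤ _ := by
          apply Real.exp_le_exp.2
          linarith only [hi, hxe, hxp]
  have hex316 : l ^ 3 ≤ Real.exp (x * (ε / 16)) := by
    have h2 : (l ^ 3) ^ 2 ≤ Real.exp (x * (ε / 16)) ^ 2 := by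
      rw [← pow_mul, ← Real.exp_nat_mul]
      refine hex6.trans (le_of_eq ?_)
      congr 1
      push_cast
      ring
    exact le_of_pow_le_pow_left₀ two_ne_zero (Real.exp_pos _).le h2
  have t4 : 3 * Real.exp (-(x * (ε / 8))) ≤ Real.exp (-(ε ^ 2 / 4000 * x)) := by
    have h2 : (3 : ℝ) ≤ Real.exp (x * (ε / 16)) := by linarith only [hll, hl100, hex316]
    calc 3 * Real.exp (-(x * (ε / 8))) ≤ Real.exp (x * (ε / 16)) * Real.exp (-(x * (ε / 8))) :=
          mul_le_mul_of_nonneg_right h2 (Real.exp_pos _).le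
      _ = Real.exp (-(x * (ε / 16))) := by rw [← Real.exp_add]; congr 1; ring
      _ ≤ _ := by
          apply Real.exp_le_exp.2
          have hee : ε ^ 2 ≤ ε := pow_le_of_le_one h0.le h1 two_ne_zero
          have h3 : ε ^ 2 / 4000 ≤ ε / 16 := by linarith only [hee, h0]
          have h4 : ε ^ 2 / 4000 * x ≤ ε / 16 * x := mul_le_mul_of_nonneg_right h3 hxp.le
          linarith only [h4]
  linarith only [t1, t2, t3, t4]

/-- the final inequality for the parameters: `l = log q`, `x = log y` -/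
lemma fin_real {ε : ℝ} (h0 : 0 < ε) (h1 : ε ≤ 1) : ∃ L₀ : ℝ, ∀ l : ℝ, L₀ ≤ l → ∀ x : ℝ,
    (48 / ε + 3) * Real.log l ≤ x → x ^ 3 ≤ (ε ^ 2 / 4000) ^ 3 * l →
    ∃ n i : ℕ, 1 ≤ i ∧ 2 * i ≤ n ∧ 9 * (i : ℝ) ^ 2 ≤ ((n - i : ℕ) : ℝ) * (ε / 8) ∧
      64 ≤ (i + 1 : ℝ) * ε ^ 2 ∧ (n : ℝ) ^ 2 ≤ Real.exp x * (ε / 8) ∧
      (1 + ε / 4) * x * n ≤ ε ^ 2 / 500 * l ∧
      l ≤ Real.exp (x * (ε / 4)) ∧ Real.exp 1 ≤ Real.exp x ∧
      (16 * l / ε) ^ 4 * Real.exp (-(x * (ε / 4))) ≤ 1 / 8 ∧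
      128 * ((16 * l / ε) ^ 4 * Real.exp (-(x * (ε / 4)))) +
        32 * Real.exp (-(3 * ε ^ 2 / 250 * l)) +
        4 * Real.exp (i / 2) * Real.sqrt (1 + l) * (1 / 3) ^ i ≤
          Real.exp (-(ε ^ 2 / 4000 * x)) ∧
      ε ^ 2 / 2000 * Real.sqrt (l / x) ≤ i / 2 ∧ 0 < x := by
  obtain ⟨L₀, hL₀⟩ := fin_large h0
  refine ⟨L₀, fun l hl x hx1 hx2 => ?_⟩
  obtain ⟨hle, hl3, hl2, hl100, hl8⟩ := hL₀ l hl
  clear hL₀ hl
  have hl0 : 0 < l := by linarith only [hl100]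
  have hl1 : 1 ≤ l := by linarith only [hl100]
  have hlogl : 1 ≤ Real.log l := by
    rw [Real.le_log_iff_exp_le hl0]
    exact hle
  have h48 : (48 : ℝ) ≤ 48 / ε := by
    rw [le_div_iff₀ h0]
    linarith only [h1]
  have hlogx : 51 * Real.log l ≤ x := by
    have h2 : 51 * Real.log l ≤ (48 / ε + 3) * Real.log l :=
      mul_le_mul_of_nonneg_right (by linarith only [h48]) (by linarith only [hlogl])
    linarith only [h2, hx1]
  have hx0 : 51 ≤ x := by linarith only [hlogx, hlogl]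
  have hxp : 0 < x := by linarith only [hx0]
  have hpow : ∀ k : ℕ, l ^ k = Real.exp (k * Real.log l) := by
    intro k
    rw [Real.exp_nat_mul, Real.exp_log hl0]
  have hex6 : l ^ 6 ≤ Real.exp (x * (ε / 8)) := by
    rw [hpow]
    apply Real.exp_le_exp.2
    have h3 : (48 / ε + 3) * Real.log l * (ε / 8) ≤ x * (ε / 8) :=
      mul_le_mul_of_nonneg_right hx1 (by positivity)
    have h4 : (48 / ε + 3) * Real.log l * (ε / 8) = 6 * Real.log l + 3 * Real.log l * (ε / 8) := by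
      field_simp
      ring
    have h5 : 0 ≤ 3 * Real.log l * (ε / 8) := by positivity
    rw [h4] at h3
    push_cast
    linarith only [h3, h5]
  have hex3 : l ^ 3 ≤ Real.exp x := by
    rw [hpow]
    apply Real.exp_le_exp.2
    push_cast
    linarith only [hlogx, hlogl]
  have hx14 : Real.exp (x * (ε / 4)) = Real.exp (x * (ε / 8)) * Real.exp (x * (ε / 8)) := by
    rw [← Real.exp_add]
    congr 1
    ring
  have hE8 : 1 ≤ Real.exp (x * (ε / 8)) := Real.one_le_exp (by positivity)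
  obtain ⟨X, hX⟩ : ∃ X, X = l / x := ⟨_, rfl⟩
  have hXx : X * x = l := by rw [hX]; field_simp
  have hX0 : 0 < X := by rw [hX]; positivity
  have hX1 : x ^ 2 ≤ (ε ^ 2 / 4000) ^ 3 * X := by
    have h2 : x ^ 2 * x ≤ (ε ^ 2 / 4000) ^ 3 * X * x := by
      have h3 : x ^ 2 * x = x ^ 3 := by ring
      have h4 : (ε ^ 2 / 4000) ^ 3 * X * x = (ε ^ 2 / 4000) ^ 3 * l := by rw [← hXx]; ring
      rw [h3, h4]
      exact hx2
    exact le_of_mul_le_mul_right h2 hxp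
  have hee : ε ^ 2 ≤ 1 := pow_le_one₀ h0.le h1
  have he1 : (ε ^ 2 / 4000) ≤ 1 := by linarith only [hee]
  have he0 : 0 < ε ^ 2 / 4000 := by positivity
  have hXK : 10 ^ 10 / ε ^ 8 ≤ X := by
    have h2 : l ^ 2 ≤ X ^ 3 := by
      have h3 : x ^ 3 ≤ l := by
        refine hx2.trans ?_
        exact mul_le_of_le_one_left hl0.le (pow_le_one₀ he0.le he1)
      have h4 : l ^ 2 * l = X ^ 3 * x ^ 3 := by rw [← hXx]; ring
      have h5 : l ^ 2 * l ≤ X ^ 3 * l := by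
        rw [h4]
        exact mul_le_mul_of_nonneg_left h3 (by positivity)
      exact le_of_mul_le_mul_right h5 hl0
    exact le_of_pow_le_pow_left₀ (by norm_num) hX0.le (hl3.trans h2)
  have hX4 : 10 ^ 5 ≤ ε ^ 4 * Real.sqrt X := by
    have h2 : 10 ^ 5 / ε ^ 4 ≤ Real.sqrt X := by
      apply Real.le_sqrt_of_sq_le
      refine le_trans (le_of_eq ?_) hXK
      rw [div_pow, ← pow_mul, ← pow_mul]
    rw [div_le_iff₀ (by positivity)] at h2
    linarith only [h2]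
  have he2X : 10 ^ 10 ≤ ε ^ 2 * X := by
    have h2 : 10 ^ 10 ≤ X * ε ^ 8 := by
      rwa [div_le_iff₀ (by positivity)] at hXK
    have h3 : X * ε ^ 8 ≤ X * ε ^ 2 :=
      mul_le_mul_of_nonneg_left (pow_le_pow_of_le_one h0.le h1 (by norm_num)) hX0.le
    linarith only [h2, h3]
  obtain ⟨n, i, c1, c2, c3, c4, c5, c6⟩ := fin_choice h0 h1 he2X hX4
  refine ⟨n, i, c1, c2, c3, c4, ?_, ?_, ?_, ?_, ?_, ?_, ?_, hxp⟩
  · have h2 : (n : ℝ) ≤ l := by
      have h3 : ε ^ 2 * X ≤ 1 * X := mul_le_mul_of_nonneg_right hee hX0.le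
      have h4 : X * 1 ≤ X * x := mul_le_mul_of_nonneg_left (by linarith only [hx0]) hX0.le
      rw [hXx] at h4
      linarith only [h3, h4, c5, hX0]
    have h3 : (n : ℝ) ^ 2 ≤ l ^ 2 := pow_le_pow_left₀ (Nat.cast_nonneg _) h2 2
    have h4 : l ^ 2 ≤ l ^ 3 * (ε / 8) := by
      have h5 : 1 ≤ l * (ε / 8) := by
        rw [div_le_iff₀ h0] at hl8
        linarith only [hl8]
      have h6 : l ^ 2 * 1 ≤ l ^ 2 * (l * (ε / 8)) := mul_le_mul_of_nonneg_left h5 (by positivity)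
      calc l ^ 2 = l ^ 2 * 1 := (mul_one _).symm
        _ ≤ _ := h6
        _ = _ := by ring
    calc (n : ℝ) ^ 2 ≤ l ^ 3 * (ε / 8) := h3.trans h4
      _ ≤ _ := mul_le_mul_of_nonneg_right hex3 (by positivity)
  · have h2 : x * n ≤ x * (ε ^ 2 * X / 625) := mul_le_mul_of_nonneg_left c5 hxp.le
    have h3 : x * (ε ^ 2 * X / 625) = ε ^ 2 * l / 625 := by rw [← hXx]; ring
    have h4 : (1 + ε / 4) * (x * n) ≤ 5 / 4 * (ε ^ 2 * l / 625) := by
      rw [h3] at h2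
      exact mul_le_mul (by linarith only [h1]) h2 (by positivity) (by norm_num)
    calc (1 + ε / 4) * x * n = (1 + ε / 4) * (x * n) := by ring
      _ ≤ _ := h4
      _ = _ := by ring
  · rw [hx14]
    have h2 : l ≤ l ^ 6 := le_self_pow₀ hl1 (by norm_num)
    calc l ≤ Real.exp (x * (ε / 8)) := h2.trans hex6
      _ = Real.exp (x * (ε / 8)) * 1 := (mul_one _).symm
      _ ≤ _ := mul_le_mul_of_nonneg_left hE8 (by positivity)
  · exact Real.exp_le_exp.2 (by linarith only [hx0])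
  · have h2 : (16 * l / ε) ^ 4 ≤ l ^ 6 / 128 := by
      have h3 : (16 * l / ε) ^ 4 = ((16 / ε) ^ 4 * 128 * l ^ 4) / 128 := by ring
      have h5 : l ^ 6 = l ^ 2 * l ^ 4 := by ring
      rw [h3, h5]
      exact div_le_div_of_nonneg_right (mul_le_mul_of_nonneg_right hl2 (by positivity))
        (by norm_num)
    have h3 : Real.exp (-(x * (ε / 4))) ≤ Real.exp (-(x * (ε / 8))) := by
      apply Real.exp_le_exp.2
      have : 0 ≤ x * (ε / 8) := by positivity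
      linarith only [this]
    have h4 : l ^ 6 * Real.exp (-(x * (ε / 8))) ≤ 1 := by
      rw [Real.exp_neg, ← div_eq_mul_inv, div_le_one (by positivity)]
      exact hex6
    calc (16 * l / ε) ^ 4 * Real.exp (-(x * (ε / 4))) ≤ l ^ 6 / 128 * Real.exp (-(x * (ε / 8))) :=
          mul_le_mul h2 h3 (by positivity) (by positivity)
      _ = l ^ 6 * Real.exp (-(x * (ε / 8))) / 128 := by ring
      _ ≤ _ := by linarith only [h4]
  · refine fin_terms h0 h1 hx0 hl100 hXx he2X hl2 hex6 hex3 ?_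
    have h4 : x ^ 2 ≤ (ε ^ 2 / 4000 * Real.sqrt X) ^ 2 := by
      refine hX1.trans ?_
      rw [mul_pow, Real.sq_sqrt hX0.le]
      refine mul_le_mul_of_nonneg_right ?_ hX0.le
      exact pow_le_pow_of_le_one he0.le he1 (by norm_num)
    have h5 : x ≤ ε ^ 2 / 4000 * Real.sqrt X :=
      le_of_pow_le_pow_left₀ two_ne_zero (by positivity) h4
    linarith only [h5, c6]
  · rw [← hX]
    linarith only [c6]

end Pool.Agent.J4.H33.CS
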