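import Pool.Agent.J4.H33.CS.T4
import Pool.Agent.H505R2.DivB

/-!
# Piece T5 of project CS: the error term is small in mean square on every coset

Proof by helper95.
-/

set_option autoImplicit false

namespace Pool.Agent.J4.H33.CS

open Finset
open scoped Classical
open ArithmeticFunction (cardFactors)

namespace T5

theorem large {κ K R : ℝ} (hκ : 0 < κ) (hK : 0 ≤ K) (hR : 0 ≤ R) : ∃ L₀ : ℝ, 0 ≤ L₀ ∧
    ∀ L : ℝ, L₀ ≤ L → K ≤ Real.exp (κ * L) ∧ 1 + R * L ≤ Real.exp (κ * L) := by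
  refine ⟨K / κ + 2 * R / κ ^ 2, by positivity, fun L hL => ?_⟩
  have h1 : 0 ≤ K / κ := by positivity
  have h2 : 0 ≤ 2 * R / κ ^ 2 := by positivity
  have hL0 : 0 ≤ L := by linarith
  have hKL : K ≤ κ * L := by
    have : K / κ ≤ L := by linarith
    rw [div_le_iff₀ hκ] at this
    linarith
  have hRL : 2 * R ≤ κ ^ 2 * L := by
    have : 2 * R / κ ^ 2 ≤ L := by linarith
    rw [div_le_iff₀ (by positivity)] at this
    linarith
  have hq := Real.quadratic_le_exp_of_nonneg (x := κ * L) (by positivity)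
  constructor
  · have : 0 ≤ (κ * L) ^ 2 / 2 := by positivity
    linarith
  · have h3 : R * L ≤ (κ * L) ^ 2 / 2 := by
      have := mul_le_mul_of_nonneg_right hRL hL0
      nlinarith
    have : 0 ≤ κ * L := by positivity
    linarith

theorem sq3 (a b c : ℝ) : (a + b + c) ^ 2 ≤ 3 * (a ^ 2 + b ^ 2 + c ^ 2) := by
  nlinarith [sq_nonneg (a - b), sq_nonneg (b - c), sq_nonneg (a - c)]

/-- the square of the bound `eb` -/
theorem eb_sq {q : ℕ} [Fact q.Prime] (D : ℕ) (τ : ℝ) (u : (ZMod q)ˣ) :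
    eb D τ u ^ 2 ≤ 3 * τ ^ 2 * (if D < (u : ZMod q).val then (((u : ZMod q).val : ℝ))⁻¹ else 0) +
      (12 * τ ^ 2 + 108) * (D * (q : ℝ)⁻¹) := by
  have hD : Real.sqrt D ^ 2 = D := Real.sq_sqrt (Nat.cast_nonneg _)
  have hq : (Real.sqrt q)⁻¹ ^ 2 = (q : ℝ)⁻¹ := by
    rw [inv_pow, Real.sq_sqrt (Nat.cast_nonneg _)]
  have hv : (if D < (u : ZMod q).val then (Real.sqrt ((u : ZMod q).val))⁻¹ else 0) ^ 2 =
      if D < (u : ZMod q).val then (((u : ZMod q).val : ℝ))⁻¹ else 0 := by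
    split_ifs
    · rw [inv_pow, Real.sq_sqrt (Nat.cast_nonneg _)]
    · norm_num
  unfold eb
  generalize hw : (if D < (u : ZMod q).val then (Real.sqrt ((u : ZMod q).val))⁻¹ else 0) = w at hv ⊢
  rw [← hv]
  calc (τ * (w + 2 * Real.sqrt D * (Real.sqrt q)⁻¹) + 6 * Real.sqrt D * (Real.sqrt q)⁻¹) ^ 2
      = (τ * w + τ * (2 * Real.sqrt D * (Real.sqrt q)⁻¹) +
          6 * Real.sqrt D * (Real.sqrt q)⁻¹) ^ 2 := by ring
    _ ≤ 3 * ((τ * w) ^ 2 + (τ * (2 * Real.sqrt D * (Real.sqrt q)⁻¹)) ^ 2 +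
          (6 * Real.sqrt D * (Real.sqrt q)⁻¹) ^ 2) := sq3 _ _ _
    _ = 3 * τ ^ 2 * w ^ 2 + (12 * τ ^ 2 + 108) *
          (Real.sqrt D ^ 2 * ((Real.sqrt q)⁻¹) ^ 2) := by ring
    _ = _ := by rw [hD, hq]

end T5

open T5 in
theorem tail_small {ε : ℝ} (h0 : 0 < ε) (h1 : ε ≤ 1) : ∃ q₀ : ℕ, ∀ (q : ℕ) [Fact q.Prime], q₀ ≤ q →
    ∀ D : ℕ, (q : ℝ) ^ (ε / 20) ≤ D → (D : ℝ) ≤ (q : ℝ) ^ (ε / 16) →
    ∀ A : Subgroup (ZMod q)ˣ, ((AS A).card : ℝ) ≤ (q : ℝ) ^ (1 - ε) →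
    ∀ e : (ZMod q)ˣ → ℂ,
      (∀ τ : ℝ, (∀ h : ℕ, 1 ≤ h → h < D * q → (h.divisors.card : ℝ) ≤ τ) → ∀ u, ‖e u‖ ≤ eb D τ u) →
    ∀ c : (ZMod q)ˣ, ∑ u ∈ AS A, ‖e (c * u)‖ ^ 2 ≤ (q : ℝ) ^ (-(ε ^ 2 / 50)) := by
  obtain ⟨η, hη⟩ : ∃ η, η = ε ^ 3 / 10 ^ 5 := ⟨_, rfl⟩
  have hη0 : 0 < η := by rw [hη]; positivity
  obtain ⟨C, hC1, hC⟩ := Pool.Agent.H505R2.div_bound hη0
  have hC0 : 0 < C := by linarith
  obtain ⟨κ, hκ⟩ : ∃ κ, κ = ε ^ 2 / 1000 := ⟨_, rfl⟩
  have hκ0 : 0 < κ := by rw [hκ]; positivity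
  obtain ⟨r, hr⟩ : ∃ r : ℕ, r = ⌈20 / ε⌉₊ := ⟨_, rfl⟩
  have hrge : 20 / ε ≤ r := by rw [hr]; exact Nat.le_ceil _
  have hr20 : 20 ≤ ε * r := by
    rw [div_le_iff₀ h0] at hrge
    linarith
  have hr0 : (0 : ℝ) < r := lt_of_lt_of_le (by positivity) hrge
  have hr1 : 1 ≤ r := by exact_mod_cast hr0
  have hr1' : (1 : ℝ) ≤ r := by exact_mod_cast hr1
  have hr21 : ε * r ≤ 21 := by
    have : (r : ℝ) < 20 / ε + 1 := by rw [hr]; exact Nat.ceil_lt_add_one (by positivity)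
    have h2 := mul_lt_mul_of_pos_left this h0
    have h3 : ε * (20 / ε + 1) = 20 + ε := by field_simp
    linarith
  obtain ⟨L₀, hL₀, hlarge⟩ := large hκ0 (K := 3 * C ^ 3 + 120 * C ^ 2 + 2) (by positivity)
    (Nat.cast_nonneg (α := ℝ) r)
  refine ⟨⌈Real.exp L₀⌉₊, ?_⟩
  intro q hqF hqq D hD1 hD2 A hA e he c
  have hqp : q.Prime := Fact.out
  have hq0 : (0 : ℝ) < q := by exact_mod_cast hqp.pos
  have hq1 : (1 : ℝ) < q := by exact_mod_cast hqp.one_lt
  obtain ⟨L, hL⟩ : ∃ L, L = Real.log q := ⟨_, rfl⟩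
  have hqexp : (q : ℝ) = Real.exp L := by rw [hL, Real.exp_log hq0]
  have hLL₀ : L₀ ≤ L := by
    have : Real.exp L₀ ≤ q := (Nat.le_ceil _).trans (by exact_mod_cast hqq)
    rw [hqexp] at this
    exact Real.exp_le_exp.mp this
  have hL0 : 0 ≤ L := by linarith
  obtain ⟨hKb, hRb⟩ := hlarge L hLL₀
  have hDle : (D : ℝ) ≤ Real.exp (L * (ε / 16)) := by
    rw [hqexp, ← Real.exp_mul] at hD2
    exact hD2
  have hDge : Real.exp (L * (ε / 20)) ≤ D := by
    rw [hqexp, ← Real.exp_mul] at hD1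
    exact hD1
  have hAc : ((AS A).card : ℝ) ≤ Real.exp (L * (1 - ε)) := by
    rw [hqexp, ← Real.exp_mul] at hA
    exact hA
  -- the bound for the divisor function
  obtain ⟨τ, hτ⟩ : ∃ τ, τ = C * Real.exp (2 * η * L) := ⟨_, rfl⟩
  have hτ1 : 1 ≤ τ := by
    rw [hτ]
    have : 1 ≤ Real.exp (2 * η * L) := Real.one_le_exp (by positivity)
    nlinarith
  have hDq : (D : ℝ) ≤ q := by
    rw [hqexp]
    refine hDle.trans (Real.exp_le_exp.mpr ?_)
    nlinarith
  have hdiv : ∀ h : ℕ, 1 ≤ h → h < D * q → (h.divisors.card : ℝ) ≤ τ := by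
    intro h hh1 hh2
    refine (hC h (by omega)).trans ?_
    rw [hτ]
    apply mul_le_mul_of_nonneg_left _ hC0.le
    have hh3 : (h : ℝ) ≤ Real.exp (2 * L) := by
      have : (h : ℝ) ≤ (D : ℝ) * q := by exact_mod_cast hh2.le
      calc (h : ℝ) ≤ (D : ℝ) * q := this
        _ ≤ q * q := mul_le_mul_of_nonneg_right hDq hq0.le
        _ = Real.exp (2 * L) := by rw [hqexp, ← Real.exp_add]; congr 1; ring
    calc (h : ℝ) ^ η ≤ (Real.exp (2 * L)) ^ η :=
          Real.rpow_le_rpow (Nat.cast_nonneg _) hh3 hη0.le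
      _ = Real.exp (2 * η * L) := by rw [← Real.exp_mul]; congr 1; ring
  have heb := he τ hdiv
  -- the tail
  obtain ⟨V, hV⟩ : ∃ V, V = ∑ u ∈ AS A, (if D < (((c * u : (ZMod q)ˣ)) : ZMod q).val then
      ((((c * u : (ZMod q)ˣ) : ZMod q).val : ℝ))⁻¹ else 0) := ⟨_, rfl⟩
  have hDr : q ≤ D ^ r := by
    have h2 : (q : ℝ) ≤ ((D ^ r : ℕ) : ℝ) := by
      push_cast
      calc (q : ℝ) = Real.exp L := hqexp
        _ ≤ Real.exp (r * (L * (ε / 20))) := by
            apply Real.exp_le_exp.mpr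
            nlinarith
        _ = (Real.exp (L * (ε / 20))) ^ r := by rw [← Real.exp_nat_mul]
        _ ≤ (D : ℝ) ^ r := pow_le_pow_left₀ (Real.exp_pos _).le hDge _
    exact_mod_cast h2
  have hτr : ∀ n : ℕ, 1 ≤ n → n < q ^ r →
      (n.divisors.card : ℝ) ^ r ≤ (C * Real.exp (r * η * L)) ^ r := by
    intro n hn1 hn2
    apply pow_le_pow_left₀ (Nat.cast_nonneg _)
    refine (hC n (by omega)).trans ?_
    apply mul_le_mul_of_nonneg_left _ hC0.le
    have hn3 : (n : ℝ) ≤ Real.exp (r * L) := by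
      have : (n : ℝ) ≤ (q : ℝ) ^ r := by exact_mod_cast hn2.le
      calc (n : ℝ) ≤ (q : ℝ) ^ r := this
        _ = Real.exp (r * L) := by rw [hqexp, ← Real.exp_nat_mul]
    calc (n : ℝ) ^ η ≤ (Real.exp (r * L)) ^ η :=
          Real.rpow_le_rpow (Nat.cast_nonneg _) hn3 hη0.le
      _ = Real.exp (r * η * L) := by rw [← Real.exp_mul]; congr 1; ring
  have htail := coset_tail A c hr1 hDr hτr
  rw [← hV, ← hL] at htail
  have hRL : 1 ≤ 1 + r * L := by
    have : 0 ≤ r * L := by positivity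
    linarith
  obtain ⟨X, hX⟩ : ∃ X, X = C * Real.exp (r * η * L) * Real.exp (-(ε / r * L)) * (1 + r * L) :=
    ⟨_, rfl⟩
  have hX0 : 0 ≤ X := by rw [hX]; positivity
  have hVX : V ≤ X := by
    refine le_of_pow_le_pow_left₀ (by omega : r ≠ 0) hX0 (htail.trans ?_)
    have e1 : ((AS A).card : ℝ) / q ≤ Real.exp (-(ε * L)) := by
      rw [div_le_iff₀ hq0]
      refine hAc.trans (le_of_eq ?_)
      rw [hqexp, ← Real.exp_add]
      congr 1
      ring
    have e2 : (1 + r * L) ≤ (1 + r * L) ^ r := le_self_pow₀ hRL (by omega)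
    have e3 : Real.exp (-(ε / r * L)) ^ r = Real.exp (-(ε * L)) := by
      rw [← Real.exp_nat_mul]
      congr 1
      field_simp
    calc (C * Real.exp (r * η * L)) ^ r * (((AS A).card : ℝ) / q * (1 + r * L))
        ≤ (C * Real.exp (r * η * L)) ^ r * (Real.exp (-(ε * L)) * (1 + r * L) ^ r) := by
          apply mul_le_mul_of_nonneg_left _ (by positivity)
          exact mul_le_mul e1 e2 (by linarith) (Real.exp_pos _).le
      _ = X ^ r := by
          rw [hX]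
          simp only [mul_pow]
          rw [e3]
          ring
  -- the sum of the squares
  have hsq : ∑ u ∈ AS A, ‖e (c * u)‖ ^ 2 ≤
      3 * τ ^ 2 * V + ((AS A).card : ℝ) * ((12 * τ ^ 2 + 108) * (D * (q : ℝ)⁻¹)) := by
    calc ∑ u ∈ AS A, ‖e (c * u)‖ ^ 2 ≤ ∑ u ∈ AS A, (3 * τ ^ 2 *
          (if D < (((c * u : (ZMod q)ˣ)) : ZMod q).val then
            ((((c * u : (ZMod q)ˣ) : ZMod q).val : ℝ))⁻¹ else 0) +
            (12 * τ ^ 2 + 108) * (D * (q : ℝ)⁻¹)) := by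
          refine Finset.sum_le_sum fun u _ => ?_
          exact (pow_le_pow_left₀ (norm_nonneg _) (heb (c * u)) 2).trans (eb_sq D τ (c * u))
      _ = _ := by
          rw [Finset.sum_add_distrib, ← Finset.mul_sum, ← hV, Finset.sum_const, nsmul_eq_mul]
  refine hsq.trans ?_
  have hεr : ε ^ 2 / 21 ≤ ε / r := by
    rw [div_le_div_iff₀ (by norm_num) hr0]
    nlinarith
  have hrη : r * η ≤ 21 * ε ^ 2 / 10 ^ 5 := by
    rw [hη]
    have : (r : ℝ) * (ε ^ 3 / 10 ^ 5) = (ε * r) * (ε ^ 2 / 10 ^ 5) := by ring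
    rw [this]
    have h2 : 0 ≤ ε ^ 2 / 10 ^ 5 := by positivity
    have := mul_le_mul_of_nonneg_right hr21 h2
    linarith
  have hηε : η ≤ ε ^ 2 / 10 ^ 5 := by
    rw [hη]
    have : ε ^ 3 ≤ ε ^ 2 := by
      have : ε ^ 3 = ε ^ 2 * ε := by ring
      rw [this]
      have h2 : 0 ≤ ε ^ 2 := by positivity
      nlinarith
    linarith
  have hε2 : ε ^ 2 ≤ ε := by nlinarith
  have hε20 : 0 < ε ^ 2 := by positivity
  have hτ2 : τ ^ 2 = C ^ 2 * Real.exp (4 * η * L) := by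
    have h2 : Real.exp (2 * η * L) ^ 2 = Real.exp (4 * η * L) := by
      rw [sq, ← Real.exp_add]
      congr 1
      ring
    rw [hτ, mul_pow, h2]
  have hsplit : (q : ℝ) ^ (-(ε ^ 2 / 50)) = Real.exp (-(ε ^ 2 / 50 * L)) := by
    rw [hqexp, ← Real.exp_mul]
    congr 1
    ring
  have hhalf : 2 * Real.exp (-((ε ^ 2 / 50 + κ) * L)) ≤ Real.exp (-(ε ^ 2 / 50 * L)) := by
    have h2 : (2 : ℝ) ≤ Real.exp (κ * L) := by
      refine le_trans ?_ hKb
      have : 0 ≤ 3 * C ^ 3 + 120 * C ^ 2 := by positivity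
      linarith
    calc 2 * Real.exp (-((ε ^ 2 / 50 + κ) * L)) ≤
          Real.exp (κ * L) * Real.exp (-((ε ^ 2 / 50 + κ) * L)) :=
          mul_le_mul_of_nonneg_right h2 (Real.exp_pos _).le
      _ = _ := by
          rw [← Real.exp_add]
          congr 1
          ring
  have ht1 : 3 * τ ^ 2 * V ≤ Real.exp (-((ε ^ 2 / 50 + κ) * L)) := by
    have hC3 : 3 * C ^ 3 ≤ Real.exp (κ * L) := by
      refine le_trans ?_ hKb
      have : 0 ≤ 120 * C ^ 2 := by positivity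
      linarith
    calc 3 * τ ^ 2 * V ≤ 3 * τ ^ 2 * X := mul_le_mul_of_nonneg_left hVX (by positivity)
      _ = (3 * C ^ 3) * (1 + r * L) * (Real.exp (4 * η * L) * Real.exp (r * η * L) *
            Real.exp (-(ε / r * L))) := by rw [hτ2, hX]; ring
      _ ≤ Real.exp (κ * L) * Real.exp (κ * L) * (Real.exp (4 * η * L) * Real.exp (r * η * L) *
            Real.exp (-(ε / r * L))) := by
          apply mul_le_mul_of_nonneg_right _ (by positivity)
          exact mul_le_mul hC3 hRb (by linarith) (Real.exp_pos _).le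
      _ = Real.exp ((κ + κ + 4 * η + r * η - ε / r) * L) := by
          rw [← Real.exp_add, ← Real.exp_add, ← Real.exp_add, ← Real.exp_add]
          congr 1
          ring
      _ ≤ _ := by
          apply Real.exp_le_exp.mpr
          have : (κ + κ + 4 * η + r * η - ε / r) ≤ -(ε ^ 2 / 50 + κ) := by
            rw [hκ]
            linarith
          have := mul_le_mul_of_nonneg_right this hL0
          linarith
  have ht2 : ((AS A).card : ℝ) * ((12 * τ ^ 2 + 108) * (D * (q : ℝ)⁻¹)) ≤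
      Real.exp (-((ε ^ 2 / 50 + κ) * L)) := by
    have hC2 : 120 * C ^ 2 ≤ Real.exp (κ * L) := by
      refine le_trans ?_ hKb
      have : 0 ≤ 3 * C ^ 3 := by positivity
      linarith
    have h120 : 12 * τ ^ 2 + 108 ≤ 120 * τ ^ 2 := by nlinarith
    have hqi : (q : ℝ)⁻¹ = Real.exp (-L) := by rw [hqexp, Real.exp_neg]
    calc ((AS A).card : ℝ) * ((12 * τ ^ 2 + 108) * (D * (q : ℝ)⁻¹))
        ≤ Real.exp (L * (1 - ε)) * ((120 * τ ^ 2) * (Real.exp (L * (ε / 16)) * Real.exp (-L))) := by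
          rw [hqi]
          apply mul_le_mul hAc _ (by positivity) (Real.exp_pos _).le
          apply mul_le_mul h120 _ (by positivity) (by positivity)
          exact mul_le_mul_of_nonneg_right hDle (Real.exp_pos _).le
      _ = (120 * C ^ 2) * (Real.exp (L * (1 - ε)) * Real.exp (4 * η * L) *
            Real.exp (L * (ε / 16)) * Real.exp (-L)) := by rw [hτ2]; ring
      _ ≤ Real.exp (κ * L) * (Real.exp (L * (1 - ε)) * Real.exp (4 * η * L) *
            Real.exp (L * (ε / 16)) * Real.exp (-L)) :=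
          mul_le_mul_of_nonneg_right hC2 (by positivity)
      _ = Real.exp ((κ + 4 * η - 15 / 16 * ε) * L) := by
          rw [← Real.exp_add, ← Real.exp_add, ← Real.exp_add, ← Real.exp_add]
          congr 1
          ring
      _ ≤ _ := by
          apply Real.exp_le_exp.mpr
          have : (κ + 4 * η - 15 / 16 * ε) ≤ -(ε ^ 2 / 50 + κ) := by
            rw [hκ]
            linarith
          have := mul_le_mul_of_nonneg_right this hL0
          linarith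
  rw [hsplit]
  linarith

end Pool.Agent.J4.H33.CS
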