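import Pool.Agent.J4.H33.CS.Fix
import Pool.Agent.J4.H33.CS.Mer
import Pool.Agent.J4.H33.CS.T5
import Pool.Agent.J4.H33.CS.Rl

/-!
# Large central values in almost all cosets
-/

set_option autoImplicit false

namespace Pool.Agent.J4.H33.CS

open Finset Filter
open scoped Classical

/-- **Large central values in almost all cosets.** -/
theorem almost_all {ε : ℝ} (h0 : 0 < ε) (h1 : ε ≤ 1) : ∃ q₀ : ℕ, ∀ (q : ℕ) [Fact q.Prime],
    q₀ ≤ q → ∀ H : Subgroup (DirichletCharacter ℂ q), (q : ℝ) ^ ε ≤ Nat.card H →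
    ∀ y : ℝ, Real.log q ^ (48 / ε + 3) ≤ y →
    Real.log y ≤ ε ^ 2 / 4000 * Real.log q ^ ((1 : ℝ) / 3) →
    (((XS q).filter (fun χ₀ => ∀ ψ ∈ H, ‖DirichletCharacter.LFunction (χ₀ * ψ) (1 / 2)‖ ≤
      Real.exp (ε ^ 2 / 2000 * Real.sqrt (Real.log q / Real.log y)))).card : ℝ) ≤
      ((q : ℝ) - 1) * y ^ (-(ε ^ 2 / 4000)) := by
  obtain ⟨L₀, hL₀⟩ := fin_real h0 h1
  obtain ⟨y₀, hy₀⟩ := mer h0 h1
  obtain ⟨q₁, hq₁⟩ := tail_small h0 h1
  have t1 : Tendsto (fun q : ℕ => Real.log (q : ℝ)) atTop atTop :=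
    Real.tendsto_log_atTop.comp tendsto_natCast_atTop_atTop
  have t2 : Tendsto (fun q : ℕ => (q : ℝ) ^ (ε / 20)) atTop atTop :=
    (tendsto_rpow_atTop (by positivity)).comp tendsto_natCast_atTop_atTop
  have t3 : Tendsto (fun q : ℕ => (q : ℝ) ^ (ε / 80)) atTop atTop :=
    (tendsto_rpow_atTop (by positivity)).comp tendsto_natCast_atTop_atTop
  obtain ⟨q₂, hq₂⟩ := eventually_atTop.1 ((t1.eventually_ge_atTop (max (max L₀ 1) y₀)).and
    ((t2.eventually_ge_atTop 1).and (t3.eventually_ge_atTop 2)))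
  refine ⟨max q₁ q₂, fun q _ hq H hH y hy1 hy2 => ?_⟩
  obtain ⟨b1, b2, b3⟩ := hq₂ q ((le_max_right _ _).trans hq)
  have hqp : q.Prime := Fact.out
  have hq0 : (0 : ℝ) < q := by exact_mod_cast hqp.pos
  have hqR1 : (1 : ℝ) < q := by exact_mod_cast hqp.one_lt
  obtain ⟨l, hl⟩ : ∃ l, l = Real.log q := ⟨_, rfl⟩
  rw [← hl] at b1 hy1 hy2 ⊢
  have hlL : L₀ ≤ l := ((le_max_left _ _).trans (le_max_left _ _)).trans b1
  have hl1 : 1 ≤ l := ((le_max_right _ _).trans (le_max_left _ _)).trans b1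
  have hly : y₀ ≤ l := (le_max_right _ _).trans b1
  have hl0 : 0 < l := by linarith only [hl1]
  have hexq : Real.exp l = q := by rw [hl, Real.exp_log hq0]
  -- y
  have hy0 : 0 < y := lt_of_lt_of_le (by positivity) hy1
  have hly1 : l ≤ y := by
    refine le_trans ?_ hy1
    calc l = l ^ (1 : ℝ) := (Real.rpow_one l).symm
      _ ≤ _ := Real.rpow_le_rpow_of_exponent_le hl1 (by
        have : 0 < 48 / ε := by positivity
        linarith only [this])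
  obtain ⟨x, hx⟩ : ∃ x, x = Real.log y := ⟨_, rfl⟩
  have hexy : Real.exp x = y := by rw [hx, Real.exp_log hy0]
  rw [← hx] at hy2 ⊢
  have hx1 : (48 / ε + 3) * Real.log l ≤ x := by
    rw [hx, ← Real.log_rpow hl0]
    exact Real.log_le_log (by positivity) hy1
  have hlogl : 0 ≤ Real.log l := Real.log_nonneg hl1
  have hx0 : 0 ≤ x := le_trans (by positivity) hx1
  have hx2 : x ^ 3 ≤ (ε ^ 2 / 4000) ^ 3 * l := by
    have h2 := pow_le_pow_left₀ hx0 hy2 3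
    rw [mul_pow, ← Real.rpow_natCast (l ^ ((1 : ℝ) / 3)) 3, ← Real.rpow_mul hl0.le] at h2
    norm_num at h2
    exact h2.trans (le_of_eq (by ring))
  obtain ⟨n, i, c1, c2, c3, c4, c5, c6, c7, c8, c9, c10, c11, hxp⟩ := hL₀ l hlL x hx1 hx2
  -- D
  obtain ⟨D, hD⟩ : ∃ D : ℕ, D = ⌊(q : ℝ) ^ (ε / 16)⌋₊ := ⟨_, rfl⟩
  have hD2 : (D : ℝ) ≤ (q : ℝ) ^ (ε / 16) := by rw [hD]; exact Nat.floor_le (by positivity)
  have hD1 : (q : ℝ) ^ (ε / 20) ≤ D := by
    have h2 : (q : ℝ) ^ (ε / 16) < D + 1 := by rw [hD]; exact Nat.lt_floor_add_one _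
    have h3 : (q : ℝ) ^ (ε / 16) = (q : ℝ) ^ (ε / 20) * (q : ℝ) ^ (ε / 80) := by
      rw [← Real.rpow_add hq0]
      congr 1
      ring
    rw [h3] at h2
    have h4 : (q : ℝ) ^ (ε / 20) * 2 ≤ (q : ℝ) ^ (ε / 20) * (q : ℝ) ^ (ε / 80) :=
      mul_le_mul_of_nonneg_left b3 (by positivity)
    linarith only [h2, h4, b2]
  obtain ⟨s1, s2⟩ := hy₀ y (hly.trans hly1)
  have ey : ∀ c : ℝ, y ^ c = Real.exp (x * c) := by
    intro c
    rw [Real.rpow_def_of_pos hy0, hx]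
  have ey' : ∀ c : ℝ, y ^ (-c) = Real.exp (-(x * c)) := by
    intro c
    rw [ey]
    congr 1
    ring
  have eq' : ∀ c : ℝ, (q : ℝ) ^ c = Real.exp (l * c) := by
    intro c
    rw [Real.rpow_def_of_pos hq0, hl]
  have hfix := fixed h0 h1 H hH (y := y) (by rw [← hexy]; exact c8) (by rw [← hl, ey]; exact c7)
    hD1 hD2 (fun A hA e he c => hq₁ q ((le_max_left _ _).trans hq) D hD1 hD2 A hA e he c) s1 s2
    (i := i) (j := n - i) (n := n) (by omega) c1 (by omega) c3 c4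
    (by rw [← hexy]; exact c5)
    (by
      rw [eq', ey, ← Real.exp_nat_mul]
      apply Real.exp_le_exp.2
      have h2 : (n : ℝ) * (x * (1 + ε / 4)) = (1 + ε / 4) * x * n := by ring
      rw [h2]
      linarith only [c6])
    (by rw [← hl, ey']; exact c9) (V := Real.exp (i / 2)) (Real.exp_pos _)
  have hsub : (((XS q).filter (fun χ₀ => ∀ ψ ∈ H, ‖DirichletCharacter.LFunction (χ₀ * ψ) (1 / 2)‖ ≤
      Real.exp (ε ^ 2 / 2000 * Real.sqrt (l / x)))).card : ℝ) ≤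
      (((XS q).filter (fun χ₀ => ∀ ψ ∈ H, ‖DirichletCharacter.LFunction (χ₀ * ψ) (1 / 2)‖ ≤
      Real.exp ((i : ℝ) / 2))).card : ℝ) := by
    have h2 : (XS q).filter (fun χ₀ => ∀ ψ ∈ H, ‖DirichletCharacter.LFunction (χ₀ * ψ) (1 / 2)‖ ≤
        Real.exp (ε ^ 2 / 2000 * Real.sqrt (l / x))) ⊆
        (XS q).filter (fun χ₀ => ∀ ψ ∈ H, ‖DirichletCharacter.LFunction (χ₀ * ψ) (1 / 2)‖ ≤
        Real.exp ((i : ℝ) / 2)) := by
      intro χ hχ
      rw [mem_filter] at hχ ⊢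
      exact ⟨hχ.1, fun ψ hψ => (hχ.2 ψ hψ).trans (Real.exp_le_exp.2 c11)⟩
    exact_mod_cast card_le_card h2
  refine hsub.trans (hfix.trans ?_)
  have hq1 : (0 : ℝ) ≤ (q : ℝ) - 1 := by linarith only [hqR1]
  refine mul_le_mul_of_nonneg_left ?_ hq1
  rw [← hl, ey', eq', ey']
  have e1 : Real.exp (l * -(3 * ε ^ 2 / 250)) = Real.exp (-(3 * ε ^ 2 / 250 * l)) := by
    congr 1; ring
  have e2 : Real.exp (-(x * (ε ^ 2 / 4000))) = Real.exp (-(ε ^ 2 / 4000 * x)) := by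
    congr 1; ring
  rw [e1, e2]
  exact c10

end Pool.Agent.J4.H33.CS
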