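import Pool.Agent.J4.H33.CS.Fix2
import Pool.Agent.J4.H33.CS.Mer
import Pool.Agent.J4.H33.CS.T5
import Pool.Agent.J4.H33.CS.Rl

/-!
# Many large central values in almost all cosets
-/

set_option autoImplicit false

namespace Pool.Agent.J4.H33.CS

open Finset Filter
open scoped Classical

/-- **Many large central values in almost all cosets.** -/
theorem almost_all2 {ε : ℝ} (h0 : 0 < ε) (h1 : ε ≤ 1) : ∃ q₀ : ℕ, ∀ (q : ℕ) [Fact q.Prime],
    q₀ ≤ q → ∀ H : Subgroup (DirichletCharacter ℂ q), (q : ℝ) ^ ε ≤ Nat.card H →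
    ∀ y : ℝ, Real.log q ^ (48 / ε + 3) ≤ y →
    Real.log y ≤ ε ^ 2 / 4000 * Real.log q ^ ((1 : ℝ) / 3) →
    (((XS q).filter (fun χ₀ => (((HS H).filter (fun ψ =>
      Real.exp (ε ^ 2 / 2000 * Real.sqrt (Real.log q / Real.log y)) <
        ‖DirichletCharacter.LFunction (χ₀ * ψ) (1 / 2)‖)).card : ℝ) ≤
        (q : ℝ) ^ (-(ε / 2)) * ((HS H).card : ℝ))).card : ℝ) ≤
      ((q : ℝ) - 1) * (3 * y ^ (-(ε ^ 2 / 4000)) + 360 * (q : ℝ) ^ (-(ε / 4))) := by
  obtain ⟨L₀, hL₀⟩ := fin_real h0 h1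
  obtain ⟨y₀, hy₀⟩ := mer h0 h1
  obtain ⟨q₁, hq₁⟩ := tail_small h0 h1
  obtain ⟨q₃, hq₃⟩ := Eng.e_small h0 h1
  have t1 : Tendsto (fun q : ℕ => Real.log (q : ℝ)) atTop atTop :=
    Real.tendsto_log_atTop.comp tendsto_natCast_atTop_atTop
  have t2 : Tendsto (fun q : ℕ => (q : ℝ) ^ (ε / 20)) atTop atTop :=
    (tendsto_rpow_atTop (by positivity)).comp tendsto_natCast_atTop_atTop
  have t3 : Tendsto (fun q : ℕ => (q : ℝ) ^ (ε / 80)) atTop atTop :=
    (tendsto_rpow_atTop (by positivity)).comp tendsto_natCast_atTop_atTop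
  obtain ⟨q₂, hq₂⟩ := eventually_atTop.1 ((t1.eventually_ge_atTop (max (max L₀ 1) y₀)).and
    ((t2.eventually_ge_atTop 1).and (t3.eventually_ge_atTop 2)))
  refine ⟨max (max q₁ q₃) q₂, fun q _ hq H hH y hy1 hy2 => ?_⟩
  have hqq1 : q₁ ≤ q := ((le_max_left _ _).trans (le_max_left _ _)).trans hq
  have hqq3 : q₃ ≤ q := ((le_max_right _ _).trans (le_max_left _ _)).trans hq
  obtain ⟨b1, b2, b3⟩ := hq₂ q ((le_max_right _ _).trans hq)
  have hqp : q.Prime := Fact.out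
  have hq0 : (0 : ℝ) < q := by exact_mod_cast hqp.pos
  have hqR1 : (1 : ℝ) < q := by exact_mod_cast hqp.one_lt
  obtain ⟨l, hl⟩ : ∃ l, l = Real.log q := ⟨_, rfl⟩
  rw [← hl] at b1 hy1 hy2 ⊢
  have hlL : L₀ ≤ l := ((le_max_left _ _).trans (le_max_left _ _)).trans b1
  have hl1 : 1 ≤ l := ((le_max_right _ _).trans (le_max_left _ _)).trans b1
  have hly : y₀ ≤ l := (le_max_right _ _).trans b1
  have hl0 : 0 < l := by linarith only [hl1]
  have hexq : Real.exp l = q := by rw [hl, Real.exp_log hq0]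
  -- y
  have hy0 : 0 < y := lt_of_lt_of_le (by positivity) hy1
  have hly1 : l ≤ y := by
    refine le_trans ?_ hy1
    calc l = l ^ (1 : ℝ) := (Real.rpow_one l).symm
      _ ≤ _ := Real.rpow_le_rpow_of_exponent_le hl1 (by
        have : 0 < 48 / ε := by positivity
        linarith only [this])
  obtain ⟨x, hx⟩ : ∃ x, x = Real.log y := ⟨_, rfl⟩
  have hexy : Real.exp x = y := by rw [hx, Real.exp_log hy0]
  rw [← hx] at hy2 ⊢
  have hx1 : (48 / ε + 3) * Real.log l ≤ x := by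
    rw [hx, ← Real.log_rpow hl0]
    exact Real.log_le_log (by positivity) hy1
  have hlogl : 0 ≤ Real.log l := Real.log_nonneg hl1
  have hx0 : 0 ≤ x := le_trans (by positivity) hx1
  have hx2 : x ^ 3 ≤ (ε ^ 2 / 4000) ^ 3 * l := by
    have h2 := pow_le_pow_left₀ hx0 hy2 3
    rw [mul_pow, ← Real.rpow_natCast (l ^ ((1 : ℝ) / 3)) 3, ← Real.rpow_mul hl0.le] at h2
    norm_num at h2
    exact h2.trans (le_of_eq (by ring))
  obtain ⟨n, i, c1, c2, c3, c4, c5, c6, c7, c8, c9, c10, c11, hxp⟩ := hL₀ l hlL x hx1 hx2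
  -- D
  obtain ⟨D, hD⟩ : ∃ D : ℕ, D = ⌊(q : ℝ) ^ (ε / 16)⌋₊ := ⟨_, rfl⟩
  have hD2 : (D : ℝ) ≤ (q : ℝ) ^ (ε / 16) := by rw [hD]; exact Nat.floor_le (by positivity)
  have hD1 : (q : ℝ) ^ (ε / 20) ≤ D := by
    have h2 : (q : ℝ) ^ (ε / 16) < D + 1 := by rw [hD]; exact Nat.lt_floor_add_one _
    have h3 : (q : ℝ) ^ (ε / 16) = (q : ℝ) ^ (ε / 20) * (q : ℝ) ^ (ε / 80) := by
      rw [← Real.rpow_add hq0]
      congr 1
      ring
    rw [h3] at h2
    have h4 : (q : ℝ) ^ (ε / 20) * 2 ≤ (q : ℝ) ^ (ε / 20) * (q : ℝ) ^ (ε / 80) :=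
      mul_le_mul_of_nonneg_left b3 (by positivity)
    linarith only [h2, h4, b2]
  obtain ⟨s1, s2⟩ := hy₀ y (hly.trans hly1)
  have ey : ∀ c : ℝ, y ^ c = Real.exp (x * c) := by
    intro c
    rw [Real.rpow_def_of_pos hy0, hx]
  have ey' : ∀ c : ℝ, y ^ (-c) = Real.exp (-(x * c)) := by
    intro c
    rw [ey]
    congr 1
    ring
  have eq' : ∀ c : ℝ, (q : ℝ) ^ c = Real.exp (l * c) := by
    intro c
    rw [Real.rpow_def_of_pos hq0, hl]
  have hfix := fixed2 h0 h1 H hH (y := y) (by rw [← hexy]; exact c8) (by rw [← hl, ey]; exact c7)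
    hD1 hD2 (fun A hA e he c => hq₁ q hqq1 D hD1 hD2 A hA e he c)
    (fun e he => hq₃ q hqq3 D hD2 e he) s1 s2
    (i := i) (j := n - i) (n := n) (by omega) c1 (by omega) c3 c4
    (by rw [← hexy]; exact c5)
    (by
      rw [eq', ey, ← Real.exp_nat_mul]
      apply Real.exp_le_exp.2
      have h2 : (n : ℝ) * (x * (1 + ε / 4)) = (1 + ε / 4) * x * n := by ring
      rw [h2]
      linarith only [c6])
    (by rw [← hl, ey']; exact c9) (V := Real.exp (i / 2)) (Real.exp_pos _)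
  have hsub : (((XS q).filter (fun χ₀ => (((HS H).filter (fun ψ =>
      Real.exp (ε ^ 2 / 2000 * Real.sqrt (l / x)) <
        ‖DirichletCharacter.LFunction (χ₀ * ψ) (1 / 2)‖)).card : ℝ) ≤
        (q : ℝ) ^ (-(ε / 2)) * ((HS H).card : ℝ))).card : ℝ) ≤
      (((XS q).filter (fun χ₀ => (((HS H).filter (fun ψ =>
      Real.exp ((i : ℝ) / 2) <
        ‖DirichletCharacter.LFunction (χ₀ * ψ) (1 / 2)‖)).card : ℝ) ≤
        (q : ℝ) ^ (-(ε / 2)) * ((HS H).card : ℝ))).card : ℝ) := by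
    have h2 : (XS q).filter (fun χ₀ => (((HS H).filter (fun ψ =>
        Real.exp (ε ^ 2 / 2000 * Real.sqrt (l / x)) <
        ‖DirichletCharacter.LFunction (χ₀ * ψ) (1 / 2)‖)).card : ℝ) ≤
        (q : ℝ) ^ (-(ε / 2)) * ((HS H).card : ℝ)) ⊆
        (XS q).filter (fun χ₀ => (((HS H).filter (fun ψ =>
        Real.exp ((i : ℝ) / 2) <
        ‖DirichletCharacter.LFunction (χ₀ * ψ) (1 / 2)‖)).card : ℝ) ≤
        (q : ℝ) ^ (-(ε / 2)) * ((HS H).card : ℝ)) := by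
      intro χ hχ
      rw [mem_filter] at hχ ⊢
      refine ⟨hχ.1, le_trans ?_ hχ.2⟩
      have h3 : (HS H).filter (fun ψ => Real.exp ((i : ℝ) / 2) <
          ‖DirichletCharacter.LFunction (χ * ψ) (1 / 2)‖) ⊆ (HS H).filter (fun ψ =>
          Real.exp (ε ^ 2 / 2000 * Real.sqrt (l / x)) <
            ‖DirichletCharacter.LFunction (χ * ψ) (1 / 2)‖) := by
        intro ψ hψ
        rw [mem_filter] at hψ ⊢
        exact ⟨hψ.1, lt_of_le_of_lt (Real.exp_le_exp.2 c11) hψ.2⟩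
      exact_mod_cast card_le_card h3
    exact_mod_cast card_le_card h2
  refine hsub.trans (hfix.trans ?_)
  have hq1 : (0 : ℝ) ≤ (q : ℝ) - 1 := by linarith only [hqR1]
  refine mul_le_mul_of_nonneg_left ?_ hq1
  rw [← hl, ey', eq', ey', eq']
  have e1 : Real.exp (l * -(3 * ε ^ 2 / 250)) = Real.exp (-(3 * ε ^ 2 / 250 * l)) := by
    congr 1; ring
  have e2 : Real.exp (-(x * (ε ^ 2 / 4000))) = Real.exp (-(ε ^ 2 / 4000 * x)) := by
    congr 1; ring
  rw [e1, e2]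
  obtain ⟨a, ha⟩ : ∃ a, a = (16 * l / ε) ^ 4 * Real.exp (-(x * (ε / 4))) := ⟨_, rfl⟩
  obtain ⟨b, hb⟩ : ∃ b, b = Real.exp (-(3 * ε ^ 2 / 250 * l)) := ⟨_, rfl⟩
  obtain ⟨d, hd⟩ : ∃ d, d = Real.exp (i / 2) * Real.sqrt (1 + l) * (1 / 3) ^ i := ⟨_, rfl⟩
  have hd0 : 0 ≤ d := by rw [hd]; positivity
  have f1 : 4 * Real.exp (i / 2) * Real.sqrt (1 + l) * (1 / 3) ^ i = 4 * d := by rw [hd]; ring
  have f2 : 6 * Real.exp (i / 2) * Real.sqrt (1 + l) * (1 / 3) ^ i = 6 * d := by rw [hd]; ring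
  have hx00 := Real.exp_pos (-(ε ^ 2 / 4000 * x))
  rw [← ha, ← hb, f1] at c10
  rw [← ha, ← hb, f2]
  linarith only [c10, hd0, hx00]

lemma fin2 {ε : ℝ} (h0 : 0 < ε) (h1 : ε ≤ 1) : ∃ L₀ : ℝ, ∀ l : ℝ, L₀ ≤ l → ∀ x : ℝ,
    Real.log l ≤ x → x ≤ ε ^ 2 / 4000 * l ^ ((1 : ℝ) / 3) →
    3 * Real.exp (x * -(ε ^ 2 / 4000)) + 360 * Real.exp (l * -(ε / 4)) ≤
      Real.exp (x * -(ε ^ 2 / 8000)) := by
  obtain ⟨c, hc⟩ : ∃ c, c = ε ^ 2 / 8000 := ⟨_, rfl⟩
  have hc0 : 0 < c := by rw [hc]; positivity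
  have t1 : Tendsto (fun l : ℝ => Real.exp (c * Real.log l)) atTop atTop :=
    Real.tendsto_exp_atTop.comp (Real.tendsto_log_atTop.const_mul_atTop hc0)
  have t2 : Tendsto (fun l : ℝ => Real.exp (ε / 8 * l)) atTop atTop :=
    Real.tendsto_exp_atTop.comp (tendsto_id.const_mul_atTop (by positivity))
  obtain ⟨L₀, hL₀⟩ := eventually_atTop.1 ((t1.eventually_ge_atTop 6).and
    ((t2.eventually_ge_atTop 720).and (eventually_ge_atTop (1 : ℝ))))
  refine ⟨L₀, fun l hl x hx1 hx2 => ?_⟩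
  obtain ⟨g1, g2, g3⟩ := hL₀ l hl
  have hx0 : 0 ≤ x := (Real.log_nonneg g3).trans hx1
  have hl0 : 0 < l := by linarith only [g3]
  have hxl : x ≤ l := by
    have h2 : l ^ ((1 : ℝ) / 3) ≤ l := by
      calc l ^ ((1 : ℝ) / 3) ≤ l ^ (1 : ℝ) :=
            Real.rpow_le_rpow_of_exponent_le g3 (by norm_num)
        _ = l := Real.rpow_one l
    have h3 : ε ^ 2 / 4000 ≤ 1 := by
      have : ε ^ 2 ≤ 1 := pow_le_one₀ h0.le h1
      linarith only [this]
    have h4 : ε ^ 2 / 4000 * l ^ ((1 : ℝ) / 3) ≤ 1 * l :=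
      mul_le_mul h3 h2 (by positivity) (by norm_num)
    linarith only [h4, hx2]
  have e1 : Real.exp (x * -(ε ^ 2 / 4000)) = Real.exp (-(c * x)) * Real.exp (-(c * x)) := by
    rw [← Real.exp_add, hc]
    congr 1
    ring
  have e2 : Real.exp (x * -(ε ^ 2 / 8000)) = Real.exp (-(c * x)) := by
    rw [hc]
    congr 1
    ring
  rw [e1, e2]
  have h5 : 3 * Real.exp (-(c * x)) ≤ 1 / 2 := by
    have h6 : 6 ≤ Real.exp (c * x) :=
      g1.trans (Real.exp_le_exp.2 (mul_le_mul_of_nonneg_left hx1 hc0.le))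
    rw [Real.exp_neg]
    have h7 : (Real.exp (c * x))⁻¹ ≤ 6⁻¹ := inv_anti₀ (by norm_num) h6
    linarith only [h7]
  have h8 : 360 * Real.exp (l * -(ε / 4)) ≤ 1 / 2 * Real.exp (-(c * x)) := by
    have h9 : 720 * Real.exp (l * -(ε / 4)) ≤ Real.exp (-(c * x)) := by
      calc 720 * Real.exp (l * -(ε / 4)) ≤ Real.exp (ε / 8 * l) * Real.exp (l * -(ε / 4)) :=
            mul_le_mul_of_nonneg_right g2 (Real.exp_pos _).le
        _ = Real.exp (-(ε / 8 * l)) := by rw [← Real.exp_add]; congr 1; ring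
        _ ≤ _ := by
            apply Real.exp_le_exp.2
            have h10 : c ≤ ε / 8 := by
              rw [hc]
              have : ε ^ 2 ≤ ε := pow_le_of_le_one h0.le h1 two_ne_zero
              linarith only [this, h0]
            have h11 : c * x ≤ ε / 8 * l := mul_le_mul h10 hxl hx0 (by positivity)
            linarith only [h11]
    linarith only [h9]
  have h12 : 3 * (Real.exp (-(c * x)) * Real.exp (-(c * x))) ≤ 1 / 2 * Real.exp (-(c * x)) := by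
    have h13 := mul_le_mul_of_nonneg_right h5 (Real.exp_pos (-(c * x))).le
    linarith only [h13]
  linarith only [h8, h12]

end Pool.Agent.J4.H33.CS
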