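import Pool.Agent.J4.H33.CS.Defs

/-!
# The lower bound for the main term
-/

set_option autoImplicit false

namespace Pool.Agent.J4.H33.CS

open Finset
open scoped Classical

namespace PM

theorem pr_ne_zero {P : Finset ℕ} (hP : ∀ p ∈ P, p.Prime) {n : ℕ} {m : Fin n → ℕ}
    (hm : m ∈ tup P n) : pr m ≠ 0 := by
  rw [tup, Fintype.mem_piFinset] at hm
  exact Finset.prod_ne_zero_iff.mpr fun i _ => (hP _ (hm i)).ne_zero

theorem pr_le {P : Finset ℕ} {z : ℕ} (hz : ∀ p ∈ P, p ≤ z) {n : ℕ} {m : Fin n → ℕ}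
    (hm : m ∈ tup P n) : pr m ≤ z ^ n := by
  rw [tup, Fintype.mem_piFinset] at hm
  calc pr m ≤ ∏ _i : Fin n, z := Finset.prod_le_prod' fun i _ => hz _ (hm i)
    _ = z ^ n := by simp

theorem prime_of_dvd_pr {P : Finset ℕ} (hP : ∀ p ∈ P, p.Prime) {n : ℕ} {m : Fin n → ℕ}
    (hm : m ∈ tup P n) {p : ℕ} (hp : p.Prime) (h : p ∣ pr m) : p ∈ P := by
  rw [tup, Fintype.mem_piFinset] at hm
  obtain ⟨i, _, hi⟩ := (hp.prime.dvd_finsetProd_iff _).mp h
  rw [(Nat.prime_dvd_prime_iff_eq hp (hP _ (hm i))).mp hi]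
  exact hm i

theorem sum_tup (P : Finset ℕ) (n : ℕ) : ∑ m ∈ tup P n, ((pr m : ℕ) : ℝ)⁻¹ = SS P ^ n := by
  have h := Finset.prod_univ_sum (fun _ : Fin n => P) (fun _ (p : ℕ) => (p : ℝ)⁻¹)
  rw [Finset.prod_const, Finset.card_univ, Fintype.card_fin] at h
  rw [SS, h]
  refine Finset.sum_congr rfl fun m _ => ?_
  rw [pr]
  push_cast
  rw [Finset.prod_inv_distrib]

/-- the divisors -/
theorem card_dvd {P : Finset ℕ} {n j : ℕ} {m : Fin n → ℕ}
    (hm : m ∈ tup P n) (hi : Function.Injective m) :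
    n.descFactorial j ≤ ((tup P j).filter fun l => pr l ∣ pr m).card := by
  have hm' := hm
  rw [tup, Fintype.mem_piFinset] at hm'
  have h1 : Fintype.card (Fin j ↪ Fin n) = n.descFactorial j := by
    rw [Fintype.card_embedding_eq, Fintype.card_fin, Fintype.card_fin]
  rw [← h1, ← Finset.card_univ]
  refine Finset.card_le_card_of_injOn (fun σ : Fin j ↪ Fin n => fun i => m (σ i)) ?_ ?_
  · intro σ _
    simp only [coe_filter, Set.mem_ofPred_eq]
    refine ⟨?_, ?_⟩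
    · rw [tup, Fintype.mem_piFinset]
      exact fun i => hm' _
    · rw [pr, pr, ← Finset.prod_map univ σ m]
      exact Finset.prod_dvd_prod_of_subset _ _ _ (Finset.subset_univ _)
  · intro σ _ τ _ h
    apply DFunLike.ext
    intro i
    exact hi (congrFun h i)

/-- two equal entries -/
theorem sum_eq {P : Finset ℕ} {y : ℝ} (hy : 0 < y) (hyP : ∀ p ∈ P, y ≤ p) {n : ℕ}
    (i i' : Fin (n + 1)) (hii : i ≠ i') :
    ∑ m ∈ (tup P (n + 1)).filter (fun m => m i = m i'), ((pr m : ℕ) : ℝ)⁻¹ ≤ y⁻¹ * SS P ^ n := by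
  rw [← sum_tup, Finset.mul_sum]
  obtain ⟨a, ha⟩ := Fin.exists_succAbove_eq hii
  have h1 : ∀ m ∈ (tup P (n + 1)).filter (fun m => m i = m i'), ((pr m : ℕ) : ℝ)⁻¹ ≤
      y⁻¹ * ((pr (fun k => m (i'.succAbove k)) : ℕ) : ℝ)⁻¹ := by
    intro m hm
    rw [mem_filter, tup, Fintype.mem_piFinset] at hm
    rw [pr, Fin.prod_univ_succAbove _ i', pr]
    push_cast
    rw [mul_inv]
    refine mul_le_mul_of_nonneg_right ?_ (by positivity)
    exact inv_anti₀ hy (hyP _ (hm.1 i'))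
  refine (Finset.sum_le_sum h1).trans ?_
  have hinj : Set.InjOn (fun m : Fin (n + 1) → ℕ => fun k => m (i'.succAbove k))
      ((tup P (n + 1)).filter (fun m => m i = m i')) := by
    intro m hm m' hm' h
    simp only [coe_filter, Set.mem_ofPred_eq] at hm hm'
    have h2 : m i' = m' i' := by
      rw [← hm.2, ← hm'.2, ← ha]
      exact congrFun h a
    funext k
    rcases eq_or_ne k i' with rfl | hk
    · exact h2
    · obtain ⟨b, hb⟩ := Fin.exists_succAbove_eq hk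
      rw [← hb]
      exact congrFun h b
  rw [← Finset.sum_image (s := (tup P (n + 1)).filter (fun m => m i = m i'))
    (g := fun m : Fin (n + 1) → ℕ => fun k => m (i'.succAbove k))
    (f := fun m' : Fin n → ℕ => y⁻¹ * ((pr m' : ℕ) : ℝ)⁻¹) hinj]
  refine Finset.sum_le_sum_of_subset_of_nonneg ?_ fun _ _ _ => by positivity
  intro m' hm'
  rw [mem_image] at hm'
  obtain ⟨m, hm, rfl⟩ := hm'
  rw [mem_filter, tup, Fintype.mem_piFinset] at hm
  rw [tup, Fintype.mem_piFinset]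
  exact fun k => hm.1 _

theorem sum_not_inj {P : Finset ℕ} {y : ℝ} (hy : 0 < y) (hyP : ∀ p ∈ P, y ≤ p) {n : ℕ}
    (hn : (n : ℝ) ^ 2 ≤ y * SS P) :
    ∑ m ∈ (tup P n).filter (fun m => ¬ Function.Injective m), ((pr m : ℕ) : ℝ)⁻¹ ≤
      1 / 2 * SS P ^ n := by
  have hS0 : 0 ≤ SS P := Finset.sum_nonneg fun p _ => by positivity
  rcases n with _ | n
  · rw [Finset.filter_false_of_mem]
    · simp
    · intro m _ h
      exact h (Function.injective_of_subsingleton m)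
  -- the union over the pairs
  have h1 : ∑ m ∈ (tup P (n + 1)).filter (fun m => ¬ Function.Injective m), ((pr m : ℕ) : ℝ)⁻¹ ≤
      ∑ i' : Fin (n + 1), ∑ i ∈ Finset.Iio i',
        ∑ m ∈ (tup P (n + 1)).filter (fun m => m i = m i'), ((pr m : ℕ) : ℝ)⁻¹ := by
    simp only [Finset.sum_filter]
    have h2 : ∑ i' : Fin (n + 1), ∑ i ∈ Finset.Iio i', ∑ m ∈ tup P (n + 1),
        (if m i = m i' then ((pr m : ℕ) : ℝ)⁻¹ else 0) =
        ∑ m ∈ tup P (n + 1), ∑ i' : Fin (n + 1), ∑ i ∈ Finset.Iio i',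
        (if m i = m i' then ((pr m : ℕ) : ℝ)⁻¹ else 0) := by
      rw [Finset.sum_congr rfl fun i' _ => Finset.sum_comm]
      exact Finset.sum_comm
    rw [h2]
    refine Finset.sum_le_sum fun m _ => ?_
    have hnn : ∀ (i' : Fin (n + 1)), ∀ i ∈ Finset.Iio i',
        (0 : ℝ) ≤ (if m i = m i' then ((pr m : ℕ) : ℝ)⁻¹ else 0) := by
      intro i' i _
      split_ifs
      · positivity
      · exact le_rfl
    by_cases hinj : Function.Injective m
    · rw [if_neg (not_not.mpr hinj)]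
      exact Finset.sum_nonneg fun i' _ => Finset.sum_nonneg (hnn i')
    · rw [if_pos hinj]
      rw [Function.Injective] at hinj
      push Not at hinj
      obtain ⟨a, b, hab, hne⟩ := hinj
      obtain ⟨i, i', hlt, he⟩ : ∃ i i' : Fin (n + 1), i < i' ∧ m i = m i' := by
        rcases lt_or_gt_of_ne hne with h | h
        · exact ⟨a, b, h, hab⟩
        · exact ⟨b, a, h, hab.symm⟩
      calc ((pr m : ℕ) : ℝ)⁻¹ = (if m i = m i' then ((pr m : ℕ) : ℝ)⁻¹ else 0) := by rw [if_pos he]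
        _ ≤ ∑ i ∈ Finset.Iio i', (if m i = m i' then ((pr m : ℕ) : ℝ)⁻¹ else 0) :=
          Finset.single_le_sum (f := fun i => (if m i = m i' then ((pr m : ℕ) : ℝ)⁻¹ else 0))
            (hnn i') (Finset.mem_Iio.mpr hlt)
        _ ≤ _ := Finset.single_le_sum
            (f := fun i' => ∑ i ∈ Finset.Iio i', (if m i = m i' then ((pr m : ℕ) : ℝ)⁻¹ else 0))
            (fun i' _ => Finset.sum_nonneg (hnn i')) (Finset.mem_univ i')
  have h3 : ∑ i' : Fin (n + 1), ∑ i ∈ Finset.Iio i',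
        ∑ m ∈ (tup P (n + 1)).filter (fun m => m i = m i'), ((pr m : ℕ) : ℝ)⁻¹ ≤
      ∑ i' : Fin (n + 1), ((i' : ℕ) : ℝ) * (y⁻¹ * SS P ^ n) := by
    refine Finset.sum_le_sum fun i' _ => ?_
    refine (Finset.sum_le_sum (g := fun _ => y⁻¹ * SS P ^ n) fun i hi => ?_).trans ?_
    · exact sum_eq hy hyP i i' (Finset.mem_Iio.mp hi).ne
    · rw [Finset.sum_const, nsmul_eq_mul, Fin.card_Iio]
  refine h1.trans (h3.trans ?_)
  rw [← Finset.sum_mul]
  have h4 : ∑ i' : Fin (n + 1), ((i' : ℕ) : ℝ) ≤ 1 / 2 * ((n + 1 : ℕ) : ℝ) ^ 2 := by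
    rw [Fin.sum_univ_eq_sum_range (fun i => (i : ℝ)) (n + 1)]
    have := Finset.sum_range_id_mul_two (n + 1)
    have h5 : (∑ i ∈ range (n + 1), (i : ℝ)) * 2 = ((n + 1 : ℕ) : ℝ) * (n : ℝ) := by
      have := congrArg (fun x : ℕ => (x : ℝ)) this
      push_cast at this ⊢
      simpa using this
    have h6 : (0 : ℝ) ≤ n := Nat.cast_nonneg n
    push_cast at h5 ⊢
    nlinarith
  calc (∑ i' : Fin (n + 1), ((i' : ℕ) : ℝ)) * (y⁻¹ * SS P ^ n)
      ≤ (1 / 2 * ((n + 1 : ℕ) : ℝ) ^ 2) * (y⁻¹ * SS P ^ n) :=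
        mul_le_mul_of_nonneg_right h4 (by positivity)
    _ ≤ (1 / 2 * (y * SS P)) * (y⁻¹ * SS P ^ n) := by
        refine mul_le_mul_of_nonneg_right ?_ (by positivity)
        linarith
    _ = 1 / 2 * SS P ^ (n + 1) := by
        rw [pow_succ]
        field_simp

end PM

theorem main_lower {q : ℕ} [Fact q.Prime] {P : Finset ℕ} (hP : ∀ p ∈ P, p.Prime) {y : ℝ}
    (hy : 0 < y) (hyP : ∀ p ∈ P, y ≤ p) {z : ℕ} (hz : ∀ p ∈ P, p ≤ z) {D j n : ℕ} (hj : j ≤ n)
    (hn : (n : ℝ) ^ 2 ≤ y * SS P) (hD : z ^ n ≤ D) :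
    1 / 2 * ((n.descFactorial j : ℝ) * SS P ^ n) ≤ f1 P D j n (1 : (ZMod q)ˣ) := by
  have h0 := PM.sum_not_inj hy hyP hn
  have h1 : 1 / 2 * SS P ^ n ≤
      ∑ m ∈ (tup P n).filter (fun m => Function.Injective m), ((pr m : ℕ) : ℝ)⁻¹ := by
    have := Finset.sum_filter_add_sum_filter_not (tup P n) (fun m => Function.Injective m)
      (fun m => ((pr m : ℕ) : ℝ)⁻¹)
    rw [PM.sum_tup] at this
    linarith
  have hSw : f1 P D j n (1 : (ZMod q)ˣ) = ∑ m ∈ tup P n, ∑ l ∈ tup P j,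
      ∑ h ∈ (Icc 1 D).filter (Sm P),
        if ((h * pr l : ℕ) : ZMod q) = ((1 : (ZMod q)ˣ) : ZMod q) * ((pr m : ℕ) : ZMod q) then
      (Real.sqrt h)⁻¹ * (Real.sqrt (pr l))⁻¹ * (Real.sqrt (pr m))⁻¹ else 0 := by
    rw [f1, Finset.sum_comm]
    rw [Finset.sum_congr rfl fun l _ => Finset.sum_comm]
    exact Finset.sum_comm
  have hnn : ∀ (m : Fin n → ℕ) (l : Fin j → ℕ) (h : ℕ), (0 : ℝ) ≤
      if ((h * pr l : ℕ) : ZMod q) = ((1 : (ZMod q)ˣ) : ZMod q) * ((pr m : ℕ) : ZMod q) then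
      (Real.sqrt h)⁻¹ * (Real.sqrt (pr l))⁻¹ * (Real.sqrt (pr m))⁻¹ else 0 := by
    intro m l h
    split_ifs
    · positivity
    · exact le_rfl
  have key : ∀ m ∈ tup P n, ∀ l ∈ (tup P j).filter (fun l => pr l ∣ pr m),
      ((pr m : ℕ) : ℝ)⁻¹ ≤ ∑ h ∈ (Icc 1 D).filter (Sm P),
        if ((h * pr l : ℕ) : ZMod q) = ((1 : (ZMod q)ˣ) : ZMod q) * ((pr m : ℕ) : ZMod q) then
      (Real.sqrt h)⁻¹ * (Real.sqrt (pr l))⁻¹ * (Real.sqrt (pr m))⁻¹ else 0 := by
    intro m hm l hl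
    rw [mem_filter] at hl
    obtain ⟨h, hh⟩ := hl.2
    have hm0 : pr m ≠ 0 := PM.pr_ne_zero hP hm
    have hl0 : pr l ≠ 0 := PM.pr_ne_zero hP hl.1
    have hh0 : h ≠ 0 := by
      rintro rfl
      rw [mul_zero] at hh
      exact hm0 hh
    have hmem : h ∈ (Icc 1 D).filter (Sm P) := by
      rw [mem_filter, mem_Icc]
      refine ⟨⟨Nat.one_le_iff_ne_zero.mpr hh0, ?_⟩, ?_⟩
      · have h2 : h ∣ pr m := ⟨pr l, by rw [hh, mul_comm]⟩
        exact (Nat.le_of_dvd (Nat.pos_of_ne_zero hm0) h2).trans ((PM.pr_le hz hm).trans hD)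
      · intro p hp hph
        exact PM.prime_of_dvd_pr hP hm hp (hph.trans ⟨pr l, by rw [hh, mul_comm]⟩)
    refine le_trans (le_of_eq ?_) (Finset.single_le_sum (fun h _ => hnn m l h) hmem)
    rw [if_pos]
    · have h2 : Real.sqrt h * Real.sqrt (pr l) = Real.sqrt (pr m) := by
        rw [← Real.sqrt_mul (Nat.cast_nonneg h), hh]
        push_cast
        rw [mul_comm]
      rw [← mul_inv, ← mul_inv, h2, Real.mul_self_sqrt (Nat.cast_nonneg _)]
    · rw [Units.val_one, one_mul, hh, mul_comm]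
  rw [hSw]
  calc 1 / 2 * ((n.descFactorial j : ℝ) * SS P ^ n)
      = (n.descFactorial j : ℝ) * (1 / 2 * SS P ^ n) := by ring
    _ ≤ (n.descFactorial j : ℝ) *
        ∑ m ∈ (tup P n).filter (fun m => Function.Injective m), ((pr m : ℕ) : ℝ)⁻¹ :=
        mul_le_mul_of_nonneg_left h1 (Nat.cast_nonneg _)
    _ = ∑ m ∈ (tup P n).filter (fun m => Function.Injective m),
        (n.descFactorial j : ℝ) * ((pr m : ℕ) : ℝ)⁻¹ := Finset.mul_sum _ _ _
    _ ≤ ∑ m ∈ (tup P n).filter (fun m => Function.Injective m), ∑ l ∈ tup P j,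
      ∑ h ∈ (Icc 1 D).filter (Sm P),
        (if ((h * pr l : ℕ) : ZMod q) = ((1 : (ZMod q)ˣ) : ZMod q) * ((pr m : ℕ) : ZMod q) then
      (Real.sqrt h)⁻¹ * (Real.sqrt (pr l))⁻¹ * (Real.sqrt (pr m))⁻¹ else 0) := by
        refine Finset.sum_le_sum fun m hm => ?_
        rw [mem_filter] at hm
        calc (n.descFactorial j : ℝ) * ((pr m : ℕ) : ℝ)⁻¹
            ≤ (((tup P j).filter fun l => pr l ∣ pr m).card : ℝ) * ((pr m : ℕ) : ℝ)⁻¹ := by
              refine mul_le_mul_of_nonneg_right ?_ (by positivity)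
              exact_mod_cast PM.card_dvd hm.1 hm.2
          _ = ∑ l ∈ (tup P j).filter (fun l => pr l ∣ pr m), ((pr m : ℕ) : ℝ)⁻¹ := by
              rw [Finset.sum_const, nsmul_eq_mul]
          _ ≤ _ := Finset.sum_le_sum fun l hl => key m hm.1 l hl
          _ ≤ _ := Finset.sum_le_sum_of_subset_of_nonneg (Finset.filter_subset _ _)
              fun l _ _ => Finset.sum_nonneg fun h _ => hnn m l h
    _ ≤ _ := Finset.sum_le_sum_of_subset_of_nonneg (Finset.filter_subset _ _)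
        fun m _ _ => Finset.sum_nonneg fun l _ => Finset.sum_nonneg fun h _ => hnn m l h

end Pool.Agent.J4.H33.CS
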