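import Pool.Agent.J4.H33.CS.W1
import Pool.Agent.J4.H33.CS.M

/-!
# The denominator
-/

set_option autoImplicit false

namespace Pool.Agent.J4.H33.CS

open Finset
open scoped Classical
open Pool.Agent.R311.RES (hzv ann L_half hzv_re orth card_mul sum_units chi_inv SG_half SG_summable
  G_half sqrt_step hurwitz_lower)
open ArithmeticFunction (cardFactors)

namespace PS4

/-- orthogonality of all characters -/
theorem orth_all {q : ℕ} [Fact q.Prime] {a b : ℕ} (ha : a < q) (hb : b < q) (hb0 : b ≠ 0) :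
    ∑ χ ∈ XS q, χ (a : ZMod q) * (starRingEnd ℂ) (χ (b : ZMod q)) =
      if a = b then ((q : ℂ) - 1) else 0 := by
  have hu : ∀ {x : ℕ}, x < q → x ≠ 0 → (x : ZMod q) ≠ 0 := by
    intro x hx hx0 h
    rw [ZMod.natCast_eq_zero_iff] at h
    exact hx0 (Nat.eq_zero_of_dvd_of_lt h hx)
  set ub : (ZMod q)ˣ := Units.mk0 (b : ZMod q) (hu hb hb0) with hub
  have h1 : ∀ χ : DirichletCharacter ℂ q, χ (a : ZMod q) * (starRingEnd ℂ) (χ (b : ZMod q)) =
      χ ((ub⁻¹ : (ZMod q)ˣ) : ZMod q) * χ (a : ZMod q) := by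
    intro χ
    rw [chi_inv, mul_comm]
    rfl
  rw [XS, Finset.sum_congr rfl fun χ _ => h1 χ]
  have h2 := DirichletCharacter.sum_char_inv_mul_char_eq ℂ (a := (ub : ZMod q)) ub.isUnit (a : ZMod q)
  rw [ZMod.inv_coe_unit] at h2
  rw [h2]
  have h3 : ((ub : ZMod q) = (a : ZMod q)) ↔ a = b := by
    rw [hub, Units.val_mk0, ZMod.natCast_eq_natCast_iff', Nat.mod_eq_of_lt ha, Nat.mod_eq_of_lt hb]
    exact eq_comm
  simp only [h3]
  split_ifs
  · rw [Nat.totient_prime (Fact.out), Nat.cast_sub (Nat.Prime.one_lt Fact.out).le, Nat.cast_one]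
  · rfl

/-- the mean square of a Dirichlet polynomial -/
theorem mean_sq {q : ℕ} [Fact q.Prime] {ι : Type*} (I : Finset ι) (x : ι → ℕ) (c : ι → ℝ)
    (hx : ∀ i ∈ I, x i < q) (hx0 : ∀ i ∈ I, x i ≠ 0) :
    ∑ χ ∈ XS q, ‖∑ i ∈ I, (c i : ℂ) * χ (x i : ZMod q)‖ ^ 2 =
      ((q : ℝ) - 1) * ∑ i ∈ I, ∑ i' ∈ I, if x i = x i' then c i * c i' else 0 := by
  have h1 : (((∑ χ ∈ XS q, ‖∑ i ∈ I, (c i : ℂ) * χ (x i : ZMod q)‖ ^ 2 : ℝ)) : ℂ) =
      (((q : ℝ) - 1) * ∑ i ∈ I, ∑ i' ∈ I, if x i = x i' then c i * c i' else 0 : ℝ) := by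
    rw [Complex.ofReal_sum]
    have h2 : ∀ χ : DirichletCharacter ℂ q, ((‖∑ i ∈ I, (c i : ℂ) * χ (x i : ZMod q)‖ ^ 2 : ℝ) : ℂ) =
        ∑ i ∈ I, ∑ i' ∈ I, ((c i * c i' : ℝ) : ℂ) *
          (χ (x i : ZMod q) * (starRingEnd ℂ) (χ (x i' : ZMod q))) := by
      intro χ
      rw [← Complex.normSq_eq_norm_sq, ← Complex.mul_conj, map_sum, Finset.sum_mul_sum]
      refine Finset.sum_congr rfl fun i _ => Finset.sum_congr rfl fun i' _ => ?_
      rw [map_mul, Complex.conj_ofReal]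
      push_cast
      ring
    rw [Finset.sum_congr rfl fun χ _ => h2 χ, Finset.sum_comm]
    rw [Complex.ofReal_mul, Complex.ofReal_sum, Finset.mul_sum]
    refine Finset.sum_congr rfl fun i hi => ?_
    rw [Finset.sum_comm, Complex.ofReal_sum, Finset.mul_sum]
    refine Finset.sum_congr rfl fun i' hi' => ?_
    rw [← Finset.mul_sum, orth_all (hx i hi) (hx i' hi') (hx0 i' hi')]
    split_ifs
    · push_cast
      ring
    · simp
  exact_mod_cast h1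

theorem Pc_pow {q : ℕ} (P : Finset ℕ) (χ : DirichletCharacter ℂ q) (n : ℕ) :
    Pc P χ ^ n = ∑ m ∈ tup P n, (((Real.sqrt (pr m))⁻¹ : ℝ) : ℂ) * χ (pr m : ZMod q) := by
  have h := Finset.prod_univ_sum (fun _ : Fin n => P)
    (fun _ (p : ℕ) => (((Real.sqrt p)⁻¹ : ℝ) : ℂ) * χ (p : ZMod q))
  rw [Finset.prod_const, Finset.card_univ, Fintype.card_fin] at h
  rw [Pc, h]
  refine Finset.sum_congr rfl fun m _ => ?_
  rw [Finset.prod_mul_distrib, pr]
  congr 1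
  · rw [← Complex.ofReal_prod, Finset.prod_inv_distrib, Nat.cast_prod,
      Real.sqrt_prod _ fun _ _ => Nat.cast_nonneg _]
  · push_cast
    rw [map_prod]

theorem card_pr {P : Finset ℕ} (hP : ∀ p ∈ P, p.Prime) {j : ℕ} {l : Fin j → ℕ} (hl : l ∈ tup P j) :
    cardFactors (pr l) = j := by
  induction j with
  | zero => simp [pr]
  | succ j ih =>
    have hl' := hl
    rw [tup, Fintype.mem_piFinset] at hl'
    have h1 : Fin.tail l ∈ tup P j := by
      rw [tup, Fintype.mem_piFinset]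
      exact fun i => hl' _
    have h2 : pr l = l 0 * pr (Fin.tail l) := by
      rw [pr, Fin.prod_univ_succ]
      rfl
    rw [h2, ArithmeticFunction.cardFactors_mul (hP _ (hl' 0)).ne_zero (PM.pr_ne_zero hP h1),
      ih h1, ArithmeticFunction.cardFactors_apply_prime (hP _ (hl' 0)), add_comm]

theorem card_fib {P : Finset ℕ} (hP : ∀ p ∈ P, p.Prime) {j : ℕ} {l : Fin j → ℕ} (hl : l ∈ tup P j) :
    ((tup P j).filter (fun l' => pr l' = pr l)).card ≤ j.factorial := by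
  have h0 : pr l ≠ 0 := PM.pr_ne_zero hP hl
  have h1 := count_div hP j h0
  have h2 : cardFactors (pr l) = j := card_pr hP hl
  rw [h2, Nat.descFactorial_self] at h1
  refine (Finset.card_le_card ?_).trans h1
  intro l' hl'
  rw [mem_filter] at hl' ⊢
  exact ⟨hl'.1, dvd_of_eq hl'.2⟩

theorem mean_pow {q : ℕ} [Fact q.Prime] {P : Finset ℕ} (hP : ∀ p ∈ P, p.Prime) {z : ℕ}
    (hz : ∀ p ∈ P, p ≤ z) {n : ℕ} (h1 : z ^ n < q) :
    ∑ χ ∈ XS q, ‖Pc P χ ^ n‖ ^ 2 ≤ ((q : ℝ) - 1) * (n.factorial * SS P ^ n) := by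
  have hq1 : (0 : ℝ) ≤ (q : ℝ) - 1 := by
    have : (1 : ℝ) ≤ q := by exact_mod_cast (Nat.Prime.one_lt (Fact.out : q.Prime)).le
    linarith
  simp only [Pc_pow]
  rw [mean_sq (tup P n) (fun m => pr m) (fun m => (Real.sqrt (pr m))⁻¹)
    (fun m hm => (PM.pr_le hz hm).trans_lt h1) (fun m hm => PM.pr_ne_zero hP hm)]
  refine mul_le_mul_of_nonneg_left ?_ hq1
  rw [← PM.sum_tup, Finset.mul_sum]
  refine Finset.sum_le_sum fun m hm => ?_
  have h2 : ∀ m' ∈ tup P n, (if pr m = pr m' then (Real.sqrt (pr m))⁻¹ * (Real.sqrt (pr m'))⁻¹ else 0) =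
      if pr m' = pr m then ((pr m : ℕ) : ℝ)⁻¹ else 0 := by
    intro m' _
    by_cases h : pr m = pr m'
    · rw [if_pos h, if_pos h.symm, ← h, ← mul_inv, Real.mul_self_sqrt (Nat.cast_nonneg _)]
    · rw [if_neg h, if_neg (Ne.symm h)]
  rw [Finset.sum_congr rfl h2, ← Finset.sum_filter, Finset.sum_const, nsmul_eq_mul]
  refine mul_le_mul_of_nonneg_right ?_ (by positivity)
  exact_mod_cast card_fib hP hm

/-- unique factorization -/
theorem uf {P : Finset ℕ} (hP : ∀ p ∈ P, p.Prime) {j : ℕ} {l l' : Fin j → ℕ} (hl : l ∈ tup P j)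
    (hl' : l' ∈ tup P j) {d d' : ℕ} (hd : Cp P d) (hd' : Cp P d')
    (h : pr l * d = pr l' * d') : pr l = pr l' ∧ d = d' := by
  have hco : ∀ {a : Fin j → ℕ}, a ∈ tup P j → ∀ {e : ℕ}, Cp P e → Nat.Coprime (pr a) e := by
    intro a ha e he
    rw [tup, Fintype.mem_piFinset] at ha
    rw [pr]
    refine Nat.Coprime.prod_left fun i _ => ?_
    exact (Nat.Prime.coprime_iff_not_dvd (hP _ (ha i))).mpr (he _ (ha i))
  have h1 : pr l ∣ pr l' := by
    refine Nat.Coprime.dvd_of_dvd_mul_right (hco hl hd') ?_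
    exact ⟨d, h.symm⟩
  have h2 : pr l' ∣ pr l := by
    refine Nat.Coprime.dvd_of_dvd_mul_right (hco hl' hd) ?_
    exact ⟨d', h⟩
  have h3 : pr l = pr l' := Nat.dvd_antisymm h1 h2
  refine ⟨h3, ?_⟩
  rw [h3] at h
  exact Nat.eq_of_mul_eq_mul_left (Nat.pos_of_ne_zero (PM.pr_ne_zero hP hl')) h

theorem sum_inv_le (P : Finset ℕ) (D : ℕ) :
    ∑ d ∈ (Icc 1 D).filter (Cp P), (d : ℝ)⁻¹ ≤ 1 + Real.log D := by
  refine (Finset.sum_le_sum_of_subset_of_nonneg (Finset.filter_subset _ _)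
    fun _ _ _ => by positivity).trans ?_
  have h := harmonic_le_one_add_log D
  rw [harmonic_eq_sum_Icc] at h
  push_cast at h
  exact h

theorem mean_mix {q : ℕ} [Fact q.Prime] {P : Finset ℕ} (hP : ∀ p ∈ P, p.Prime) {z : ℕ}
    (hz : ∀ p ∈ P, p ≤ z) {D j : ℕ} (h2 : D * z ^ j < q) :
    ∑ χ ∈ XS q, ‖Pc P χ ^ j * Gc P D χ‖ ^ 2 ≤
      ((q : ℝ) - 1) * ((1 + Real.log D) * (j.factorial * SS P ^ j)) := by
  have hq1 : (0 : ℝ) ≤ (q : ℝ) - 1 := by
    have : (1 : ℝ) ≤ q := by exact_mod_cast (Nat.Prime.one_lt (Fact.out : q.Prime)).le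
    linarith
  set T : Finset ℕ := (Icc 1 D).filter (Cp P) with hT
  have hprod : ∀ χ : DirichletCharacter ℂ q, Pc P χ ^ j * Gc P D χ =
      ∑ i ∈ tup P j ×ˢ T, ((((Real.sqrt (pr i.1))⁻¹ *
        (((ArithmeticFunction.moebius i.2 : ℤ) : ℝ) * (Real.sqrt i.2)⁻¹) : ℝ)) : ℂ) *
        χ ((pr i.1 * i.2 : ℕ) : ZMod q) := by
    intro χ
    rw [Pc_pow, Gc, Finset.sum_mul_sum, ← Finset.sum_product']
    refine Finset.sum_congr rfl fun i _ => ?_
    push_cast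
    rw [map_mul]
    ring
  simp only [hprod]
  rw [mean_sq (tup P j ×ˢ T) (fun i => pr i.1 * i.2) (fun i => (Real.sqrt (pr i.1))⁻¹ *
        (((ArithmeticFunction.moebius i.2 : ℤ) : ℝ) * (Real.sqrt i.2)⁻¹)) ?_ ?_]
  · refine mul_le_mul_of_nonneg_left ?_ hq1
    have hb : ∀ i ∈ tup P j ×ˢ T, (∑ i' ∈ tup P j ×ˢ T, if pr i.1 * i.2 = pr i'.1 * i'.2 then
        ((Real.sqrt (pr i.1))⁻¹ * (((ArithmeticFunction.moebius i.2 : ℤ) : ℝ) *
        (Real.sqrt i.2)⁻¹)) * ((Real.sqrt (pr i'.1))⁻¹ *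
        (((ArithmeticFunction.moebius i'.2 : ℤ) : ℝ) * (Real.sqrt i'.2)⁻¹)) else 0) ≤
        (j.factorial : ℝ) * (((pr i.1 : ℕ) : ℝ)⁻¹ * ((i.2 : ℕ) : ℝ)⁻¹) := by
      intro i hi
      rw [mem_product] at hi
      have hiT := hi.2
      rw [hT, mem_filter] at hiT
      have h3 : ∀ i' ∈ tup P j ×ˢ T, (if pr i.1 * i.2 = pr i'.1 * i'.2 then
        ((Real.sqrt (pr i.1))⁻¹ * (((ArithmeticFunction.moebius i.2 : ℤ) : ℝ) *
        (Real.sqrt i.2)⁻¹)) * ((Real.sqrt (pr i'.1))⁻¹ *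
        (((ArithmeticFunction.moebius i'.2 : ℤ) : ℝ) * (Real.sqrt i'.2)⁻¹)) else 0) ≤
        if pr i'.1 = pr i.1 ∧ i'.2 = i.2 then ((pr i.1 : ℕ) : ℝ)⁻¹ * ((i.2 : ℕ) : ℝ)⁻¹ else 0 := by
        intro i' hi'
        rw [mem_product] at hi'
        have hiT' := hi'.2
        rw [hT, mem_filter] at hiT'
        by_cases h : pr i.1 * i.2 = pr i'.1 * i'.2
        · obtain ⟨h4, h5⟩ := uf hP hi.1 hi'.1 hiT.2 hiT'.2 h
          rw [if_pos h, if_pos ⟨h4.symm, h5.symm⟩, ← h4, ← h5]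
          have hmu : (((ArithmeticFunction.moebius i.2 : ℤ) : ℝ)) ^ 2 ≤ 1 := by
            have h6 := ArithmeticFunction.abs_moebius_le_one (n := i.2)
            have h7 : |((ArithmeticFunction.moebius i.2 : ℤ) : ℝ)| ≤ 1 := by
              rw [← Int.cast_abs]
              exact_mod_cast h6
            rw [← sq_abs]
            nlinarith [abs_nonneg ((ArithmeticFunction.moebius i.2 : ℤ) : ℝ)]
          have h8 : (Real.sqrt (pr i.1))⁻¹ * (Real.sqrt (pr i.1))⁻¹ = ((pr i.1 : ℕ) : ℝ)⁻¹ := by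
            rw [← mul_inv, Real.mul_self_sqrt (Nat.cast_nonneg _)]
          have h9 : (Real.sqrt i.2)⁻¹ * (Real.sqrt i.2)⁻¹ = ((i.2 : ℕ) : ℝ)⁻¹ := by
            rw [← mul_inv, Real.mul_self_sqrt (Nat.cast_nonneg _)]
          calc _ = (((ArithmeticFunction.moebius i.2 : ℤ) : ℝ)) ^ 2 *
                (((Real.sqrt (pr i.1))⁻¹ * (Real.sqrt (pr i.1))⁻¹) *
                ((Real.sqrt i.2)⁻¹ * (Real.sqrt i.2)⁻¹)) := by ring
            _ ≤ 1 * (((Real.sqrt (pr i.1))⁻¹ * (Real.sqrt (pr i.1))⁻¹) *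
                ((Real.sqrt i.2)⁻¹ * (Real.sqrt i.2)⁻¹)) :=
                mul_le_mul_of_nonneg_right hmu (by positivity)
            _ = _ := by rw [h8, h9, one_mul]
        · rw [if_neg h]
          split_ifs
          · positivity
          · exact le_rfl
      refine (Finset.sum_le_sum h3).trans ?_
      rw [← Finset.sum_filter, Finset.sum_const, nsmul_eq_mul]
      refine mul_le_mul_of_nonneg_right ?_ (by positivity)
      have h10 : ((tup P j ×ˢ T).filter fun i' => pr i'.1 = pr i.1 ∧ i'.2 = i.2).card ≤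
          ((tup P j).filter fun l' => pr l' = pr i.1).card := by
        refine Finset.card_le_card_of_injOn (fun i' => i'.1) ?_ ?_
        · intro i' hi'
          rw [mem_coe, mem_filter, mem_product] at hi'
          rw [mem_coe, mem_filter]
          exact ⟨hi'.1.1, hi'.2.1⟩
        · intro i' hi' i'' hi'' h
          rw [mem_coe, mem_filter] at hi' hi''
          exact Prod.ext h (hi'.2.2.trans hi''.2.2.symm)
      exact_mod_cast h10.trans (card_fib hP hi.1)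
    refine (Finset.sum_le_sum hb).trans ?_
    rw [← Finset.mul_sum, Finset.sum_product, ← PM.sum_tup]
    have h11 : ∑ x ∈ tup P j, ∑ y ∈ T, ((pr x : ℕ) : ℝ)⁻¹ * ((y : ℕ) : ℝ)⁻¹ =
        (∑ x ∈ tup P j, ((pr x : ℕ) : ℝ)⁻¹) * ∑ y ∈ T, ((y : ℕ) : ℝ)⁻¹ := by
      rw [Finset.sum_mul_sum]
    rw [h11]
    have h12 : 0 ≤ ∑ x ∈ tup P j, ((pr x : ℕ) : ℝ)⁻¹ := Finset.sum_nonneg fun _ _ => by positivity
    calc (j.factorial : ℝ) * ((∑ x ∈ tup P j, ((pr x : ℕ) : ℝ)⁻¹) * ∑ y ∈ T, ((y : ℕ) : ℝ)⁻¹)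
        ≤ (j.factorial : ℝ) * ((∑ x ∈ tup P j, ((pr x : ℕ) : ℝ)⁻¹) * (1 + Real.log D)) := by
          refine mul_le_mul_of_nonneg_left ?_ (Nat.cast_nonneg _)
          exact mul_le_mul_of_nonneg_left (sum_inv_le P D) h12
      _ = _ := by ring
  · intro i hi
    rw [mem_product, hT, mem_filter, mem_Icc] at hi
    calc pr i.1 * i.2 ≤ z ^ j * D := Nat.mul_le_mul (PM.pr_le hz hi.1) hi.2.1.2
      _ < q := by rw [mul_comm]; exact h2
  · intro i hi
    rw [mem_product, hT, mem_filter, mem_Icc] at hi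
    exact mul_ne_zero (PM.pr_ne_zero hP hi.1) (by omega)

end PS4

theorem den_both {q : ℕ} [Fact q.Prime] {P : Finset ℕ} (hP : ∀ p ∈ P, p.Prime) {z : ℕ}
    (hz : ∀ p ∈ P, p ≤ z) {D j n : ℕ} (hD : 1 ≤ D) (h1 : z ^ n < q) (h2 : D * z ^ j < q) :
    ∑ χ ∈ XS q, ‖Pc P χ‖ ^ (j + n) * ‖Gc P D χ‖ ≤ ((q : ℝ) - 1) *
      Real.sqrt ((1 + Real.log D) * (j.factorial * n.factorial) * SS P ^ (j + n)) := by
  have hq1 : (0 : ℝ) ≤ (q : ℝ) - 1 := by
    have : (1 : ℝ) ≤ q := by exact_mod_cast (Nat.Prime.one_lt (Fact.out : q.Prime)).le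
    linarith
  have hS0 : 0 ≤ SS P := Finset.sum_nonneg fun p _ => by positivity
  have hL : 0 ≤ 1 + Real.log D := by
    have := Real.log_nonneg (x := (D : ℝ)) (by exact_mod_cast hD)
    linarith
  have h3 : ∀ χ ∈ XS q, ‖Pc P χ‖ ^ (j + n) * ‖Gc P D χ‖ =
      ‖Pc P χ ^ n‖ * ‖Pc P χ ^ j * Gc P D χ‖ := by
    intro χ _
    rw [norm_mul, norm_pow, norm_pow]
    ring
  rw [Finset.sum_congr rfl h3]
  have hcs := Finset.sum_mul_sq_le_sq_mul_sq (XS q) (fun χ => ‖Pc P χ ^ n‖)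
    (fun χ => ‖Pc P χ ^ j * Gc P D χ‖)
  have h4 := PS4.mean_pow (q := q) hP hz h1
  have h5 := PS4.mean_mix (q := q) hP hz h2
  have h6 : (∑ χ ∈ XS q, ‖Pc P χ ^ n‖ * ‖Pc P χ ^ j * Gc P D χ‖) ^ 2 ≤
      (((q : ℝ) - 1) * (n.factorial * SS P ^ n)) *
      (((q : ℝ) - 1) * ((1 + Real.log D) * (j.factorial * SS P ^ j))) :=
    hcs.trans (mul_le_mul h4 h5 (Finset.sum_nonneg fun _ _ => by positivity) (by positivity))
  have h7 : (((q : ℝ) - 1) * (n.factorial * SS P ^ n)) *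
      (((q : ℝ) - 1) * ((1 + Real.log D) * (j.factorial * SS P ^ j))) =
      (((q : ℝ) - 1) *
      Real.sqrt ((1 + Real.log D) * (j.factorial * n.factorial) * SS P ^ (j + n))) ^ 2 := by
    rw [mul_pow, Real.sq_sqrt (by positivity)]
    ring
  rw [h7] at h6
  exact (abs_le_of_sq_le_sq' h6 (by positivity)).2

end Pool.Agent.J4.H33.CS
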