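import Pool.Agent.J4.H33.CS.Defs

set_option autoImplicit false

namespace Pool.Agent.J4.H33.CS

open Finset
open scoped Classical
open ArithmeticFunction (cardFactors)

namespace W2

theorem pr_insert {n : ℕ} (i : Fin (n + 1)) (p : ℕ) (m : Fin n → ℕ) :
    pr (i.insertNth (α := fun _ => ℕ) p m) = p * pr m := by
  unfold pr
  rw [Fin.prod_univ_succAbove _ i]
  simp

theorem pr_remove {n : ℕ} (i : Fin (n + 1)) (m : Fin (n + 1) → ℕ) :
    pr m = m i * pr (i.removeNth m) := by
  unfold pr
  rw [Fin.prod_univ_succAbove _ i]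
  rfl

theorem total (P : Finset ℕ) (n : ℕ) :
    ∑ m ∈ tup P n, ((pr m : ℕ) : ℝ)⁻¹ = SS P ^ n := by
  have h := Finset.prod_univ_sum (t := fun _ : Fin n => P) (f := fun _ p => ((p : ℕ) : ℝ)⁻¹)
  simp only [Finset.prod_const, Finset.card_univ, Fintype.card_fin] at h
  unfold tup pr SS
  rw [h]
  refine Finset.sum_congr rfl fun m _ => ?_
  push_cast
  rw [Finset.prod_inv_distrib]

theorem fixed {P : Finset ℕ} (n p t : ℕ) (i : Fin (n + 1)) :
    ∑ m ∈ (tup P (n + 1)).filter (fun m => m i = p ∧ t ∣ pr (i.removeNth m)), ((pr m : ℕ) : ℝ)⁻¹ ≤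
      (p : ℝ)⁻¹ * ∑ m ∈ (tup P n).filter (fun m => t ∣ pr m), ((pr m : ℕ) : ℝ)⁻¹ := by
  have hsub : (tup P (n + 1)).filter (fun m => m i = p ∧ t ∣ pr (i.removeNth m)) ⊆
      ((tup P n).filter (fun m => t ∣ pr m)).image
        (fun m => (i.insertNth (α := fun _ => ℕ) p m)) := by
    intro m hm
    rw [mem_filter] at hm
    obtain ⟨hm1, hm2, hm3⟩ := hm
    rw [mem_image]
    refine ⟨i.removeNth m, ?_, ?_⟩
    · rw [mem_filter]
      refine ⟨?_, hm3⟩
      unfold tup at hm1 ⊢
      rw [Fintype.mem_piFinset] at hm1 ⊢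
      intro j
      exact hm1 _
    · rw [← hm2]
      exact Fin.insertNth_self_removeNth i m
  have hinj : Set.InjOn (fun m : Fin n → ℕ => (i.insertNth (α := fun _ => ℕ) p m))
      ↑((tup P n).filter (fun m => t ∣ pr m)) := by
    intro a _ b _ hab
    exact Fin.insertNth_right_injective (α := fun _ => ℕ) (p := i) p hab
  calc ∑ m ∈ (tup P (n + 1)).filter (fun m => m i = p ∧ t ∣ pr (i.removeNth m)),
        ((pr m : ℕ) : ℝ)⁻¹
      ≤ ∑ m ∈ ((tup P n).filter (fun m => t ∣ pr m)).image
        (fun m => (i.insertNth (α := fun _ => ℕ) p m)), ((pr m : ℕ) : ℝ)⁻¹ :=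
        Finset.sum_le_sum_of_subset_of_nonneg hsub fun m _ _ => by positivity
    _ = ∑ m ∈ (tup P n).filter (fun m => t ∣ pr m),
          ((pr (i.insertNth (α := fun _ => ℕ) p m) : ℕ) : ℝ)⁻¹ := Finset.sum_image hinj
    _ = _ := by
        rw [Finset.mul_sum]
        refine Finset.sum_congr rfl fun m _ => ?_
        rw [pr_insert]
        push_cast
        rw [mul_inv]

theorem cover {ι κ : Type*} (B : Finset κ) (s : Finset ι) (R : κ → Prop) [DecidablePred R]
    (Q : ι → κ → Prop) [∀ i, DecidablePred (Q i)] (f : κ → ℝ) (hf : ∀ m, 0 ≤ f m) (h : ∀ m ∈ B, R m → ∃ i ∈ s, Q i m) :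
    ∑ m ∈ B.filter R, f m ≤ ∑ i ∈ s, ∑ m ∈ B.filter (Q i), f m := by
  rw [Finset.sum_filter]
  simp_rw [Finset.sum_filter]
  rw [Finset.sum_comm]
  refine Finset.sum_le_sum fun m hm => ?_
  have hn : ∀ i ∈ s, 0 ≤ if Q i m then f m else 0 := fun i _ => by
    split_ifs
    · exact hf m
    · exact le_rfl
  split_ifs with hR
  · obtain ⟨i, his, hi⟩ := h m hm hR
    have := Finset.single_le_sum hn his
    rwa [if_pos hi] at this
  · exact Finset.sum_nonneg hn

end W2

open W2 in
theorem sum_mult {P : Finset ℕ} (hP : ∀ p ∈ P, p.Prime) (n : ℕ) {t : ℕ} (ht : t ≠ 0) :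
    ∑ m ∈ (tup P n).filter (fun m => t ∣ pr m), ((pr m : ℕ) : ℝ)⁻¹ ≤
      (n.descFactorial (cardFactors t) : ℝ) * SS P ^ (n - cardFactors t) * (t : ℝ)⁻¹ := by
  induction t using Nat.strong_induction_on generalizing n with
  | _ t ih =>
  by_cases h1 : t = 1
  · subst h1
    simp only [one_dvd, Finset.filter_true, ArithmeticFunction.cardFactors_one,
      Nat.descFactorial_zero, Nat.cast_one, one_mul, Nat.sub_zero, inv_one, mul_one]
    exact (total P n).le
  · have hp : t.minFac.Prime := Nat.minFac_prime h1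
    set p := t.minFac with hpdef
    obtain ⟨t', ht'⟩ := Nat.minFac_dvd t
    rw [← hpdef] at ht'
    have ht'0 : t' ≠ 0 := by
      rintro rfl
      simp at ht'
      exact ht ht'
    have hlt : t' < t := by
      rw [ht']
      have := hp.two_le
      have : 0 < t' := Nat.pos_of_ne_zero ht'0
      nlinarith
    have hcard : cardFactors t = cardFactors t' + 1 := by
      rw [ht', ArithmeticFunction.cardFactors_mul hp.ne_zero ht'0,
        ArithmeticFunction.cardFactors_apply_prime hp, add_comm]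
    cases n with
    | zero =>
      have hemp : (tup P 0).filter (fun m => t ∣ pr m) = ∅ := by
        refine Finset.filter_eq_empty_iff.mpr fun m _ hm => ?_
        have : pr m = 1 := by unfold pr; simp
        rw [this, Nat.dvd_one] at hm
        exact h1 hm
      rw [hemp, hcard]
      simp
    | succ n =>
      have hcov : ∀ m ∈ tup P (n + 1), t ∣ pr m → ∃ i ∈ (univ : Finset (Fin (n + 1))),
            (m i = p ∧ t' ∣ pr (i.removeNth m)) := by
        intro m hm1 hm2
        have hpd : p ∣ ∏ i, m i := (Dvd.intro _ ht'.symm).trans hm2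
        obtain ⟨i, -, hi⟩ := (Prime.dvd_finsetProd_iff hp.prime _).mp hpd
        have hmi : m i ∈ P := by
          unfold tup at hm1
          exact Fintype.mem_piFinset.mp hm1 i
        have heq : m i = p := ((Nat.prime_dvd_prime_iff_eq hp (hP _ hmi)).mp hi).symm
        refine ⟨i, mem_univ _, heq, ?_⟩
        rw [pr_remove i m, heq, ht'] at hm2
        exact Nat.dvd_of_mul_dvd_mul_left hp.pos hm2
      have hb : ∑ m ∈ (tup P (n + 1)).filter (fun m => t ∣ pr m), ((pr m : ℕ) : ℝ)⁻¹ ≤
          ∑ i : Fin (n + 1), ∑ m ∈ (tup P (n + 1)).filter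
            (fun m => m i = p ∧ t' ∣ pr (i.removeNth m)), ((pr m : ℕ) : ℝ)⁻¹ :=
        cover (tup P (n + 1)) univ (fun m => t ∣ pr m)
          (fun i m => m i = p ∧ t' ∣ pr (i.removeNth m)) (fun m => ((pr m : ℕ) : ℝ)⁻¹)
          (fun m => by positivity) hcov
      refine hb.trans ?_
      have hi : ∀ i : Fin (n + 1), ∑ m ∈ (tup P (n + 1)).filter
            (fun m => m i = p ∧ t' ∣ pr (i.removeNth m)), ((pr m : ℕ) : ℝ)⁻¹ ≤
          (p : ℝ)⁻¹ * ((n.descFactorial (cardFactors t') : ℝ) *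
            SS P ^ (n - cardFactors t') * (t' : ℝ)⁻¹) := fun i =>
        (fixed n p t' i).trans (mul_le_mul_of_nonneg_left (ih t' hlt n ht'0) (by positivity))
      refine (Finset.sum_le_sum fun i _ => hi i).trans ?_
      rw [Finset.sum_const, Finset.card_univ, Fintype.card_fin, nsmul_eq_mul, hcard,
        Nat.succ_descFactorial_succ, Nat.add_sub_add_right, ht']
      push_cast
      rw [mul_inv]
      apply le_of_eq
      ring

end Pool.Agent.J4.H33.CS
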