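import Pool.Agent.J4.H33.CS.W1
import Pool.Agent.J4.H33.CS.W2

/-! Project CS, piece W (helper71). -/

set_option autoImplicit false

namespace Pool.Agent.J4.H33.CS

open Finset
open scoped Classical
open Pool.Agent.R311.RES (hzv ann L_half hzv_re orth card_mul sum_units chi_inv SG_half SG_summable
  G_half sqrt_step hurwitz_lower)
open ArithmeticFunction (cardFactors)

namespace WAux

lemma desc_step (N j : ℕ) (hj : j ≤ N) : (N + 1).descFactorial j ≤ (N + 1) * N.descFactorial j := by
  cases j with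
  | zero => simp
  | succ i =>
    rw [Nat.succ_descFactorial_succ, Nat.descFactorial_succ]
    apply Nat.mul_le_mul_left
    exact Nat.le_mul_of_pos_left _ (by omega)

lemma desc_le (n a j : ℕ) (hj : j ≤ n) : (n + a).descFactorial j ≤ (n + a) ^ a * n.descFactorial j := by
  induction a with
  | zero => simp
  | succ a ih =>
    calc (n + (a + 1)).descFactorial j = (n + a + 1).descFactorial j := rfl
      _ ≤ (n + a + 1) * (n + a).descFactorial j := desc_step _ _ (by omega)
      _ ≤ (n + a + 1) * ((n + a) ^ a * n.descFactorial j) := Nat.mul_le_mul_left _ ih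
      _ ≤ (n + a + 1) * ((n + a + 1) ^ a * n.descFactorial j) :=
          Nat.mul_le_mul_left _ (Nat.mul_le_mul_right _ (Nat.pow_le_pow_left (by omega) _))
      _ = (n + (a + 1)) ^ (a + 1) * n.descFactorial j := by
          rw [pow_succ]
          ring

lemma Om_pr : ∀ (n : ℕ) (m : Fin n → ℕ), (∀ i, (m i).Prime) → cardFactors (pr m) = n ∧ pr m ≠ 0 := by
  intro n
  induction n with
  | zero =>
    intro m _
    unfold pr
    simp
  | succ n ih =>
    intro m hm
    have h1 : pr m = m 0 * pr (fun i : Fin n => m i.succ) := by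
      unfold pr
      rw [Fin.prod_univ_succ]
    obtain ⟨h2, h3⟩ := ih (fun i : Fin n => m i.succ) (fun i => hm _)
    rw [h1]
    refine ⟨?_, mul_ne_zero (hm 0).ne_zero h3⟩
    rw [ArithmeticFunction.cardFactors_mul (hm 0).ne_zero h3,
      ArithmeticFunction.cardFactors_apply_prime (hm 0), h2]
    omega

end WAux

open WAux in
theorem ww_le {P : Finset ℕ} (hP : ∀ p ∈ P, p.Prime) (hS : 0 < SS P) (hS1 : SS P ≤ 1) {j n : ℕ}
    (hj : j ≤ n) {s t : ℕ} (hs : s ≠ 0) (ht : t ≠ 0) :
    WW P j n s t ^ 2 ≤ ((n.descFactorial j : ℝ) * SS P ^ n) ^ 2 *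
      (((n + cardFactors s : ℕ) : ℝ) / SS P) ^ (2 * (cardFactors s + cardFactors t)) *
      ((s : ℝ) * t)⁻¹ := by
  set a := cardFactors s with ha
  set b := cardFactors t with hb
  set S := SS P with hSdef
  have hs0 : (0 : ℝ) < s := by exact_mod_cast Nat.pos_of_ne_zero hs
  have ht0 : (0 : ℝ) < t := by exact_mod_cast Nat.pos_of_ne_zero ht
  set Sg : ℝ := ∑ m ∈ (tup P n).filter (fun m => t ∣ pr m),
    ((pr m : ℕ) : ℝ)⁻¹ * (((tup P j).filter (fun l => pr l ∣ pr m / t * s)).card : ℝ) with hSg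
  have hSg0 : 0 ≤ Sg := sum_nonneg fun m _ => by positivity
  have hWW : WW P j n s t ^ 2 = (t / s : ℝ) * Sg ^ 2 := by
    unfold WW
    rw [mul_pow, Real.sq_sqrt (by positivity)]
  have hRHS : 0 ≤ ((n.descFactorial j : ℝ) * S ^ n) ^ 2 *
      (((n + a : ℕ) : ℝ) / S) ^ (2 * (a + b)) * ((s : ℝ) * t)⁻¹ := by positivity
  have h1 : Sg ≤ (((n + a) ^ a * n.descFactorial j : ℕ) : ℝ) *
      ((n.descFactorial b : ℝ) * S ^ (n - b) * (t : ℝ)⁻¹) := by
    calc Sg ≤ ∑ m ∈ (tup P n).filter (fun m => t ∣ pr m),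
          ((pr m : ℕ) : ℝ)⁻¹ * (((n + a) ^ a * n.descFactorial j : ℕ) : ℝ) := by
          rw [hSg]
          refine sum_le_sum fun m hm => ?_
          apply mul_le_mul_of_nonneg_left _ (by positivity)
          rw [mem_filter] at hm
          obtain ⟨hm1, e, he⟩ := hm
          unfold tup at hm1
          rw [Fintype.mem_piFinset] at hm1
          obtain ⟨ho, h0⟩ := Om_pr n m (fun i => hP _ (hm1 i))
          have he0 : e ≠ 0 := by
            rintro rfl
            rw [mul_zero] at he
            exact h0 he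
          have hdiv : pr m / t * s = e * s := by
            rw [he, Nat.mul_div_cancel_left e (Nat.pos_of_ne_zero ht)]
          rw [hdiv]
          have h2 := count_div hP j (x := e * s) (mul_ne_zero he0 hs)
          have h3 : cardFactors (e * s) ≤ n + a := by
            rw [ArithmeticFunction.cardFactors_mul he0 hs]
            have h4 : cardFactors (pr m) = b + cardFactors e := by
              rw [he, ArithmeticFunction.cardFactors_mul ht he0]
            omega
          have h5 := (h2.trans (Nat.descFactorial_le j h3)).trans (desc_le n a j hj)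
          exact_mod_cast h5
      _ = (((n + a) ^ a * n.descFactorial j : ℕ) : ℝ) *
          ∑ m ∈ (tup P n).filter (fun m => t ∣ pr m), ((pr m : ℕ) : ℝ)⁻¹ := by
          rw [mul_sum]
          exact sum_congr rfl fun m _ => mul_comm _ _
      _ ≤ _ := mul_le_mul_of_nonneg_left (sum_mult hP n ht) (by positivity)
  rw [hWW]
  rcases Nat.lt_or_ge n b with hnb | hnb
  · have h2 : n.descFactorial b = 0 := Nat.descFactorial_eq_zero_iff_lt.2 hnb
    rw [h2] at h1
    simp only [Nat.cast_zero, zero_mul, mul_zero] at h1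
    have h3 : Sg = 0 := le_antisymm h1 hSg0
    rw [h3]
    simpa using hRHS
  · have h2 : (n.descFactorial b : ℝ) ≤ ((n + a : ℕ) : ℝ) ^ b := by
      have h3 : n.descFactorial b ≤ (n + a) ^ b :=
        (Nat.descFactorial_le_pow n b).trans (Nat.pow_le_pow_left (by omega) b)
      exact_mod_cast h3
    have h3 : Sg ≤ ((n + a : ℕ) : ℝ) ^ (a + b) * (n.descFactorial j : ℝ) * S ^ (n - b) * (t : ℝ)⁻¹ := by
      refine h1.trans ?_
      have e : ((n + a : ℕ) : ℝ) ^ (a + b) * (n.descFactorial j : ℝ) * S ^ (n - b) * (t : ℝ)⁻¹ =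
          (((n + a) ^ a * n.descFactorial j : ℕ) : ℝ) * (((n + a : ℕ) : ℝ) ^ b * S ^ (n - b) * (t : ℝ)⁻¹) := by
        push_cast
        rw [pow_add]
        ring
      rw [e]
      apply mul_le_mul_of_nonneg_left _ (by positivity)
      apply mul_le_mul_of_nonneg_right _ (by positivity)
      exact mul_le_mul_of_nonneg_right h2 (by positivity)
    calc (t / s : ℝ) * Sg ^ 2 ≤ (t / s : ℝ) *
          (((n + a : ℕ) : ℝ) ^ (a + b) * (n.descFactorial j : ℝ) * S ^ (n - b) * (t : ℝ)⁻¹) ^ 2 := by
          apply mul_le_mul_of_nonneg_left _ (by positivity)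
          exact pow_le_pow_left₀ hSg0 h3 2
      _ = (n.descFactorial j : ℝ) ^ 2 * (((n + a : ℕ) : ℝ) ^ (2 * (a + b))) * ((s : ℝ) * t)⁻¹ * S ^ (2 * (n - b)) := by
          rw [pow_mul' (((n + a : ℕ) : ℝ)), pow_mul' S]
          field_simp
      _ ≤ (n.descFactorial j : ℝ) ^ 2 * (((n + a : ℕ) : ℝ) ^ (2 * (a + b))) * ((s : ℝ) * t)⁻¹ *
          (S ^ (2 * n) / S ^ (2 * (a + b))) := by
          apply mul_le_mul_of_nonneg_left _ (by positivity)
          rw [le_div_iff₀ (by positivity), ← pow_add]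
          exact pow_le_pow_of_le_one hS.le hS1 (by omega)
      _ = ((n.descFactorial j : ℝ) * S ^ n) ^ 2 *
          (((n + a : ℕ) : ℝ) / S) ^ (2 * (a + b)) * ((s : ℝ) * t)⁻¹ := by
          rw [div_pow, mul_pow, pow_mul' S 2 n]
          ring

end Pool.Agent.J4.H33.CS
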