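import Pool.Agent.J4.H33.CS.Defs

/-!
# The sum over the pairs of smooth numbers in one coset
-/

set_option autoImplicit false

namespace Pool.Agent.J4.H33.CS

open Finset
open scoped Classical
open ArithmeticFunction (cardFactors)

namespace Z

theorem prod_mem_lev {P : Finset ℕ} (L : List ℕ) (h : ∀ p ∈ L, p ∈ P) : L.prod ∈ lev P L.length := by
  unfold lev tup
  rw [Finset.mem_image]
  refine ⟨fun i : Fin L.length => L[i.1], ?_, ?_⟩
  · rw [Fintype.mem_piFinset]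
    intro i
    exact h _ (List.getElem_mem i.2)
  · exact Fin.prod_univ_getElem L

theorem mem_lev {P : Finset ℕ} {s : ℕ} (hs : s ≠ 0) (h : Sm P s) : s ∈ lev P (cardFactors s) := by
  have h1 := prod_mem_lev (P := P) s.primeFactorsList (fun p hp =>
    h p (Nat.prime_of_mem_primeFactorsList hp) (Nat.dvd_of_mem_primeFactorsList hp))
  rwa [Nat.prod_primeFactorsList hs, ← ArithmeticFunction.cardFactors_apply] at h1

theorem pow_le_of_list {y : ℝ} (hy : 1 < y) (L : List ℕ) (h : ∀ p ∈ L, y ≤ p) :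
    y ^ L.length ≤ ((L.prod : ℕ) : ℝ) := by
  induction L with
  | nil => simp
  | cons p L ih =>
    have h1 := ih fun p hp => h p (List.mem_cons_of_mem _ hp)
    have h2 := h p List.mem_cons_self
    rw [List.length_cons, List.prod_cons, pow_succ, mul_comm, Nat.cast_mul]
    exact mul_le_mul h2 h1 (by positivity) (by linarith)

theorem pow_le {P : Finset ℕ} {y : ℝ} (hy : 1 < y) (hyP : ∀ p ∈ P, y ≤ p) {s : ℕ} (hs : s ≠ 0)
    (h : Sm P s) : y ^ cardFactors s ≤ (s : ℝ) := by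
  have h1 := pow_le_of_list hy s.primeFactorsList (fun p hp =>
    hyP p (h p (Nat.prime_of_mem_primeFactorsList hp) (Nat.dvd_of_mem_primeFactorsList hp)))
  rwa [Nat.prod_primeFactorsList hs, ← ArithmeticFunction.cardFactors_apply] at h1

theorem SS_nonneg (P : Finset ℕ) : 0 ≤ SS P := Finset.sum_nonneg fun _ _ => by positivity

/-- the sum of the reciprocals of the products -/
theorem sum_lev (P : Finset ℕ) (hS1 : SS P ≤ 1) (b : ℕ) : ∑ t ∈ lev P b, (t : ℝ)⁻¹ ≤ 1 := by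
  have h1 : ∑ t ∈ lev P b, (t : ℝ)⁻¹ ≤ ∑ l ∈ tup P b, ((pr l : ℕ) : ℝ)⁻¹ := by
    unfold lev
    rw [← Finset.sum_fiberwise_of_maps_to (s := tup P b) (t := (tup P b).image pr) (g := pr)
      (fun l hl => Finset.mem_image_of_mem _ hl)]
    refine Finset.sum_le_sum fun t ht => ?_
    obtain ⟨l, hl, rfl⟩ := Finset.mem_image.1 ht
    exact Finset.single_le_sum (f := fun l => ((pr l : ℕ) : ℝ)⁻¹) (fun _ _ => by positivity)
      (Finset.mem_filter.2 ⟨hl, rfl⟩)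
  have h2 : ∑ l ∈ tup P b, ((pr l : ℕ) : ℝ)⁻¹ = SS P ^ b := by
    unfold tup pr SS
    rw [← Finset.card_fin b, ← Finset.prod_const, Finset.card_fin, Finset.prod_univ_sum]
    refine Finset.sum_congr rfl fun l _ => ?_
    rw [Nat.cast_prod, Finset.prod_inv_distrib]
  rw [h2] at h1
  exact h1.trans (pow_le_one₀ (SS_nonneg P) hS1)

theorem Rl_symm {q : ℕ} {A : Subgroup (ZMod q)ˣ} {s t : ℕ} (h : Rl A s (t : ZMod q)) :
    Rl A t (s : ZMod q) := by
  obtain ⟨u, hu, h1⟩ := h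
  refine ⟨u⁻¹, A.inv_mem hu, ?_⟩
  rw [h1, ← mul_assoc, Units.inv_mul, one_mul]

/-- the numerical series -/
theorem series {ρ : ℝ} (h0 : 0 ≤ ρ) (h1 : ρ ≤ 1 / 8) (M : ℕ) :
    ∑ c ∈ Finset.Icc 1 M, (2 * (c : ℝ) + 1) * ρ ^ c + (7 / 3 * (M : ℝ) + 4) * ρ ^ (M + 1) ≤ 4 * ρ := by
  induction M with
  | zero => simp
  | succ M ih =>
    rw [Finset.sum_Icc_succ_top (by omega)]
    have h2 : 0 ≤ ρ ^ (M + 1) := pow_nonneg h0 _
    have h3 : (7 / 3 * (M : ℝ) + 19 / 3) * ρ ≤ (7 / 3 * (M : ℝ) + 19 / 3) * (1 / 8) :=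
      mul_le_mul_of_nonneg_left h1 (by positivity)
    have h4 : 0 ≤ (M : ℝ) := Nat.cast_nonneg _
    have h5 : (7 / 3 * (M : ℝ) + 19 / 3) * ρ ≤ M / 3 + 1 := by nlinarith
    have h6 := mul_le_mul_of_nonneg_right h5 h2
    have e : ρ ^ (M + 1 + 1) = ρ ^ (M + 1) * ρ := pow_succ _ _
    rw [e]
    push_cast
    nlinarith

/-- the sum over one class of pairs -/
theorem block {P : Finset ℕ} (hS1 : SS P ≤ 1) {T : Finset (ℕ × ℕ)} {R : ℕ → ℕ → Prop} {a b : ℕ}
    {B : ℝ} (hB : 0 ≤ B) (hT : ∀ x ∈ T, x.1 ∈ lev P a ∧ x.2 ∈ lev P b ∧ R x.1 x.2)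
    (hR : ∀ x ∈ T, ∑ s ∈ (lev P a).filter (fun s => R s x.2), (s : ℝ)⁻¹ ≤ B) :
    ∑ x ∈ T, ((x.1 : ℝ) * x.2)⁻¹ ≤ B := by
  have h1 : ∑ x ∈ T, ((x.1 : ℝ) * x.2)⁻¹ ≤ ∑ t ∈ T.image Prod.snd, B * (t : ℝ)⁻¹ := by
    rw [← Finset.sum_fiberwise_of_maps_to (s := T) (t := T.image Prod.snd) (g := Prod.snd)
      (fun l hl => Finset.mem_image_of_mem _ hl)]
    refine Finset.sum_le_sum fun t ht => ?_
    obtain ⟨x₀, hx₀, rfl⟩ := Finset.mem_image.1 ht
    have h2 : ∑ x ∈ T.filter (fun x => x.2 = x₀.2), ((x.1 : ℝ) * x.2)⁻¹ =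
        ∑ s ∈ (T.filter (fun x => x.2 = x₀.2)).image Prod.fst, (s : ℝ)⁻¹ * (x₀.2 : ℝ)⁻¹ := by
      rw [Finset.sum_image]
      · refine Finset.sum_congr rfl fun x hx => ?_
        rw [(Finset.mem_filter.1 hx).2, mul_inv]
      · intro x hx x' hx' h
        exact Prod.ext h ((Finset.mem_filter.1 hx).2.trans (Finset.mem_filter.1 hx').2.symm)
    rw [h2, ← Finset.sum_mul]
    refine mul_le_mul_of_nonneg_right (le_trans ?_ (hR x₀ hx₀)) (by positivity)
    refine Finset.sum_le_sum_of_subset_of_nonneg ?_ fun _ _ _ => by positivity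
    intro s hs
    obtain ⟨x, hx, rfl⟩ := Finset.mem_image.1 hs
    obtain ⟨hx1, hx2⟩ := Finset.mem_filter.1 hx
    obtain ⟨h3, -, h4⟩ := hT x hx1
    rw [hx2] at h4
    exact Finset.mem_filter.2 ⟨h3, h4⟩
  have h2 : ∑ t ∈ T.image Prod.snd, B * (t : ℝ)⁻¹ ≤ B * 1 := by
    rw [← Finset.mul_sum]
    refine mul_le_mul_of_nonneg_left (le_trans ?_ (sum_lev P hS1 b)) hB
    refine Finset.sum_le_sum_of_subset_of_nonneg ?_ fun _ _ _ => by positivity
    intro t ht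
    obtain ⟨x, hx, rfl⟩ := Finset.mem_image.1 ht
    exact (hT x hx).2.1
  linarith

/-- the sum over one class of pairs, the other factor -/
theorem block' {P : Finset ℕ} (hS1 : SS P ≤ 1) {T : Finset (ℕ × ℕ)} {R : ℕ → ℕ → Prop} {a b : ℕ}
    {B : ℝ} (hB : 0 ≤ B) (hT : ∀ x ∈ T, x.1 ∈ lev P a ∧ x.2 ∈ lev P b ∧ R x.2 x.1)
    (hR : ∀ x ∈ T, ∑ t ∈ (lev P b).filter (fun t => R t x.1), (t : ℝ)⁻¹ ≤ B) :
    ∑ x ∈ T, ((x.1 : ℝ) * x.2)⁻¹ ≤ B := by
  have h1 : ∑ x ∈ T, ((x.1 : ℝ) * x.2)⁻¹ =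
      ∑ x ∈ T.image Prod.swap, ((x.1 : ℝ) * x.2)⁻¹ := by
    rw [Finset.sum_image (fun x _ x' _ h => Prod.swap_injective h)]
    exact Finset.sum_congr rfl fun x _ => by rw [Prod.fst_swap, Prod.snd_swap, mul_comm]
  rw [h1]
  refine block (a := b) (b := a) (R := R) hS1 hB ?_ ?_
  · intro x hx
    obtain ⟨x', hx', rfl⟩ := Finset.mem_image.1 hx
    obtain ⟨h2, h3, h4⟩ := hT x' hx'
    exact ⟨h3, h2, h4⟩
  · intro x hx
    obtain ⟨x', hx', rfl⟩ := Finset.mem_image.1 hx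
    exact hR x' hx'

end Z

theorem pairs_sum {q : ℕ} [Fact q.Prime] (A : Subgroup (ZMod q)ˣ) {P : Finset ℕ}
    (hP : ∀ p ∈ P, p.Prime) (hS1 : SS P ≤ 1) {X N : ℕ} (hNX : N ≤ X) (hX : X < q) {y β : ℝ}
    (hy : 1 < y) (hyP : ∀ p ∈ P, y ≤ p)
    (hφ : ∀ a : ℕ, 1 ≤ a → y ^ a ≤ X → ∀ c : ZMod q, c ≠ 0 →
      ∑ s ∈ (lev P a).filter (fun s => Rl A s c), (s : ℝ)⁻¹ ≤ y ^ (-(β * a)))
    {K : ℝ} (hK : 1 ≤ K) (hρ : K ^ 2 * y ^ (-β) ≤ 1 / 8) :
    ∑ st ∈ pairs P A X N, K ^ (cardFactors st.1 + cardFactors st.2) * ((st.1 : ℝ) * st.2)⁻¹ ≤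
      4 * (K ^ 2 * y ^ (-β)) := by
  have hy0 : 0 < y := by linarith
  set ρ : ℝ := K ^ 2 * y ^ (-β) with hρd
  have hρ0 : 0 ≤ ρ := by positivity
  -- facts about the pairs
  have hmem : ∀ x ∈ pairs P A X N, x.1 ≠ 0 ∧ x.2 ≠ 0 ∧ x.1 ≤ X ∧ x.2 ≤ X ∧ Sm P x.1 ∧ Sm P x.2 ∧
      Rl A x.1 (x.2 : ZMod q) ∧ x ≠ (1, 1) := by
    intro x hx
    unfold pairs at hx
    rw [Finset.mem_filter, Finset.mem_product, Finset.mem_Icc, Finset.mem_Icc] at hx
    obtain ⟨⟨⟨h1, h2⟩, h3, h4⟩, h5, h6, h7, h8⟩ := hx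
    exact ⟨by omega, by omega, h2, h4.trans hNX, h5, h6, h7, h8⟩
  have hcast : ∀ n : ℕ, n ≠ 0 → n ≤ X → (n : ZMod q) ≠ 0 := by
    intro n h0 h1 h2
    rw [ZMod.natCast_eq_zero_iff] at h2
    exact absurd (Nat.le_of_dvd (Nat.pos_of_ne_zero h0) h2) (by omega)
  have hΩX : ∀ n : ℕ, n ≠ 0 → n ≤ X → Sm P n → y ^ cardFactors n ≤ (X : ℝ) := by
    intro n h0 h1 h2
    exact (Z.pow_le hy hyP h0 h2).trans (by exact_mod_cast h1)
  have hΩ0 : ∀ n : ℕ, n ≠ 0 → cardFactors n = 0 → n = 1 := by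
    intro n h0 h1
    rcases ArithmeticFunction.cardFactors_eq_zero_iff_eq_zero_or_one.1 h1 with h | h
    · exact absurd h h0
    · exact h
  have hΩle : ∀ n : ℕ, n ≠ 0 → n ≤ X → cardFactors n ≤ X := by
    intro n h0 h1
    rw [ArithmeticFunction.cardFactors_apply]
    refine le_trans ?_ h1
    have h2 : 2 ^ n.primeFactorsList.length ≤ n := by
      have h3 : ∀ L : List ℕ, (∀ p ∈ L, 2 ≤ p) → 2 ^ L.length ≤ L.prod := by
        intro L hL
        induction L with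
        | nil => simp
        | cons p L ih =>
          rw [List.length_cons, List.prod_cons, pow_succ, mul_comm]
          exact Nat.mul_le_mul (hL p List.mem_cons_self)
            (ih fun p hp => hL p (List.mem_cons_of_mem _ hp))
      have h4 := h3 n.primeFactorsList fun p hp => (Nat.prime_of_mem_primeFactorsList hp).two_le
      rwa [Nat.prod_primeFactorsList h0] at h4
    exact (Nat.lt_two_pow_self (n := n.primeFactorsList.length)).le.trans h2
  have hpow : ∀ c : ℕ, K ^ (2 * c) * y ^ (-(β * c)) = ρ ^ c := by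
    intro c
    rw [hρd, mul_pow, ← pow_mul, ← Real.rpow_natCast (y ^ (-β)), ← Real.rpow_mul hy0.le]
    ring_nf
  -- one class of pairs
  have key : ∀ a b : ℕ, (a, b) ≠ (0, 0) →
      ∑ x ∈ (pairs P A X N).filter (fun x => (cardFactors x.1, cardFactors x.2) = (a, b)),
        K ^ (cardFactors x.1 + cardFactors x.2) * ((x.1 : ℝ) * x.2)⁻¹ ≤ ρ ^ max a b := by
    intro a b hab
    set T := (pairs P A X N).filter (fun x => (cardFactors x.1, cardFactors x.2) = (a, b)) with hTd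
    have e1 : ∑ x ∈ T, K ^ (cardFactors x.1 + cardFactors x.2) * ((x.1 : ℝ) * x.2)⁻¹ =
        K ^ (a + b) * ∑ x ∈ T, ((x.1 : ℝ) * x.2)⁻¹ := by
      rw [Finset.mul_sum]
      refine Finset.sum_congr rfl fun x hx => ?_
      have h := (Finset.mem_filter.1 hx).2
      rw [Prod.mk.injEq] at h
      rw [h.1, h.2]
    rw [e1, ← hpow]
    have hKle : K ^ (a + b) ≤ K ^ (2 * max a b) := pow_le_pow_right₀ hK (by omega)
    have hin : ∀ x ∈ T, x ∈ pairs P A X N ∧ cardFactors x.1 = a ∧ cardFactors x.2 = b := by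
      intro x hx
      have h := Finset.mem_filter.1 hx
      rw [Prod.mk.injEq] at h
      exact ⟨h.1, h.2.1, h.2.2⟩
    have hlev : ∀ x ∈ T, x.1 ∈ lev P a ∧ x.2 ∈ lev P b := by
      intro x hx
      obtain ⟨h1, h2, h3⟩ := hin x hx
      obtain ⟨m1, m2, m3, m4, m5, m6, m7, m8⟩ := hmem x h1
      rw [← h2, ← h3]
      exact ⟨Z.mem_lev m1 m5, Z.mem_lev m2 m6⟩
    have hsum : ∑ x ∈ T, ((x.1 : ℝ) * x.2)⁻¹ ≤ y ^ (-(β * (max a b : ℕ))) := by
      rcases le_total b a with hba | hba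
      · rw [max_eq_left hba]
        refine Z.block (R := fun s t => Rl A s (t : ZMod q)) (a := a) (b := b) hS1 (by positivity)
          (fun x hx => ?_) (fun x hx => ?_)
        · exact ⟨(hlev x hx).1, (hlev x hx).2, (hmem x (hin x hx).1).2.2.2.2.2.2.1⟩
        · obtain ⟨h1, h2, h3⟩ := hin x hx
          obtain ⟨m1, m2, m3, m4, m5, m6, m7, m8⟩ := hmem x h1
          refine hφ a ?_ ?_ _ (hcast _ m2 m4)
          · rcases Nat.eq_zero_or_pos a with h | h
            · exact absurd (Prod.ext h (by omega : b = 0)) hab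
            · exact h
          · rw [← h2]
            exact hΩX _ m1 m3 m5
      · rw [max_eq_right hba]
        refine Z.block' (R := fun s t => Rl A s (t : ZMod q)) (a := a) (b := b) hS1 (by positivity)
          (fun x hx => ?_) (fun x hx => ?_)
        · exact ⟨(hlev x hx).1, (hlev x hx).2, Z.Rl_symm (hmem x (hin x hx).1).2.2.2.2.2.2.1⟩
        · obtain ⟨h1, h2, h3⟩ := hin x hx
          obtain ⟨m1, m2, m3, m4, m5, m6, m7, m8⟩ := hmem x h1
          refine hφ b ?_ ?_ _ (hcast _ m1 m3)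
          · rcases Nat.eq_zero_or_pos b with h | h
            · exact absurd (Prod.ext (by omega : a = 0) h) hab
            · exact h
          · rw [← h3]
            exact hΩX _ m2 m4 m6
    have hnn : 0 ≤ ∑ x ∈ T, ((x.1 : ℝ) * x.2)⁻¹ := Finset.sum_nonneg fun _ _ => by positivity
    exact mul_le_mul hKle hsum hnn (by positivity)
  -- all classes
  set I : Finset (ℕ × ℕ) := ((Finset.range (X + 1)) ×ˢ (Finset.range (X + 1))).erase (0, 0) with hI
  have hmaps : ∀ x ∈ pairs P A X N, (cardFactors x.1, cardFactors x.2) ∈ I := by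
    intro x hx
    obtain ⟨m1, m2, m3, m4, m5, m6, m7, m8⟩ := hmem x hx
    rw [hI, Finset.mem_erase, Finset.mem_product, Finset.mem_range, Finset.mem_range]
    refine ⟨fun h => ?_, Nat.lt_succ_of_le (hΩle _ m1 m3), Nat.lt_succ_of_le (hΩle _ m2 m4)⟩
    rw [Prod.mk.injEq] at h
    exact m8 (Prod.ext (hΩ0 _ m1 h.1) (hΩ0 _ m2 h.2))
  rw [← Finset.sum_fiberwise_of_maps_to hmaps]
  have h1 : ∑ ab ∈ I, ∑ x ∈ (pairs P A X N).filter
      (fun x => (cardFactors x.1, cardFactors x.2) = ab),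
        K ^ (cardFactors x.1 + cardFactors x.2) * ((x.1 : ℝ) * x.2)⁻¹ ≤
      ∑ ab ∈ I, ρ ^ max ab.1 ab.2 := by
    refine Finset.sum_le_sum fun ab hab => ?_
    exact key ab.1 ab.2 (Finset.ne_of_mem_erase hab)
  refine h1.trans ?_
  have hmaps2 : ∀ ab ∈ I, max ab.1 ab.2 ∈ Finset.Icc 1 X := by
    intro ab hab
    rw [hI, Finset.mem_erase, Finset.mem_product, Finset.mem_range, Finset.mem_range] at hab
    rw [Finset.mem_Icc]
    have h3 : ab.1 ≠ 0 ∨ ab.2 ≠ 0 := by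
      by_contra h
      rw [not_or, not_not, not_not] at h
      exact hab.1 (Prod.ext h.1 h.2)
    omega
  rw [← Finset.sum_fiberwise_of_maps_to hmaps2]
  have h2 : ∀ c ∈ Finset.Icc 1 X, ∑ ab ∈ I.filter (fun ab => max ab.1 ab.2 = c),
      ρ ^ max ab.1 ab.2 ≤ (2 * (c : ℝ) + 1) * ρ ^ c := by
    intro c _
    have e2 : ∑ ab ∈ I.filter (fun ab => max ab.1 ab.2 = c), ρ ^ max ab.1 ab.2 =
        ((I.filter (fun ab => max ab.1 ab.2 = c)).card : ℝ) * ρ ^ c := by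
      rw [← nsmul_eq_mul, ← Finset.sum_const]
      exact Finset.sum_congr rfl fun ab hab => by rw [(Finset.mem_filter.1 hab).2]
    rw [e2]
    refine mul_le_mul_of_nonneg_right ?_ (pow_nonneg hρ0 _)
    have h3 : I.filter (fun ab => max ab.1 ab.2 = c) ⊆
        (Finset.range (c + 1)).image (fun b => (c, b)) ∪ (Finset.range c).image (fun a => (a, c)) := by
      intro ab hab
      have h4 := (Finset.mem_filter.1 hab).2
      rw [Finset.mem_union, Finset.mem_image, Finset.mem_image]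
      rcases le_or_gt ab.2 ab.1 with h5 | h5
      · rw [max_eq_left h5] at h4
        exact Or.inl ⟨ab.2, Finset.mem_range.2 (by omega), Prod.ext h4.symm rfl⟩
      · rw [max_eq_right h5.le] at h4
        exact Or.inr ⟨ab.1, Finset.mem_range.2 (by omega), Prod.ext rfl h4.symm⟩
    have h4 : (I.filter (fun ab => max ab.1 ab.2 = c)).card ≤ (c + 1) + c := by
      refine (Finset.card_le_card h3).trans ((Finset.card_union_le _ _).trans ?_)
      exact Nat.add_le_add (Finset.card_image_le.trans (by rw [Finset.card_range]))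
        (Finset.card_image_le.trans (by rw [Finset.card_range]))
    have h5 : ((I.filter (fun ab => max ab.1 ab.2 = c)).card : ℝ) ≤ ((c + 1) + c : ℕ) := by
      exact_mod_cast h4
    refine h5.trans (le_of_eq ?_)
    push_cast
    ring
  refine (Finset.sum_le_sum h2).trans ?_
  have h3 := Z.series hρ0 hρ X
  have h4 : 0 ≤ (7 / 3 * (X : ℝ) + 4) * ρ ^ (X + 1) := by positivity
  linarith

end Pool.Agent.J4.H33.CS
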