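import Pool.Agent.J4.H33.CS.Par
import Pool.Agent.J4.H33.CS.C2
import Pool.Agent.J4.H33.CS.W
import Pool.Agent.J4.H33.CS.M
import Pool.Agent.J4.H33.CS.F
import Pool.Agent.J4.H33.CS.Z
import Pool.Agent.J4.H33.CS.S4
import Pool.Agent.J4.H33.CS.T3
import Pool.Agent.J4.H33.CS.Cnt2
import Pool.Agent.J4.H33.CS.Eng

/-!
# The bound for one prime, with many large values
-/

set_option autoImplicit false

namespace Pool.Agent.J4.H33.CS

open Finset
open scoped Classical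
open Pool.Agent.R311.RES (hzv ann L_half orth card_mul)
open ArithmeticFunction (cardFactors)

variable {q : ℕ} [Fact q.Prime]

lemma two_pow_cf {s : ℕ} (hs : s ≠ 0) : 2 ^ cardFactors s ≤ s := by
  induction s using Nat.recOnMul with
  | zero => exact absurd rfl hs
  | one => simp
  | prime p hp =>
    rw [ArithmeticFunction.cardFactors_apply_prime hp, pow_one]
    exact hp.two_le
  | mul a b ha hb =>
    have h1 : a ≠ 0 := left_ne_zero_of_mul hs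
    have h2 : b ≠ 0 := right_ne_zero_of_mul hs
    rw [ArithmeticFunction.cardFactors_mul h1 h2, pow_add]
    exact Nat.mul_le_mul (ha h1) (hb h2)

/-- **The bound for one prime, with many large values.** -/
theorem fixed2 {ε : ℝ} (h0 : 0 < ε) (h1 : ε ≤ 1) (H : Subgroup (DirichletCharacter ℂ q))
    (hH : (q : ℝ) ^ ε ≤ Nat.card H) {y : ℝ} (hy : Real.exp 1 ≤ y)
    (hlog : Real.log q ≤ y ^ (ε / 4)) {D : ℕ} (hD1 : (q : ℝ) ^ (ε / 20) ≤ D)
    (hD2 : (D : ℝ) ≤ (q : ℝ) ^ (ε / 16))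
    (htail : ∀ A : Subgroup (ZMod q)ˣ, ((AS A).card : ℝ) ≤ (q : ℝ) ^ (1 - ε) →
      ∀ e : (ZMod q)ˣ → ℂ,
        (∀ τ : ℝ, (∀ h : ℕ, 1 ≤ h → h < D * q → (h.divisors.card : ℝ) ≤ τ) →
          ∀ u, ‖e u‖ ≤ eb D τ u) →
      ∀ c : (ZMod q)ˣ, ∑ u ∈ AS A, ‖e (c * u)‖ ^ 2 ≤ (q : ℝ) ^ (-(ε ^ 2 / 50)))
    (heng : ∀ e : (ZMod q)ˣ → ℂ,
        (∀ τ : ℝ, (∀ h : ℕ, 1 ≤ h → h < D * q → (h.divisors.card : ℝ) ≤ τ) →
          ∀ u, ‖e u‖ ≤ eb D τ u) → ∑ u : (ZMod q)ˣ, ‖e u‖ ^ 2 ≤ (q : ℝ) ^ (ε / 8))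
    (hS0 : ε / 8 ≤ SS (PP ε y)) (hS1 : SS (PP ε y) ≤ 1) {i j n : ℕ} (hn : n = j + i)
    (hi : 1 ≤ i) (hij : i ≤ j) (hjS : 9 * (i : ℝ) ^ 2 ≤ j * (ε / 8))
    (hiS : 64 ≤ (i + 1 : ℝ) * ε ^ 2) (hny : (n : ℝ) ^ 2 ≤ y * (ε / 8))
    (hzn : (y ^ (1 + ε / 4)) ^ n ≤ (q : ℝ) ^ (ε ^ 2 / 500))
    (hK : (16 * Real.log q / ε) ^ 4 * y ^ (-(ε / 4)) ≤ 1 / 8) {V : ℝ} (hV : 0 < V) :
    (((XS q).filter (fun χ₀ => (((HS H).filter (fun ψ =>
      V < ‖DirichletCharacter.LFunction (χ₀ * ψ) (1 / 2)‖)).card : ℝ) ≤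
        (q : ℝ) ^ (-(ε / 2)) * ((HS H).card : ℝ))).card : ℝ) ≤
      ((q : ℝ) - 1) * (288 * ((16 * Real.log q / ε) ^ 4 * y ^ (-(ε / 4))) +
        72 * (q : ℝ) ^ (-(3 * ε ^ 2 / 250)) +
        6 * V * Real.sqrt (1 + Real.log q) * (1 / 3) ^ i + 360 * (q : ℝ) ^ (-(ε / 4))) := by
  have hqp : q.Prime := Fact.out
  have hq0 : (0 : ℝ) < q := by exact_mod_cast hqp.pos
  have hq1 : (1 : ℝ) < q := by exact_mod_cast hqp.one_lt
  have hy0 : 0 < y := lt_of_lt_of_le (Real.exp_pos 1) hy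
  have hy2 : 2 < y := by
    have := Real.exp_one_gt_d9
    linarith
  have hy1 : 1 < y := by linarith
  set P : Finset ℕ := PP ε y with hPdef
  set Z : ℝ := y ^ (1 + ε / 4) with hZ
  set z : ℕ := ⌊Z⌋₊ with hz
  have hyZ : y ≤ Z := by
    calc y = y ^ (1 : ℝ) := (Real.rpow_one y).symm
      _ ≤ _ := Real.rpow_le_rpow_of_exponent_le hy1.le (by linarith)
  have hzZ : (z : ℝ) ≤ Z := Nat.floor_le (by linarith)
  have hz2 : 2 ≤ z := Nat.le_floor (by push_cast; linarith)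
  have hmem : ∀ p ∈ P, p ≤ z ∧ p.Prime ∧ y < p := by
    intro p hp
    rw [hPdef, PP, mem_filter, mem_Icc] at hp
    exact ⟨hp.1.2, hp.2.1, hp.2.2⟩
  have hP : ∀ p ∈ P, p.Prime := fun p hp => (hmem p hp).2.1
  have hpz : ∀ p ∈ P, p ≤ z := fun p hp => (hmem p hp).1
  have hyP : ∀ p ∈ P, y ≤ p := fun p hp => (hmem p hp).2.2.le
  have hpZ : ∀ p ∈ P, (p : ℝ) ≤ Z := fun p hp => le_trans (by exact_mod_cast hpz p hp) hzZ
  set S : ℝ := SS P with hS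
  have hSpos : 0 < S := by linarith
  have hn1 : 1 ≤ n := by omega
  have hznr : (z : ℝ) ^ n ≤ (q : ℝ) ^ (ε ^ 2 / 500) :=
    le_trans (pow_le_pow_left₀ (Nat.cast_nonneg _) hzZ n) hzn
  have hee : ε ^ 2 ≤ ε := by nlinarith
  have hz1 : (1 : ℝ) ≤ z := by exact_mod_cast (by omega : 1 ≤ z)
  have hzjr : (z : ℝ) ^ j ≤ (q : ℝ) ^ (ε ^ 2 / 500) :=
    le_trans (pow_le_pow_right₀ hz1 (by omega)) hznr
  have hznD : z ^ n ≤ D := by
    have h2 : (q : ℝ) ^ (ε ^ 2 / 500) ≤ (q : ℝ) ^ (ε / 20) :=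
      Real.rpow_le_rpow_of_exponent_le hq1.le (by linarith)
    have h3 : ((z ^ n : ℕ) : ℝ) ≤ D := by
      push_cast
      linarith
    exact_mod_cast h3
  have hzjpos : 1 ≤ z ^ j := Nat.one_le_pow _ _ (by omega)
  have hznpos : 1 ≤ z ^ n := Nat.one_le_pow _ _ (by omega)
  have hDpos : 1 ≤ D := le_trans hznpos hznD
  have hXr : ((D * z ^ j : ℕ) : ℝ) ≤ (q : ℝ) ^ (ε / 8) := by
    push_cast
    calc (D : ℝ) * (z : ℝ) ^ j ≤ (q : ℝ) ^ (ε / 16) * (q : ℝ) ^ (ε ^ 2 / 500) :=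
          mul_le_mul hD2 hzjr (by positivity) (by positivity)
      _ = (q : ℝ) ^ (ε / 16 + ε ^ 2 / 500) := (Real.rpow_add hq0 _ _).symm
      _ ≤ _ := Real.rpow_le_rpow_of_exponent_le hq1.le (by linarith)
  have hDN : D * z ^ j * z ^ n < q := by
    have h3 : ((D * z ^ j * z ^ n : ℕ) : ℝ) < q := by
      have h4 : ((D * z ^ j * z ^ n : ℕ) : ℝ) = ((D * z ^ j : ℕ) : ℝ) * (z : ℝ) ^ n := by
        push_cast; ring
      rw [h4]
      calc ((D * z ^ j : ℕ) : ℝ) * (z : ℝ) ^ n ≤ (q : ℝ) ^ (ε / 8) * (q : ℝ) ^ (ε ^ 2 / 500) :=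
            mul_le_mul hXr hznr (by positivity) (by positivity)
        _ = (q : ℝ) ^ (ε / 8 + ε ^ 2 / 500) := (Real.rpow_add hq0 _ _).symm
        _ < (q : ℝ) ^ (1 : ℝ) := Real.rpow_lt_rpow_of_exponent_lt hq1 (by linarith)
        _ = q := Real.rpow_one _
    exact_mod_cast h3
  have hX : D * z ^ j < q := lt_of_le_of_lt (Nat.le_mul_of_pos_right _ hznpos) hDN
  have hDq : D < q := lt_of_le_of_lt (Nat.le_mul_of_pos_right _ hzjpos) hX
  have hznq : z ^ n < q := lt_of_le_of_lt hznD hDq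
  have hNX : z ^ n ≤ D * z ^ j := le_trans hznD (Nat.le_mul_of_pos_right _ hzjpos)
  have hpq : ∀ p ∈ P, p < q := fun p hp =>
    lt_of_le_of_lt ((hpz p hp).trans (Nat.le_self_pow (by omega) z)) hznq
  set A := ann H with hA
  have hAc := ann_le H hH
  -- the main term
  set M0 : ℝ := (n.descFactorial j : ℝ) * S ^ n with hM0
  have hM1 : 1 ≤ M0 := by
    refine desc_one hn hij hSpos hS1 ?_
    have h3 : (ε / 8) ^ 2 ≤ S ^ 2 := pow_le_pow_left₀ (by positivity) hS0 2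
    have h4 : (i + 1 : ℝ) * (ε / 8) ^ 2 ≤ (i + 1 : ℝ) * S ^ 2 :=
      mul_le_mul_of_nonneg_left h3 (by positivity)
    have h5 : (i + 1 : ℝ) * (ε / 8) ^ 2 = ((i + 1 : ℝ) * ε ^ 2) / 64 := by ring
    rw [h5] at h4
    have h6 : (1 : ℝ) ≤ ((i + 1 : ℝ) * ε ^ 2) / 64 := by
      rw [le_div_iff₀ (by norm_num)]
      linarith
    linarith
  have hM : 1 / 2 * M0 ≤ f1 P D j n (1 : (ZMod q)ˣ) := by
    refine main_lower hP hy0 hyP hpz (by omega) ?_ hznD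
    refine hny.trans (mul_le_mul_of_nonneg_left hS0 hy0.le)
  set M : ℝ := f1 P D j n (1 : (ZMod q)ˣ) with hMdef
  have hMpos : 0 < M := by linarith
  -- the logarithms
  have hl0 : 0 < Real.log q := Real.log_pos hq1
  have hnl : (n : ℝ) ≤ Real.log q / 2 := by
    have h3 := Real.log_le_log (by positivity) hznr
    rw [Real.log_pow, Real.log_rpow hq0] at h3
    have h4 : Real.log 2 ≤ Real.log z := Real.log_le_log (by norm_num) (by exact_mod_cast hz2)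
    have h5 := Real.log_two_gt_d9
    have h6 : (n : ℝ) * (1 / 2) ≤ n * Real.log z :=
      mul_le_mul_of_nonneg_left (by linarith) (Nat.cast_nonneg _)
    have h7 : ε ^ 2 / 500 * Real.log q ≤ 1 / 500 * Real.log q :=
      mul_le_mul_of_nonneg_right (by linarith) hl0.le
    linarith
  have hΩ : ∀ s : ℕ, s ≠ 0 → s < q → (cardFactors s : ℝ) ≤ 3 / 2 * Real.log q := by
    intro s hs hsq
    have h3 := two_pow_cf hs
    have h4 : ((2 : ℝ) ^ cardFactors s) ≤ q := by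
      have : (2 ^ cardFactors s : ℕ) ≤ q := by omega
      exact_mod_cast this
    have h5 := Real.log_le_log (by positivity) h4
    rw [Real.log_pow] at h5
    have h6 := Real.log_two_gt_d9
    have h7 : (cardFactors s : ℝ) * (2 / 3) ≤ cardFactors s * Real.log 2 :=
      mul_le_mul_of_nonneg_left (by linarith) (Nat.cast_nonneg _)
    linarith
  set K : ℝ := (16 * Real.log q / ε) ^ 2 with hKdef
  have hK2 : K ^ 2 = (16 * Real.log q / ε) ^ 4 := by rw [hKdef, ← pow_mul]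
  -- `1 ≤ K`
  have hlq : 1 ≤ Real.log q := by
    have h3 : (2 : ℝ) ≤ Real.log q / 2 * 2 * 2 := by
      have : (1 : ℝ) ≤ n := by exact_mod_cast hn1
      linarith
    linarith
  have hK1 : 1 ≤ K := by
    have h3 : 1 ≤ 16 * Real.log q / ε := by
      rw [le_div_iff₀ h0]
      linarith
    exact one_le_pow₀ h3
  -- the pairs
  have hpairs : ∑ st ∈ pairs P A (D * z ^ j) (z ^ n),
      K ^ (cardFactors st.1 + cardFactors st.2) * ((st.1 : ℝ) * st.2)⁻¹ ≤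
      4 * (K ^ 2 * y ^ (-(ε / 4))) := by
    refine pairs_sum A hP hS1 hNX hX hy1 hyP ?_ hK1 ?_
    · intro a ha haX c hc
      refine class_bound h0 h1 A hAc hP hy hyP hpZ hlog ha (haX.trans hXr) c hc
    · rw [hK2]
      exact hK
  have hWW : ∑ st ∈ pairs P A (D * z ^ j) (z ^ n), WW P j n st.1 st.2 ^ 2 ≤
      M0 ^ 2 * (4 * (K ^ 2 * y ^ (-(ε / 4)))) := by
    refine le_trans ?_ (mul_le_mul_of_nonneg_left hpairs (by positivity))
    rw [mul_sum]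
    refine sum_le_sum fun st hst => ?_
    rw [pairs, mem_filter, mem_product, mem_Icc, mem_Icc] at hst
    obtain ⟨⟨⟨hs1, hs2⟩, ht1, ht2⟩, -⟩ := hst
    have hs0 : st.1 ≠ 0 := by omega
    have ht0 : st.2 ≠ 0 := by omega
    refine (ww_le hP hSpos hS1 (by omega) hs0 ht0).trans ?_
    rw [← hM0, mul_assoc]
    refine mul_le_mul_of_nonneg_left (mul_le_mul_of_nonneg_right ?_ (by positivity)) (by positivity)
    rw [pow_mul]
    refine pow_le_pow_left₀ (by positivity) ?_ _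
    rw [hKdef]
    refine pow_le_pow_left₀ (by positivity) ?_ 2
    rw [div_le_div_iff₀ hSpos h0]
    have h3 := hΩ st.1 hs0 (by omega)
    have h4 : ((n + cardFactors st.1 : ℕ) : ℝ) ≤ 2 * Real.log q := by
      push_cast
      linarith
    calc ((n + cardFactors st.1 : ℕ) : ℝ) * ε ≤ 2 * Real.log q * ε :=
          mul_le_mul_of_nonneg_right h4 h0.le
      _ = 16 * Real.log q * (ε / 8) := by ring
      _ ≤ 16 * Real.log q * S := mul_le_mul_of_nonneg_left hS0 (by positivity)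
  have hf1 := (f1_sum A hP hpz (D := D) (j := j) (n := n) le_rfl hDN).trans hWW
  -- the error term
  obtain ⟨e, he1, he2⟩ := decomp hP hDpos hDq
  have hB := htail A hAc e he2
  have hden := den_both hP hpz hDpos hznq hX
  have hDw : (D : ℝ) ≤ (q : ℝ) ^ (ε / 8) := hD2.trans
    (Real.rpow_le_rpow_of_exponent_le hq1.le (by linarith only [h0]))
  have hLG := mean_LG P D he1 hDw (heng e he2)
  have hmain := bad_count2 H hP hpq hDq hMpos he1 hB hf1 hden hV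
    (κ := (q : ℝ) ^ (-(ε / 2))) (by positivity) hLG
  refine hmain.trans ?_
  have hqq : (0 : ℝ) ≤ (q : ℝ) - 1 := by linarith
  refine mul_le_mul_of_nonneg_left ?_ hqq
  -- first part
  have hX2 : (∑ p ∈ P, (Real.sqrt p)⁻¹) ^ (2 * (j + n)) ≤ (q : ℝ) ^ (ε ^ 2 / 125) := by
    have h3 : ∑ p ∈ P, (Real.sqrt p)⁻¹ ≤ (z : ℝ) := by
      have h4 : ∀ p ∈ P, (Real.sqrt p)⁻¹ ≤ 1 := by
        intro p hp
        refine inv_le_one_of_one_le₀ ?_
        rw [Real.one_le_sqrt]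
        exact_mod_cast (hP p hp).one_lt.le
      refine (sum_le_sum h4).trans ?_
      rw [sum_const, nsmul_eq_mul, mul_one]
      have h5 : P ⊆ Icc 1 z := fun p hp => mem_Icc.2 ⟨(hP p hp).one_lt.le, hpz p hp⟩
      have h6 := card_le_card h5
      rw [Nat.card_Icc, Nat.add_sub_cancel] at h6
      exact_mod_cast h6
    have h3' : 0 ≤ ∑ p ∈ P, (Real.sqrt p)⁻¹ := sum_nonneg fun p _ => by positivity
    have h4 : (∑ p ∈ P, (Real.sqrt p)⁻¹) ^ (2 * (j + n)) ≤ ((z : ℝ) ^ n) ^ 4 := by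
      refine (pow_le_pow_left₀ h3' h3 _).trans ?_
      rw [← pow_mul]
      exact pow_le_pow_right₀ hz1 (by omega)
    have h5 : ((z : ℝ) ^ n) ^ 4 ≤ (q : ℝ) ^ (ε ^ 2 / 125) := by
      refine (pow_le_pow_left₀ (by positivity) hznr 4).trans (le_of_eq ?_)
      rw [← Real.rpow_natCast, ← Real.rpow_mul hq0.le]
      congr 1
      push_cast
      ring
    exact h4.trans h5
  have hw : (∑ p ∈ P, (Real.sqrt p)⁻¹) ^ (2 * (j + n)) * (q : ℝ) ^ (-(ε ^ 2 / 50)) ≤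
      (q : ℝ) ^ (-(3 * ε ^ 2 / 250)) := by
    calc _ ≤ (q : ℝ) ^ (ε ^ 2 / 125) * (q : ℝ) ^ (-(ε ^ 2 / 50)) :=
          mul_le_mul_of_nonneg_right hX2 (by positivity)
      _ = (q : ℝ) ^ (-(3 * ε ^ 2 / 250)) := by
          rw [← Real.rpow_add hq0]
          congr 1
          ring
  set R : ℝ := (16 * Real.log q / ε) ^ 4 * y ^ (-(ε / 4)) with hR
  have hR0 : 0 ≤ R := by positivity
  have e1 : K ^ 2 * y ^ (-(ε / 4)) = R := by rw [hK2]
  rw [e1]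
  set Q1 : ℝ := (q : ℝ) ^ (-(3 * ε ^ 2 / 250)) with hQ1
  have hQ0 : 0 ≤ Q1 := by positivity
  have hpart1 : 8 * (M0 ^ 2 * (4 * R) + (∑ p ∈ P, (Real.sqrt p)⁻¹) ^ (2 * (j + n)) *
      (q : ℝ) ^ (-(ε ^ 2 / 50))) / M ^ 2 ≤ 128 * R + 32 * Q1 := by
    rw [div_le_iff₀ (by positivity)]
    have h3 : M0 ^ 2 / 4 ≤ M ^ 2 := by
      have := pow_le_pow_left₀ (by positivity : (0 : ℝ) ≤ 1 / 2 * M0) hM 2
      linarith [this, mul_pow (1 / 2 : ℝ) M0 2]
    have h4 : (1 : ℝ) / 4 ≤ M ^ 2 := by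
      have : (1 : ℝ) ≤ M0 ^ 2 := one_le_pow₀ hM1
      linarith
    have h5 : 128 * R * (M0 ^ 2 / 4) ≤ 128 * R * M ^ 2 :=
      mul_le_mul_of_nonneg_left h3 (by positivity)
    have h6 : 32 * Q1 * (1 / 4) ≤ 32 * Q1 * M ^ 2 := mul_le_mul_of_nonneg_left h4 (by positivity)
    nlinarith
  have hpart2 : 2 * V * Real.sqrt ((1 + Real.log D) * (j.factorial * n.factorial) *
      S ^ (j + n)) / M ≤ 4 * V * Real.sqrt (1 + Real.log q) * (1 / 3) ^ i := by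
    have hlD : 0 ≤ 1 + Real.log D := by
      have := Real.log_nonneg (show (1 : ℝ) ≤ D by exact_mod_cast hDpos)
      linarith
    have hjS' : 9 * (i : ℝ) ^ 2 ≤ j * S :=
      hjS.trans (mul_le_mul_of_nonneg_left hS0 (Nat.cast_nonneg _))
    have h3 := fact_ratio hn hi hSpos hjS' hlD hM hMpos
    have h4 : Real.sqrt (1 + Real.log D) ≤ Real.sqrt (1 + Real.log q) := by
      apply Real.sqrt_le_sqrt
      have : Real.log D ≤ Real.log q := Real.log_le_log (by exact_mod_cast hDpos)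
        (by exact_mod_cast hDq.le)
      linarith
    have e2 : 2 * V * Real.sqrt ((1 + Real.log D) * (j.factorial * n.factorial) *
        S ^ (j + n)) / M = 2 * V * (Real.sqrt ((1 + Real.log D) * (j.factorial * n.factorial) *
        S ^ (j + n)) / M) := by ring
    rw [e2]
    calc _ ≤ 2 * V * (2 * Real.sqrt (1 + Real.log D) * (1 / 3) ^ i) :=
          mul_le_mul_of_nonneg_left h3 (by positivity)
      _ ≤ 2 * V * (2 * Real.sqrt (1 + Real.log q) * (1 / 3) ^ i) := by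
          refine mul_le_mul_of_nonneg_left (mul_le_mul_of_nonneg_right ?_ (by positivity))
            (by positivity)
          linarith
      _ = _ := by ring
  have hpart3 : 9 * (q : ℝ) ^ (-(ε / 2)) * (∑ p ∈ P, (Real.sqrt p)⁻¹) ^ (2 * (j + n)) *
      (10 * (q : ℝ) ^ (ε / 8)) / M ^ 2 ≤ 360 * (q : ℝ) ^ (-(ε / 4)) := by
    have h4 : (1 : ℝ) / 4 ≤ M ^ 2 := by
      have h5 : (1 / 2 : ℝ) ≤ M := by linarith only [hM, hM1]
      have h6 := pow_le_pow_left₀ (by norm_num : (0 : ℝ) ≤ 1 / 2) h5 2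
      linarith only [h6]
    rw [div_le_iff₀ (by positivity)]
    have h5 : (q : ℝ) ^ (-(ε / 2)) * ((q : ℝ) ^ (ε ^ 2 / 125) * (q : ℝ) ^ (ε / 8)) ≤
        (q : ℝ) ^ (-(ε / 4)) := by
      rw [← Real.rpow_add hq0, ← Real.rpow_add hq0]
      exact Real.rpow_le_rpow_of_exponent_le hq1.le (by linarith only [hee, h0])
    have h6 : (q : ℝ) ^ (-(ε / 2)) * ((∑ p ∈ P, (Real.sqrt p)⁻¹) ^ (2 * (j + n)) *
        (q : ℝ) ^ (ε / 8)) ≤ (q : ℝ) ^ (-(ε / 4)) := by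
      refine le_trans ?_ h5
      exact mul_le_mul_of_nonneg_left (mul_le_mul_of_nonneg_right hX2 (by positivity))
        (by positivity)
    have h7 : 360 * (q : ℝ) ^ (-(ε / 4)) * (1 / 4) ≤ 360 * (q : ℝ) ^ (-(ε / 4)) * M ^ 2 :=
      mul_le_mul_of_nonneg_left h4 (by positivity)
    calc 9 * (q : ℝ) ^ (-(ε / 2)) * (∑ p ∈ P, (Real.sqrt p)⁻¹) ^ (2 * (j + n)) *
        (10 * (q : ℝ) ^ (ε / 8)) = 90 * ((q : ℝ) ^ (-(ε / 2)) *
          ((∑ p ∈ P, (Real.sqrt p)⁻¹) ^ (2 * (j + n)) * (q : ℝ) ^ (ε / 8))) := by ring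
      _ ≤ 90 * (q : ℝ) ^ (-(ε / 4)) := mul_le_mul_of_nonneg_left h6 (by norm_num)
      _ = 360 * (q : ℝ) ^ (-(ε / 4)) * (1 / 4) := by ring
      _ ≤ _ := h7
  have k1 : 18 * (M0 ^ 2 * (4 * R) + (∑ p ∈ P, (Real.sqrt p)⁻¹) ^ (2 * (j + n)) *
      (q : ℝ) ^ (-(ε ^ 2 / 50))) / M ^ 2 = 9 / 4 * (8 * (M0 ^ 2 * (4 * R) +
        (∑ p ∈ P, (Real.sqrt p)⁻¹) ^ (2 * (j + n)) * (q : ℝ) ^ (-(ε ^ 2 / 50))) / M ^ 2) := by ring
  have k2 : 3 * V * Real.sqrt ((1 + Real.log D) * (j.factorial * n.factorial) *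
      S ^ (j + n)) / M = 3 / 2 * (2 * V * Real.sqrt ((1 + Real.log D) *
        (j.factorial * n.factorial) * S ^ (j + n)) / M) := by ring
  rw [k1, k2]
  linarith only [hpart1, hpart2, hpart3]

end Pool.Agent.J4.H33.CS
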