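import Pool.Agent.J4.H33.CS.Cnt

/-!
# The choice of the parameters
-/

set_option autoImplicit false

namespace Pool.Agent.J4.H33.CS

open Finset
open scoped Classical
open Pool.Agent.R311.RES (hzv ann L_half orth card_mul)
open ArithmeticFunction (cardFactors)

variable {q : ℕ} [Fact q.Prime]

lemma card_HS (H : Subgroup (DirichletCharacter ℂ q)) : (HS H).card = Nat.card H := by
  unfold HS
  rw [Nat.card_eq_fintype_card, Fintype.card_subtype]

lemma card_AS (A : Subgroup (ZMod q)ˣ) : (AS A).card = Nat.card A := by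
  unfold AS
  rw [Nat.card_eq_fintype_card, Fintype.card_subtype]

lemma card_ann (H : Subgroup (DirichletCharacter ℂ q)) :
    (Nat.card H : ℝ) * ((AS (ann H)).card : ℝ) = q - 1 := by
  have h := card_mul H
  rw [card_AS, Nat.card_eq_fintype_card, Nat.card_eq_fintype_card]
  exact h

lemma ann_le {ε : ℝ} (H : Subgroup (DirichletCharacter ℂ q)) (hH : (q : ℝ) ^ ε ≤ Nat.card H) :
    ((AS (ann H)).card : ℝ) ≤ (q : ℝ) ^ (1 - ε) := by
  have hq : (0 : ℝ) < q := by exact_mod_cast (Fact.out : q.Prime).pos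
  have h := card_ann H
  have h1 : 0 < (q : ℝ) ^ ε := by positivity
  have h2 : (q : ℝ) ^ ε * ((AS (ann H)).card : ℝ) ≤ (q : ℝ) ^ ε * (q : ℝ) ^ (1 - ε) := by
    rw [← Real.rpow_add hq, add_sub_cancel, Real.rpow_one]
    have h3 : (q : ℝ) ^ ε * ((AS (ann H)).card : ℝ) ≤ (Nat.card H : ℝ) * ((AS (ann H)).card : ℝ) :=
      mul_le_mul_of_nonneg_right hH (Nat.cast_nonneg _)
    linarith
  exact le_of_mul_le_mul_left h2 h1

/-- the factorials -/
lemma fact_ratio {j i n : ℕ} (hn : n = j + i) (hi : 1 ≤ i) {S : ℝ} (hS : 0 < S)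
    (h : 9 * (i : ℝ) ^ 2 ≤ j * S) {L M : ℝ} (hL : 0 ≤ L)
    (hM : 1 / 2 * ((n.descFactorial j : ℝ) * S ^ n) ≤ M) (hM0 : 0 < M) :
    Real.sqrt (L * (j.factorial * n.factorial) * S ^ (j + n)) / M ≤
      2 * Real.sqrt L * (1 / 3) ^ i := by
  have hdf : (n.descFactorial j : ℝ) * i.factorial = n.factorial := by
    have h1 := Nat.factorial_mul_descFactorial (show j ≤ n by omega)
    have h2 : n - j = i := by omega
    rw [h2] at h1
    rw [mul_comm]
    exact_mod_cast h1
  have hi0 : (0 : ℝ) < i.factorial := by exact_mod_cast i.factorial_pos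
  have hj0 : (0 : ℝ) < j.factorial := by exact_mod_cast j.factorial_pos
  have hn0 : (0 : ℝ) < n.factorial := by exact_mod_cast n.factorial_pos
  have hip : (0 : ℝ) < i := by exact_mod_cast hi
  -- n! ≥ j! j ^ i
  have h1 : (j.factorial : ℝ) * (j : ℝ) ^ i ≤ n.factorial := by
    have h2 : j.factorial * j ^ i ≤ (j + i).factorial := by
      refine le_trans (Nat.mul_le_mul_left _ (Nat.pow_le_pow_left (Nat.le_succ j) i)) ?_
      exact Nat.factorial_mul_pow_le_factorial
    rw [hn]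
    exact_mod_cast h2
  -- i! ≤ i ^ i
  have h2 : (i.factorial : ℝ) ≤ (i : ℝ) ^ i := by
    exact_mod_cast Nat.factorial_le_pow i
  -- the square
  have key : L * (j.factorial * n.factorial) * S ^ (j + n) ≤
      (Real.sqrt L * (1 / 3) ^ i * ((n.descFactorial j : ℝ) * S ^ n)) ^ 2 := by
    have e1 : (Real.sqrt L * (1 / 3) ^ i * ((n.descFactorial j : ℝ) * S ^ n)) ^ 2 =
        L * ((1 / 9) ^ i * (n.descFactorial j : ℝ) ^ 2 * S ^ (2 * n)) := by
      rw [mul_pow, mul_pow, Real.sq_sqrt hL, mul_pow, ← pow_mul, ← pow_mul, mul_comm i 2, pow_mul,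
        mul_comm n 2]
      norm_num
      ring
    rw [e1, mul_assoc]
    refine mul_le_mul_of_nonneg_left ?_ hL
    -- j! n! S^(j+n) ≤ 9^-i (n!/i!)² S^(2n)
    have e2 : S ^ (2 * n) = S ^ (j + n) * S ^ i := by
      rw [← pow_add]
      congr 1
      omega
    rw [e2]
    have e3 : (n.descFactorial j : ℝ) = n.factorial / i.factorial := by
      rw [← hdf]
      field_simp
    rw [e3]
    have h3 : (j.factorial : ℝ) * (i.factorial : ℝ) ^ 2 ≤ (1 / 9) ^ i * n.factorial * S ^ i := by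
      have h4 : (i.factorial : ℝ) ^ 2 ≤ ((i : ℝ) ^ 2) ^ i := by
        rw [← pow_mul, mul_comm 2 i, pow_mul]
        exact pow_le_pow_left₀ hi0.le h2 2
      have h5 : ((i : ℝ) ^ 2) ^ i ≤ (1 / 9 * (j * S)) ^ i :=
        pow_le_pow_left₀ (by positivity) (by linarith) i
      calc (j.factorial : ℝ) * (i.factorial : ℝ) ^ 2 ≤ j.factorial * (1 / 9 * (j * S)) ^ i :=
            mul_le_mul_of_nonneg_left (h4.trans h5) hj0.le
        _ = (1 / 9) ^ i * (j.factorial * (j : ℝ) ^ i) * S ^ i := by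
            rw [mul_pow, mul_pow]; ring
        _ ≤ (1 / 9) ^ i * n.factorial * S ^ i := by
            refine mul_le_mul_of_nonneg_right (mul_le_mul_of_nonneg_left h1 (by positivity))
              (by positivity)
    have e4 : (1 / 9 : ℝ) ^ i * ((n.factorial : ℝ) / i.factorial) ^ 2 * (S ^ (j + n) * S ^ i) =
        ((1 / 9 : ℝ) ^ i * n.factorial * S ^ i) * (n.factorial * S ^ (j + n)) /
          (i.factorial : ℝ) ^ 2 := by
      field_simp
    rw [e4, le_div_iff₀ (by positivity)]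
    calc (j.factorial : ℝ) * n.factorial * S ^ (j + n) * (i.factorial : ℝ) ^ 2 =
        ((j.factorial : ℝ) * (i.factorial : ℝ) ^ 2) * (n.factorial * S ^ (j + n)) := by ring
      _ ≤ _ := mul_le_mul_of_nonneg_right h3 (by positivity)
  have h6 : Real.sqrt (L * (j.factorial * n.factorial) * S ^ (j + n)) ≤
      Real.sqrt L * (1 / 3) ^ i * ((n.descFactorial j : ℝ) * S ^ n) := by
    refine (Real.sqrt_le_sqrt key).trans ?_
    rw [Real.sqrt_sq (by positivity)]
  rw [div_le_iff₀ hM0]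
  calc _ ≤ Real.sqrt L * (1 / 3) ^ i * ((n.descFactorial j : ℝ) * S ^ n) := h6
    _ = (2 * Real.sqrt L * (1 / 3) ^ i) * (1 / 2 * ((n.descFactorial j : ℝ) * S ^ n)) := by ring
    _ ≤ _ := mul_le_mul_of_nonneg_left hM (by positivity)

/-- the lower bound for the main term -/
lemma desc_one {j i n : ℕ} (hn : n = j + i) (hij : i ≤ j) {S : ℝ} (hS : 0 < S) (hS1 : S ≤ 1)
    (h : 1 ≤ (i + 1 : ℝ) * S ^ 2) : 1 ≤ (n.descFactorial j : ℝ) * S ^ n := by
  have h1 : (i + 1) ^ j ≤ n.descFactorial j := by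
    have := Nat.pow_sub_le_descFactorial n j
    have e : n + 1 - j = i + 1 := by omega
    rwa [e] at this
  have h1' : ((i + 1 : ℝ)) ^ j ≤ (n.descFactorial j : ℝ) := by exact_mod_cast h1
  have h2 : S ^ (2 * j) ≤ S ^ n := pow_le_pow_of_le_one hS.le hS1 (by omega)
  calc (1 : ℝ) ≤ ((i + 1 : ℝ) * S ^ 2) ^ j := one_le_pow₀ h
    _ = (i + 1 : ℝ) ^ j * S ^ (2 * j) := by rw [mul_pow, ← pow_mul]
    _ ≤ _ := mul_le_mul h1' h2 (by positivity) (by positivity)

end Pool.Agent.J4.H33.CS
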