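import Pool.Agent.J4.H33.CS.Fin

/-!
# Large central values in almost all cosets: the two final forms
-/

set_option autoImplicit false

namespace Pool.Agent.J4.H33.CS

open Finset Filter
open scoped Classical

theorem partA (ε : ℝ) (hε : 0 < ε) (c₁ : ℝ) (hc₁ : 0 < c₁) :
    ∃ c : ℝ, 0 < c ∧ ∃ C : ℝ, ∃ q₀ : ℕ, ∀ (q : ℕ) [Fact q.Prime], q₀ ≤ q →
      ∀ H : Subgroup (DirichletCharacter ℂ q), c₁ * (q : ℝ) ^ ε ≤ Nat.card H →
      ∀ y : ℝ, Real.log q ^ C ≤ y → Real.log y ≤ c * Real.log q ^ ((1 : ℝ) / 3) →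
        (Set.ncard {χ₀ : DirichletCharacter ℂ q | ∀ ψ ∈ H,
          ‖DirichletCharacter.LFunction (χ₀ * ψ) (1 / 2)‖ <
            Real.exp (c * Real.sqrt (Real.log q / Real.log y))} : ℝ) ≤
          ((q : ℝ) - 1) * y ^ (-c) := by
  obtain ⟨e, he⟩ : ∃ e, e = min ε 1 / 2 := ⟨_, rfl⟩
  have he0 : 0 < e := by rw [he]; positivity
  have he1 : e ≤ 1 := by
    rw [he]
    have := min_le_right ε 1
    linarith
  have he2 : 2 * e ≤ ε := by
    rw [he]
    have := min_le_left ε 1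
    linarith
  obtain ⟨q₁, hq₁⟩ := almost_all he0 he1
  have t2 : Tendsto (fun q : ℕ => (q : ℝ) ^ e) atTop atTop :=
    (tendsto_rpow_atTop he0).comp tendsto_natCast_atTop_atTop
  obtain ⟨q₂, hq₂⟩ := eventually_atTop.1 (t2.eventually_ge_atTop (1 / c₁))
  refine ⟨e ^ 2 / 4000, by positivity, 48 / e + 3, max q₁ q₂, fun q _ hq H hH y hy1 hy2 => ?_⟩
  have b := hq₂ q ((le_max_right _ _).trans hq)
  have hqp : q.Prime := Fact.out
  have hq0 : (0 : ℝ) < q := by exact_mod_cast hqp.pos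
  have hqR1 : (1 : ℝ) ≤ q := by exact_mod_cast hqp.one_lt.le
  have hH' : (q : ℝ) ^ e ≤ Nat.card H := by
    refine le_trans ?_ hH
    have h1 : (q : ℝ) ^ (2 * e) ≤ (q : ℝ) ^ ε := Real.rpow_le_rpow_of_exponent_le hqR1 he2
    have h2 : (q : ℝ) ^ (2 * e) = (q : ℝ) ^ e * (q : ℝ) ^ e := by
      rw [← Real.rpow_add hq0]
      congr 1
      ring
    have h3 : 1 ≤ c₁ * (q : ℝ) ^ e := by
      rw [div_le_iff₀ hc₁] at b
      linarith
    have h4 : (0 : ℝ) ≤ (q : ℝ) ^ e := by positivity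
    calc (q : ℝ) ^ e = 1 * (q : ℝ) ^ e := by ring
      _ ≤ (c₁ * (q : ℝ) ^ e) * (q : ℝ) ^ e := mul_le_mul_of_nonneg_right h3 h4
      _ = c₁ * (q : ℝ) ^ (2 * e) := by rw [h2]; ring
      _ ≤ _ := mul_le_mul_of_nonneg_left h1 hc₁.le
  refine le_trans ?_ (hq₁ q ((le_max_left _ _).trans hq) H hH' y hy1 hy2)
  have hs : {χ₀ : DirichletCharacter ℂ q | ∀ ψ ∈ H,
      ‖DirichletCharacter.LFunction (χ₀ * ψ) (1 / 2)‖ <
        Real.exp (e ^ 2 / 4000 * Real.sqrt (Real.log q / Real.log y))} ⊆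
      (((XS q).filter (fun χ₀ => ∀ ψ ∈ H, ‖DirichletCharacter.LFunction (χ₀ * ψ) (1 / 2)‖ ≤
      Real.exp (e ^ 2 / 2000 * Real.sqrt (Real.log q / Real.log y))) :
        Finset (DirichletCharacter ℂ q)) : Set (DirichletCharacter ℂ q)) := by
    intro χ hχ
    rw [Finset.mem_coe, mem_filter]
    refine ⟨Finset.mem_univ _, fun ψ hψ => ?_⟩
    refine (hχ ψ hψ).le.trans (Real.exp_le_exp.2 ?_)
    refine mul_le_mul_of_nonneg_right ?_ (Real.sqrt_nonneg _)
    have : 0 < e ^ 2 := by positivity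
    linarith
  have h5 := Set.ncard_le_ncard hs (Finset.finite_toSet _)
  rw [Set.ncard_coe_finset] at h5
  exact_mod_cast h5

theorem partB (ε : ℝ) (hε : 0 < ε) (c₁ : ℝ) (hc₁ : 0 < c₁) (A : ℝ) :
    ∃ c : ℝ, 0 < c ∧ ∃ q₀ : ℕ, ∀ (q : ℕ) [Fact q.Prime], q₀ ≤ q →
      ∀ H : Subgroup (DirichletCharacter ℂ q), c₁ * (q : ℝ) ^ ε ≤ Nat.card H →
        (Set.ncard {χ₀ : DirichletCharacter ℂ q | ∀ ψ ∈ H,
          ‖DirichletCharacter.LFunction (χ₀ * ψ) (1 / 2)‖ <
            Real.exp (c * Real.sqrt (Real.log q / Real.log (Real.log q)))} : ℝ) ≤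
          ((q : ℝ) - 1) * Real.log q ^ (-A) := by
  obtain ⟨c, hc, C, q₁, hq₁⟩ := partA ε hε c₁ hc₁
  obtain ⟨K, hK⟩ : ∃ K, K = max (max C 1) (A / c) := ⟨_, rfl⟩
  have hK1 : 1 ≤ K := by
    rw [hK]
    exact (le_max_right _ _).trans (le_max_left _ _)
  have hKC : C ≤ K := by
    rw [hK]
    exact (le_max_left _ _).trans (le_max_left _ _)
  have hKA : A ≤ K * c := by
    have h1 : A / c ≤ K := by
      rw [hK]
      exact le_max_right _ _
    rwa [div_le_iff₀ hc] at h1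
  have hK0 : 0 < K := by linarith
  have t1 : Tendsto (fun q : ℕ => Real.log (q : ℝ)) atTop atTop :=
    Real.tendsto_log_atTop.comp tendsto_natCast_atTop_atTop
  have t3 : ∀ᶠ x : ℝ in atTop, K * Real.log x ≤ c * x ^ ((1 : ℝ) / 3) := by
    have h1 := (isLittleO_log_rpow_atTop (show (0 : ℝ) < 1 / 3 by norm_num)).bound
      (show 0 < c / K by positivity)
    filter_upwards [h1, eventually_ge_atTop 1] with x hx hx1
    rw [Real.norm_of_nonneg (Real.log_nonneg hx1), Real.norm_of_nonneg (by positivity)] at hx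
    calc K * Real.log x ≤ K * (c / K * x ^ ((1 : ℝ) / 3)) :=
          mul_le_mul_of_nonneg_left hx hK0.le
      _ = c * x ^ ((1 : ℝ) / 3) := by field_simp
  obtain ⟨q₂, hq₂⟩ := eventually_atTop.1 ((t1.eventually t3).and (t1.eventually_ge_atTop 1))
  refine ⟨c * Real.sqrt (1 / K), by positivity, max q₁ q₂, fun q _ hq H hH => ?_⟩
  obtain ⟨b1, b2⟩ := hq₂ q ((le_max_right _ _).trans hq)
  have hl0 : 0 < Real.log q := by linarith
  have hqp : q.Prime := Fact.out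
  have hqR1 : (1 : ℝ) ≤ q := by exact_mod_cast hqp.one_lt.le
  have hly : Real.log (Real.log q ^ K) = K * Real.log (Real.log q) := Real.log_rpow hl0 _
  have h1 := hq₁ q ((le_max_left _ _).trans hq) H hH (Real.log q ^ K)
    (Real.rpow_le_rpow_of_exponent_le b2 hKC) (by rw [hly]; exact b1)
  rw [hly] at h1
  have e1 : c * Real.sqrt (Real.log q / (K * Real.log (Real.log q))) =
      c * Real.sqrt (1 / K) * Real.sqrt (Real.log q / Real.log (Real.log q)) := by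
    rw [mul_assoc, ← Real.sqrt_mul (by positivity)]
    congr 2
    rw [div_mul_div_comm, one_mul]
  rw [e1] at h1
  refine h1.trans (mul_le_mul_of_nonneg_left ?_ (by linarith))
  rw [← Real.rpow_mul hl0.le]
  refine Real.rpow_le_rpow_of_exponent_le b2 ?_
  have : K * -c = -(K * c) := by ring
  rw [this]
  linarith

end Pool.Agent.J4.H33.CS
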