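import Pool.Agent.J4.H33.CS.Fin2

/-!
# Many large central values in almost all cosets: the final form
-/

set_option autoImplicit false

namespace Pool.Agent.J4.H33.CS

open Finset Filter
open scoped Classical

theorem partA2 (ε : ℝ) (hε : 0 < ε) (c₁ : ℝ) (hc₁ : 0 < c₁) (δ : ℝ) (hδ : 0 < δ) :
    ∃ c : ℝ, 0 < c ∧ ∃ C : ℝ, ∃ q₀ : ℕ, ∀ (q : ℕ) [Fact q.Prime], q₀ ≤ q →
      ∀ H : Subgroup (DirichletCharacter ℂ q), c₁ * (q : ℝ) ^ ε ≤ Nat.card H →
      ∀ y : ℝ, Real.log q ^ C ≤ y → Real.log y ≤ c * Real.log q ^ ((1 : ℝ) / 3) →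
        (Set.ncard {χ₀ : DirichletCharacter ℂ q |
          (Set.ncard {ψ : DirichletCharacter ℂ q | ψ ∈ H ∧
            Real.exp (c * Real.sqrt (Real.log q / Real.log y)) ≤
              ‖DirichletCharacter.LFunction (χ₀ * ψ) (1 / 2)‖} : ℝ) <
            (q : ℝ) ^ (-δ) * Nat.card H} : ℝ) ≤ ((q : ℝ) - 1) * y ^ (-c) := by
  obtain ⟨e, he⟩ : ∃ e, e = min (min ε 1) δ / 2 := ⟨_, rfl⟩
  have he0 : 0 < e := by rw [he]; positivity
  have he1 : e ≤ 1 := by
    rw [he]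
    have h1 := min_le_right ε 1
    have h2 := min_le_left (min ε 1) δ
    linarith
  have he2 : 2 * e ≤ ε := by
    rw [he]
    have h1 := min_le_left ε 1
    have h2 := min_le_left (min ε 1) δ
    linarith
  have he3 : e / 2 ≤ δ := by
    have h2 := min_le_right (min ε 1) δ
    have : 2 * e ≤ δ := by rw [he]; linarith
    linarith
  obtain ⟨q₁, hq₁⟩ := almost_all2 he0 he1
  obtain ⟨L₀, hL₀⟩ := fin2 he0 he1
  have t1 : Tendsto (fun q : ℕ => Real.log (q : ℝ)) atTop atTop :=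
    Real.tendsto_log_atTop.comp tendsto_natCast_atTop_atTop
  have t2 : Tendsto (fun q : ℕ => (q : ℝ) ^ e) atTop atTop :=
    (tendsto_rpow_atTop he0).comp tendsto_natCast_atTop_atTop
  obtain ⟨q₂, hq₂⟩ := eventually_atTop.1 ((t2.eventually_ge_atTop (1 / c₁)).and
    (t1.eventually_ge_atTop (max L₀ 1)))
  refine ⟨e ^ 2 / 8000, by positivity, 48 / e + 3, max q₁ q₂, fun q _ hq H hH y hy1 hy2 => ?_⟩
  obtain ⟨b, b'⟩ := hq₂ q ((le_max_right _ _).trans hq)
  have hqp : q.Prime := Fact.out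
  have hq0 : (0 : ℝ) < q := by exact_mod_cast hqp.pos
  have hqR1 : (1 : ℝ) ≤ q := by exact_mod_cast hqp.one_lt.le
  have hlL : L₀ ≤ Real.log q := (le_max_left _ _).trans b'
  have hl1 : 1 ≤ Real.log q := (le_max_right _ _).trans b'
  have hl0 : 0 < Real.log q := by linarith
  have hH' : (q : ℝ) ^ e ≤ Nat.card H := by
    refine le_trans ?_ hH
    have h1 : (q : ℝ) ^ (2 * e) ≤ (q : ℝ) ^ ε := Real.rpow_le_rpow_of_exponent_le hqR1 he2
    have h2 : (q : ℝ) ^ (2 * e) = (q : ℝ) ^ e * (q : ℝ) ^ e := by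
      rw [← Real.rpow_add hq0]
      congr 1
      ring
    have h3 : 1 ≤ c₁ * (q : ℝ) ^ e := by
      rw [div_le_iff₀ hc₁] at b
      linarith
    have h4 : (0 : ℝ) ≤ (q : ℝ) ^ e := by positivity
    calc (q : ℝ) ^ e = 1 * (q : ℝ) ^ e := by ring
      _ ≤ (c₁ * (q : ℝ) ^ e) * (q : ℝ) ^ e := mul_le_mul_of_nonneg_right h3 h4
      _ = c₁ * (q : ℝ) ^ (2 * e) := by rw [h2]; ring
      _ ≤ _ := mul_le_mul_of_nonneg_left h1 hc₁.le
  have hl3 : (0 : ℝ) ≤ Real.log q ^ ((1 : ℝ) / 3) := by positivity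
  have hy2' : Real.log y ≤ e ^ 2 / 4000 * Real.log q ^ ((1 : ℝ) / 3) := by
    refine hy2.trans (mul_le_mul_of_nonneg_right ?_ hl3)
    have : 0 < e ^ 2 := by positivity
    linarith
  have hy0 : 0 < y := lt_of_lt_of_le (by positivity) hy1
  have hly : Real.log q ≤ y := by
    refine le_trans ?_ hy1
    calc Real.log q = Real.log q ^ (1 : ℝ) := (Real.rpow_one _).symm
      _ ≤ _ := Real.rpow_le_rpow_of_exponent_le hl1 (by
        have : 0 < 48 / e := by positivity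
        linarith)
  have hmain := hq₁ q ((le_max_left _ _).trans hq) H hH' y hy1 hy2'
  have hfin := hL₀ (Real.log q) hlL (Real.log y) (Real.log_le_log hl0 hly) hy2'
  rw [← Real.rpow_def_of_pos hy0, ← Real.rpow_def_of_pos hy0, ← Real.rpow_def_of_pos hq0] at hfin
  refine le_trans ?_ (hmain.trans (mul_le_mul_of_nonneg_left hfin (by linarith)))
  obtain ⟨s, hs⟩ : ∃ s, s = Real.sqrt (Real.log q / Real.log y) := ⟨_, rfl⟩
  rw [← hs]
  have hs0 : 0 ≤ s := by rw [hs]; exact Real.sqrt_nonneg _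
  have hsub : {χ₀ : DirichletCharacter ℂ q |
      (Set.ncard {ψ : DirichletCharacter ℂ q | ψ ∈ H ∧ Real.exp (e ^ 2 / 8000 * s) ≤
        ‖DirichletCharacter.LFunction (χ₀ * ψ) (1 / 2)‖} : ℝ) < (q : ℝ) ^ (-δ) * Nat.card H} ⊆
      (((XS q).filter (fun χ₀ => (((HS H).filter (fun ψ => Real.exp (e ^ 2 / 2000 * s) <
        ‖DirichletCharacter.LFunction (χ₀ * ψ) (1 / 2)‖)).card : ℝ) ≤
        (q : ℝ) ^ (-(e / 2)) * ((HS H).card : ℝ)) :
          Finset (DirichletCharacter ℂ q)) : Set (DirichletCharacter ℂ q)) := by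
    intro χ hχ
    rw [Finset.mem_coe, mem_filter]
    refine ⟨Finset.mem_univ _, ?_⟩
    have h1 : (((HS H).filter (fun ψ => Real.exp (e ^ 2 / 2000 * s) <
        ‖DirichletCharacter.LFunction (χ * ψ) (1 / 2)‖)).card : ℝ) ≤
        (Set.ncard {ψ : DirichletCharacter ℂ q | ψ ∈ H ∧ Real.exp (e ^ 2 / 8000 * s) ≤
          ‖DirichletCharacter.LFunction (χ * ψ) (1 / 2)‖} : ℝ) := by
      have h2 : (((HS H).filter (fun ψ => Real.exp (e ^ 2 / 2000 * s) <
          ‖DirichletCharacter.LFunction (χ * ψ) (1 / 2)‖) : Finset (DirichletCharacter ℂ q)) :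
          Set (DirichletCharacter ℂ q)) ⊆ {ψ : DirichletCharacter ℂ q | ψ ∈ H ∧
            Real.exp (e ^ 2 / 8000 * s) ≤
              ‖DirichletCharacter.LFunction (χ * ψ) (1 / 2)‖} := by
        intro ψ hψ
        rw [Finset.mem_coe, mem_filter, mem_HS] at hψ
        refine ⟨hψ.1, le_trans (Real.exp_le_exp.2 ?_) hψ.2.le⟩
        refine mul_le_mul_of_nonneg_right ?_ hs0
        have : 0 < e ^ 2 := by positivity
        linarith
      have h3 := Set.ncard_le_ncard h2 (Set.toFinite _)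
      rw [Set.ncard_coe_finset] at h3
      exact_mod_cast h3
    have h4 : (q : ℝ) ^ (-δ) * (Nat.card H : ℝ) ≤ (q : ℝ) ^ (-(e / 2)) * ((HS H).card : ℝ) := by
      rw [card_HS]
      refine mul_le_mul_of_nonneg_right ?_ (Nat.cast_nonneg _)
      exact Real.rpow_le_rpow_of_exponent_le hqR1 (by linarith)
    exact h1.trans ((le_of_lt hχ).trans h4)
  have h5 := Set.ncard_le_ncard hsub (Finset.finite_toSet _)
  rw [Set.ncard_coe_finset] at h5
  exact_mod_cast h5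

end Pool.Agent.J4.H33.CS
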