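import Pool.Agent.J4.H33.CS.Defs

/-!
# Piece T1 of project CS: the Hurwitz zeta function at `1/2` near its first term

Proof by helper7.
-/

set_option autoImplicit false

namespace Pool.Agent.J4.H33.CS

open Finset
open scoped Classical
open Pool.Agent.R311.RES (hzv ann L_half hzv_re orth card_mul sum_units chi_inv SG_half SG_summable
  G_half sqrt_step hurwitz_lower)
open ArithmeticFunction (cardFactors)

namespace T1

/-- a lower bound for the terms -/
theorem step_lower (y : ℝ) (hy : 0 < y) :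
    -(1 / 2) * ((Real.sqrt y)⁻¹ - (Real.sqrt (y + 1))⁻¹) ≤
      -(1 / 2) * y ^ (-(1 / 2 : ℝ)) + (Real.sqrt (y + 1) - Real.sqrt y) := by
  have h1 : y ^ (-(1 / 2 : ℝ)) = (Real.sqrt y)⁻¹ := by
    rw [Real.rpow_neg hy.le, Real.sqrt_eq_rpow]
  rw [h1]
  have h2 := Real.sqrt_pos.2 hy
  have h2' := Real.sqrt_pos.2 (show (0 : ℝ) < y + 1 by linarith)
  have h3 := Real.sq_sqrt hy.le
  have h4 := Real.sq_sqrt (show (0 : ℝ) ≤ y + 1 by linarith)
  have h5 : Real.sqrt y ≤ Real.sqrt (y + 1) := Real.sqrt_le_sqrt (by linarith)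
  have h6 : 1 / (2 * Real.sqrt (y + 1)) ≤ Real.sqrt (y + 1) - Real.sqrt y := by
    rw [div_le_iff₀ (by positivity)]
    nlinarith
  have h7 : 1 / (2 * Real.sqrt (y + 1)) = 1 / 2 * (Real.sqrt (y + 1))⁻¹ := by field_simp
  linarith

theorem hurwitz_near (x : ℝ) (hx : 0 < x) (hx1 : x ≤ 1) :
    ‖HurwitzZeta.hurwitzZeta (x : UnitAddCircle) (1 / 2) - (((Real.sqrt x)⁻¹ : ℝ) : ℂ)‖ ≤ 3 := by
  have hhU : (1 / 2 : ℂ) ∈ Pool.Agent.R311.RES.U := by
    refine ⟨by norm_num, ?_⟩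
    rw [norm_div]
    norm_num
  have h1 := SG_half x hx hx1
  rw [Pool.Agent.R311.RES.cpow_half x hx.le] at h1
  have h2 := SG_summable x hx hx1 hhU
  set g : ℕ → ℝ := fun n => -(1 / 2) * (n + x) ^ (-(1 / 2 : ℝ)) +
    (Real.sqrt (n + 1 + x) - Real.sqrt (n + x)) with hg
  have h3 : ∀ n, Pool.Agent.R311.RES.G x n (1 / 2) = ((g n : ℝ) : ℂ) := fun n => G_half x hx n
  have h4 : Pool.Agent.R311.RES.SG x (1 / 2) = ((∑' n, g n : ℝ) : ℂ) := by
    rw [Pool.Agent.R311.RES.SG, Complex.ofReal_tsum]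
    exact tsum_congr h3
  have h5 : Summable g := by
    have : Summable (fun n => ((g n : ℝ) : ℂ)) := h2.congr h3
    exact Complex.summable_ofReal.1 this
  have h6 : ∀ n, g n ≤ 0 := by
    intro n
    have := sqrt_step (n + x) (by positivity)
    simp only [hg]
    rw [show (n : ℝ) + 1 + x = n + x + 1 by ring]
    exact this
  have h6' : ∀ n : ℕ, -(1 / 2) * ((Real.sqrt (n + x))⁻¹ - (Real.sqrt ((n + 1 : ℕ) + x))⁻¹) ≤ g n := by
    intro n
    have := step_lower (n + x) (by positivity)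
    simp only [hg]
    rw [show (n : ℝ) + 1 + x = n + x + 1 by ring]
    push_cast
    rw [show (n : ℝ) + 1 + x = n + x + 1 by ring]
    exact this
  have h8 : g 0 = -(1 / 2) * (Real.sqrt x)⁻¹ + (Real.sqrt (1 + x) - Real.sqrt x) := by
    have : x ^ (-(1 / 2 : ℝ)) = (Real.sqrt x)⁻¹ := by
      rw [Real.rpow_neg hx.le, Real.sqrt_eq_rpow]
    simp only [hg, Nat.cast_zero, zero_add]
    rw [this]
  have hsp : ∑' n, g n = g 0 + ∑' n, g (n + 1) := h5.tsum_eq_zero_add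
  have hup : ∑' n, g (n + 1) ≤ 0 := tsum_nonpos fun n => h6 _
  have h5' : Summable (fun n => g (n + 1)) := (summable_nat_add_iff 1).2 h5
  have hpart : ∀ N : ℕ, -(1 / 2) ≤ ∑ n ∈ range N, g (n + 1) := by
    intro N
    have ha : ∀ N : ℕ, -(1 / 2) * ((Real.sqrt ((1 : ℕ) + x))⁻¹ - (Real.sqrt ((N + 1 : ℕ) + x))⁻¹) ≤
        ∑ n ∈ range N, g (n + 1) := by
      intro N
      induction N with
      | zero => simp
      | succ N ih =>
        rw [sum_range_succ]
        have := h6' (N + 1)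
        linarith
    have hb := ha N
    have hc : (Real.sqrt ((1 : ℕ) + x))⁻¹ ≤ 1 := by
      apply inv_le_one_of_one_le₀
      rw [Real.one_le_sqrt]
      push_cast
      linarith
    have hd : 0 ≤ (Real.sqrt ((N + 1 : ℕ) + x))⁻¹ := by positivity
    linarith
  have hlow : -(1 / 2) ≤ ∑' n, g (n + 1) :=
    ge_of_tendsto' h5'.hasSum.tendsto_sum_nat hpart
  have h9 : HurwitzZeta.hurwitzZeta (x : UnitAddCircle) (1 / 2) =
      ((-2 * (∑' n, g n) - 2 * Real.sqrt x : ℝ) : ℂ) := by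
    have := h4.symm.trans h1
    push_cast
    rw [Complex.ofReal_tsum] at this
    linear_combination 2 * this
  rw [h9, ← Complex.ofReal_sub, Complex.norm_real, Real.norm_eq_abs, abs_le]
  have h10 : Real.sqrt (1 + x) ≤ 3 / 2 := by
    rw [Real.sqrt_le_left (by norm_num)]
    nlinarith
  have h11 : 0 ≤ Real.sqrt (1 + x) := Real.sqrt_nonneg _
  rw [hsp, h8]
  constructor <;> linarith

end T1

theorem hzv_near {q : ℕ} [Fact q.Prime] (a : (ZMod q)ˣ) :
    ‖hzv q a - (((Real.sqrt ((a : ZMod q).val))⁻¹ : ℝ) : ℂ)‖ ≤ 3 * (Real.sqrt q)⁻¹ := by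
  have : NeZero q := ⟨(Nat.Prime.pos Fact.out).ne'⟩
  have hq : (0 : ℝ) < q := by exact_mod_cast (Nat.Prime.pos Fact.out : 0 < q)
  have ha : 0 < (a : ZMod q).val := by
    rw [Nat.pos_iff_ne_zero]
    intro h
    rw [ZMod.val_eq_zero] at h
    exact a.ne_zero h
  have ha' : (0 : ℝ) < (a : ZMod q).val := by exact_mod_cast ha
  have ha1 : ((a : ZMod q).val / q : ℝ) ≤ 1 := by
    rw [div_le_one hq]
    exact_mod_cast (ZMod.val_lt (a : ZMod q)).le
  have h1 := T1.hurwitz_near ((a : ZMod q).val / q) (by positivity) ha1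
  have e1 : (q : ℝ) ^ (-(1 / 2 : ℝ)) = (Real.sqrt q)⁻¹ := by
    rw [Real.rpow_neg hq.le, Real.sqrt_eq_rpow]
  have e2 : (Real.sqrt ((a : ZMod q).val))⁻¹ =
      (Real.sqrt q)⁻¹ * (Real.sqrt ((a : ZMod q).val / q))⁻¹ := by
    rw [Real.sqrt_div ha'.le]
    have h3 := (Real.sqrt_pos.2 hq).ne'
    have h4 := (Real.sqrt_pos.2 ha').ne'
    field_simp
  unfold hzv
  rw [e1, e2, Complex.ofReal_mul, ← mul_sub, norm_mul, Complex.norm_real, Real.norm_eq_abs,
    abs_of_nonneg (by positivity), mul_comm]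
  exact mul_le_mul_of_nonneg_right h1 (by positivity)

end Pool.Agent.J4.H33.CS
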