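import Pool.Agent.J4.H33.CS.Defs

/-!
# Piece T4 of project CS: the residues of a coset above `D`

Proof by helper7.
-/

set_option autoImplicit false

namespace Pool.Agent.J4.H33.CS

open Finset
open scoped Classical
open Pool.Agent.R311.RES (hzv ann L_half hzv_re orth card_mul sum_units chi_inv SG_half SG_summable
  G_half sqrt_step hurwitz_lower)
open ArithmeticFunction (cardFactors)

theorem coset_tail {q : ℕ} [Fact q.Prime] (A : Subgroup (ZMod q)ˣ) (c : (ZMod q)ˣ) {D r : ℕ}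
    (hr : 1 ≤ r) (hD : q ≤ D ^ r) {τ : ℝ}
    (hτ : ∀ n : ℕ, 1 ≤ n → n < q ^ r → (n.divisors.card : ℝ) ^ r ≤ τ) :
    (∑ u ∈ AS A, if D < (((c * u : (ZMod q)ˣ)) : ZMod q).val then
      ((((c * u : (ZMod q)ˣ) : ZMod q).val : ℝ))⁻¹ else 0) ^ r ≤
      τ * (((AS A).card : ℝ) / q * (1 + r * Real.log q)) := by
  have hq : q.Prime := Fact.out
  have hq0 : 0 < q := hq.pos
  have hqR : (0 : ℝ) < q := by exact_mod_cast hq0
  have hne : (univ : Finset (Fin r)).Nonempty := ⟨⟨0, hr⟩, mem_univ _⟩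
  have hD0 : 0 < D := by
    rcases Nat.eq_zero_or_pos D with h | h
    · rw [h, zero_pow (by omega)] at hD; omega
    · exact h
  set f : (ZMod q)ˣ → ℕ := fun u => (((c * u : (ZMod q)ˣ)) : ZMod q).val with hf
  have hfpos : ∀ u, 0 < f u := by
    intro u
    rw [Nat.pos_iff_ne_zero]
    intro h
    rw [hf] at h
    simp only [ZMod.val_eq_zero] at h
    exact (c * u).ne_zero h
  have hflt : ∀ u, f u < q := fun u => ZMod.val_lt _
  have hfinj : Function.Injective f := by
    intro u v h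
    have h1 := ZMod.val_injective q h
    exact mul_left_cancel (Units.ext h1)
  set B := (AS A).filter (fun u => D < f u) with hB
  have e1 : (∑ u ∈ AS A, if D < f u then ((f u : ℝ))⁻¹ else 0) = ∑ u ∈ B, ((f u : ℝ))⁻¹ :=
    (sum_filter _ _).symm
  have e0 : (∑ u ∈ AS A, if D < (((c * u : (ZMod q)ˣ)) : ZMod q).val then
      ((((c * u : (ZMod q)ˣ) : ZMod q).val : ℝ))⁻¹ else 0) = ∑ u ∈ B, ((f u : ℝ))⁻¹ := e1
  rw [e0]
  set T := Fintype.piFinset (fun _ : Fin r => B) with hT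
  set m : (Fin r → (ZMod q)ˣ) → ℕ := fun l => ∏ i, f (l i) with hm
  have e2 : (∑ u ∈ B, ((f u : ℝ))⁻¹) ^ r = ∑ l ∈ T, ((m l : ℝ))⁻¹ := by
    have h1 : (∑ u ∈ B, ((f u : ℝ))⁻¹) ^ r = ∏ _i : Fin r, ∑ u ∈ B, ((f u : ℝ))⁻¹ := by simp
    rw [h1, Finset.prod_univ_sum]
    apply sum_congr rfl
    intro l _
    simp [hm, Finset.prod_inv_distrib]
  rw [e2]
  have hmem : ∀ l ∈ T, ∀ i, l i ∈ A ∧ D < f (l i) := by
    intro l hl i
    have := Fintype.mem_piFinset.1 hl i
    rw [hB, mem_filter, AS, mem_filter] at this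
    exact ⟨this.1.2, this.2⟩
  have hm1 : ∀ l ∈ T, q < m l ∧ m l < q ^ r := by
    intro l hl
    constructor
    · have h1 : ∏ _i : Fin r, D < ∏ i, f (l i) :=
        Finset.prod_lt_prod_of_nonempty (fun i _ => hD0) (fun i _ => (hmem l hl i).2) hne
      simp only [prod_const, card_univ, Fintype.card_fin] at h1
      exact lt_of_le_of_lt hD h1
    · have h1 : ∏ i, f (l i) < ∏ _i : Fin r, q :=
        Finset.prod_lt_prod_of_nonempty (fun i _ => hfpos _) (fun i _ => hflt _) hne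
      simpa using h1
  rw [Finset.sum_comp (fun n : ℕ => ((n : ℝ))⁻¹) m]
  have hb : ∀ n ∈ T.image m, ((T.filter (fun l => m l = n)).card : ℝ) ≤ τ := by
    intro n hn
    obtain ⟨l0, hl0, rfl⟩ := mem_image.1 hn
    obtain ⟨h1, h2⟩ := hm1 l0 hl0
    refine le_trans ?_ (hτ (m l0) (by omega) h2)
    have h3 : (T.filter (fun l => m l = m l0)).card ≤
        (Fintype.piFinset (fun _ : Fin r => (m l0).divisors)).card := by
      apply Finset.card_le_card_of_injOn (fun l i => f (l i))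
      · intro l hl
        rw [mem_coe, mem_filter] at hl
        rw [mem_coe, Fintype.mem_piFinset]
        intro i
        rw [Nat.mem_divisors]
        refine ⟨?_, by omega⟩
        rw [← hl.2]
        exact Finset.dvd_prod_of_mem (fun i => f (l i)) (mem_univ i)
      · intro l _ l' _ h
        funext i
        exact hfinj (congrFun h i)
    rw [Fintype.card_piFinset] at h3
    simp only [prod_const, card_univ, Fintype.card_fin] at h3
    exact_mod_cast h3
  have hτ0 : 0 ≤ τ := by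
    have := hτ 1 le_rfl (Nat.one_lt_pow (by omega) hq.one_lt)
    refine le_trans ?_ this
    positivity
  have e5 : ∑ n ∈ T.image m, (T.filter (fun l => m l = n)).card • ((n : ℝ))⁻¹ ≤
      τ * ∑ n ∈ T.image m, ((n : ℝ))⁻¹ := by
    rw [mul_sum]
    apply sum_le_sum
    intro n hn
    rw [nsmul_eq_mul]
    exact mul_le_mul_of_nonneg_right (hb n hn) (by positivity)
  refine e5.trans (mul_le_mul_of_nonneg_left ?_ hτ0)
  -- the sum over `n`
  set R : Finset ℕ := (AS A).image (fun u => (((c ^ r * u : (ZMod q)ˣ)) : ZMod q).val) with hR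
  have hRc : R.card ≤ (AS A).card := card_image_le
  set K : Finset ℕ := Finset.Ico 1 (q ^ (r - 1)) with hK
  have e6 : ∑ n ∈ T.image m, ((n : ℝ))⁻¹ ≤
      ∑ n ∈ T.image m, ((((n / q : ℕ) : ℝ)) * q)⁻¹ := by
    apply sum_le_sum
    intro n hn
    obtain ⟨l0, hl0, rfl⟩ := mem_image.1 hn
    obtain ⟨h1, h2⟩ := hm1 l0 hl0
    have h3 : 0 < m l0 / q := Nat.div_pos h1.le hq0
    have h3' : (0 : ℝ) < ((m l0 / q : ℕ) : ℝ) := by exact_mod_cast h3
    apply inv_anti₀ (by positivity)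
    exact_mod_cast Nat.div_mul_le_self (m l0) q
  have hinj : Set.InjOn (fun n : ℕ => (n / q, n % q)) (T.image m : Finset ℕ) := by
    intro a _ b _ h
    simp only [Prod.mk.injEq] at h
    rw [← Nat.div_add_mod a q, ← Nat.div_add_mod b q, h.1, h.2]
  have e7 : ∑ n ∈ T.image m, ((((n / q : ℕ) : ℝ)) * q)⁻¹ ≤
      ∑ kv ∈ K ×ˢ R, (((kv.1 : ℝ)) * q)⁻¹ := by
    have h1 : ∑ n ∈ T.image m, ((((n / q : ℕ) : ℝ)) * q)⁻¹ =
        ∑ kv ∈ (T.image m).image (fun n : ℕ => (n / q, n % q)), (((kv.1 : ℝ)) * q)⁻¹ := by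
      rw [sum_image hinj]
    rw [h1]
    apply sum_le_sum_of_subset_of_nonneg
    · intro kv hkv
      obtain ⟨n, hn, rfl⟩ := mem_image.1 hkv
      obtain ⟨l0, hl0, rfl⟩ := mem_image.1 hn
      obtain ⟨h2, h3⟩ := hm1 l0 hl0
      rw [mem_product]
      constructor
      · rw [hK, mem_Ico]
        refine ⟨Nat.div_pos h2.le hq0, ?_⟩
        rw [Nat.div_lt_iff_lt_mul hq0, ← pow_succ, Nat.sub_add_cancel hr]
        exact h3
      · rw [hR, mem_image]
        refine ⟨∏ i, l0 i, ?_, ?_⟩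
        · rw [AS, mem_filter]
          exact ⟨mem_univ _, Subgroup.prod_mem _ (fun i _ => (hmem l0 hl0 i).1)⟩
        · rw [← ZMod.val_natCast]
          congr 1
          simp only [hm, hf]
          push_cast
          simp only [ZMod.natCast_val, ZMod.cast_id', id_eq]
          rw [prod_mul_distrib]
          simp
    · intro kv _ _
      positivity
  have e8 : ∑ kv ∈ K ×ˢ R, (((kv.1 : ℝ)) * q)⁻¹ = (R.card : ℝ) / q * ∑ k ∈ K, ((k : ℝ))⁻¹ := by
    rw [sum_product]
    simp only [sum_const, nsmul_eq_mul]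
    rw [mul_sum]
    apply sum_congr rfl
    intro k _
    rw [mul_inv]
    ring
  have e9 : ∑ k ∈ K, ((k : ℝ))⁻¹ ≤ 1 + r * Real.log q := by
    have h1 : ∑ k ∈ K, ((k : ℝ))⁻¹ ≤ ((harmonic (q ^ (r - 1)) : ℚ) : ℝ) := by
      rw [harmonic_eq_sum_Icc, hK]
      push_cast
      apply sum_le_sum_of_subset_of_nonneg
      · intro k hk
        rw [mem_Ico] at hk
        exact mem_Icc.2 ⟨hk.1, hk.2.le⟩
      · intro k _ _
        positivity
    refine h1.trans ((harmonic_le_one_add_log _).trans ?_)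
    push_cast
    rw [Real.log_pow]
    have h2 : 0 ≤ Real.log q := Real.log_natCast_nonneg q
    have h3 : ((r - 1 : ℕ) : ℝ) ≤ r := by exact_mod_cast Nat.sub_le r 1
    nlinarith
  calc _ ≤ _ := e6
    _ ≤ _ := e7
    _ = _ := e8
    _ ≤ ((AS A).card : ℝ) / q * (1 + r * Real.log q) := by
      apply mul_le_mul _ e9 (sum_nonneg fun k _ => by positivity) (by positivity)
      apply div_le_div_of_nonneg_right _ hqR.le
      exact_mod_cast hRc

end Pool.Agent.J4.H33.CS
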