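import Pool.Agent.J4.H33.CS.Defs

/-! Project CS, piece W1 (helper71). -/

set_option autoImplicit false

namespace Pool.Agent.J4.H33.CS

open Finset
open scoped Classical
open Pool.Agent.R311.RES (hzv ann L_half hzv_re orth card_mul sum_units chi_inv SG_half SG_summable
  G_half sqrt_step hurwitz_lower)
open ArithmeticFunction (cardFactors)

theorem count_div {P : Finset ℕ} (hP : ∀ p ∈ P, p.Prime) (j : ℕ) {x : ℕ} (hx : x ≠ 0) :
    ((tup P j).filter (fun l => pr l ∣ x)).card ≤ (cardFactors x).descFactorial j := by
  induction j generalizing x with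
  | zero =>
    rw [Nat.descFactorial_zero]
    refine (card_filter_le _ _).trans ?_
    unfold tup
    rw [Fintype.card_piFinset]
    simp
  | succ j ih =>
    have hmaps : ∀ l ∈ (tup P (j + 1)).filter (fun l => pr l ∣ x), l 0 ∈ P.filter (fun p => p ∣ x) := by
      intro l hl
      rw [mem_filter] at hl
      unfold tup at hl
      rw [Fintype.mem_piFinset] at hl
      rw [mem_filter]
      refine ⟨hl.1 0, ?_⟩
      have : pr l = l 0 * ∏ i : Fin j, l i.succ := by
        unfold pr
        rw [Fin.prod_univ_succ]
      rw [this] at hl
      exact (Dvd.intro _ rfl).trans hl.2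
    rw [card_eq_sum_card_fiberwise hmaps]
    have hfib : ∀ p ∈ P.filter (fun p => p ∣ x),
        (((tup P (j + 1)).filter (fun l => pr l ∣ x)).filter (fun l => l 0 = p)).card ≤
          (cardFactors x - 1).descFactorial j := by
      intro p hp
      rw [mem_filter] at hp
      obtain ⟨hpP, y, rfl⟩ := hp
      have hpp := hP p hpP
      have hy : y ≠ 0 := by rintro rfl; simp at hx
      have hcard : cardFactors (p * y) - 1 = cardFactors y := by
        rw [ArithmeticFunction.cardFactors_mul hpp.ne_zero hy,
          ArithmeticFunction.cardFactors_apply_prime hpp]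
        omega
      rw [hcard]
      refine le_trans ?_ (ih hy)
      apply card_le_card_of_injOn (fun l => Fin.tail l)
      · intro l hl
        rw [mem_coe, mem_filter, mem_filter] at hl
        obtain ⟨⟨hl1, hl2⟩, hl3⟩ := hl
        rw [mem_coe, mem_filter]
        unfold tup at hl1 ⊢
        rw [Fintype.mem_piFinset] at hl1 ⊢
        refine ⟨fun i => hl1 i.succ, ?_⟩
        have : pr l = p * pr (Fin.tail l) := by
          unfold pr
          rw [Fin.prod_univ_succ, hl3]
          rfl
        rw [this] at hl2
        exact Nat.dvd_of_mul_dvd_mul_left hpp.pos hl2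
      · intro l hl l' hl' h
        rw [mem_coe, mem_filter] at hl hl'
        have h' : Fin.tail l = Fin.tail l' := h
        rw [← Fin.cons_self_tail l, ← Fin.cons_self_tail l', hl.2, hl'.2, h']
    refine (sum_le_sum hfib).trans ?_
    rw [sum_const, smul_eq_mul]
    have hω : (P.filter (fun p => p ∣ x)).card ≤ cardFactors x := by
      have h1 : P.filter (fun p => p ∣ x) ⊆ x.primeFactorsList.toFinset := by
        intro p hp
        rw [mem_filter] at hp
        rw [List.mem_toFinset, Nat.mem_primeFactorsList hx]
        exact ⟨hP p hp.1, hp.2⟩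
      refine (card_le_card h1).trans ?_
      rw [ArithmeticFunction.cardFactors_apply]
      exact List.toFinset_card_le _
    rcases Nat.eq_zero_or_pos (cardFactors x) with h0 | h0
    · rw [h0] at hω
      rw [Nat.le_zero.1 hω, zero_mul]
      exact Nat.zero_le _
    · obtain ⟨n, hn⟩ : ∃ n, cardFactors x = n + 1 := ⟨cardFactors x - 1, by omega⟩
      rw [hn] at hω ⊢
      rw [Nat.succ_descFactorial_succ, Nat.add_sub_cancel]
      exact Nat.mul_le_mul_right _ hω

end Pool.Agent.J4.H33.CS
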